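import Pool.Agent.Lib.MP_f52c03_co.BL.MainV

set_option autoImplicit false

namespace Pool.Agent.Lib.MP_f52c03_co.BL

theorem FF_memV {V : Type} [Fintype V] (N : ℕ) (G : SimpleGraph V) (hc : Fintype.card V = N + 3)
    (hS : Sparse G) (hC : G.Connected) (hT : HasTri G) : FF G ∈ QV N (N : ℚ) := by
  have h0 : (0 : ℚ) ≤ (mm G : ℚ) := by positivity
  have h1 := main_V N V G hc hS hC hT
  have h2 : BB N (mm G) ∈ QV N ((N : ℚ) + (mm G : ℚ)) := QV_BB N (mm G) (mm_le N G hc hC hT)
  have h3 := AddSubmonoid.add_mem _ h1 h2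
  rw [sub_add_cancel] at h3
  exact QV_mono le_rfl (by linarith) h3

theorem lower_V {V : Type} [Fintype V] (N : ℕ) (G : SimpleGraph V) (hc : Fintype.card V = N + 3)
    (hS : Sparse G) (hC : G.Connected) (hT : HasTri G) :
    FF G - (1 + PowerSeries.X) ^ N ∈ QV N (N : ℚ) := by
  rcases Nat.eq_zero_or_pos N with rfl | hN
  · rw [FF_three G hT hc, pow_zero, sub_self]
    exact AddSubmonoid.zero_mem _
  · have h0 : (0 : ℚ) ≤ (mm G : ℚ) := by positivity
    have h1 := QV_mono le_rfl (show (N : ℚ) ≤ (N : ℚ) + (mm G : ℚ) by linarith)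
      (main_V N V G hc hS hC hT)
    have h3 := AddSubmonoid.add_mem _ h1 (QV_BB_sub N (mm G) (mm_le N G hc hC hT))
    rwa [sub_add_sub_cancel] at h3

theorem TTV_connected {V : Type} {G : SimpleGraph V} {A : Set V} (h : TT G A) :
    (G.induce A).Connected := by
  induction h with
  | base a b c hab hbc hac =>
    have h1 : (G.induce ({a} ∪ {b, c} : Set V)).Connected :=
      SimpleGraph.connected_induce_union (v := a) (w := b)
        (SimpleGraph.Connected.preconnected (by
          have := SimpleGraph.induce_pair_connected_of_adj hab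
          constructor
          intro x y
          have hx : x = ⟨a, rfl⟩ := Subtype.ext x.2
          have hy : y = ⟨a, rfl⟩ := Subtype.ext y.2
          rw [hx, hy]))
        (SimpleGraph.induce_pair_connected_of_adj hbc).preconnected rfl (Or.inl rfl) hab
    exact h1
  | step A x p q hA hx hp hq hpq hxp hxq ih =>
    have h1 : (G.induce ({x, p} ∪ A : Set V)).Connected :=
      SimpleGraph.induce_union_connected
        (SimpleGraph.induce_pair_connected_of_adj hxp).preconnected ih.preconnected
        ⟨p, Or.inr rfl, hp⟩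
    have h2 : ({x, p} ∪ A : Set V) = insert x A := by
      ext y
      simp only [Set.mem_union, Set.mem_insert_iff, Set.mem_singleton_iff]
      constructor
      · rintro ((h | h) | h)
        · exact Or.inl h
        · exact Or.inr (h ▸ hp)
        · exact Or.inr h
      · rintro (h | h)
        · exact Or.inl (Or.inl h)
        · exact Or.inr h
    rwa [h2] at h1

private theorem TT_tri {V : Type} {G : SimpleGraph V} {A : Set V} (h : TT G A) :
    HasTri (G.induce A) := by
  induction h with
  | base a b c hab hbc hac =>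
    exact ⟨⟨a, Or.inl rfl⟩, ⟨b, Or.inr (Or.inl rfl)⟩, ⟨c, Or.inr (Or.inr rfl)⟩, hab, hbc, hac⟩
  | step A x p q hA hx hp hq hpq hxp hxq ih =>
    obtain ⟨a, b, c, h1, h2, h3⟩ := ih
    exact ⟨⟨a.1, Or.inr a.2⟩, ⟨b.1, Or.inr b.2⟩, ⟨c.1, Or.inr c.2⟩, h1, h2, h3⟩

private theorem two_mem : (1 + 2 * PowerSeries.X : PowerSeries ℚ) ∈ QV 1 2 := by
  have h := QV_linear 2 (by norm_num) (by norm_num)
  rwa [map_ofNat] at h

private theorem cone_upper_V {V : Type} [Fintype V] (k : ℕ) (H : SimpleGraph V) (S : Set V)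
    (hc : Fintype.card V = k + 3) (hS : Sparse (cone H S)) (hC : H.Connected) (hT : HasTri H)
    (p q : V) (hp : p ∈ S) (hq : q ∈ S) (hpq : H.Adj p q)
    (hH : (1 + 2 * PowerSeries.X) ^ k - FF H ∈ QV k (k : ℚ)) :
    (1 + 2 * PowerSeries.X) ^ (k + 1) - FF (cone H S) ∈ QV (k + 1) (((k + 1 : ℕ) : ℚ)) := by
  have hstep : ∀ T : Set V, T ⊆ S → (1 + 2 * PowerSeries.X) * FF H - FF (cone H ({p, q} ∪ T)) ∈
      QV (k + 1) (((k + 1 : ℕ) : ℚ)) := by
    intro T hTS
    refine Set.Finite.induction_on_subset (motive := fun T _ =>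
      (1 + 2 * PowerSeries.X) * FF H - FF (cone H ({p, q} ∪ T)) ∈
      QV (k + 1) (((k + 1 : ℕ) : ℚ))) T (Set.toFinite T) ?_ ?_
    · rw [Set.union_empty, FF_cone_pair H hT p q hpq, sub_self]
      exact AddSubmonoid.zero_mem _
    · intro u T' hu hT' huT' ih
      by_cases hmem : u ∈ ({p, q} ∪ T' : Set V)
      · have : ({p, q} ∪ insert u T' : Set V) = {p, q} ∪ T' := by
          rw [Set.union_insert, Set.insert_eq_of_mem hmem]
        rw [this]
        exact ih
      · have h1 := FF_cone_insert H hT ({p, q} ∪ T') u hmem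
        have hsub : ({p, q} ∪ T' : Set V) ⊆ S := by
          rintro y (hy | hy)
          · rcases hy with rfl | hy
            · exact hp
            · rw [Set.mem_singleton_iff.mp hy]
              exact hq
          · exact hTS (hT' hy)
        have h2 : FF (addStar H u ({p, q} ∪ T')) ∈ QV k (k : ℚ) :=
          FF_memV k _ hc (hS.minor (minor_addStar H S _ u (hTS hu) hsub))
            (addStar_connected H hC u _) (hT.addStar u _)
        have h3 := QV_X_pow 1 h2
        have h4 : PowerSeries.X ^ 1 * FF (addStar H u ({p, q} ∪ T')) ∈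
            QV (k + 1) (((k + 1 : ℕ) : ℚ)) := by
          refine QV_mono (Nat.le_succ k) ?_ h3
          push_cast
          linarith
        have h5 := AddSubmonoid.add_mem _ ih h4
        rw [Set.union_insert]
        refine (congrArg (· ∈ QV (k + 1) (((k + 1 : ℕ) : ℚ))) ?_).mp h5
        rw [h1, pow_one]
        ring
  have h1 := hstep S subset_rfl
  have h2 : ({p, q} ∪ S : Set V) = S := by
    rw [Set.union_eq_right]
    rintro y hy
    rcases hy with rfl | hy
    · exact hp
    · rw [Set.mem_singleton_iff.mp hy]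
      exact hq
  rw [h2] at h1
  have h3 := QV_mul two_mem hH
  have h4 : (1 + 2 * PowerSeries.X) * ((1 + 2 * PowerSeries.X) ^ k - FF H) ∈
      QV (k + 1) (((k + 1 : ℕ) : ℚ)) := by
    refine QV_mono (by omega) ?_ h3
    push_cast
    linarith
  have h5 := AddSubmonoid.add_mem _ h4 h1
  refine (congrArg (· ∈ QV (k + 1) (((k + 1 : ℕ) : ℚ))) ?_).mp h5
  rw [pow_succ]
  ring

private theorem upper_aux {V : Type} [Fintype V] (G : SimpleGraph V) (hS : Sparse G) {A : Set V}
    (h : TT G A) : ∃ m : ℕ, A.ncard = m + 3 ∧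
      (1 + 2 * PowerSeries.X) ^ m - FF (G.induce A) ∈ QV m (m : ℚ) := by
  classical
  induction h with
  | base a b c hab hbc hac =>
    have hcard : ({a, b, c} : Set V).ncard = 3 := by
      rw [Set.ncard_eq_three]
      exact ⟨a, b, c, hab.ne, hac.ne, hbc.ne, rfl⟩
    refine ⟨0, hcard, ?_⟩
    have h1 : FF (G.induce {a, b, c}) = 1 := by
      refine FF_three _ (TT_tri (TT.base a b c hab hbc hac)) ?_
      rw [← Nat.card_eq_fintype_card]
      exact hcard
    rw [h1, pow_zero, sub_self]
    exact AddSubmonoid.zero_mem _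
  | step A x p q hA hx hp hq hpq hxp hxq ih =>
    obtain ⟨k, hk, hkm⟩ := ih
    refine ⟨k + 1, by rw [Set.ncard_insert_of_notMem hx, hk], ?_⟩
    set G' := G.induce (insert x A) with hG'
    set v : (insert x A : Set V) := ⟨x, Or.inl rfl⟩ with hv
    obtain ⟨e⟩ := cone_iso G' v
    -- the graph without `x`
    have φ : G.induce A ≃g del G' v :=
      { toEquiv :=
        { toFun := fun a => ⟨⟨a.1, Or.inr a.2⟩, fun h => hx (by
            have h1 : a.1 = x := congrArg Subtype.val h
            rw [← h1]
            exact a.2)⟩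
          invFun := fun z => ⟨z.1.1, by
            rcases z.1.2 with h | h
            · exact absurd (Subtype.ext h) z.2
            · exact h⟩
          left_inv := fun a => rfl
          right_inv := fun z => rfl }
        map_rel_iff' := Iff.rfl }
    set S : Set {z : (insert x A : Set V) // z ≠ v} := {z | G'.Adj v z.1} with hSd
    have hTA := TT_tri hA
    have hT : HasTri (del G' v) := hTA.iso φ
    have hC : (del G' v).Connected := connected_iso φ (TTV_connected hA)
    have hcard : Fintype.card {z : (insert x A : Set V) // z ≠ v} = k + 3 := by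
      rw [← hk, ← Nat.card_coe_set_eq, Nat.card_eq_fintype_card]
      exact (Fintype.card_congr φ.toEquiv).symm
    have hFF : FF (G.induce A) = FF (del G' v) := FF_iso φ hTA
    have hSc : Sparse (cone (del G' v) S) :=
      (hS.minor (IsMinor.induce G (insert x A))).minor (IsMinor.of_iso e)
    have h1 := cone_upper_V k (del G' v) S hcard hSc hC hT
      ⟨⟨p, Or.inr hp⟩, fun h => hxp.ne (congrArg Subtype.val h).symm⟩
      ⟨⟨q, Or.inr hq⟩, fun h => hxq.ne (congrArg Subtype.val h).symm⟩ hxp hxq hpq
      (by rw [← hFF]; exact hkm)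
    have h2 : FF (cone (del G' v) S) = FF G' := FF_iso e (HasTri.cone hT S)
    rw [h2] at h1
    exact h1

theorem upper_V {V : Type} [Fintype V] (N : ℕ) (G : SimpleGraph V) (hc : Fintype.card V = N + 3)
    (hS : Sparse G) (hT : TT G Set.univ) :
    (1 + 2 * PowerSeries.X) ^ N - FF G ∈ QV N (N : ℚ) := by
  obtain ⟨m, hm, h⟩ := upper_aux G hS hT
  rw [Set.ncard_univ, Nat.card_eq_fintype_card, hc] at hm
  have hNm : N = m := by omega
  subst hNm
  have h1 : FF (G.induce Set.univ) = FF G := FF_iso (SimpleGraph.induceUnivIso G) (TT_tri hT)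
  rwa [h1] at h

end Pool.Agent.Lib.MP_f52c03_co.BL
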