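import Pool.Agent.Lib.MP_f52c03_co.BL.Exact

set_option autoImplicit false

namespace Pool.Agent.Lib.MP_f52c03_co.BL

private theorem cq_triple_inj {k : ℕ} {p q r : Fin k} (h1 : p ≠ q) (h2 : q ≠ r) (h3 : p ≠ r) :
    Function.Injective (![p, q, r] : Fin 3 → Fin k) := by
  intro i j h
  fin_cases i <;> fin_cases j <;> simp at h ⊢
  · exact h1 h
  · exact h3 h
  · exact h1 h.symm
  · exact h2 h
  · exact h3 h.symm
  · exact h2 h.symm

private theorem cq_col {V : Type} [Fintype V] (G : SimpleGraph V) (A B : Set V) (a b c : V)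
    (hab : G.Adj a b) (hbc : G.Adj b c) (hac : G.Adj a c) (hU : A ∪ B = Set.univ)
    (hI : A ∩ B = {a, b, c})
    (hE : ∀ x y, x ∈ A → x ∉ B → y ∈ B → y ∉ A → ¬ G.Adj x y) (k : ℕ) :
    col G k * k.descFactorial 3 = col (G.induce A) k * col (G.induce B) k := by
  classical
  have ha : a ∈ A ∩ B := by rw [hI]; simp
  have hb : b ∈ A ∩ B := by rw [hI]; simp
  have hc : c ∈ A ∩ B := by rw [hI]; simp
  have hcase : ∀ x, x ∈ A → x ∈ B → x = a ∨ x = b ∨ x = c := by
    intro x h1 h2
    have : x ∈ A ∩ B := ⟨h1, h2⟩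
    rw [hI] at this
    simpa using this
  have hnA : ∀ x, x ∉ A → x ∈ B := by
    intro x hx
    have : x ∈ A ∪ B := by rw [hU]; trivial
    exact this.resolve_left hx
  have hperm : ∀ t t' : Fin 3 ↪ Fin k, ∃ π : Equiv.Perm (Fin k), ∀ i, π (t i) = t' i :=
    fun t t' => Equiv.Perm.exists_extending_pair t t' t.injective t'.injective
  choose π hπ using hperm
  -- the triple of a colouring
  let tG : {f : V → Fin k // ∀ x y, G.Adj x y → f x ≠ f y} → (Fin 3 ↪ Fin k) := fun f =>
    ⟨![f.1 a, f.1 b, f.1 c], cq_triple_inj (f.2 _ _ hab) (f.2 _ _ hbc) (f.2 _ _ hac)⟩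
  let tA : {f : A → Fin k // ∀ x y, (G.induce A).Adj x y → f x ≠ f y} → (Fin 3 ↪ Fin k) :=
    fun f => ⟨![f.1 ⟨a, ha.1⟩, f.1 ⟨b, hb.1⟩, f.1 ⟨c, hc.1⟩],
      cq_triple_inj (f.2 _ _ hab) (f.2 _ _ hbc) (f.2 _ _ hac)⟩
  let tB : {f : B → Fin k // ∀ x y, (G.induce B).Adj x y → f x ≠ f y} → (Fin 3 ↪ Fin k) :=
    fun f => ⟨![f.1 ⟨a, ha.2⟩, f.1 ⟨b, hb.2⟩, f.1 ⟨c, hc.2⟩],
      cq_triple_inj (f.2 _ _ hab) (f.2 _ _ hbc) (f.2 _ _ hac)⟩
  have hcard : Nat.card (Fin 3 ↪ Fin k) = k.descFactorial 3 := by
    rw [Nat.card_eq_fintype_card, Fintype.card_embedding_eq, Fintype.card_fin, Fintype.card_fin]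
  unfold col
  rw [← hcard, ← Nat.card_prod, ← Nat.card_prod]
  -- value of the glued colouring on B
  have hglue : ∀ (fA : {f : A → Fin k // ∀ x y, (G.induce A).Adj x y → f x ≠ f y})
      (fB : {f : B → Fin k // ∀ x y, (G.induce B).Adj x y → f x ≠ f y}) (x : V) (h1 : x ∈ A)
      (h2 : x ∈ B), fA.1 ⟨x, h1⟩ = π (tB fB) (tA fA) (fB.1 ⟨x, h2⟩) := by
    intro fA fB x h1 h2
    rcases hcase x h1 h2 with rfl | rfl | rfl
    · exact (hπ (tB fB) (tA fA) 0).symm
    · exact (hπ (tB fB) (tA fA) 1).symm
    · exact (hπ (tB fB) (tA fA) 2).symm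
  let glue : ∀ (fA : {f : A → Fin k // ∀ x y, (G.induce A).Adj x y → f x ≠ f y})
      (fB : {f : B → Fin k // ∀ x y, (G.induce B).Adj x y → f x ≠ f y}), V → Fin k :=
    fun fA fB x => if h : x ∈ A then fA.1 ⟨x, h⟩ else π (tB fB) (tA fA) (fB.1 ⟨x, hnA x h⟩)
  have glueA : ∀ fA fB x (h : x ∈ A), glue fA fB x = fA.1 ⟨x, h⟩ := by
    intro fA fB x h
    simp only [glue, dif_pos h]
  have glueB : ∀ fA fB x (h : x ∈ B), glue fA fB x = π (tB fB) (tA fA) (fB.1 ⟨x, h⟩) := by
    intro fA fB x h
    by_cases hx : x ∈ A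
    · rw [glueA fA fB x hx, hglue fA fB x hx h]
    · simp only [glue, dif_neg hx]
  have gprop : ∀ fA fB x y, G.Adj x y → glue fA fB x ≠ glue fA fB y := by
    intro fA fB x y hxy
    by_cases hx : x ∈ A
    · by_cases hy : y ∈ A
      · rw [glueA fA fB x hx, glueA fA fB y hy]
        exact fA.2 ⟨x, hx⟩ ⟨y, hy⟩ hxy
      · have hyB := hnA y hy
        by_cases hxB : x ∈ B
        · rw [glueB fA fB x hxB, glueB fA fB y hyB]
          exact fun h => fB.2 ⟨x, hxB⟩ ⟨y, hyB⟩ hxy ((π (tB fB) (tA fA)).injective h)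
        · exact absurd hxy (hE x y hx hxB hyB hy)
    · have hxB := hnA x hx
      by_cases hyB : y ∈ B
      · rw [glueB fA fB x hxB, glueB fA fB y hyB]
        exact fun h => fB.2 ⟨x, hxB⟩ ⟨y, hyB⟩ hxy ((π (tB fB) (tA fA)).injective h)
      · have hy : y ∈ A := by
          have : y ∈ A ∪ B := by rw [hU]; trivial
          exact this.resolve_right hyB
        exact absurd hxy.symm (hE y x hy hyB hxB hx)
  have tG_glue : ∀ fA fB, tG ⟨glue fA fB, gprop fA fB⟩ = tA fA := by
    intro fA fB
    apply DFunLike.ext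
    intro i
    fin_cases i
    · exact glueA fA fB a ha.1
    · exact glueA fA fB b hb.1
    · exact glueA fA fB c hc.1
  symm
  refine Nat.card_congr
    { toFun := fun p => (⟨glue p.1 p.2, gprop p.1 p.2⟩, tB p.2)
      invFun := fun p => (⟨fun x => p.1.1 x.1, fun x y h => p.1.2 _ _ h⟩,
        ⟨fun x => (π p.2 (tG p.1)).symm (p.1.1 x.1), fun x y h h' =>
          p.1.2 _ _ h ((π p.2 (tG p.1)).symm.injective h')⟩)
      left_inv := ?_
      right_inv := ?_ }
  · rintro ⟨fA, fB⟩
    apply Prod.ext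
    · apply Subtype.ext
      funext x
      exact glueA fA fB x.1 x.2
    · apply Subtype.ext
      funext x
      show (π (tB fB) (tG ⟨glue fA fB, gprop fA fB⟩)).symm (glue fA fB x.1) = fB.1 x
      rw [tG_glue, glueB fA fB x.1 x.2, Equiv.symm_apply_apply]
  · rintro ⟨f, t⟩
    set fA : {f : A → Fin k // ∀ x y, (G.induce A).Adj x y → f x ≠ f y} :=
      ⟨fun x => f.1 x.1, fun x y h => f.2 _ _ h⟩ with hfA
    set fB : {f : B → Fin k // ∀ x y, (G.induce B).Adj x y → f x ≠ f y} :=
      ⟨fun x => (π t (tG f)).symm (f.1 x.1), fun x y h h' =>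
          f.2 _ _ h ((π t (tG f)).symm.injective h')⟩ with hfB
    have h1 : tA fA = tG f := rfl
    have h2 : tB fB = t := by
      apply DFunLike.ext
      intro i
      have h3 : (π t (tG f)).symm (tG f i) = t i := by
        rw [Equiv.symm_apply_eq]
        exact (hπ t (tG f) i).symm
      rw [← h3]
      fin_cases i <;> rfl
    apply Prod.ext
    · apply Subtype.ext
      funext x
      show glue fA fB x = f.1 x
      by_cases hx : x ∈ A
      · rw [glueA fA fB x hx]
      · rw [glueB fA fB x (hnA x hx), h1, h2]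
        show π t (tG f) ((π t (tG f)).symm (f.1 x)) = f.1 x
        rw [Equiv.apply_symm_apply]
    · exact h2

private theorem cq_tri {V : Type} (G : SimpleGraph V) (A : Set V) (a b c : V)
    (hab : G.Adj a b) (hbc : G.Adj b c) (hac : G.Adj a c) (ha : a ∈ A) (hb : b ∈ A) (hc : c ∈ A) :
    HasTri (G.induce A) :=
  ⟨⟨a, ha⟩, ⟨b, hb⟩, ⟨c, hc⟩, hab, hbc, hac⟩

/-- gluing along a triangle -/
theorem R_clique {V : Type} [Fintype V] (G : SimpleGraph V) (A B : Set V) (a b c : V)
    (hab : G.Adj a b) (hbc : G.Adj b c) (hac : G.Adj a c) (hU : A ∪ B = Set.univ)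
    (hI : A ∩ B = {a, b, c})
    (hE : ∀ x y, x ∈ A → x ∉ B → y ∈ B → y ∉ A → ¬ G.Adj x y) :
    R G = R (G.induce A) * R (G.induce B) := by
  classical
  have ha : a ∈ A ∩ B := by rw [hI]; simp
  have hb : b ∈ A ∩ B := by rw [hI]; simp
  have hc : c ∈ A ∩ B := by rw [hI]; simp
  have hG : IsR G (R G) := isR_R G ⟨a, b, c, hab, hbc, hac⟩
  have hA : IsR (G.induce A) (R (G.induce A)) :=
    isR_R _ (cq_tri G A a b c hab hbc hac ha.1 hb.1 hc.1)
  have hB : IsR (G.induce B) (R (G.induce B)) :=
    isR_R _ (cq_tri G B a b c hab hbc hac ha.2 hb.2 hc.2)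
  apply Polynomial.eq_of_infinite_eval_eq
  have hinf : (Set.range (fun k : ℕ => ((k + 3 : ℕ) : ℚ))).Infinite := by
    apply Set.infinite_range_of_injective
    intro x y h
    simp only [Nat.cast_inj] at h
    omega
  refine hinf.mono ?_
  rintro _ ⟨k, rfl⟩
  show Polynomial.eval _ _ = Polynomial.eval _ _
  have h1 := cq_col G A B a b c hab hbc hac hU hI hE (k + 3)
  have h2 : ((col G (k + 3) * (k + 3).descFactorial 3 : ℕ) : ℚ) =
      ((col (G.induce A) (k + 3) * col (G.induce B) (k + 3) : ℕ) : ℚ) := by rw [h1]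
  rw [Nat.cast_mul, Nat.cast_mul, hG, hA, hB] at h2
  have h3 : (((k + 3).descFactorial 3 : ℕ) : ℚ) =
      ((k + 3 : ℕ) : ℚ) * (((k + 3 : ℕ) : ℚ) - 1) * (((k + 3 : ℕ) : ℚ) - 2) := by
    rw [Nat.descFactorial_succ, Nat.descFactorial_succ, Nat.descFactorial_succ,
      Nat.descFactorial_zero]
    have e1 : k + 3 - 0 = k + 3 := rfl
    have e2 : k + 3 - 1 = k + 2 := rfl
    have e3 : k + 3 - 2 = k + 1 := rfl
    rw [e1, e2, e3]
    push_cast
    ring
  rw [h3] at h2
  have hk : (0 : ℚ) ≤ k := Nat.cast_nonneg k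
  have h4 : ((k + 3 : ℕ) : ℚ) * (((k + 3 : ℕ) : ℚ) - 1) * (((k + 3 : ℕ) : ℚ) - 2) ≠ 0 := by
    push_cast
    have e1 : (k : ℚ) + 3 ≠ 0 := by linarith
    have e2 : (k : ℚ) + 3 - 1 ≠ 0 := by
      have : (0 : ℚ) < (k : ℚ) + 3 - 1 := by linarith
      exact this.ne'
    have e3 : (k : ℚ) + 3 - 2 ≠ 0 := by
      have : (0 : ℚ) < (k : ℚ) + 3 - 2 := by linarith
      exact this.ne'
    exact mul_ne_zero (mul_ne_zero e1 e2) e3
  rw [Polynomial.eval_mul]
  apply mul_left_cancel₀ (mul_ne_zero h4 h4)
  linear_combination h2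

theorem ne_clique {V : Type} [Fintype V] (G : SimpleGraph V) (A B : Set V) (a b c : V)
    (hab : G.Adj a b) (hbc : G.Adj b c) (hac : G.Adj a c) (hU : A ∪ B = Set.univ)
    (hI : A ∩ B = {a, b, c})
    (hE : ∀ x y, x ∈ A → x ∉ B → y ∈ B → y ∉ A → ¬ G.Adj x y) :
    ne G + 3 = ne (G.induce A) + ne (G.induce B) ∧ Nat.card V + 3 = A.ncard + B.ncard := by
  classical
  have h3 : ({a, b, c} : Set V).ncard = 3 := by
    rw [Set.ncard_eq_three]
    exact ⟨a, b, c, hab.ne, hac.ne, hbc.ne, rfl⟩
  have hind : ∀ S : Set V, ne (G.induce S) = {e | e ∈ G.edgeSet ∧ ∀ x ∈ e, x ∈ S}.ncard := by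
    intro S
    unfold ne
    rw [Nat.card_coe_set_eq, ← Set.ncard_image_of_injective (G.induce S).edgeSet
      (Sym2.map.injective (Subtype.val_injective (p := fun x => x ∈ S)))]
    congr 1
    ext e
    induction e using Sym2.inductionOn with
    | _ x y =>
      constructor
      · rintro ⟨e', he', hee⟩
        induction e' using Sym2.inductionOn with
        | _ x' y' =>
          rw [Sym2.map_mk] at hee
          have hadj : G.Adj x'.1 y'.1 := he'
          rw [← hee]
          refine ⟨hadj, ?_⟩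
          intro z hz
          rw [Sym2.mem_iff] at hz
          rcases hz with rfl | rfl
          · exact x'.2
          · exact y'.2
      · rintro ⟨h1, h2⟩
        have hx := h2 x (Sym2.mem_mk_left x y)
        have hy := h2 y (Sym2.mem_mk_right x y)
        exact ⟨s(⟨x, hx⟩, ⟨y, hy⟩), h1, rfl⟩
  refine ⟨?_, ?_⟩
  · rw [hind A, hind B, ← Set.ncard_union_add_ncard_inter]
    congr 1
    · unfold ne
      rw [Nat.card_coe_set_eq]
      congr 1
      ext e
      constructor
      · intro he
        induction e using Sym2.inductionOn with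
        | _ x y =>
          have hxy : G.Adj x y := he
          by_cases hx : x ∈ A
          · by_cases hy : y ∈ A
            · left
              refine ⟨he, ?_⟩
              intro z hz
              rw [Sym2.mem_iff] at hz
              rcases hz with rfl | rfl <;> assumption
            · have hyB : y ∈ B := by
                have : y ∈ A ∪ B := by rw [hU]; trivial
                exact this.resolve_left hy
              have hxB : x ∈ B := by
                by_contra hxB
                exact hE x y hx hxB hyB hy hxy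
              right
              refine ⟨he, ?_⟩
              intro z hz
              rw [Sym2.mem_iff] at hz
              rcases hz with rfl | rfl <;> assumption
          · have hxB : x ∈ B := by
              have : x ∈ A ∪ B := by rw [hU]; trivial
              exact this.resolve_left hx
            have hyB : y ∈ B := by
              by_contra hyB
              have hy : y ∈ A := by
                have : y ∈ A ∪ B := by rw [hU]; trivial
                exact this.resolve_right hyB
              exact hE y x hy hyB hxB hx hxy.symm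
            right
            refine ⟨he, ?_⟩
            intro z hz
            rw [Sym2.mem_iff] at hz
            rcases hz with rfl | rfl <;> assumption
      · rintro (h | h)
        · exact h.1
        · exact h.1
    · have hset : {e | e ∈ G.edgeSet ∧ ∀ x ∈ e, x ∈ A} ∩ {e | e ∈ G.edgeSet ∧ ∀ x ∈ e, x ∈ B} =
          ({s(a, b), s(a, c), s(b, c)} : Set (Sym2 V)) := by
        ext e
        constructor
        · rintro ⟨⟨h1, h2⟩, ⟨_, h4⟩⟩
          induction e using Sym2.inductionOn with
          | _ x y =>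
            have hxy : G.Adj x y := h1
            have hx : x ∈ ({a, b, c} : Set V) := by
              rw [← hI]; exact ⟨h2 x (Sym2.mem_mk_left x y), h4 x (Sym2.mem_mk_left x y)⟩
            have hy : y ∈ ({a, b, c} : Set V) := by
              rw [← hI]; exact ⟨h2 y (Sym2.mem_mk_right x y), h4 y (Sym2.mem_mk_right x y)⟩
            rcases hx with rfl | rfl | rfl <;> rcases hy with rfl | rfl | rfl
            · exact absurd hxy (G.loopless.irrefl _)
            · simp
            · simp
            · rw [Sym2.eq_swap]; simp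
            · exact absurd hxy (G.loopless.irrefl _)
            · simp
            · rw [Sym2.eq_swap]; simp
            · rw [Sym2.eq_swap]; simp
            · exact absurd hxy (G.loopless.irrefl _)
        · have ha : a ∈ A ∩ B := by rw [hI]; simp
          have hb : b ∈ A ∩ B := by rw [hI]; simp
          have hc : c ∈ A ∩ B := by rw [hI]; simp
          have key : ∀ x y, G.Adj x y → x ∈ A ∩ B → y ∈ A ∩ B →
              s(x, y) ∈ {e | e ∈ G.edgeSet ∧ ∀ x ∈ e, x ∈ A} ∩
                {e | e ∈ G.edgeSet ∧ ∀ x ∈ e, x ∈ B} := by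
            intro x y hxy hx hy
            refine ⟨⟨hxy, ?_⟩, ⟨hxy, ?_⟩⟩
            · intro z hz
              rw [Sym2.mem_iff] at hz
              rcases hz with rfl | rfl
              · exact hx.1
              · exact hy.1
            · intro z hz
              rw [Sym2.mem_iff] at hz
              rcases hz with rfl | rfl
              · exact hx.2
              · exact hy.2
          rintro (rfl | rfl | rfl)
          · exact key a b hab ha hb
          · exact key a c hac ha hc
          · exact key b c hbc hb hc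
      rw [hset]
      symm
      rw [Set.ncard_eq_three]
      refine ⟨s(a, b), s(a, c), s(b, c), ?_, ?_, ?_, rfl⟩
      · intro h
        rw [Sym2.eq_iff] at h
        rcases h with ⟨_, h⟩ | ⟨h, _⟩
        · exact hbc.ne h
        · exact hac.ne h
      · intro h
        rw [Sym2.eq_iff] at h
        rcases h with ⟨h, _⟩ | ⟨h, _⟩
        · exact hab.ne h
        · exact hac.ne h
      · intro h
        rw [Sym2.eq_iff] at h
        rcases h with ⟨h, _⟩ | ⟨h, _⟩
        · exact hab.ne h
        · exact hac.ne h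
  · rw [← Set.ncard_union_add_ncard_inter, hU, hI, h3, Set.ncard_univ]

theorem FF_clique {V : Type} [Fintype V] (G : SimpleGraph V) (A B : Set V) (a b c : V)
    (hab : G.Adj a b) (hbc : G.Adj b c) (hac : G.Adj a c) (hU : A ∪ B = Set.univ)
    (hI : A ∩ B = {a, b, c})
    (hE : ∀ x y, x ∈ A → x ∉ B → y ∈ B → y ∉ A → ¬ G.Adj x y) :
    FF G = FF (G.induce A) * FF (G.induce B) := by
  classical
  have ha : a ∈ A ∩ B := by rw [hI]; simp
  have hb : b ∈ A ∩ B := by rw [hI]; simp
  have hc : c ∈ A ∩ B := by rw [hI]; simp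
  have h1 := R_clique G A B a b c hab hbc hac hU hI hE
  have h2 := (ne_clique G A B a b c hab hbc hac hU hI hE).2
  have h3 : 3 ≤ ({a, b, c} : Set V).ncard := by
    have : ({a, b, c} : Set V).ncard = 3 := by
      rw [Set.ncard_eq_three]
      exact ⟨a, b, c, hab.ne, hac.ne, hbc.ne, rfl⟩
    omega
  have hsubA : ({a, b, c} : Set V).ncard ≤ A.ncard := by
    apply Set.ncard_le_ncard _ (Set.toFinite _)
    rw [← hI]; exact Set.inter_subset_left
  have hsubB : ({a, b, c} : Set V).ncard ≤ B.ncard := by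
    apply Set.ncard_le_ncard _ (Set.toFinite _)
    rw [← hI]; exact Set.inter_subset_right
  have hdeg : ∀ {W : Type} [Fintype W] (F : SimpleGraph W), HasTri F →
      ((R F).comp (Polynomial.X + 4)).natDegree ≤ Nat.card W - 3 := by
    intro W _ F hF
    refine Polynomial.natDegree_comp_le.trans ?_
    have e : (Polynomial.X + 4 : Polynomial ℚ).natDegree ≤ 1 := by
      refine (Polynomial.natDegree_add_le _ _).trans ?_
      rw [Polynomial.natDegree_X]
      have : (4 : Polynomial ℚ).natDegree = 0 := Polynomial.natDegree_ofNat 4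
      rw [this]
      simp
    calc (R F).natDegree * (Polynomial.X + 4 : Polynomial ℚ).natDegree
        ≤ (R F).natDegree * 1 := Nat.mul_le_mul_left _ e
      _ = (R F).natDegree := mul_one _
      _ ≤ _ := natDegree_R F hF
  have hA := hdeg (G.induce A) (cq_tri G A a b c hab hbc hac ha.1 hb.1 hc.1)
  have hB := hdeg (G.induce B) (cq_tri G B a b c hab hbc hac ha.2 hb.2 hc.2)
  have hN : Nat.card V - 3 = (Nat.card A - 3) + (Nat.card B - 3) := by
    rw [Nat.card_coe_set_eq, Nat.card_coe_set_eq]
    omega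
  unfold FF
  rw [h1, Polynomial.mul_comp, hN, Polynomial.reflect_mul _ _ hA hB, Polynomial.coe_mul]

end Pool.Agent.Lib.MP_f52c03_co.BL
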