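import Pool.Agent.Lib.MP_f52c03_co.BL.Defs

set_option autoImplicit false

open Polynomial

namespace Pool.Agent.Lib.MP_f52c03_co.BL

theorem col_iso {V W : Type} {G : SimpleGraph V} {H : SimpleGraph W} (e : H ≃g G) (k : ℕ) :
    col H k = col G k := by
  unfold col
  refine Nat.card_congr ?_
  refine
    { toFun := fun c => ⟨fun v => c.1 (e.symm v), fun a b hab => c.2 _ _ ?_⟩
      invFun := fun c => ⟨fun w => c.1 (e w), fun a b hab => c.2 _ _ ?_⟩
      left_inv := ?_
      right_inv := ?_ }
  · exact e.symm.map_rel_iff.2 hab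
  · exact e.map_rel_iff.2 hab
  · intro c
    ext w
    simp
  · intro c
    ext w
    simp

private theorem addE_adj {V : Type} (G : SimpleGraph V) (a b x y : V) :
    (addE G a b).Adj x y ↔ x ≠ y ∧ (G.Adj x y ∨ (x = a ∧ y = b) ∨ (y = a ∧ x = b)) := by
  unfold addE
  rw [SimpleGraph.fromRel_adj]
  constructor
  · rintro ⟨h1, (h | h) | (h | h)⟩
    · exact ⟨h1, Or.inl h⟩
    · exact ⟨h1, Or.inr (Or.inl h)⟩
    · exact ⟨h1, Or.inl h.symm⟩
    · exact ⟨h1, Or.inr (Or.inr h)⟩
  · rintro ⟨h1, h | h | h⟩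
    · exact ⟨h1, Or.inl (Or.inl h)⟩
    · exact ⟨h1, Or.inl (Or.inr h)⟩
    · exact ⟨h1, Or.inr (Or.inr h)⟩

private theorem addStar_adj {V : Type} (H : SimpleGraph V) (u : V) (T : Set V) (x y : V) :
    (addStar H u T).Adj x y ↔ x ≠ y ∧ (H.Adj x y ∨ (x = u ∧ y ∈ T) ∨ (y = u ∧ x ∈ T)) := by
  unfold addStar
  rw [SimpleGraph.fromRel_adj]
  constructor
  · rintro ⟨h1, (h | h) | (h | h)⟩
    · exact ⟨h1, Or.inl h⟩
    · exact ⟨h1, Or.inr (Or.inl h)⟩
    · exact ⟨h1, Or.inl h.symm⟩
    · exact ⟨h1, Or.inr (Or.inr h)⟩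
  · rintro ⟨h1, h | h | h⟩
    · exact ⟨h1, Or.inl (Or.inl h)⟩
    · exact ⟨h1, Or.inl (Or.inr h)⟩
    · exact ⟨h1, Or.inr (Or.inr h)⟩

private theorem ident_adj {V : Type} (G : SimpleGraph V) (a b : V) (x y : {x : V // x ≠ b}) :
    (ident G a b).Adj x y ↔ x ≠ y ∧ (G.Adj x.1 y.1 ∨ (x.1 = a ∧ G.Adj b y.1) ∨
      (y.1 = a ∧ G.Adj b x.1)) := by
  unfold ident
  rw [SimpleGraph.fromRel_adj]
  constructor
  · rintro ⟨h1, (h | h) | (h | h)⟩
    · exact ⟨h1, Or.inl h⟩
    · exact ⟨h1, Or.inr (Or.inl h)⟩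
    · exact ⟨h1, Or.inl h.symm⟩
    · exact ⟨h1, Or.inr (Or.inr h)⟩
  · rintro ⟨h1, h | h | h⟩
    · exact ⟨h1, Or.inl (Or.inl h)⟩
    · exact ⟨h1, Or.inl (Or.inr h)⟩
    · exact ⟨h1, Or.inr (Or.inr h)⟩

private theorem cone_some_some {V : Type} (H : SimpleGraph V) (S : Set V) (x y : V) :
    (cone H S).Adj (some x) (some y) ↔ H.Adj x y := by
  unfold cone
  rw [SimpleGraph.fromRel_adj]
  constructor
  · rintro ⟨h1, (⟨a, b, ha, hb, h⟩ | ⟨h, _⟩) | (⟨a, b, ha, hb, h⟩ | ⟨h, _⟩)⟩
    · cases ha; cases hb; exact h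
    · cases h
    · cases ha; cases hb; exact h.symm
    · cases h
  · intro h
    refine ⟨?_, Or.inl (Or.inl ⟨x, y, rfl, rfl, h⟩)⟩
    intro h2
    cases h2
    exact H.loopless.irrefl _ h

private theorem cone_none_some {V : Type} (H : SimpleGraph V) (S : Set V) (y : V) :
    (cone H S).Adj none (some y) ↔ y ∈ S := by
  unfold cone
  rw [SimpleGraph.fromRel_adj]
  constructor
  · rintro ⟨h1, (⟨a, b, ha, hb, h⟩ | ⟨_, b, hb, h⟩) | (⟨a, b, ha, hb, h⟩ | ⟨h, _⟩)⟩
    · cases ha
    · cases hb; exact h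
    · cases hb
    · cases h
  · intro h
    exact ⟨by simp, Or.inl (Or.inr ⟨rfl, y, rfl, h⟩)⟩

private theorem card_split {X : Type} [Finite X] (p : X → Prop) :
    Nat.card X = Nat.card {x // p x} + Nat.card {x // ¬ p x} := by
  classical
  rw [← Nat.card_sum]
  exact Nat.card_congr (Equiv.sumCompl p).symm

theorem col_addE {V : Type} [Finite V] (G : SimpleGraph V) (a b : V) (hab : a ≠ b)
    (hn : ¬ G.Adj a b) (k : ℕ) : col G k = col (addE G a b) k + col (ident G a b) k := by
  classical
  unfold col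
  rw [card_split (X := {c : V → Fin k // ∀ x y, G.Adj x y → c x ≠ c y})
    (fun c => c.1 a ≠ c.1 b)]
  congr 1
  · refine Nat.card_congr
      { toFun := fun c => ⟨c.1.1, ?_⟩
        invFun := fun c => ⟨⟨c.1, ?_⟩, ?_⟩
        left_inv := ?_
        right_inv := ?_ }
    · intro x y hxy
      rw [addE_adj] at hxy
      obtain ⟨_, h | ⟨h1, h2⟩ | ⟨h1, h2⟩⟩ := hxy
      · exact c.1.2 x y h
      · rw [h1, h2]; exact c.2
      · rw [h1, h2]; exact fun h => c.2 h.symm
    · intro x y hxy
      exact c.2 x y ((addE_adj G a b x y).2 ⟨hxy.ne, Or.inl hxy⟩)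
    · exact c.2 a b ((addE_adj G a b a b).2 ⟨hab, Or.inr (Or.inl ⟨rfl, rfl⟩)⟩)
    · intro c; rfl
    · intro c; rfl
  · refine Nat.card_congr
      { toFun := fun c => ⟨fun x => c.1.1 x.1, ?_⟩
        invFun := fun c => ⟨⟨fun x => if h : x = b then c.1 ⟨a, hab⟩ else c.1 ⟨x, h⟩, ?_⟩, ?_⟩
        left_inv := ?_
        right_inv := ?_ }
    · intro x y hxy
      have hcab : c.1.1 a = c.1.1 b := not_not.1 c.2
      rw [ident_adj] at hxy
      obtain ⟨_, h | ⟨h1, h2⟩ | ⟨h1, h2⟩⟩ := hxy
      · exact c.1.2 x.1 y.1 h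
      · show c.1.1 x.1 ≠ c.1.1 y.1
        rw [h1, hcab]
        exact c.1.2 b y.1 h2
      · show c.1.1 x.1 ≠ c.1.1 y.1
        rw [h1, hcab]
        exact fun h => c.1.2 b x.1 h2 h.symm
    · intro x y hxy
      by_cases hx : x = b
      · have hy : y ≠ b := by
          rintro rfl
          exact G.loopless.irrefl _ (hx ▸ hxy)
        have hya : a ≠ y := by
          rintro rfl
          exact hn (hx ▸ hxy.symm)
        simp only [hx, hy, dite_true, dite_false]
        refine c.2 _ _ ((ident_adj G a b _ _).2 ⟨?_, Or.inr (Or.inl ⟨rfl, hx ▸ hxy⟩)⟩)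
        intro h
        exact hya (congrArg Subtype.val h)
      · by_cases hy : y = b
        · have hxa : x ≠ a := by
            rintro rfl
            exact hn (hy ▸ hxy)
          simp only [hx, hy, dite_true, dite_false]
          refine c.2 _ _ ((ident_adj G a b _ _).2 ⟨?_, Or.inr (Or.inr ⟨rfl, hy ▸ hxy.symm⟩)⟩)
          intro h
          exact hxa (congrArg Subtype.val h)
        · simp only [hx, hy, dite_false]
          refine c.2 _ _ ((ident_adj G a b _ _).2 ⟨?_, Or.inl hxy⟩)
          intro h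
          exact hxy.ne (congrArg Subtype.val h)
    · simp [hab]
    · intro c
      have hcab : c.1.1 a = c.1.1 b := not_not.1 c.2
      apply Subtype.ext
      apply Subtype.ext
      funext x
      by_cases hx : x = b
      · simp [hx, hcab]
      · simp [hx]
    · intro c
      apply Subtype.ext
      funext x
      simp [x.2]

theorem col_cone_insert {V : Type} [Finite V] (H : SimpleGraph V) (S : Set V) (u : V) (hu : u ∉ S)
    (k : ℕ) : col (cone H S) k = col (cone H (insert u S)) k + col (addStar H u S) k := by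
  classical
  unfold col
  rw [card_split (X := {c : Option V → Fin k // ∀ x y, (cone H S).Adj x y → c x ≠ c y})
    (fun c => c.1 none ≠ c.1 (some u))]
  congr 1
  · refine Nat.card_congr
      { toFun := fun c => ⟨c.1.1, ?_⟩
        invFun := fun c => ⟨⟨c.1, ?_⟩, ?_⟩
        left_inv := ?_
        right_inv := ?_ }
    · rintro (_ | x) (_ | y) hxy
      · exact absurd hxy ((cone H (insert u S)).loopless.irrefl _)
      · rw [cone_none_some] at hxy
        rcases hxy with h | h
        · rw [h]; exact c.2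
        · exact c.1.2 _ _ ((cone_none_some H S y).2 h)
      · have hxy' := (cone_none_some H (insert u S) x).1 hxy.symm
        rcases hxy' with h | h
        · rw [h]; exact fun h => c.2 h.symm
        · exact c.1.2 _ _ ((cone_none_some H S x).2 h).symm
      · exact c.1.2 _ _ ((cone_some_some H S x y).2 ((cone_some_some H _ x y).1 hxy))
    · rintro (_ | x) (_ | y) hxy
      · exact absurd hxy ((cone H S).loopless.irrefl _)
      · exact c.2 _ _ ((cone_none_some H _ y).2 (Or.inr ((cone_none_some H S y).1 hxy)))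
      · exact c.2 _ _ ((cone_none_some H _ x).2 (Or.inr ((cone_none_some H S x).1 hxy.symm))).symm
      · exact c.2 _ _ ((cone_some_some H _ x y).2 ((cone_some_some H S x y).1 hxy))
    · exact c.2 _ _ ((cone_none_some H _ u).2 (Or.inl rfl))
    · intro c; rfl
    · intro c; rfl
  · refine Nat.card_congr
      { toFun := fun c => ⟨fun x => c.1.1 (some x), ?_⟩
        invFun := fun c => ⟨⟨fun x => x.elim (c.1 u) c.1, ?_⟩, ?_⟩
        left_inv := ?_
        right_inv := ?_ }
    · intro x y hxy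
      have hcab : c.1.1 none = c.1.1 (some u) := not_not.1 c.2
      rw [addStar_adj] at hxy
      obtain ⟨_, h | ⟨h1, h2⟩ | ⟨h1, h2⟩⟩ := hxy
      · exact c.1.2 _ _ ((cone_some_some H S x y).2 h)
      · show c.1.1 (some x) ≠ c.1.1 (some y)
        rw [h1, ← hcab]
        exact c.1.2 _ _ ((cone_none_some H S y).2 h2)
      · show c.1.1 (some x) ≠ c.1.1 (some y)
        rw [h1, ← hcab]
        exact c.1.2 _ _ ((cone_none_some H S x).2 h2).symm
    · rintro (_ | x) (_ | y) hxy
      · exact absurd hxy ((cone H S).loopless.irrefl _)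
      · have h := (cone_none_some H S y).1 hxy
        refine c.2 u y ((addStar_adj H u S u y).2 ⟨?_, Or.inr (Or.inl ⟨rfl, h⟩)⟩)
        rintro rfl
        exact hu h
      · have h := (cone_none_some H S x).1 hxy.symm
        refine c.2 x u ((addStar_adj H u S x u).2 ⟨?_, Or.inr (Or.inr ⟨rfl, h⟩)⟩)
        rintro rfl
        exact hu h
      · have h := (cone_some_some H S x y).1 hxy
        exact c.2 x y ((addStar_adj H u S x y).2 ⟨h.ne, Or.inl h⟩)
    · simp
    · intro c
      have hcab : c.1.1 none = c.1.1 (some u) := not_not.1 c.2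
      apply Subtype.ext
      apply Subtype.ext
      funext x
      rcases x with _ | x
      · exact hcab.symm
      · rfl
    · intro c
      rfl

theorem col_cone_empty {V : Type} [Finite V] (H : SimpleGraph V) (k : ℕ) :
    col (cone H ∅) k = k * col H k := by
  classical
  unfold col
  have h1 : Nat.card (Fin k × {c : V → Fin k // ∀ x y, H.Adj x y → c x ≠ c y}) =
      k * Nat.card {c : V → Fin k // ∀ x y, H.Adj x y → c x ≠ c y} := by
    rw [Nat.card_prod, Nat.card_fin]
  rw [← h1]
  refine Nat.card_congr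
      { toFun := fun c => (c.1 none, ⟨fun x => c.1 (some x), ?_⟩)
        invFun := fun c => ⟨fun x => x.elim c.1 c.2.1, ?_⟩
        left_inv := ?_
        right_inv := ?_ }
  · intro x y hxy
    exact c.2 _ _ ((cone_some_some H ∅ x y).2 hxy)
  · rintro (_ | x) (_ | y) hxy
    · exact absurd hxy ((cone H ∅).loopless.irrefl _)
    · exact absurd ((cone_none_some H ∅ y).1 hxy) (Set.notMem_empty _)
    · exact absurd ((cone_none_some H ∅ x).1 hxy.symm) (Set.notMem_empty _)
    · exact c.2.2 _ _ ((cone_some_some H ∅ x y).1 hxy)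
  · intro c
    apply Subtype.ext
    funext x
    rcases x with _ | x
    · rfl
    · rfl
  · intro c
    rfl

/-- complete graphs: descending factorials -/
theorem col_top {V : Type} [Fintype V] (k : ℕ) :
    col (⊤ : SimpleGraph V) k = k.descFactorial (Fintype.card V) := by
  classical
  unfold col
  have h1 : Nat.card {c : V → Fin k // ∀ a b, (⊤ : SimpleGraph V).Adj a b → c a ≠ c b} =
      Nat.card (V ↪ Fin k) := by
    refine Nat.card_congr
      { toFun := fun c => ⟨c.1, ?_⟩
        invFun := fun c => ⟨c, ?_⟩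
        left_inv := ?_
        right_inv := ?_ }
    · intro x y hxy
      by_contra hne
      exact c.2 x y ((SimpleGraph.top_adj x y).2 hne) hxy
    · intro x y hxy h
      exact ((SimpleGraph.top_adj x y).1 hxy) (c.injective h)
    · intro c; rfl
    · intro c; rfl
  rw [h1, Nat.card_eq_fintype_card, Fintype.card_embedding_eq, Fintype.card_fin]

theorem hasTri_top_of_card {V : Type} [Fintype V] (G : SimpleGraph V) (h : HasTri G)
    (hc : Fintype.card V = 3) : G = ⊤ := by
  classical
  obtain ⟨a, b, c, hab, hbc, hac⟩ := h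
  have hu : ({a, b, c} : Finset V) = Finset.univ := by
    apply Finset.eq_univ_of_card
    rw [hc]
    exact Finset.card_eq_three.2 ⟨a, b, c, hab.ne, hac.ne, hbc.ne, rfl⟩
  have hmem : ∀ x : V, x = a ∨ x = b ∨ x = c := by
    intro x
    have : x ∈ ({a, b, c} : Finset V) := hu ▸ Finset.mem_univ x
    simpa using this
  ext x y
  rw [SimpleGraph.top_adj]
  constructor
  · intro h; exact h.ne
  · intro hne
    rcases hmem x with rfl | rfl | rfl <;> rcases hmem y with rfl | rfl | rfl
    · exact absurd rfl hne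
    · exact hab
    · exact hac
    · exact hab.symm
    · exact absurd rfl hne
    · exact hbc
    · exact hac.symm
    · exact hbc.symm
    · exact absurd rfl hne

private theorem HasTri.mono' {V : Type} {G G' : SimpleGraph V} (h : HasTri G)
    (hle : ∀ x y, G.Adj x y → G'.Adj x y) : HasTri G' := by
  obtain ⟨a, b, c, hab, hbc, hac⟩ := h
  exact ⟨a, b, c, hle _ _ hab, hle _ _ hbc, hle _ _ hac⟩

theorem HasTri.addE {V : Type} {G : SimpleGraph V} (h : HasTri G) (a b : V) :
    HasTri (addE G a b) :=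
  h.mono' fun x y hxy => (addE_adj G a b x y).2 ⟨hxy.ne, Or.inl hxy⟩

theorem HasTri.ident {V : Type} {G : SimpleGraph V} (h : HasTri G) (a b : V) (hab : a ≠ b)
    (hn : ¬ G.Adj a b) : HasTri (ident G a b) := by
  classical
  obtain ⟨x, y, z, hxy, hyz, hxz⟩ := h
  let g : V → {x : V // x ≠ b} := fun x => if h : x = b then ⟨a, hab⟩ else ⟨x, h⟩
  have hg : ∀ x y : V, G.Adj x y → (BL.ident G a b).Adj (g x) (g y) := by
    intro x y hxy
    rw [ident_adj]
    by_cases hx : x = b
    · have hy : y ≠ b := by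
        rintro rfl
        exact G.loopless.irrefl _ (hx ▸ hxy)
      have hya : a ≠ y := by
        rintro rfl
        exact hn (hx ▸ hxy.symm)
      simp only [g, hx, hy, dite_true, dite_false]
      refine ⟨fun h => hya (congrArg Subtype.val h), Or.inr (Or.inl ⟨trivial, hx ▸ hxy⟩)⟩
    · by_cases hy : y = b
      · have hxa : x ≠ a := by
          rintro rfl
          exact hn (hy ▸ hxy)
        simp only [g, hx, hy, dite_true, dite_false]
        refine ⟨fun h => hxa (congrArg Subtype.val h), Or.inr (Or.inr ⟨trivial, hy ▸ hxy.symm⟩)⟩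
      · simp only [g, hx, hy, dite_false]
        exact ⟨fun h => hxy.ne (congrArg Subtype.val h), Or.inl hxy⟩
  exact ⟨g x, g y, g z, hg _ _ hxy, hg _ _ hyz, hg _ _ hxz⟩

theorem HasTri.addStar {V : Type} {G : SimpleGraph V} (h : HasTri G) (u : V) (T : Set V) :
    HasTri (addStar G u T) :=
  h.mono' fun x y hxy => (addStar_adj G u T x y).2 ⟨hxy.ne, Or.inl hxy⟩

theorem HasTri.cone {V : Type} {G : SimpleGraph V} (h : HasTri G) (S : Set V) :
    HasTri (cone G S) := by
  obtain ⟨a, b, c, hab, hbc, hac⟩ := h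
  exact ⟨some a, some b, some c, (cone_some_some G S a b).2 hab, (cone_some_some G S b c).2 hbc,
    (cone_some_some G S a c).2 hac⟩

theorem HasTri.iso {V W : Type} {G : SimpleGraph V} {H : SimpleGraph W} (h : HasTri H)
    (e : H ≃g G) : HasTri G := by
  obtain ⟨a, b, c, hab, hbc, hac⟩ := h
  exact ⟨e a, e b, e c, e.map_rel_iff.2 hab, e.map_rel_iff.2 hbc, e.map_rel_iff.2 hac⟩

end Pool.Agent.Lib.MP_f52c03_co.BL
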