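import Pool.Agent.Lib.MP_f52c03_co.BL.Defs

set_option autoImplicit false

open Polynomial

namespace Pool.Agent.Lib.MP_f52c03_co.BL

private theorem conn_center {W V : Type} (G : SimpleGraph V) (f : V → Option W) (w : W) (c : V)
    (hc : f c = some w) (h : ∀ v, f v = some w → v = c ∨ G.Adj c v) :
    (G.induce {v | f v = some w}).Connected := by
  have h1 : ∀ x : {v | f v = some w},
      (G.induce {v | f v = some w}).Reachable ⟨c, hc⟩ x := by
    rintro ⟨v, hv⟩
    rcases h v hv with h2 | h2
    · subst h2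
      exact SimpleGraph.Reachable.refl _
    · exact SimpleGraph.Adj.reachable (G := G.induce {v | f v = some w}) (u := ⟨c, hc⟩)
        (v := ⟨v, hv⟩) h2
  have : Nonempty {v | f v = some w} := ⟨⟨c, hc⟩⟩
  exact ⟨fun x y => (h1 x).symm.trans (h1 y)⟩

private theorem cone_some {V : Type} {H : SimpleGraph V} {S : Set V} {a b : V} (h : H.Adj a b) :
    (cone H S).Adj (some a) (some b) := by
  rw [cone, SimpleGraph.fromRel_adj]
  refine ⟨fun h1 => h.ne (Option.some_injective _ h1), Or.inl (Or.inl ⟨a, b, rfl, rfl, h⟩)⟩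

private theorem cone_none {V : Type} {H : SimpleGraph V} {S : Set V} {b : V} (h : b ∈ S) :
    (cone H S).Adj none (some b) := by
  rw [cone, SimpleGraph.fromRel_adj]
  exact ⟨by simp, Or.inl (Or.inr ⟨rfl, b, rfl, h⟩)⟩

private theorem cone_cases {V : Type} {H : SimpleGraph V} {S : Set V} {x y : Option V}
    (h : (cone H S).Adj x y) :
    (∃ a b, x = some a ∧ y = some b ∧ H.Adj a b) ∨ (∃ b, x = none ∧ y = some b ∧ b ∈ S) ∨
      (∃ a, x = some a ∧ y = none ∧ a ∈ S) := by
  rw [cone, SimpleGraph.fromRel_adj] at h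
  obtain ⟨-, (⟨a, b, h1, h2, h3⟩ | ⟨h1, b, h2, h3⟩) | (⟨a, b, h1, h2, h3⟩ | ⟨h1, b, h2, h3⟩)⟩ := h
  · exact Or.inl ⟨a, b, h1, h2, h3⟩
  · exact Or.inr (Or.inl ⟨b, h1, h2, h3⟩)
  · exact Or.inl ⟨b, a, h2, h1, h3.symm⟩
  · exact Or.inr (Or.inr ⟨b, h2, h1, h3⟩)

theorem minor_cone_self {V : Type} (H : SimpleGraph V) (S : Set V) : IsMinor H (cone H S) := by
  refine ⟨fun v => v, fun w => ?_, fun a b hab => ⟨some a, some b, rfl, rfl, cone_some hab⟩⟩
  exact conn_center _ (fun v => v) w (some w) rfl fun v hv => Or.inl hv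

theorem minor_cone_mono {V : Type} (H : SimpleGraph V) {S S' : Set V} (h : S ⊆ S') :
    IsMinor (cone H S) (cone H S') := by
  refine ⟨some, fun w => ?_, fun a b hab => ⟨a, b, rfl, rfl, ?_⟩⟩
  · exact conn_center _ some w w rfl fun v hv => Or.inl (Option.some_injective _ hv)
  · rcases cone_cases hab with ⟨p, q, rfl, rfl, h1⟩ | ⟨q, rfl, rfl, h1⟩ | ⟨p, rfl, rfl, h1⟩
    · exact cone_some h1
    · exact cone_none (h h1)
    · exact (cone_none (h h1)).symm

theorem minor_addStar {V : Type} (H : SimpleGraph V) (S T : Set V) (u : V) (hu : u ∈ S)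
    (hT : T ⊆ S) : IsMinor (addStar H u T) (cone H S) := by
  refine ⟨fun v => v.elim (some u) some, fun w => ?_, fun a b hab => ?_⟩
  · by_cases hw : w = u
    · subst hw
      refine conn_center _ (fun v : Option V => v.elim (some w) some) w none rfl fun v hv => ?_
      rcases v with - | x
      · exact Or.inl rfl
      · have h1 : x = w := Option.some_injective _ hv
        subst h1
        exact Or.inr (cone_none hu)
    · refine conn_center _ (fun v : Option V => v.elim (some u) some) w (some w) rfl fun v hv => ?_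
      rcases v with - | x
      · exact absurd (Option.some_injective _ hv).symm hw
      · have h1 : x = w := Option.some_injective _ hv
        subst h1
        exact Or.inl rfl
  · rw [addStar, SimpleGraph.fromRel_adj] at hab
    obtain ⟨-, (h1 | ⟨h1, h2⟩) | (h1 | ⟨h1, h2⟩)⟩ := hab
    · exact ⟨some a, some b, rfl, rfl, cone_some h1⟩
    · subst h1
      exact ⟨none, some b, rfl, rfl, cone_none (hT h2)⟩
    · exact ⟨some a, some b, rfl, rfl, cone_some h1.symm⟩
    · subst h1
      exact ⟨some a, none, rfl, rfl, (cone_none (hT h2)).symm⟩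

open Classical in
private theorem ident_addStar_half {V : Type} (H : SimpleGraph V) (S T : Set V) (u l : V)
    (hul : u ≠ l) (hT : T ⊆ S) (a b : {x : V // x ≠ l}) (hne : a ≠ b)
    (h : (addStar H u T).Adj a.1 b.1 ∨ (a.1 = u ∧ (addStar H u T).Adj l b.1)) :
    ∃ p q : Option V,
      (p.elim (some (⟨u, hul⟩ : {x : V // x ≠ l})) fun x =>
        if hx : x = l then some ⟨u, hul⟩ else some ⟨x, hx⟩) = some a ∧
      (q.elim (some (⟨u, hul⟩ : {x : V // x ≠ l})) fun x =>
        if hx : x = l then some ⟨u, hul⟩ else some ⟨x, hx⟩) = some b ∧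
      (cone H S).Adj p q := by
  have hfa : ((some a.1 : Option V).elim (some (⟨u, hul⟩ : {x : V // x ≠ l})) fun x =>
      if hx : x = l then some ⟨u, hul⟩ else some ⟨x, hx⟩) = some a := by
    rw [Option.elim_some, dif_neg a.2]
  have hfb : ((some b.1 : Option V).elim (some (⟨u, hul⟩ : {x : V // x ≠ l})) fun x =>
      if hx : x = l then some ⟨u, hul⟩ else some ⟨x, hx⟩) = some b := by
    rw [Option.elim_some, dif_neg b.2]
  rcases h with h | ⟨hau, h⟩
  · rw [addStar, SimpleGraph.fromRel_adj] at h
    obtain ⟨-, (h1 | ⟨h1, h2⟩) | (h1 | ⟨h1, h2⟩)⟩ := h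
    · exact ⟨some a.1, some b.1, hfa, hfb, cone_some h1⟩
    · refine ⟨none, some b.1, ?_, hfb, cone_none (hT h2)⟩
      rw [Option.elim_none]
      exact congrArg some (Subtype.ext h1.symm)
    · exact ⟨some a.1, some b.1, hfa, hfb, cone_some h1.symm⟩
    · refine ⟨some a.1, none, hfa, ?_, (cone_none (hT h2)).symm⟩
      rw [Option.elim_none]
      exact congrArg some (Subtype.ext h1.symm)
  · have ha : a = ⟨u, hul⟩ := Subtype.ext hau
    have hfl : ((some l : Option V).elim (some (⟨u, hul⟩ : {x : V // x ≠ l})) fun x =>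
        if hx : x = l then some ⟨u, hul⟩ else some ⟨x, hx⟩) = some a := by
      rw [Option.elim_some, dif_pos rfl, ha]
    rw [addStar, SimpleGraph.fromRel_adj] at h
    obtain ⟨-, (h1 | ⟨h1, h2⟩) | (h1 | ⟨h1, h2⟩)⟩ := h
    · exact ⟨some l, some b.1, hfl, hfb, cone_some h1⟩
    · exact absurd h1.symm hul
    · exact ⟨some l, some b.1, hfl, hfb, cone_some h1.symm⟩
    · exact absurd (ha.trans (Subtype.ext h1.symm)) hne

theorem minor_ident_addStar {V : Type} (H : SimpleGraph V) (S T : Set V) (u l : V) (hu : u ∈ S)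
    (hl : l ∈ S) (hul : u ≠ l) (hT : T ⊆ S) :
    IsMinor (ident (addStar H u T) u l) (cone H S) := by
  classical
  refine ⟨fun v => v.elim (some ⟨u, hul⟩) fun x =>
    if hx : x = l then some ⟨u, hul⟩ else some ⟨x, hx⟩, fun w => ?_, fun a b hab => ?_⟩
  · by_cases hw : w = ⟨u, hul⟩
    · subst hw
      refine conn_center _ (fun v : Option V => v.elim (some (⟨u, hul⟩ : {x : V // x ≠ l})) fun x =>
        if hx : x = l then some ⟨u, hul⟩ else some ⟨x, hx⟩) _ none rfl fun v hv => ?_
      rcases v with - | x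
      · exact Or.inl rfl
      · have h1 : (if hx : x = l then some (⟨u, hul⟩ : {x : V // x ≠ l}) else some ⟨x, hx⟩) =
          some ⟨u, hul⟩ := hv
        by_cases hx : x = l
        · subst hx
          exact Or.inr (cone_none hl)
        · rw [dif_neg hx] at h1
          have h2 : x = u := congrArg Subtype.val (Option.some_injective _ h1)
          subst h2
          exact Or.inr (cone_none hu)
    · refine conn_center _ (fun v : Option V => v.elim (some (⟨u, hul⟩ : {x : V // x ≠ l})) fun x =>
        if hx : x = l then some ⟨u, hul⟩ else some ⟨x, hx⟩) w (some w.1) ?_ fun v hv => ?_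
      · show (if hx : w.1 = l then some (⟨u, hul⟩ : {x : V // x ≠ l}) else some ⟨w.1, hx⟩) = some w
        rw [dif_neg w.2]
      · rcases v with - | x
        · exact absurd (Option.some_injective _ hv).symm hw
        · have h1 : (if hx : x = l then some (⟨u, hul⟩ : {x : V // x ≠ l}) else some ⟨x, hx⟩) =
            some w := hv
          by_cases hx : x = l
          · rw [dif_pos hx] at h1
            exact absurd (Option.some_injective _ h1).symm hw
          · rw [dif_neg hx] at h1
            refine Or.inl ?_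
            rw [← Option.some_injective _ h1]
  · rw [ident, SimpleGraph.fromRel_adj] at hab
    obtain ⟨hne, h | h⟩ := hab
    · exact ident_addStar_half H S T u l hul hT a b hne h
    · obtain ⟨p, q, h1, h2, h3⟩ := ident_addStar_half H S T u l hul hT b a hne.symm h
      exact ⟨q, p, h2, h1, h3.symm⟩

theorem cone_iso {V : Type} (G : SimpleGraph V) (v : V) :
    Nonempty (cone (del G v) {x | G.Adj v x.1} ≃g G) := by
  classical
  refine ⟨⟨Equiv.optionSubtypeNe v, ?_⟩⟩
  intro x y
  constructor
  · intro h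
    rcases x with - | x <;> rcases y with - | y
    · exact absurd rfl h.ne
    · exact cone_none (H := del G v) (S := {x | G.Adj v x.1}) (show G.Adj v y.1 from h)
    · exact (cone_none (H := del G v) (S := {x | G.Adj v x.1})
        (show G.Adj v x.1 from G.adj_symm h)).symm
    · exact cone_some (H := del G v) (show G.Adj x.1 y.1 from h)
  · intro h
    rcases cone_cases h with ⟨p, q, rfl, rfl, h1⟩ | ⟨q, rfl, rfl, h1⟩ | ⟨p, rfl, rfl, h1⟩
    · exact (show G.Adj p.1 q.1 from h1)
    · exact (show G.Adj v q.1 from h1)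
    · exact (show G.Adj p.1 v from G.adj_symm h1)

end Pool.Agent.Lib.MP_f52c03_co.BL
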