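import Pool.Agent.Lib.MP_f52c03_co.BL.Defs

set_option autoImplicit false

open Polynomial

namespace Pool.Agent.Lib.MP_f52c03_co.BL

/-- functions invariant under `p` -/
private def Cycle_inv {D : Type} (p : D → D) : Submodule (ZMod 2) (D → ZMod 2) where
  carrier := {f | ∀ d, f (p d) = f d}
  add_mem' := by
    intro a b ha hb d
    rw [Pi.add_apply, Pi.add_apply, ha d, hb d]
  zero_mem' := by intro d; rfl
  smul_mem' := by
    intro c a ha d
    rw [Pi.smul_apply, Pi.smul_apply, ha d]

private theorem Cycle_mem {D : Type} (p : D → D) (f : D → ZMod 2) :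
    f ∈ Cycle_inv p ↔ ∀ d, f (p d) = f d := Iff.rfl

private theorem Cycle_orbits_le {D : Type} [Fintype D] (p : Equiv.Perm D) :
    Nat.card (Quotient (MulAction.orbitRel (Subgroup.zpowers p) D)) ≤
      Module.finrank (ZMod 2) (Cycle_inv (D := D) p) := by
  classical
  set Q := Quotient (MulAction.orbitRel (Subgroup.zpowers p) D) with hQ
  have : Fintype Q := Fintype.ofFinite _
  set L : (Q → ZMod 2) →ₗ[ZMod 2] (D → ZMod 2) :=
    LinearMap.funLeft (ZMod 2) (ZMod 2) (fun d : D => (Quotient.mk _ d : Q)) with hL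
  have hinj : Function.Injective L :=
    LinearMap.funLeft_injective_of_surjective _ _ _ (Quotient.mk_surjective)
  have hle : LinearMap.range L ≤ Cycle_inv (D := D) p := by
    rintro _ ⟨g, rfl⟩ d
    rw [hL, LinearMap.funLeft_apply, LinearMap.funLeft_apply]
    congr 1
    refine Quotient.sound ?_
    exact ⟨⟨p, Subgroup.mem_zpowers p⟩, rfl⟩
  have h1 := Submodule.finrank_mono hle
  rw [LinearMap.finrank_range_of_inj hinj, Module.finrank_fintype_fun_eq_card] at h1
  rw [Nat.card_eq_fintype_card]
  exact h1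

private theorem Cycle_sigma {D : Type} [Fintype D] (σ : Equiv.Perm D)
    (hσ : ∀ d : D, σ (σ (σ d)) = d ∧ σ d ≠ d) [Nonempty D] :
    Fintype.card D = Nat.card (Quotient (MulAction.orbitRel (Subgroup.zpowers σ) D)) * 3 := by
  classical
  have h3 : σ ^ 3 = 1 := by
    ext d
    simp only [Equiv.Perm.coe_one, id_eq]
    exact (hσ d).1
  have hord : orderOf σ = 3 := by
    refine orderOf_eq_prime h3 ?_
    rintro h
    obtain ⟨d⟩ := (inferInstance : Nonempty D)
    exact (hσ d).2 (by rw [h]; rfl)
  have hstab : ∀ d : D, MulAction.stabilizer (Subgroup.zpowers σ) d = ⊥ := by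
    intro d
    rw [eq_bot_iff]
    rintro ⟨g, hg⟩ hgd
    rw [MulAction.mem_stabilizer_iff] at hgd
    have hgd' : g d = d := hgd
    rw [Subgroup.mem_bot]
    apply Subtype.ext
    show g = 1
    rw [mem_zpowers_iff_mem_range_orderOf, hord] at hg
    simp only [Finset.mem_image, Finset.mem_range] at hg
    obtain ⟨k, hk, rfl⟩ := hg
    interval_cases k
    · simp
    · exact absurd hgd' (hσ d).2
    · exfalso
      have : σ (σ d) = d := hgd'
      have h := (hσ d).1
      rw [this] at h
      exact (hσ d).2 h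
  have e := MulAction.selfEquivOrbitsQuotientProd hstab
  have := Nat.card_congr e
  rw [Nat.card_prod, Nat.card_eq_fintype_card (α := D), Nat.card_zpowers, hord] at this
  exact this

private theorem Cycle_const {D : Type} (σ α : Equiv.Perm D)
    (htr : ∀ d e : D, ∃ g ∈ Subgroup.closure ({σ, α} : Set (Equiv.Perm D)), g d = e)
    (f : D → ZMod 2) (h1 : ∀ d, f (σ d) = f d) (h2 : ∀ d, f (α d) = f d) (d e : D) :
    f d = f e := by
  obtain ⟨g, hg, rfl⟩ := htr d e
  have key : ∀ g ∈ Subgroup.closure ({σ, α} : Set (Equiv.Perm D)), ∀ d, f (g d) = f d := by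
    intro g hg
    induction hg using Subgroup.closure_induction with
    | mem x hx =>
      rcases hx with rfl | hx
      · exact h1
      · rw [Set.mem_singleton_iff] at hx
        subst hx
        exact h2
    | one => intro d; rfl
    | mul x y _ _ hx hy =>
      intro d
      rw [Equiv.Perm.mul_apply, hx, hy]
    | inv x _ hx =>
      intro d
      have := hx (x⁻¹ d)
      have h' : x (x⁻¹ d) = d := by simp
      rw [h'] at this
      exact this.symm
  exact (key g hg d).symm

private theorem Cycle_small {D : Type} [Fintype D] [Nonempty D]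
    (U : Submodule (ZMod 2) (D → ZMod 2)) (hU : ∀ f ∈ U, ∀ d e, f d = f e) :
    Module.finrank (ZMod 2) U ≤ 1 := by
  have hle : U ≤ Submodule.span (ZMod 2) {fun _ => (1 : ZMod 2)} := by
    intro f hf
    obtain ⟨d0⟩ := (inferInstance : Nonempty D)
    rw [Submodule.mem_span_singleton]
    refine ⟨f d0, ?_⟩
    funext d
    rw [Pi.smul_apply, smul_eq_mul, mul_one]
    exact hU f hf d0 d
  refine (Submodule.finrank_mono hle).trans ?_
  refine (finrank_span_le_card (R := ZMod 2) _).trans ?_
  simp

/-- the dot product -/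
private noncomputable def Cycle_dot {D : Type} [Fintype D] [DecidableEq D] :
    LinearMap.BilinForm (ZMod 2) (D → ZMod 2) :=
  Matrix.toBilin' (1 : Matrix D D (ZMod 2))

private theorem Cycle_dot_apply {D : Type} [Fintype D] [DecidableEq D] (x y : D → ZMod 2) :
    Cycle_dot x y = ∑ d, x d * y d := by
  rw [Cycle_dot, Matrix.toBilin'_apply']
  simp [dotProduct]

private theorem Cycle_dot_nondeg {D : Type} [Fintype D] [DecidableEq D] :
    (Cycle_dot (D := D)).Nondegenerate := by
  rw [Cycle_dot]
  apply Matrix.Nondegenerate.toBilin'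
  exact Matrix.nondegenerate_of_det_ne_zero (by simp)

private theorem Cycle_alpha {D : Type} [Fintype D] [DecidableEq D] (α : Equiv.Perm D)
    (hα : ∀ d : D, α (α d) = d ∧ α d ≠ d) :
    (Cycle_dot (D := D)).orthogonal (Cycle_inv (D := D) α) = Cycle_inv (D := D) α := by
  ext w
  rw [LinearMap.BilinForm.mem_orthogonal_iff]
  constructor
  · intro h d
    have h1 := h (fun e => (if e = d then 1 else 0) + (if e = α d then 1 else 0)) (by
      intro e
      show (if α e = d then (1 : ZMod 2) else 0) + (if α e = α d then 1 else 0) =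
        (if e = d then 1 else 0) + (if e = α d then 1 else 0)
      have e1 : (α e = α d) ↔ e = d := α.injective.eq_iff
      have e2 : (α e = d) ↔ e = α d := by
        constructor
        · intro h; rw [← h, (hα e).1]
        · intro h; rw [h, (hα d).1]
      simp only [e1, e2]
      ring)
    rw [Cycle_dot_apply] at h1
    simp only [add_mul, Finset.sum_add_distrib, ite_mul, one_mul, zero_mul, Finset.sum_ite_eq',
      Finset.mem_univ, if_true] at h1
    exact (CharTwo.add_eq_zero.1 h1).symm
  · intro h f hf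
    rw [Cycle_dot_apply]
    refine Finset.sum_involution (fun d _ => α d) ?_ ?_ (fun d _ => Finset.mem_univ _) ?_
    · intro d _
      rw [hf d, h d]
      exact CharTwo.add_self_eq_zero _
    · intro d _ _
      exact (hα d).2
    · intro d _
      exact (hα d).1

/-- On a cubic map of the sphere the cycle space (over `ZMod 2`) of the dual graph is spanned by the
vertices. -/
theorem cycle_span (n : ℕ) (D : Type) [Fintype D] (σ α : Equiv.Perm D)
    (hα : ∀ d : D, α (α d) = d ∧ α d ≠ d)
    (hσ : ∀ d : D, σ (σ (σ d)) = d ∧ σ d ≠ d)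
    (htr : ∀ d e : D, ∃ g ∈ Subgroup.closure ({σ, α} : Set (Equiv.Perm D)), g d = e)
    (hcard : Fintype.card D = 6 * (n + 1))
    (hreg : Nat.card (Quotient (MulAction.orbitRel (Subgroup.zpowers (σ * α)) D)) = n + 3)
    (z : D → ZMod 2) (hz : ∀ d, z (α d) = z d)
    (hort : ∀ y : D → ZMod 2, (∀ d, y ((σ * α) d) = y d) → ∑ d, z d * y d = 0) :
    ∃ x : D → ZMod 2, (∀ d, x (σ d) = x d) ∧ ∀ d, z d = x d + x (α d) := by
  classical
  have : Nonempty D := Fintype.card_pos_iff.1 (by omega)
  have hs := Cycle_sigma σ hσ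
  have hS := Cycle_orbits_le σ
  have hB := Cycle_orbits_le (σ * α)
  rw [hreg] at hB
  set A := Cycle_inv (D := D) α with hA
  set S := Cycle_inv (D := D) σ with hSdef
  set B := Cycle_inv (D := D) (σ * α : Equiv.Perm D) with hBdef
  have hAo : (Cycle_dot (D := D)).orthogonal A = A := Cycle_alpha α hα
  have hAd : 2 * Module.finrank (ZMod 2) A = 6 * (n + 1) := by
    have h := LinearMap.BilinForm.finrank_orthogonal (Cycle_dot_nondeg (D := D)) A
    rw [hAo, Module.finrank_fintype_fun_eq_card, hcard] at h
    have h' := Submodule.finrank_le A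
    rw [Module.finrank_fintype_fun_eq_card, hcard] at h'
    omega
  have hAB : Module.finrank (ZMod 2) (A ⊓ B : Submodule (ZMod 2) (D → ZMod 2)) ≤ 1 := by
    refine Cycle_small _ fun f hf => ?_
    have h1 : ∀ d, f (α d) = f d := hf.1
    have h2 : ∀ d, f ((σ * α : Equiv.Perm D) d) = f d := hf.2
    refine Cycle_const σ α htr f (fun d => ?_) h1
    have := h2 (α d)
    rw [Equiv.Perm.mul_apply, (hα d).1] at this
    rw [this, h1]
  have hABd := Submodule.finrank_sup_add_finrank_inf_eq A B
  set K := (Cycle_dot (D := D)).orthogonal (A ⊔ B) with hK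
  have hKd : Module.finrank (ZMod 2) K ≤ 2 * n + 1 := by
    rw [hK, LinearMap.BilinForm.finrank_orthogonal (Cycle_dot_nondeg (D := D)),
      Module.finrank_fintype_fun_eq_card, hcard]
    omega
  have hKmem : ∀ w : D → ZMod 2, (∀ d, w (α d) = w d) →
      (∀ y : D → ZMod 2, (∀ d, y ((σ * α) d) = y d) → ∑ d, w d * y d = 0) → w ∈ K := by
    intro w h1 h2
    rw [hK, LinearMap.BilinForm.mem_orthogonal_iff]
    intro f hf
    obtain ⟨a, ha, b, hb, rfl⟩ := Submodule.mem_sup.1 hf
    rw [LinearMap.BilinForm.add_left]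
    have hw : w ∈ A := h1
    rw [← hAo, LinearMap.BilinForm.mem_orthogonal_iff] at hw
    have h3 : Cycle_dot a w = 0 := hw a ha
    rw [h3, zero_add, Cycle_dot_apply]
    have := h2 b hb
    rw [← this]
    exact Finset.sum_congr rfl fun d _ => mul_comm _ _
  -- the map
  set L : (D → ZMod 2) →ₗ[ZMod 2] (D → ZMod 2) :=
    LinearMap.id + LinearMap.funLeft (ZMod 2) (ZMod 2) (α : D → D) with hL
  have hLa : ∀ x d, L x d = x d + x (α d) := by
    intro x d
    rw [hL]; rfl
  set M := L.domRestrict S with hM
  have hker : Module.finrank (ZMod 2) (LinearMap.ker M) ≤ 1 := by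
    have e : Module.finrank (ZMod 2) (LinearMap.ker M) =
        Module.finrank (ZMod 2) ((LinearMap.ker M).map S.subtype) :=
      (LinearEquiv.finrank_eq (Submodule.equivMapOfInjective _ S.injective_subtype _))
    rw [e]
    refine Cycle_small _ fun f hf => ?_
    obtain ⟨⟨g, hg⟩, hgk, rfl⟩ := Submodule.mem_map.1 hf
    have h1 : L g = 0 := LinearMap.mem_ker.1 hgk
    refine Cycle_const σ α htr g hg (fun d => ?_)
    have := congrFun h1 d
    rw [hLa] at this
    exact (CharTwo.add_eq_zero.1 this).symm
  have hrank := LinearMap.finrank_range_add_finrank_ker M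
  have hle : LinearMap.range M ≤ K := by
    rintro _ ⟨⟨x, hx⟩, rfl⟩
    have hx' : ∀ d, x (σ d) = x d := hx
    show L x ∈ K
    refine hKmem _ (fun d => ?_) (fun y hy => ?_)
    · rw [hLa, hLa, (hα d).1, add_comm]
    · simp only [hLa, add_mul, Finset.sum_add_distrib]
      have h1 : ∑ d, x (α d) * y d = ∑ d, x d * y (α d) := by
        rw [← Equiv.sum_comp α]
        exact Finset.sum_congr rfl fun d _ => by rw [(hα d).1]
      have h2 : ∀ d, y (α d) = y (σ d) := by
        intro d
        have := hy (α d)
        rw [Equiv.Perm.mul_apply, (hα d).1] at this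
        exact this.symm
      have h3 : ∑ d, x d * y (α d) = ∑ d, x d * y d := by
        rw [← Equiv.sum_comp σ (fun d => x d * y d)]
        exact Finset.sum_congr rfl fun d _ => by rw [h2, hx']
      rw [h1, h3]
      exact CharTwo.add_self_eq_zero _
  have heq : LinearMap.range M = K := by
    refine Submodule.eq_of_le_of_finrank_le hle ?_
    omega
  have hzK : z ∈ K := hKmem z hz hort
  rw [← heq] at hzK
  obtain ⟨⟨x, hx⟩, hxz⟩ := hzK
  refine ⟨x, hx, fun d => ?_⟩
  rw [← hxz]
  exact hLa x d

end Pool.Agent.Lib.MP_f52c03_co.BL
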