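import Mathlib

/-! Definitions for the Birkhoff–Lewis board (MP_f52c03_co). -/

set_option autoImplicit false

open Polynomial

namespace Pool.Agent.Lib.MP_f52c03_co.BL

/-- `H` is a minor of `G`: pairwise disjoint connected branch sets `{v | f v = some w}`, one for every
vertex `w` of `H`, such that adjacent vertices of `H` have branch sets joined by an edge of `G`
(vertices with `f v = none` are deleted). -/
def IsMinor {W V : Type} (H : SimpleGraph W) (G : SimpleGraph V) : Prop :=
  ∃ f : V → Option W, (∀ w : W, (G.induce {v | f v = some w}).Connected) ∧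
    ∀ a b : W, H.Adj a b → ∃ u v : V, f u = some a ∧ f v = some b ∧ G.Adj u v

/-- number of proper colourings of `G` with `k` colours -/
noncomputable def col {V : Type} (G : SimpleGraph V) (k : ℕ) : ℕ :=
  Nat.card {c : V → Fin k // ∀ a b, G.Adj a b → c a ≠ c b}

/-- `G` contains a triangle -/
def HasTri {V : Type} (G : SimpleGraph V) : Prop :=
  ∃ a b c : V, G.Adj a b ∧ G.Adj b c ∧ G.Adj a c

/-- `Q` is the chromatic polynomial of `G` divided by `k (k - 1) (k - 2)` -/
def IsR {V : Type} (G : SimpleGraph V) (Q : ℚ[X]) : Prop :=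
  ∀ k : ℕ, (col G k : ℚ) = (k : ℚ) * ((k : ℚ) - 1) * ((k : ℚ) - 2) * Q.eval (k : ℚ)

open Classical in
/-- the chromatic polynomial of `G` divided by `k (k - 1) (k - 2)` (junk `0` if this is not a
polynomial) -/
noncomputable def R {V : Type} (G : SimpleGraph V) : ℚ[X] :=
  if h : ∃ Q, IsR G Q then h.choose else 0

/-- the coefficients of `Q` in powers of `z = X - 4` are nonnegative -/
def NN (Q : ℚ[X]) : Prop := ∀ i : ℕ, 0 ≤ (Q.comp (X + 4)).coeff i

/-- add the edge `a b` -/
def addE {V : Type} (G : SimpleGraph V) (a b : V) : SimpleGraph V :=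
  SimpleGraph.fromRel (fun x y => G.Adj x y ∨ (x = a ∧ y = b))

/-- identify `b` with `a` -/
def ident {V : Type} (G : SimpleGraph V) (a b : V) : SimpleGraph {x : V // x ≠ b} :=
  SimpleGraph.fromRel (fun x y => G.Adj x.1 y.1 ∨ (x.1 = a ∧ G.Adj b y.1))

/-- add all edges from `u` to `T` -/
def addStar {V : Type} (H : SimpleGraph V) (u : V) (T : Set V) : SimpleGraph V :=
  SimpleGraph.fromRel (fun x y => H.Adj x y ∨ (x = u ∧ y ∈ T))

/-- the graph `H` with one new vertex `none`, joined to `S` -/
def cone {V : Type} (H : SimpleGraph V) (S : Set V) : SimpleGraph (Option V) :=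
  SimpleGraph.fromRel (fun x y =>
    (∃ a b, x = some a ∧ y = some b ∧ H.Adj a b) ∨ (x = none ∧ ∃ b, y = some b ∧ b ∈ S))

/-- delete the vertex `v` -/
def del {V : Type} (G : SimpleGraph V) (v : V) : SimpleGraph {x : V // x ≠ v} :=
  G.comap Subtype.val

/-- the number of edges, for graphs on finite types -/
noncomputable def ne {V : Type} (G : SimpleGraph V) : ℕ := Nat.card G.edgeSet

/-- Euler's bounds for all minors -/
def Sparse {V : Type} (G : SimpleGraph V) : Prop :=
  ∀ (W : Type) [Fintype W] (H : SimpleGraph W), IsMinor H G → 3 ≤ Fintype.card W →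
    ne H + 6 ≤ 3 * Fintype.card W ∧ (¬ HasTri H → ne H + 4 ≤ 2 * Fintype.card W)

/-- every minor has a vertex of degree at most four -/
def Low {V : Type} (G : SimpleGraph V) : Prop :=
  ∀ (W : Type) [Fintype W] [Nonempty W] (H : SimpleGraph W), IsMinor H G →
    ∃ w : W, Nat.card (H.neighborSet w) ≤ 4

/-- spanning 2-trees: vertex sets reached from a triangle by adding vertices joined to both ends of an
edge -/
inductive TT {V : Type} (G : SimpleGraph V) : Set V → Prop
  | base (a b c : V) : G.Adj a b → G.Adj b c → G.Adj a c → TT G {a, b, c}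
  | step (A : Set V) (x p q : V) : TT G A → x ∉ A → p ∈ A → q ∈ A → G.Adj p q → G.Adj x p →
      G.Adj x q → TT G (insert x A)

/-- the regions of the map `(σ, α)`: the orbits of `σ * α` -/
abbrev Reg {D : Type} (σ α : Equiv.Perm D) : Type :=
  Quotient (MulAction.orbitRel (Subgroup.zpowers (σ * α)) D)

/-- the region of a dart -/
def reg {D : Type} (σ α : Equiv.Perm D) (d : D) : Reg σ α := Quotient.mk _ d

/-- the region graph of the map `(σ, α)` -/
def regionGraph {D : Type} (σ α : Equiv.Perm D) : SimpleGraph (Reg σ α) :=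
  SimpleGraph.fromRel (fun x y => ∃ d : D, reg σ α d = x ∧ reg σ α (α d) = y)

end Pool.Agent.Lib.MP_f52c03_co.BL
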