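import Pool.Agent.Lib.MP_f52c03_co.BL.Defs

/-! Definitions for the second Birkhoff–Lewis board (MP_f52c03_co): leading coefficients. -/

set_option autoImplicit false

namespace Pool.Agent.Lib.MP_f52c03_co.BL

/-- `w ^ n * R_G (4 + 1 / w)` with `n = card V - 3`, as a power series in `w` -/
noncomputable def FF {V : Type} (G : SimpleGraph V) : PowerSeries ℚ :=
  ((((R G).comp (Polynomial.X + 4)).reflect (Nat.card V - 3) : Polynomial ℚ) : PowerSeries ℚ)

/-- the number of missing edges -/
noncomputable def mm {V : Type} (G : SimpleGraph V) : ℕ := 3 * Nat.card V - 6 - ne G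

/-- the series `(2 + 5 w) / (2 + 3 w)` -/
noncomputable def rho : PowerSeries ℚ :=
  (2 + 5 * PowerSeries.X) * (2 + 3 * PowerSeries.X)⁻¹

/-- the reference series `(1 + w) ^ n * rho ^ m` -/
noncomputable def BB (n m : ℕ) : PowerSeries ℚ := (1 + PowerSeries.X) ^ n * rho ^ m

/-- `A = w ^ i * C` with `C 0 > 0`, and the logarithmic derivative `l` of `C` has constant term
`≥ y - 15 i / 2` and controlled higher coefficients -/
def Term (N : ℕ) (y : ℚ) (A : PowerSeries ℚ) : Prop :=
  ∃ (i : ℕ) (C l : PowerSeries ℚ), A = PowerSeries.X ^ i * C ∧ 0 < PowerSeries.constantCoeff C ∧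
    PowerSeries.derivative ℚ C = l * C ∧ y - 15 / 2 * (i : ℚ) ≤ PowerSeries.coeff 0 l ∧
    ∀ j : ℕ, 1 ≤ j →
      |PowerSeries.coeff j l| ≤ 4 ^ j * (PowerSeries.coeff 0 l + 10 * (N : ℚ))

/-- finite sums of terms -/
noncomputable def QQ (N : ℕ) (y : ℚ) : AddSubmonoid (PowerSeries ℚ) :=
  AddSubmonoid.closure {A | Term N y A}

/-- number of `l < i` not adjacent to `j` (the new edges of the star) -/
def aM {d : ℕ} (M : Fin d → Fin d → Bool) (i j : Fin d) : ℕ :=
  (Finset.univ.filter (fun l => l < i ∧ M l j = false)).card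

/-- number of common neighbours of `i`, `j` after adding the star from `j` to all `l < i` -/
def cM {d : ℕ} (M : Fin d → Fin d → Bool) (i j : Fin d) : ℕ :=
  (Finset.univ.filter (fun l => l ≠ i ∧ l ≠ j ∧ M l i = true ∧ (M l j = true ∨ l < i))).card

/-- the vertices `L l`, `l < i` -/
def before {V : Type} {d : ℕ} (L : Fin d → V) (i : Fin d) : Set V := {x | ∃ l, l < i ∧ L l = x}

/-- the graph obtained from `H` by joining `L j` to all `L l`, `l < i`, and identifying `L i` with
`L j` -/
def merged {V : Type} (H : SimpleGraph V) {d : ℕ} (L : Fin d → V) (i j : Fin d) :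
    SimpleGraph {x : V // x ≠ L i} :=
  ident (addStar H (L j) (before L i)) (L j) (L i)

end Pool.Agent.Lib.MP_f52c03_co.BL
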