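import Pool.Agent.Lib.MP_f52c03_co.BL.Defs2

/-! Definitions for the third Birkhoff–Lewis board (MP_f52c03_co): leading coefficients, better
constant. -/

set_option autoImplicit false

namespace Pool.Agent.Lib.MP_f52c03_co.BL

/-- `A = w ^ i * C` with `C 0 > 0`, and the logarithmic derivative `l` of `C` has constant term
`≥ y - 15 i / 2` and higher coefficients bounded from below -/
def TermV (N : ℕ) (y : ℚ) (A : PowerSeries ℚ) : Prop :=
  ∃ (i : ℕ) (C l : PowerSeries ℚ), A = PowerSeries.X ^ i * C ∧ 0 < PowerSeries.constantCoeff C ∧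
    PowerSeries.derivative ℚ C = l * C ∧ y - 15 / 2 * (i : ℚ) ≤ PowerSeries.coeff 0 l ∧
    (∀ j : ℕ, 1 ≤ j → -(4 ^ j * (1 / 2 * PowerSeries.coeff 0 l + 3 / 4 * (N : ℚ) + 10 * (i : ℚ))) ≤
      PowerSeries.coeff j l) ∧
    ∀ j : ℕ, 1 ≤ j → -(16 ^ j * ((N : ℚ) / 16 + 10 * (i : ℚ))) ≤ PowerSeries.coeff (2 * j) l

/-- finite sums of terms -/
noncomputable def QV (N : ℕ) (y : ℚ) : AddSubmonoid (PowerSeries ℚ) :=
  AddSubmonoid.closure {A | TermV N y A}

end Pool.Agent.Lib.MP_f52c03_co.BL
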