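import Pool.Agent.Lib.MP_f52c03_co.BL.Col

set_option autoImplicit false

open Polynomial

namespace Pool.Agent.Lib.MP_f52c03_co.BL

theorem IsR.unique {V : Type} {G : SimpleGraph V} {Q Q' : ℚ[X]} (h : IsR G Q) (h' : IsR G Q') :
    Q = Q' := by
  refine Polynomial.eq_of_infinite_eval_eq Q Q' ?_
  refine (Set.infinite_range_of_injective (f := fun k : ℕ => ((k + 3 : ℕ) : ℚ)) ?_).mono ?_
  · intro a b hab
    have hab' : ((a + 3 : ℕ) : ℚ) = ((b + 3 : ℕ) : ℚ) := hab
    have : a + 3 = b + 3 := by exact_mod_cast hab'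
    omega
  · rintro _ ⟨k, rfl⟩
    have h1 := h (k + 3)
    have h2 := h' (k + 3)
    rw [h1] at h2
    have hk : (0 : ℚ) ≤ (k : ℚ) := Nat.cast_nonneg k
    have h3 : (((k + 3 : ℕ) : ℚ) * (((k + 3 : ℕ) : ℚ) - 1) * (((k + 3 : ℕ) : ℚ) - 2)) ≠ 0 := by
      push_cast
      have e1 : (k : ℚ) + 3 ≠ 0 := by positivity
      have e2 : (k : ℚ) + 3 - 1 ≠ 0 := by
        have : (k : ℚ) + 3 - 1 = k + 2 := by ring
        rw [this]
        positivity
      have e3 : (k : ℚ) + 3 - 2 ≠ 0 := by
        have : (k : ℚ) + 3 - 2 = k + 1 := by ring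
        rw [this]
        positivity
      exact mul_ne_zero (mul_ne_zero e1 e2) e3
    exact mul_left_cancel₀ h3 h2

private theorem RBasic_top {V : Type} [Finite V] {G : SimpleGraph V} (h : HasTri G) (hG : G = ⊤) :
    ∃ Q, IsR G Q := by
  classical
  subst hG
  have : Fintype V := Fintype.ofFinite V
  obtain ⟨a, b, c, hab, hbc, hac⟩ := h
  have h3 : 3 ≤ Fintype.card V := by
    have hcard : ({a, b, c} : Finset V).card = 3 :=
      Finset.card_eq_three.2 ⟨a, b, c, hab.ne, hac.ne, hbc.ne, rfl⟩
    rw [← hcard]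
    exact Finset.card_le_univ _
  obtain ⟨m, hm⟩ := Nat.exists_eq_add_of_le h3
  refine ⟨(descPochhammer ℚ m).comp (X - ((3 : ℕ) : ℚ[X])), fun k => ?_⟩
  rw [col_top, hm, ← descPochhammer_eval_eq_descFactorial ℚ k (3 + m), ← descPochhammer_mul,
    eval_mul]
  congr 1
  rw [descPochhammer_eval_eq_descFactorial]
  rcases k with _ | _ | k
  · simp
  · simp [Nat.descFactorial]
  · simp only [Nat.descFactorial]
    push_cast
    ring

private noncomputable def RBasic_nonadj {V : Type} (G : SimpleGraph V) : ℕ :=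
  Nat.card {p : V × V // p.1 ≠ p.2 ∧ ¬ G.Adj p.1 p.2}

private theorem RBasic_lt {V : Type} [Finite V] (G : SimpleGraph V) (a b : V) (hab : a ≠ b)
    (hn : ¬ G.Adj a b) : RBasic_nonadj (addE G a b) < RBasic_nonadj G := by
  have hle : ∀ x y : V, G.Adj x y → (addE G a b).Adj x y := by
    intro x y hxy
    unfold addE
    rw [SimpleGraph.fromRel_adj]
    exact ⟨hxy.ne, Or.inl (Or.inl hxy)⟩
  have hnew : (addE G a b).Adj a b := by
    unfold addE
    rw [SimpleGraph.fromRel_adj]
    exact ⟨hab, Or.inl (Or.inr ⟨rfl, rfl⟩)⟩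
  unfold RBasic_nonadj
  have hs : {p : V × V | p.1 ≠ p.2 ∧ ¬ (addE G a b).Adj p.1 p.2} ⊂
      {p : V × V | p.1 ≠ p.2 ∧ ¬ G.Adj p.1 p.2} := by
    rw [Set.ssubset_iff_of_subset]
    · exact ⟨(a, b), ⟨hab, hn⟩, fun h => h.2 hnew⟩
    · rintro p ⟨h1, h2⟩
      exact ⟨h1, fun h => h2 (hle _ _ h)⟩
  exact Set.ncard_lt_ncard hs (Set.toFinite _)

theorem exists_isR {V : Type} [Finite V] (G : SimpleGraph V) (h : HasTri G) : ∃ Q, IsR G Q := by
  have key : ∀ n : ℕ, ∀ (V : Type) [Finite V], Nat.card V = n → ∀ m : ℕ, ∀ G : SimpleGraph V,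
      RBasic_nonadj G = m → HasTri G → ∃ Q, IsR G Q := by
    intro n
    induction n using Nat.strong_induction_on with
    | _ n ihn =>
      intro V _ hV m
      induction m using Nat.strong_induction_on with
      | _ m ihm =>
        intro G hG h
        by_cases htop : G = ⊤
        · exact RBasic_top h htop
        · obtain ⟨a, b, hab, hn⟩ : ∃ a b : V, a ≠ b ∧ ¬ G.Adj a b := by
            by_contra hcon
            push Not at hcon
            apply htop
            ext x y
            rw [SimpleGraph.top_adj]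
            exact ⟨fun hxy => hxy.ne, fun hxy => hcon x y hxy⟩
          obtain ⟨Q1, hQ1⟩ := ihm _ (hG ▸ RBasic_lt G a b hab hn) (addE G a b) rfl (h.addE a b)
          have hcard : Nat.card {x : V // x ≠ b} < n := by
            rw [← hV]
            have : {x : V | x ≠ b}.ncard < (Set.univ : Set V).ncard := by
              refine Set.ncard_lt_ncard ?_ (Set.toFinite _)
              rw [Set.ssubset_univ_iff]
              intro hh
              have : b ∈ {x : V | x ≠ b} := by
                rw [hh]
                exact Set.mem_univ b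
              exact this rfl
            rwa [Set.ncard_univ] at this
          obtain ⟨Q2, hQ2⟩ := ihn _ hcard {x : V // x ≠ b} rfl _ (ident G a b) rfl
            (h.ident a b hab hn)
          refine ⟨Q1 + Q2, fun k => ?_⟩
          rw [col_addE G a b hab hn k, eval_add, mul_add, ← hQ1 k, ← hQ2 k]
          push_cast
          ring
  exact key _ V rfl _ G rfl h

theorem isR_R {V : Type} [Finite V] (G : SimpleGraph V) (h : HasTri G) : IsR G (R G) := by
  have hex := exists_isR G h
  unfold R
  rw [dif_pos hex]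
  exact hex.choose_spec

theorem R_iso {V W : Type} [Finite V] {G : SimpleGraph V} {H : SimpleGraph W} (e : H ≃g G)
    (h : HasTri H) : R H = R G := by
  have : Finite W := Finite.of_equiv V e.toEquiv.symm
  have hG := isR_R G (h.iso e)
  refine (isR_R H h).unique fun k => ?_
  rw [col_iso e k]
  exact hG k

theorem R_addE {V : Type} [Finite V] (G : SimpleGraph V) (h : HasTri G) (a b : V) (hab : a ≠ b)
    (hn : ¬ G.Adj a b) : R G = R (addE G a b) + R (ident G a b) := by
  have h1 := isR_R (addE G a b) (h.addE a b)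
  have h2 := isR_R (ident G a b) (h.ident a b hab hn)
  refine (isR_R G h).unique fun k => ?_
  rw [col_addE G a b hab hn k, eval_add, mul_add, ← h1 k, ← h2 k]
  push_cast
  ring

theorem R_cone_insert {V : Type} [Finite V] (H : SimpleGraph V) (h : HasTri H) (S : Set V) (u : V)
    (hu : u ∉ S) : R (cone H S) = R (cone H (insert u S)) + R (addStar H u S) := by
  have h1 := isR_R (cone H (insert u S)) (h.cone _)
  have h2 := isR_R (addStar H u S) (h.addStar u S)
  refine (isR_R (cone H S) (h.cone S)).unique fun k => ?_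
  rw [col_cone_insert H S u hu k, eval_add, mul_add, ← h1 k, ← h2 k]
  push_cast
  ring

theorem R_cone_empty {V : Type} [Finite V] (H : SimpleGraph V) (h : HasTri H) :
    R (cone H ∅) = X * R H := by
  have h1 := isR_R H h
  refine (isR_R (cone H ∅) (h.cone ∅)).unique fun k => ?_
  rw [col_cone_empty H k, eval_mul, eval_X, Nat.cast_mul, h1 k]
  ring

theorem R_three {V : Type} [Fintype V] (G : SimpleGraph V) (h : HasTri G)
    (hc : Fintype.card V = 3) : R G = 1 := by
  refine (isR_R G h).unique fun k => ?_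
  have hG := hasTri_top_of_card G h hc
  rw [hG, col_top, hc, eval_one, mul_one]
  rcases k with _ | _ | k
  · simp
  · simp [Nat.descFactorial]
  · simp only [Nat.descFactorial]
    push_cast
    ring

end Pool.Agent.Lib.MP_f52c03_co.BL
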