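import Pool.Agent.Lib.MP_f52c03_co.BL.Defs2
import Pool.Agent.Lib.MP_f52c03_co.BL.RBasic

set_option autoImplicit false

open Polynomial

namespace Pool.Agent.Lib.MP_f52c03_co.BL

private theorem exact_addE_star {V : Type} (H : SimpleGraph V) (u x : V) (T : Set V) :
    addE (addStar H u T) u x = addStar H u (insert x T) := by
  ext a b
  unfold addE addStar
  simp only [SimpleGraph.fromRel_adj, Set.mem_insert_iff]
  tauto

private theorem exact_star_insert_adj {V : Type} (H : SimpleGraph V) (u x : V) (T : Set V)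
    (h : H.Adj x u) : addStar H u (insert x T) = addStar H u T := by
  ext a b
  unfold addStar
  simp only [SimpleGraph.fromRel_adj, Set.mem_insert_iff]
  constructor
  · rintro ⟨h1, h2⟩
    refine ⟨h1, ?_⟩
    rcases h2 with (h2 | ⟨h2, rfl | h3⟩) | (h2 | ⟨h2, rfl | h3⟩)
    · exact Or.inl (Or.inl h2)
    · subst h2
      exact Or.inl (Or.inl h.symm)
    · exact Or.inl (Or.inr ⟨h2, h3⟩)
    · exact Or.inr (Or.inl h2)
    · subst h2
      exact Or.inr (Or.inl h.symm)
    · exact Or.inr (Or.inr ⟨h2, h3⟩)
  · rintro ⟨h1, h2⟩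
    refine ⟨h1, ?_⟩
    tauto

private theorem exact_star_empty {V : Type} (H : SimpleGraph V) (u : V) :
    addStar H u ∅ = H := by
  ext a b
  unfold addStar
  simp only [SimpleGraph.fromRel_adj, Set.mem_empty_iff_false, and_false, or_false]
  constructor
  · rintro ⟨_, h | h⟩
    · exact h
    · exact h.symm
  · intro h
    exact ⟨h.ne, Or.inl h⟩

private theorem exact_star_not_adj {V : Type} (H : SimpleGraph V) (u x : V) (T : Set V)
    (h : ¬ H.Adj x u) (hx : x ∉ T) (hu : u ∉ T) : ¬ (addStar H u T).Adj u x := by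
  unfold addStar
  simp only [SimpleGraph.fromRel_adj]
  rintro ⟨h1, (h2 | ⟨_, h2⟩) | (h2 | ⟨_, h2⟩)⟩
  · exact h h2.symm
  · exact hx h2
  · exact h h2
  · exact hu h2

private def exactT {V : Type} {d : ℕ} (L : Fin d → V) (e : ℕ) : Set V := {x | ∃ l, l.val < e ∧ L l = x}

private theorem exactT_succ {V : Type} {d : ℕ} (L : Fin d → V) (e : ℕ) (he : e < d) :
    exactT L (e + 1) = insert (L ⟨e, he⟩) (exactT L e) := by
  ext x
  simp only [exactT, Set.mem_insert_iff]
  show (∃ l : Fin d, l.val < e + 1 ∧ L l = x) ↔ _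
  constructor
  · rintro ⟨l, hl, rfl⟩
    by_cases h : l.val = e
    · left
      congr 1
      exact Fin.ext h
    · right
      exact ⟨l, by omega, rfl⟩
  · rintro (rfl | ⟨l, hl, rfl⟩)
    · exact ⟨⟨e, he⟩, Nat.lt_succ_self e, rfl⟩
    · exact ⟨l, by omega, rfl⟩

private theorem exactT_not_mem {V : Type} {d : ℕ} (L : Fin d → V) (hL : Function.Injective L)
    (e : ℕ) (j : Fin d) (hj : e ≤ j.val) : L j ∉ exactT L e := by
  rintro ⟨l, hl, h⟩
  have := hL h
  subst this
  omega

private theorem exactT_before {V : Type} {d : ℕ} (L : Fin d → V) (j : Fin d) :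
    exactT L j.val = before L j := by
  ext x
  show (∃ l : Fin d, l.val < j.val ∧ L l = x) ↔ (∃ l : Fin d, l < j ∧ L l = x)
  simp only [Fin.lt_def]

open Classical in
private theorem exact_star {V : Type} [Fintype V] (H : SimpleGraph V) (hH : HasTri H) (d : ℕ)
    (L : Fin d → V) (hL : Function.Injective L) (j : Fin d) (e : ℕ) (he : e ≤ j.val) :
    R H = R (addStar H (L j) (exactT L e)) +
      ∑ i : Fin d, if i.val < e ∧ ¬ H.Adj (L i) (L j) then R (merged H L i j) else 0 := by
  induction e with
  | zero =>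
    have h0 : exactT L 0 = ∅ := by
      ext x
      simp [exactT]
    rw [h0, exact_star_empty]
    simp
  | succ e ih =>
    have ih' := ih (by omega)
    have hed : e < d := lt_of_lt_of_le (Nat.lt_of_succ_le he) (le_of_lt j.isLt)
    have hsum : (∑ i : Fin d, if i.val < e + 1 ∧ ¬ H.Adj (L i) (L j) then R (merged H L i j) else 0) =
        (∑ i : Fin d, if i.val < e ∧ ¬ H.Adj (L i) (L j) then R (merged H L i j) else 0) +
          (if ¬ H.Adj (L ⟨e, hed⟩) (L j) then R (merged H L ⟨e, hed⟩ j) else 0) := by
      have h1 : (if ¬ H.Adj (L ⟨e, hed⟩) (L j) then R (merged H L ⟨e, hed⟩ j) else 0) =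
          ∑ i : Fin d, if i = ⟨e, hed⟩ then
            (if ¬ H.Adj (L i) (L j) then R (merged H L i j) else 0) else 0 := by
        rw [Finset.sum_ite_eq' Finset.univ (⟨e, hed⟩ : Fin d)
          (fun i => if ¬ H.Adj (L i) (L j) then R (merged H L i j) else 0)]
        simp
      rw [h1, ← Finset.sum_add_distrib]
      refine Finset.sum_congr rfl fun i _ => ?_
      by_cases hi : i = ⟨e, hed⟩
      · subst hi
        simp
      · have hne : i.val ≠ e := fun h => hi (Fin.ext h)
        rw [if_neg hi, add_zero]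
        have : i.val < e + 1 ↔ i.val < e := by omega
        simp only [this]
    rw [hsum, exactT_succ L e hed]
    have hej : (⟨e, hed⟩ : Fin d) ≠ j := by
      intro h
      rw [← h] at he
      simp at he
    by_cases hadj : H.Adj (L ⟨e, hed⟩) (L j)
    · rw [exact_star_insert_adj H (L j) (L ⟨e, hed⟩) _ hadj, if_neg (not_not.2 hadj), add_zero]
      exact ih'
    · rw [if_pos hadj, ← exact_addE_star]
      rw [ih']
      have hne : L j ≠ L ⟨e, hed⟩ := fun h => hej (hL h).symm
      have h2 : ¬ (addStar H (L j) (exactT L e)).Adj (L j) (L ⟨e, hed⟩) :=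
        exact_star_not_adj H (L j) (L ⟨e, hed⟩) _ hadj (exactT_not_mem L hL e _ le_rfl)
          (exactT_not_mem L hL e j (by omega))
      rw [R_addE (addStar H (L j) (exactT L e)) (hH.addStar _ _) (L j) (L ⟨e, hed⟩) hne h2]
      have h3 : ident (addStar H (L j) (exactT L e)) (L j) (L ⟨e, hed⟩) =
          merged H L ⟨e, hed⟩ j := by
        unfold merged
        rw [← exactT_before L ⟨e, hed⟩]
      rw [h3]
      ring

open Classical in
/-- the number of repeated colours on the neighbours of the cone vertex -/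
theorem R_cone_exact {V : Type} [Fintype V] (H : SimpleGraph V) (hH : HasTri H) (d : ℕ)
    (L : Fin d → V) (hL : Function.Injective L) :
    R (cone H (Set.range L)) = (X - C (d : ℚ)) * R H +
      ∑ j : Fin d, ∑ i : Fin d, if i < j ∧ ¬ H.Adj (L i) (L j) then R (merged H L i j) else 0 := by
  have key : ∀ e : ℕ, e ≤ d → R (cone H (exactT L e)) = (X - C (e : ℚ)) * R H +
      ∑ j : Fin d, if j.val < e then
        (∑ i : Fin d, if i < j ∧ ¬ H.Adj (L i) (L j) then R (merged H L i j) else 0) else 0 := by
    intro e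
    induction e with
    | zero =>
      intro _
      have h0 : exactT L 0 = ∅ := by
        ext x
        simp [exactT]
      rw [h0, R_cone_empty H hH]
      simp
    | succ e ih =>
      intro he
      have hed : e < d := he
      have ih' := ih (le_of_lt hed)
      have h1 := R_cone_insert H hH (exactT L e) (L ⟨e, hed⟩) (exactT_not_mem L hL e _ le_rfl)
      have h2 := exact_star H hH d L hL ⟨e, hed⟩ e le_rfl
      rw [← exactT_succ L e hed] at h1
      have hsum : (∑ j : Fin d, if j.val < e + 1 then
          (∑ i : Fin d, if i < j ∧ ¬ H.Adj (L i) (L j) then R (merged H L i j) else 0) else 0) =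
          (∑ j : Fin d, if j.val < e then
          (∑ i : Fin d, if i < j ∧ ¬ H.Adj (L i) (L j) then R (merged H L i j) else 0) else 0) +
          (∑ i : Fin d, if i < ⟨e, hed⟩ ∧ ¬ H.Adj (L i) (L ⟨e, hed⟩) then
            R (merged H L i ⟨e, hed⟩) else 0) := by
        have h3 : (∑ i : Fin d, if i < ⟨e, hed⟩ ∧ ¬ H.Adj (L i) (L ⟨e, hed⟩) then
            R (merged H L i ⟨e, hed⟩) else 0) =
            ∑ j : Fin d, if j = ⟨e, hed⟩ then
            (∑ i : Fin d, if i < j ∧ ¬ H.Adj (L i) (L j) then R (merged H L i j) else 0) else 0 := by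
          rw [Finset.sum_ite_eq' Finset.univ (⟨e, hed⟩ : Fin d)
            (fun j => ∑ i : Fin d, if i < j ∧ ¬ H.Adj (L i) (L j) then R (merged H L i j) else 0)]
          simp
        rw [h3, ← Finset.sum_add_distrib]
        refine Finset.sum_congr rfl fun j _ => ?_
        by_cases hj : j = ⟨e, hed⟩
        · subst hj
          simp
        · have hne : j.val ≠ e := fun h => hj (Fin.ext h)
          rw [if_neg hj, add_zero]
          have : j.val < e + 1 ↔ j.val < e := by omega
          simp only [this]
      rw [hsum]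
      have h4 : (∑ i : Fin d, if i.val < e ∧ ¬ H.Adj (L i) (L ⟨e, hed⟩) then
          R (merged H L i ⟨e, hed⟩) else 0) =
          ∑ i : Fin d, if i < ⟨e, hed⟩ ∧ ¬ H.Adj (L i) (L ⟨e, hed⟩) then
          R (merged H L i ⟨e, hed⟩) else 0 := by
        refine Finset.sum_congr rfl fun i _ => ?_
        simp only [Fin.lt_def]
      rw [h4] at h2
      have h5 : R (cone H (exactT L (e + 1))) =
          R (cone H (exactT L e)) - R (addStar H (L ⟨e, hed⟩) (exactT L e)) := by
        rw [h1]
        ring
      have h6 : R (addStar H (L ⟨e, hed⟩) (exactT L e)) = R H -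
          ∑ i : Fin d, if i < ⟨e, hed⟩ ∧ ¬ H.Adj (L i) (L ⟨e, hed⟩) then
          R (merged H L i ⟨e, hed⟩) else 0 := by
        rw [eq_sub_iff_add_eq]
        exact h2.symm
      rw [h5, h6, ih']
      push_cast
      simp only [map_add, map_one]
      ring
  have h := key d le_rfl
  have hr : exactT L d = Set.range L := by
    ext x
    simp [exactT]
  rw [hr] at h
  rw [h]
  congr 1
  refine Finset.sum_congr rfl fun j _ => ?_
  rw [if_pos j.isLt]

private theorem exact_top {V : Type} [Fintype V] {G : SimpleGraph V} (h : HasTri G) (hG : G = ⊤) :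
    (R G).natDegree ≤ Nat.card V - 3 := by
  classical
  subst hG
  have hR := isR_R (⊤ : SimpleGraph V) h
  obtain ⟨a, b, c, hab, hbc, hac⟩ := h
  have h3 : 3 ≤ Fintype.card V := by
    have hcard : ({a, b, c} : Finset V).card = 3 :=
      Finset.card_eq_three.2 ⟨a, b, c, hab.ne, hac.ne, hbc.ne, rfl⟩
    rw [← hcard]
    exact Finset.card_le_univ _
  obtain ⟨m, hm⟩ := Nat.exists_eq_add_of_le h3
  have h1 : IsR (⊤ : SimpleGraph V) ((descPochhammer ℚ m).comp (X - ((3 : ℕ) : ℚ[X]))) := by
    intro k
    rw [col_top, hm, ← descPochhammer_eval_eq_descFactorial ℚ k (3 + m), ← descPochhammer_mul,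
      eval_mul]
    congr 1
    rw [descPochhammer_eval_eq_descFactorial]
    rcases k with _ | _ | k
    · simp
    · simp [Nat.descFactorial]
    · simp only [Nat.descFactorial]
      push_cast
      ring
  rw [hR.unique h1, Nat.card_eq_fintype_card, hm]
  refine natDegree_comp_le.trans ?_
  have h4 : (descPochhammer ℚ m).natDegree = m := descPochhammer_natDegree ℚ m
  have h5 : (X - ((3 : ℕ) : ℚ[X])).natDegree ≤ 1 := by
    have : (((3 : ℕ) : ℚ[X])) = C ((3 : ℕ) : ℚ) := (Polynomial.C_eq_natCast 3).symm
    rw [this]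
    exact (natDegree_X_sub_C_le _)
  rw [h4]
  calc m * (X - ((3 : ℕ) : ℚ[X])).natDegree ≤ m * 1 := Nat.mul_le_mul_left _ h5
    _ ≤ 3 + m - 3 := by omega

private noncomputable def exact_nonadj {V : Type} (G : SimpleGraph V) : ℕ :=
  Nat.card {p : V × V // p.1 ≠ p.2 ∧ ¬ G.Adj p.1 p.2}

private theorem exact_lt {V : Type} [Finite V] (G : SimpleGraph V) (a b : V) (hab : a ≠ b)
    (hn : ¬ G.Adj a b) : exact_nonadj (addE G a b) < exact_nonadj G := by
  have hle : ∀ x y : V, G.Adj x y → (addE G a b).Adj x y := by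
    intro x y hxy
    unfold addE
    rw [SimpleGraph.fromRel_adj]
    exact ⟨hxy.ne, Or.inl (Or.inl hxy)⟩
  have hnew : (addE G a b).Adj a b := by
    unfold addE
    rw [SimpleGraph.fromRel_adj]
    exact ⟨hab, Or.inl (Or.inr ⟨rfl, rfl⟩)⟩
  unfold exact_nonadj
  have hs : {p : V × V | p.1 ≠ p.2 ∧ ¬ (addE G a b).Adj p.1 p.2} ⊂
      {p : V × V | p.1 ≠ p.2 ∧ ¬ G.Adj p.1 p.2} := by
    rw [Set.ssubset_iff_of_subset]
    · exact ⟨(a, b), ⟨hab, hn⟩, fun h => h.2 hnew⟩
    · rintro p ⟨h1, h2⟩
      exact ⟨h1, fun h => h2 (hle _ _ h)⟩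
  exact Set.ncard_lt_ncard hs (Set.toFinite _)

theorem natDegree_R {V : Type} [Fintype V] (G : SimpleGraph V) (hG : HasTri G) :
    (R G).natDegree ≤ Nat.card V - 3 := by
  have key : ∀ n : ℕ, ∀ (V : Type) [Fintype V], Nat.card V = n → ∀ m : ℕ, ∀ G : SimpleGraph V,
      exact_nonadj G = m → HasTri G → (R G).natDegree ≤ Nat.card V - 3 := by
    intro n
    induction n using Nat.strong_induction_on with
    | _ n ihn =>
      intro V _ hV m
      induction m using Nat.strong_induction_on with
      | _ m ihm =>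
        intro G hG h
        by_cases htop : G = ⊤
        · exact exact_top h htop
        · obtain ⟨a, b, hab, hn⟩ : ∃ a b : V, a ≠ b ∧ ¬ G.Adj a b := by
            by_contra hcon
            push Not at hcon
            apply htop
            ext x y
            rw [SimpleGraph.top_adj]
            exact ⟨fun hxy => hxy.ne, fun hxy => hcon x y hxy⟩
          have hQ1 := ihm _ (hG ▸ exact_lt G a b hab hn) (addE G a b) rfl (h.addE a b)
          have hcard : Nat.card {x : V // x ≠ b} < n := by
            rw [← hV]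
            have : {x : V | x ≠ b}.ncard < (Set.univ : Set V).ncard := by
              refine Set.ncard_lt_ncard ?_ (Set.toFinite _)
              rw [Set.ssubset_univ_iff]
              intro hh
              have : b ∈ {x : V | x ≠ b} := by
                rw [hh]
                exact Set.mem_univ b
              exact this rfl
            rwa [Set.ncard_univ] at this
          have : Fintype {x : V // x ≠ b} := Fintype.ofFinite _
          have hQ2 := ihn _ hcard {x : V // x ≠ b} rfl _ (ident G a b) rfl
            (h.ident a b hab hn)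
          rw [R_addE G h a b hab hn]
          refine (natDegree_add_le _ _).trans (max_le hQ1 (hQ2.trans ?_))
          rw [hV]
          omega
  exact key _ V rfl _ G rfl hG

end Pool.Agent.Lib.MP_f52c03_co.BL
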