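import Pool.Agent.Lib.MP_f52c03_co.BL.Defs

set_option autoImplicit false

open Polynomial

namespace Pool.Agent.Lib.MP_f52c03_co.BL

/-- the pairing of functions on `D` -/
private noncomputable def pairing (D : Type) [Fintype D] :
    (D → ZMod 2) →ₗ[ZMod 2] Module.Dual (ZMod 2) (D → ZMod 2) :=
  LinearMap.mk₂ (ZMod 2) (fun z y => ∑ d, z d * y d)
    (fun z z' y => by simp only [Pi.add_apply, add_mul, Finset.sum_add_distrib])
    (fun c z y => by simp only [Pi.smul_apply, smul_eq_mul, mul_assoc, Finset.mul_sum])
    (fun z y y' => by simp only [Pi.add_apply, mul_add, Finset.sum_add_distrib])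
    (fun c z y => by
      simp only [Pi.smul_apply, smul_eq_mul, Finset.mul_sum]
      exact Finset.sum_congr rfl fun d _ => by ring)

private theorem pairing_apply (D : Type) [Fintype D] (z y : D → ZMod 2) :
    pairing D z y = ∑ d, z d * y d := rfl

/-- the functions invariant under `p` -/
private def inv {D : Type} (p : Equiv.Perm D) : Submodule (ZMod 2) (D → ZMod 2) where
  carrier := {y | ∀ d, y (p d) = y d}
  add_mem' := fun {a b} ha hb d => by
    show a (p d) + b (p d) = a d + b d
    rw [ha d, hb d]
  zero_mem' := fun _ => rfl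
  smul_mem' := fun c a ha d => by
    show c • a (p d) = c • a d
    rw [ha d]

/-- the `α`-invariant functions supported inside the fibres -/
private def fib {W D : Type} (σ α : Equiv.Perm D) (f : Reg σ α → Option W) :
    Submodule (ZMod 2) (D → ZMod 2) where
  carrier := {z | (∀ d, z (α d) = z d) ∧
    ∀ d, z d ≠ 0 → ∃ w : W, f (reg σ α d) = some w ∧ f (reg σ α (α d)) = some w}
  add_mem' := fun {a b} ha hb => by
    refine ⟨fun d => ?_, fun d hd => ?_⟩
    · show a (α d) + b (α d) = a d + b d
      rw [ha.1 d, hb.1 d]
    · by_cases h : a d = 0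
      · apply hb.2
        intro h'
        apply hd
        show a d + b d = 0
        rw [h, h', add_zero]
      · exact ha.2 d h
  zero_mem' := ⟨fun _ => rfl, fun d hd => absurd rfl hd⟩
  smul_mem' := fun c a ha => by
    refine ⟨fun d => ?_, fun d hd => ?_⟩
    · show c • a (α d) = c • a d
      rw [ha.1 d]
    · apply ha.2
      intro h
      apply hd
      show c • a d = 0
      rw [h, smul_zero]

/-- Even edge functions extend over the connected fibres of `f`. -/
theorem extend {W D : Type} [Fintype W] [Fintype D] (σ α : Equiv.Perm D)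
    (hα : ∀ d : D, α (α d) = d ∧ α d ≠ d) (f : Reg σ α → Option W)
    (hf : ∀ w : W, ((regionGraph σ α).induce {v | f v = some w}).Connected)
    (z : D → ZMod 2) (hz : ∀ d, z (α d) = z d) (hzn : ∀ d, f (reg σ α d) = none → z d = 0)
    (hev : ∀ w : W, (∑ d : D, (Set.indicator {d | f (reg σ α d) = some w} 1 d : ZMod 2) * z d) = 0) :
    ∃ z' : D → ZMod 2, (∀ d, z' (α d) = z' d) ∧
      (∀ d, z' d ≠ 0 → ∃ w : W, f (reg σ α d) = some w ∧ f (reg σ α (α d)) = some w) ∧
      ∀ y : D → ZMod 2, (∀ d, y ((σ * α) d) = y d) → ∑ d, (z d + z' d) * y d = 0 := by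
  classical
  have _ := hz
  set Y := inv (σ * α) with hY
  set Φ : fib σ α f →ₗ[ZMod 2] Module.Dual (ZMod 2) Y :=
    Y.subtype.dualMap ∘ₗ pairing D ∘ₗ (fib σ α f).subtype with hΦ
  -- `g` annihilates the orthogonal of the fibre functions
  have hg : Y.subtype.dualMap (pairing D z) ∈ LinearMap.range Φ := by
    rw [← Subspace.dualCoannihilator_dualAnnihilator_eq (W := LinearMap.range Φ),
      Submodule.mem_dualAnnihilator]
    intro y hy
    rw [Submodule.mem_dualCoannihilator] at hy
    have hyr : ∀ d, y.1 ((σ * α) d) = y.1 d := y.2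
    -- `y d = y (α d)` inside the fibres
    have h1 : ∀ d, (∃ w : W, f (reg σ α d) = some w ∧ f (reg σ α (α d)) = some w) →
        y.1 d = y.1 (α d) := by
      intro d hd
      set z₁ : D → ZMod 2 := fun x => (if x = d then 1 else 0) + (if x = α d then 1 else 0) with hz₁
      have hz₁m : z₁ ∈ fib σ α f := by
        refine ⟨fun x => ?_, fun x hx => ?_⟩
        · have e1 : (α x = d) = (x = α d) := by
            apply propext
            constructor
            · intro h
              rw [← h, (hα x).1]
            · intro h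
              rw [h, (hα d).1]
          have e2 : (α x = α d) = (x = d) := by
            apply propext
            exact α.injective.eq_iff
          show (if α x = d then (1 : ZMod 2) else 0) + (if α x = α d then 1 else 0) = _
          simp only [e1, e2]
          rw [add_comm]
        · by_cases hxd : x = d
          · rw [hxd]; exact hd
          · by_cases hxa : x = α d
            · obtain ⟨w, hw1, hw2⟩ := hd
              refine ⟨w, ?_, ?_⟩
              · rw [hxa]; exact hw2
              · rw [hxa, (hα d).1]; exact hw1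
            · exfalso
              apply hx
              rw [hz₁]
              simp only [hxd, hxa, if_false, add_zero]
      have h2 := hy (Φ ⟨z₁, hz₁m⟩) ⟨⟨z₁, hz₁m⟩, rfl⟩
      have h3 : Φ ⟨z₁, hz₁m⟩ y = y.1 d + y.1 (α d) := by
        show ∑ x, z₁ x * y.1 x = _
        simp only [hz₁, add_mul, Finset.sum_add_distrib, ite_mul, one_mul, zero_mul,
          Finset.sum_ite_eq', Finset.mem_univ, if_true]
      rw [h3] at h2
      exact CharTwo.add_eq_zero.mp h2
    -- `y` is a function of the region
    have h2 : ∀ d e, reg σ α d = reg σ α e → y.1 d = y.1 e := by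
      intro d e hde
      have h3 : d ∈ MulAction.orbit (Subgroup.zpowers (σ * α)) e := Quotient.exact hde
      rw [MulAction.mem_orbit_iff] at h3
      obtain ⟨⟨g, hg⟩, hge⟩ := h3
      obtain ⟨n, rfl⟩ := Subgroup.mem_zpowers_iff.mp hg
      have h4 : ((σ * α) ^ n) e = d := hge
      have h5 : ∀ (m : ℕ) (x : D), y.1 (((σ * α) ^ m) x) = y.1 x := by
        intro m
        induction m with
        | zero => intro x; rfl
        | succ m ih =>
          intro x
          rw [pow_succ, Equiv.Perm.mul_apply, ih, hyr]
      rcases Int.eq_nat_or_neg n with ⟨m, rfl | rfl⟩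
      · rw [← h4, zpow_natCast, h5]
      · rw [zpow_neg, zpow_natCast] at h4
        have h6 : e = ((σ * α) ^ m) d := by
          rw [← h4, ← Equiv.Perm.mul_apply, mul_inv_cancel]
          rfl
        rw [h6, h5]
    -- `y` is constant on the fibres
    have h3 : ∀ w : W, ∃ c : ZMod 2, ∀ d, f (reg σ α d) = some w → y.1 d = c := by
      intro w
      obtain ⟨⟨v₀, hv₀⟩⟩ := (hf w).nonempty
      obtain ⟨d₀, rfl⟩ := Quotient.exists_rep v₀
      refine ⟨y.1 d₀, fun d hd => ?_⟩
      have hreach := (hf w).preconnected ⟨reg σ α d₀, hv₀⟩ ⟨reg σ α d, hd⟩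
      obtain ⟨p⟩ := hreach
      have key : ∀ (u v : {v | f v = some w}) (p : ((regionGraph σ α).induce
          {v | f v = some w}).Walk u v) (a b : D), reg σ α a = u.1 → reg σ α b = v.1 →
          y.1 a = y.1 b := by
        intro u v p
        induction p with
        | nil =>
          intro a b ha hb
          exact h2 a b (ha.trans hb.symm)
        | @cons u v w' hadj p ih =>
          intro a b ha hb
          rw [SimpleGraph.comap_adj, regionGraph, SimpleGraph.fromRel_adj] at hadj
          obtain ⟨-, ⟨x, hx1, hx2⟩ | ⟨x, hx1, hx2⟩⟩ := hadj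
          · have h4 := h1 x ⟨w, by rw [hx1]; exact u.2, by rw [hx2]; exact v.2⟩
            rw [h2 a x (by rw [ha, hx1]; rfl), h4]
            exact ih (α x) b hx2 hb
          · have h4 := h1 x ⟨w, by rw [hx1]; exact v.2, by rw [hx2]; exact u.2⟩
            rw [h2 a (α x) (by rw [ha, hx2]; rfl), ← h4]
            exact ih x b hx1 hb
      exact (key _ _ p d₀ d rfl rfl).symm
    choose c hc using h3
    show ∑ d, z d * y.1 d = 0
    have h4 : ∀ d, z d * y.1 d =
        ∑ w, c w * ((Set.indicator {d | f (reg σ α d) = some w} 1 d : ZMod 2) * z d) := by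
      intro d
      rcases hfd : f (reg σ α d) with _ | w
      · rw [hzn d hfd]
        simp
      · rw [Finset.sum_eq_single w]
        · rw [hc w d hfd, Set.indicator_of_mem (show d ∈ {d | f (reg σ α d) = some w} from hfd),
            Pi.one_apply]
          ring
        · intro w' _ hw'
          rw [Set.indicator_of_notMem, zero_mul, mul_zero]
          intro h
          have h5 : f (reg σ α d) = some w' := h
          rw [hfd] at h5
          exact hw' (Option.some_injective _ h5).symm
        · intro h
          exact absurd (Finset.mem_univ w) h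
    rw [Finset.sum_congr rfl fun d _ => h4 d, Finset.sum_comm]
    refine Finset.sum_eq_zero fun w _ => ?_
    rw [← Finset.mul_sum, hev w, mul_zero]
  obtain ⟨⟨z', hz'⟩, hz'g⟩ := hg
  refine ⟨z', hz'.1, hz'.2, fun y hy => ?_⟩
  have h1 := LinearMap.congr_fun hz'g ⟨y, hy⟩
  have h2 : ∑ d, z' d * y d = ∑ d, z d * y d := h1
  simp only [add_mul, Finset.sum_add_distrib]
  rw [h2]
  exact CharTwo.add_self_eq_zero _

end Pool.Agent.Lib.MP_f52c03_co.BL
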