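import Pool.Agent.Lib.MP_f52c03_co.BL.Exact

set_option autoImplicit false

namespace Pool.Agent.Lib.MP_f52c03_co.BL

/-- the `k`-th coefficient of `FF G` is that of `z ^ (n - k)` in `R G` -/
theorem coeff_FF {V : Type} [Fintype V] (G : SimpleGraph V) (n : ℕ) (hn : Fintype.card V = n + 3)
    (k : ℕ) (hk : k ≤ n) :
    PowerSeries.coeff k (FF G) = ((R G).comp (Polynomial.X + 4)).coeff (n - k) := by
  unfold FF
  rw [Polynomial.coeff_coe, Polynomial.coeff_reflect, Nat.card_eq_fintype_card, hn,
    Nat.add_sub_cancel, Polynomial.revAt_le hk]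

theorem FF_iso {V W : Type} [Fintype V] [Fintype W] {G : SimpleGraph V} {H : SimpleGraph W}
    (e : H ≃g G) (h : HasTri H) : FF H = FF G := by
  unfold FF
  rw [R_iso e h, Nat.card_congr e.toEquiv]

private theorem fb_four : (4 : Polynomial ℚ) = Polynomial.C 4 := rfl

private theorem fb_deg {V : Type} [Fintype V] (G : SimpleGraph V) (hG : HasTri G) :
    ((R G).comp (Polynomial.X + 4)).natDegree ≤ Nat.card V - 3 := by
  refine Polynomial.natDegree_comp_le.trans ?_
  have h1 : (Polynomial.X + 4 : Polynomial ℚ).natDegree ≤ 1 := by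
    rw [fb_four]
    exact (Polynomial.natDegree_X_add_C _).le
  calc (R G).natDegree * (Polynomial.X + 4 : Polynomial ℚ).natDegree
      ≤ (Nat.card V - 3) * 1 := Nat.mul_le_mul (natDegree_R G hG) h1
    _ = Nat.card V - 3 := mul_one _

theorem FF_three {V : Type} [Fintype V] (G : SimpleGraph V) (h : HasTri G)
    (hc : Fintype.card V = 3) : FF G = 1 := by
  unfold FF
  rw [R_three G h hc, Polynomial.one_comp, Nat.card_eq_fintype_card, hc]
  have : Polynomial.reflect (3 - 3) (1 : Polynomial ℚ) = 1 := by
    rw [← Polynomial.C_1, Polynomial.reflect_C]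
    simp
  rw [this, Polynomial.coe_one]

private theorem fb_reflect_one (m : ℕ) : Polynomial.reflect m (1 : Polynomial ℚ) =
    Polynomial.X ^ m := by
  rw [← Polynomial.C_1, Polynomial.reflect_C]
  simp

private theorem fb_shift (m N : ℕ) (Q : Polynomial ℚ) (hQ : Q.natDegree ≤ N) :
    Polynomial.reflect (m + N) Q = Polynomial.X ^ m * Polynomial.reflect N Q := by
  have h := Polynomial.reflect_mul (1 : Polynomial ℚ) Q (F := m) (G := N)
    (by simp) hQ
  rw [one_mul, fb_reflect_one] at h
  exact h

private theorem fb_card3 {V : Type} [Fintype V] (G : SimpleGraph V) (hG : HasTri G) :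
    3 ≤ Fintype.card V := by
  classical
  obtain ⟨a, b, c, hab, hbc, hac⟩ := hG
  have hcard : ({a, b, c} : Finset V).card = 3 :=
    Finset.card_eq_three.2 ⟨a, b, c, hab.ne, hac.ne, hbc.ne, rfl⟩
  rw [← hcard]
  exact Finset.card_le_univ _

private theorem fb_star_not_adj {V : Type} (H : SimpleGraph V) (u x : V) (T : Set V)
    (h : ¬ H.Adj x u) (hx : x ∉ T) (hu : u ∉ T) : ¬ (addStar H u T).Adj u x := by
  unfold addStar
  simp only [SimpleGraph.fromRel_adj]
  rintro ⟨h1, (h2 | ⟨_, h2⟩) | (h2 | ⟨_, h2⟩)⟩
  · exact h h2.symm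
  · exact hx h2
  · exact h h2
  · exact hu h2

private theorem fb_merged_tri {V : Type} [Fintype V] (H : SimpleGraph V) (hH : HasTri H) (d : ℕ)
    (L : Fin d → V) (hL : Function.Injective L) (i j : Fin d) (hij : i < j)
    (hn : ¬ H.Adj (L i) (L j)) : HasTri (merged H L i j) := by
  unfold merged
  refine (hH.addStar _ _).ident _ _ (fun h => hij.ne (hL h).symm) ?_
  refine fb_star_not_adj H (L j) (L i) _ hn ?_ ?_
  · rintro ⟨l, hl, h⟩
    have := hL h
    subst this
    exact lt_irrefl _ hl
  · rintro ⟨l, hl, h⟩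
    have := hL h
    subst this
    exact lt_asymm hl hij

private theorem fb_card_ne {V : Type} [Fintype V] (a : V) :
    Nat.card {x : V // x ≠ a} = Fintype.card V - 1 := by
  classical
  rw [Nat.card_eq_fintype_card, Fintype.card_subtype_compl, Fintype.card_subtype_eq]

open Classical in
theorem FF_cone {V : Type} [Fintype V] (H : SimpleGraph V) (hH : HasTri H) (d : ℕ)
    (L : Fin d → V) (hL : Function.Injective L) :
    FF (cone H (Set.range L)) = (1 + PowerSeries.C (4 - (d : ℚ)) * PowerSeries.X) * FF H +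
      PowerSeries.X ^ 2 *
        ∑ j : Fin d, ∑ i : Fin d, if i < j ∧ ¬ H.Adj (L i) (L j) then FF (merged H L i j) else 0 := by
  have h3 := fb_card3 H hH
  obtain ⟨N, hN⟩ := Nat.exists_eq_add_of_le h3
  have hcard : Nat.card V - 3 = N := by
    rw [Nat.card_eq_fintype_card, hN]
    omega
  have hcardO : Nat.card (Option V) - 3 = 1 + N := by
    rw [Nat.card_eq_fintype_card, Fintype.card_option, hN]
    omega
  have hmain : ((R (cone H (Set.range L))).comp (Polynomial.X + 4)) =
      (Polynomial.X + Polynomial.C (4 - (d : ℚ))) * (R H).comp (Polynomial.X + 4) +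
      ∑ j : Fin d, ∑ i : Fin d, if i < j ∧ ¬ H.Adj (L i) (L j) then
        (R (merged H L i j)).comp (Polynomial.X + 4) else 0 := by
    rw [R_cone_exact H hH d L hL, Polynomial.add_comp, Polynomial.mul_comp, Polynomial.sub_comp,
      Polynomial.X_comp, Polynomial.C_comp]
    congr 1
    · rw [fb_four, map_sub]
      ring
    · have hcs : ∀ (s : Finset (Fin d)) (f : Fin d → Polynomial ℚ),
          (∑ x ∈ s, f x).comp (Polynomial.X + 4) = ∑ x ∈ s, (f x).comp (Polynomial.X + 4) := by
        intro s f
        exact map_sum (Polynomial.compRingHom (Polynomial.X + 4)) f s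
      rw [hcs]
      refine Finset.sum_congr rfl fun j _ => ?_
      rw [hcs]
      refine Finset.sum_congr rfl fun i _ => ?_
      split_ifs
      · rfl
      · exact Polynomial.zero_comp
  have hterm : ∀ j i : Fin d, (Polynomial.reflect (1 + N) (if i < j ∧ ¬ H.Adj (L i) (L j) then
        (R (merged H L i j)).comp (Polynomial.X + 4) else 0) : Polynomial ℚ) =
      Polynomial.X ^ 2 * (if i < j ∧ ¬ H.Adj (L i) (L j) then
        Polynomial.reflect (Nat.card {x : V // x ≠ L i} - 3)
          ((R (merged H L i j)).comp (Polynomial.X + 4)) else 0) := by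
    intro j i
    split_ifs with hc
    · obtain ⟨hij, hn⟩ := hc
      have hN1 : 1 ≤ N := by
        by_contra hcon
        have h0 : N = 0 := by omega
        have htop := hasTri_top_of_card H hH (by rw [hN, h0])
        apply hn
        rw [htop, SimpleGraph.top_adj]
        exact fun h => hij.ne (hL h)
      have ht := fb_merged_tri H hH d L hL i j hij hn
      have hdeg := fb_deg (merged H L i j) ht
      have hcm : Nat.card {x : V // x ≠ L i} - 3 = N - 1 := by
        rw [fb_card_ne, hN]
        omega
      rw [hcm] at hdeg ⊢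
      have h1N : 1 + N = 2 + (N - 1) := by omega
      rw [h1N]
      exact fb_shift 2 (N - 1) _ hdeg
    · rw [Polynomial.reflect_zero, mul_zero]
  have hfin : ∀ (s : Finset (Fin d)) (f : Fin d → Polynomial ℚ),
      Polynomial.reflect (1 + N) (∑ x ∈ s, f x) = ∑ x ∈ s, Polynomial.reflect (1 + N) (f x) := by
    intro s f
    induction s using Finset.induction_on with
    | empty => simp
    | insert a s ha ih =>
      rw [Finset.sum_insert ha, Finset.sum_insert ha, Polynomial.reflect_add, ih]
  unfold FF
  rw [hcardO, hmain, hcard, Polynomial.reflect_add, hfin]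
  have hlin : Polynomial.reflect (1 + N) ((Polynomial.X + Polynomial.C (4 - (d : ℚ))) *
      (R H).comp (Polynomial.X + 4)) =
      (1 + Polynomial.C (4 - (d : ℚ)) * Polynomial.X) *
        Polynomial.reflect N ((R H).comp (Polynomial.X + 4)) := by
    have hdH := fb_deg H hH
    rw [hcard] at hdH
    rw [Polynomial.reflect_mul _ _ (F := 1) (G := N) (Polynomial.natDegree_X_add_C _).le hdH]
    congr 1
    rw [Polynomial.reflect_add, Polynomial.reflect_C, pow_one]
    congr 1
    have : (Polynomial.X : Polynomial ℚ) = Polynomial.C 1 * Polynomial.X ^ 1 := by simp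
    rw [this, Polynomial.reflect_C_mul_X_pow, Polynomial.revAt_le le_rfl]
    simp
  rw [hlin, Polynomial.coe_add, Polynomial.coe_mul]
  congr 1
  · congr 1
    rw [Polynomial.coe_add, Polynomial.coe_mul, Polynomial.coe_one, Polynomial.coe_C,
      Polynomial.coe_X]
  · have hs : (∑ j : Fin d, Polynomial.reflect (1 + N) (∑ i : Fin d,
        if i < j ∧ ¬ H.Adj (L i) (L j) then
          (R (merged H L i j)).comp (Polynomial.X + 4) else 0)) =
        Polynomial.X ^ 2 * ∑ j : Fin d, ∑ i : Fin d, (if i < j ∧ ¬ H.Adj (L i) (L j) then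
        Polynomial.reflect (Nat.card {x : V // x ≠ L i} - 3)
          ((R (merged H L i j)).comp (Polynomial.X + 4)) else 0) := by
      rw [Finset.mul_sum]
      refine Finset.sum_congr rfl fun j _ => ?_
      rw [hfin, Finset.mul_sum]
      exact Finset.sum_congr rfl fun i _ => hterm j i
    rw [hs, Polynomial.coe_mul, Polynomial.coe_pow, Polynomial.coe_X]
    congr 1
    have hc : ∀ (s : Finset (Fin d)) (f : Fin d → Polynomial ℚ),
        ((∑ x ∈ s, f x : Polynomial ℚ) : PowerSeries ℚ) = ∑ x ∈ s, (f x : PowerSeries ℚ) := by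
      intro s f
      exact map_sum (Polynomial.coeToPowerSeries.ringHom (R := ℚ)) f s
    rw [hc]
    refine Finset.sum_congr rfl fun j _ => ?_
    rw [hc]
    refine Finset.sum_congr rfl fun i _ => ?_
    split_ifs
    · rfl
    · exact Polynomial.coe_zero

theorem FF_cone_insert {V : Type} [Fintype V] (H : SimpleGraph V) (hH : HasTri H) (S : Set V)
    (u : V) (hu : u ∉ S) :
    FF (cone H S) = FF (cone H (insert u S)) + PowerSeries.X * FF (addStar H u S) := by
  have h3 := fb_card3 H hH
  obtain ⟨N, hN⟩ := Nat.exists_eq_add_of_le h3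
  have hcard : Nat.card V - 3 = N := by
    rw [Nat.card_eq_fintype_card, hN]
    omega
  have hcardO : Nat.card (Option V) - 3 = 1 + N := by
    rw [Nat.card_eq_fintype_card, Fintype.card_option, hN]
    omega
  unfold FF
  rw [hcardO, hcard, R_cone_insert H hH S u hu, Polynomial.add_comp, Polynomial.reflect_add,
    Polynomial.coe_add]
  congr 1
  have hdeg := fb_deg (addStar H u S) (hH.addStar u S)
  rw [hcard] at hdeg
  rw [fb_shift 1 N _ hdeg, pow_one, Polynomial.coe_mul, Polynomial.coe_X]

theorem FF_cone_pair {V : Type} [Fintype V] (H : SimpleGraph V) (hH : HasTri H) (p q : V)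
    (hpq : H.Adj p q) : FF (cone H {p, q}) = (1 + 2 * PowerSeries.X) * FF H := by
  classical
  have hL : Function.Injective (![p, q] : Fin 2 → V) := by
    intro i j hij
    fin_cases i <;> fin_cases j
    · rfl
    · exact absurd hij hpq.ne
    · exact absurd hij.symm hpq.ne
    · rfl
  have hr : Set.range (![p, q] : Fin 2 → V) = {p, q} := by
    ext x
    constructor
    · rintro ⟨i, rfl⟩
      fin_cases i
      · exact Or.inl rfl
      · exact Or.inr rfl
    · rintro (rfl | rfl)
      · exact ⟨0, rfl⟩
      · exact ⟨1, rfl⟩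
  have h := FF_cone H hH 2 ![p, q] hL
  rw [hr] at h
  rw [h]
  have hz : (∑ j : Fin 2, ∑ i : Fin 2, if i < j ∧ ¬ H.Adj ((![p, q] : Fin 2 → V) i)
      ((![p, q] : Fin 2 → V) j) then FF (merged H ![p, q] i j) else 0) = 0 := by
    refine Finset.sum_eq_zero fun j _ => Finset.sum_eq_zero fun i _ => ?_
    rw [if_neg]
    rintro ⟨hij, hn⟩
    fin_cases i <;> fin_cases j
    · exact absurd hij (lt_irrefl _)
    · exact hn hpq
    · exact absurd hij (by decide)
    · exact absurd hij (lt_irrefl _)
  rw [hz, mul_zero, add_zero]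
  congr 2
  have : (4 : ℚ) - ((2 : ℕ) : ℚ) = 2 := by norm_num
  rw [this, map_ofNat]

end Pool.Agent.Lib.MP_f52c03_co.BL
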