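import Pool.Agent.Lib.MP_f52c03_co.BL.Defs

set_option autoImplicit false

open Polynomial

namespace Pool.Agent.Lib.MP_f52c03_co.BL

/-- an injective map preserving adjacency gives a minor -/
private theorem Minor_of_inj {V W : Type} {G : SimpleGraph V} {H : SimpleGraph W} (φ : W → V)
    (hφ : Function.Injective φ) (hadj : ∀ a b, H.Adj a b → G.Adj (φ a) (φ b)) : IsMinor H G := by
  have hp := hφ.isPartialInv
  refine ⟨Function.partialInv φ, ?_, ?_⟩
  · intro w
    have hmem : φ w ∈ {v | Function.partialInv φ v = some w} := (hp w (φ w)).2 rfl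
    have : Nonempty {v | Function.partialInv φ v = some w} := ⟨⟨φ w, hmem⟩⟩
    refine ⟨?_⟩
    rintro ⟨x, hx⟩ ⟨y, hy⟩
    have hx' : φ w = x := (hp w x).1 hx
    have hy' : φ w = y := (hp w y).1 hy
    subst hx'
    subst hy'
    exact SimpleGraph.Reachable.refl _
  · intro a b hab
    exact ⟨φ a, φ b, (hp a _).2 rfl, (hp b _).2 rfl, hadj a b hab⟩

theorem IsMinor.refl {V : Type} (G : SimpleGraph V) : IsMinor G G :=
  Minor_of_inj id Function.injective_id (fun _ _ h => h)

private theorem Minor_reach_same {U W V : Type} {C : SimpleGraph V} (f1 : W → Option U)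
    (f2 : V → Option W) (hf2 : ∀ w : W, (C.induce {v | f2 v = some w}).Connected) (u : U) (w : W)
    (hw : f1 w = some u) (x y : V) (hx : f2 x = some w) (hy : f2 y = some w)
    (hx' : x ∈ {v | (f2 v).bind f1 = some u}) (hy' : y ∈ {v | (f2 v).bind f1 = some u}) :
    (C.induce {v | (f2 v).bind f1 = some u}).Reachable ⟨x, hx'⟩ ⟨y, hy'⟩ := by
  have h := (hf2 w).preconnected ⟨x, hx⟩ ⟨y, hy⟩
  have hle : {v | f2 v = some w} ⊆ {v | (f2 v).bind f1 = some u} := by
    intro v hv
    simp only [Set.mem_ofPred_eq] at hv ⊢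
    rw [hv]
    simpa using hw
  exact h.map (SimpleGraph.induceHomOfLE C hle).toHom

private theorem Minor_reach_walk {U W V : Type} {B : SimpleGraph W} {C : SimpleGraph V}
    (f1 : W → Option U) (f2 : V → Option W)
    (hf2 : ∀ w : W, (C.induce {v | f2 v = some w}).Connected)
    (hadj : ∀ a b : W, B.Adj a b → ∃ u v : V, f2 u = some a ∧ f2 v = some b ∧ C.Adj u v)
    (u : U) {a b : {w | f1 w = some u}} (p : (B.induce {w | f1 w = some u}).Walk a b) :
    ∀ (x y : V) (_ : f2 x = some a.1) (_ : f2 y = some b.1)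
    (hx' : x ∈ {v | (f2 v).bind f1 = some u}) (hy' : y ∈ {v | (f2 v).bind f1 = some u}),
    (C.induce {v | (f2 v).bind f1 = some u}).Reachable ⟨x, hx'⟩ ⟨y, hy'⟩ := by
  induction p with
  | @nil a =>
    intro x y hx hy hx' hy'
    exact Minor_reach_same f1 f2 hf2 u a.1 a.2 x y hx hy hx' hy'
  | @cons a c b hac p ih =>
    intro x y hx hy hx' hy'
    have hac' : B.Adj a.1 c.1 := hac
    obtain ⟨s, t, hs, ht, hst⟩ := hadj _ _ hac'
    have hs' : s ∈ {v | (f2 v).bind f1 = some u} := by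
      simp only [Set.mem_ofPred_eq]
      rw [hs]
      exact a.2
    have ht' : t ∈ {v | (f2 v).bind f1 = some u} := by
      simp only [Set.mem_ofPred_eq]
      rw [ht]
      exact c.2
    have h1 := Minor_reach_same f1 f2 hf2 u a.1 a.2 x s hx hs hx' hs'
    have h2 : (C.induce {v | (f2 v).bind f1 = some u}).Reachable ⟨s, hs'⟩ ⟨t, ht'⟩ :=
      SimpleGraph.Adj.reachable (by exact hst)
    exact (h1.trans h2).trans (ih t y ht hy ht' hy')

theorem IsMinor.trans {U W V : Type} {A : SimpleGraph U} {B : SimpleGraph W} {C : SimpleGraph V}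
    (h1 : IsMinor A B) (h2 : IsMinor B C) : IsMinor A C := by
  obtain ⟨f1, hc1, ha1⟩ := h1
  obtain ⟨f2, hc2, ha2⟩ := h2
  refine ⟨fun v => (f2 v).bind f1, ?_, ?_⟩
  · intro u
    obtain ⟨w, hw⟩ := (hc1 u).nonempty
    obtain ⟨v, hv⟩ := (hc2 w).nonempty
    have hv' : v ∈ {v | (f2 v).bind f1 = some u} := by
      simp only [Set.mem_ofPred_eq] at hv hw ⊢
      rw [hv]
      exact hw
    have : Nonempty {v | (f2 v).bind f1 = some u} := ⟨⟨v, hv'⟩⟩
    refine ⟨?_⟩
    rintro ⟨x, hx⟩ ⟨y, hy⟩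
    have hx1 : (f2 x).bind f1 = some u := hx
    have hy1 : (f2 y).bind f1 = some u := hy
    obtain ⟨a, hxa, ha⟩ := Option.bind_eq_some_iff.1 hx1
    obtain ⟨b, hyb, hb⟩ := Option.bind_eq_some_iff.1 hy1
    obtain ⟨p⟩ := (hc1 u).preconnected ⟨a, ha⟩ ⟨b, hb⟩
    exact Minor_reach_walk f1 f2 hc2 ha2 u p x y hxa hyb hx hy
  · intro a b hab
    obtain ⟨s, t, hs, ht, hst⟩ := ha1 a b hab
    obtain ⟨x, y, hx, hy, hxy⟩ := ha2 s t hst
    refine ⟨x, y, ?_, ?_, hxy⟩
    · show (f2 x).bind f1 = some a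
      rw [hx]
      exact hs
    · show (f2 y).bind f1 = some b
      rw [hy]
      exact ht

theorem IsMinor.of_le {V : Type} {G G' : SimpleGraph V} (h : G ≤ G') : IsMinor G G' :=
  Minor_of_inj id Function.injective_id (fun _ _ hab => h hab)

theorem IsMinor.of_iso {V W : Type} {G : SimpleGraph V} {H : SimpleGraph W} (e : H ≃g G) :
    IsMinor H G :=
  Minor_of_inj e e.injective (fun _ _ hab => e.map_adj_iff.2 hab)

theorem IsMinor.induce {V : Type} (G : SimpleGraph V) (s : Set V) : IsMinor (G.induce s) G :=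
  Minor_of_inj Subtype.val Subtype.val_injective (fun _ _ hab => hab)

theorem IsMinor.del {V : Type} (G : SimpleGraph V) (v : V) : IsMinor (del G v) G :=
  Minor_of_inj Subtype.val Subtype.val_injective (fun _ _ hab => hab)

theorem Sparse.minor {W V : Type} {H : SimpleGraph W} {G : SimpleGraph V} (hG : Sparse G)
    (h : IsMinor H G) : Sparse H := by
  intro W' _ H' hm hc
  exact hG W' H' (hm.trans h) hc

theorem Low.minor {W V : Type} {H : SimpleGraph W} {G : SimpleGraph V} (hG : Low G)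
    (h : IsMinor H G) : Low H := by
  intro W' _ _ H' hm
  exact hG W' H' (hm.trans h)

end Pool.Agent.Lib.MP_f52c03_co.BL
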