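import Pool.Agent.Lib.MP_f52c03_co.BL.Defs2
import Pool.Agent.Lib.MP_f52c03_co.BL.Minor

set_option autoImplicit false

namespace Pool.Agent.Lib.MP_f52c03_co.BL

private theorem conn_of_base {V : Type} {G : SimpleGraph V} {A : Set V} (a : V) (ha : a ∈ A)
    (h : ∀ x (hx : x ∈ A), (G.induce A).Reachable ⟨x, hx⟩ ⟨a, ha⟩) : (G.induce A).Connected := by
  have : Nonempty A := ⟨⟨a, ha⟩⟩
  exact ⟨fun x y => (h x.1 x.2).trans (h y.1 y.2).symm⟩

/-- the vertices reached from `w` by walks avoiding `S` -/
private def Cmp {V : Type} (G : SimpleGraph V) (S : Set V) (w : V) : Set V :=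
  {x | Relation.ReflTransGen (fun x y => G.Adj x y ∧ y ∉ S) w x}

private theorem mem_self {V : Type} (G : SimpleGraph V) (S : Set V) (w : V) : w ∈ Cmp G S w :=
  Relation.ReflTransGen.refl

private theorem notin_S {V : Type} {G : SimpleGraph V} {S : Set V} {w x : V} (hw : w ∉ S)
    (hx : x ∈ Cmp G S w) : x ∉ S := by
  have hx' : Relation.ReflTransGen (fun x y => G.Adj x y ∧ y ∉ S) w x := hx
  induction hx' with
  | refl => exact hw
  | tail _ h2 _ => exact h2.2

private theorem closed {V : Type} {G : SimpleGraph V} {S : Set V} {w x y : V}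
    (hx : x ∈ Cmp G S w) (h : G.Adj x y) (hy : y ∉ S) : y ∈ Cmp G S w :=
  Relation.ReflTransGen.tail hx ⟨h, hy⟩

private theorem reach {V : Type} {G : SimpleGraph V} {S : Set V} {w : V} (A : Set V)
    (hA : Cmp G S w ⊆ A) (x : V) (hx : x ∈ Cmp G S w) :
    (G.induce A).Reachable ⟨x, hA hx⟩ ⟨w, hA (mem_self G S w)⟩ := by
  have hx' : Relation.ReflTransGen (fun x y => G.Adj x y ∧ y ∉ S) w x := hx
  induction hx' with
  | refl => exact SimpleGraph.Reachable.refl _
  | tail h1 h2 ih =>
    rename_i y z
    have := ih h1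
    refine SimpleGraph.Reachable.trans (SimpleGraph.Adj.reachable ?_) this
    exact h2.1.symm

/-- the case that `d` has no neighbour in the component -/
private theorem main_case {V : Type} (G : SimpleGraph V) (hC : G.Connected) (w a b c d : V)
    (hab : G.Adj a b) (hac : G.Adj a c) (had : G.Adj a d) (hbc : G.Adj b c) (hbd : G.Adj b d)
    (hcd : G.Adj c d) (hw : w ∉ ({a, b, c, d} : Set V))
    (hd : ∀ x ∈ Cmp G {a, b, c, d} w, ¬ G.Adj x d) :
    ∃ (A B : Set V) (x y z : V), G.Adj x y ∧ G.Adj y z ∧ G.Adj x z ∧ A ∪ B = Set.univ ∧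
      A ∩ B = {x, y, z} ∧ (∀ u v, u ∈ A → u ∉ B → v ∈ B → v ∉ A → ¬ G.Adj u v) ∧
      A ≠ Set.univ ∧ B ≠ Set.univ ∧ (G.induce A).Connected ∧ (G.induce B).Connected := by
  set S : Set V := {a, b, c, d} with hSdef
  set K : Set V := Cmp G S w with hK
  have hKS : ∀ x ∈ K, x ∉ S := fun x hx => notin_S hw hx
  have haK : a ∉ K := fun h => hKS a h (by simp [S])
  have hbK : b ∉ K := fun h => hKS b h (by simp [S])
  have hcK : c ∉ K := fun h => hKS c h (by simp [S])
  have hdK : d ∉ K := fun h => hKS d h (by simp [S])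
  -- edges out of `K` go to `a`, `b`, `c`
  have hout : ∀ x ∈ K, ∀ y, y ∉ K → G.Adj x y → y = a ∨ y = b ∨ y = c := by
    intro x hx y hy hxy
    by_contra hcon
    push Not at hcon
    apply hy
    apply closed hx hxy
    intro hyS
    simp only [S, Set.mem_insert_iff, Set.mem_singleton_iff] at hyS
    rcases hyS with h | h | h | h
    · exact hcon.1 h
    · exact hcon.2.1 h
    · exact hcon.2.2 h
    · exact hd x hx (h ▸ hxy)
  refine ⟨K ∪ {a, b, c}, Kᶜ, a, b, c, hab, hbc, hac, ?_, ?_, ?_, ?_, ?_, ?_, ?_⟩
  · ext x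
    simp only [Set.mem_union, Set.mem_compl_iff, Set.mem_univ, iff_true]
    tauto
  · ext x
    simp only [Set.mem_inter_iff, Set.mem_union, Set.mem_insert_iff, Set.mem_singleton_iff,
      Set.mem_compl_iff]
    constructor
    · rintro ⟨h1 | h1, h2⟩
      · exact absurd h1 h2
      · exact h1
    · intro h
      refine ⟨Or.inr h, ?_⟩
      rcases h with rfl | rfl | rfl
      · exact haK
      · exact hbK
      · exact hcK
  · intro u v _ hu hv hv' huv
    have hu' : u ∈ K := by
      by_contra h
      exact hu h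
    have := hout u hu' v hv huv
    apply hv'
    right
    simpa using this
  · intro h
    have : d ∈ K ∪ {a, b, c} := by rw [h]; trivial
    simp only [Set.mem_union, Set.mem_insert_iff, Set.mem_singleton_iff] at this
    rcases this with h | h | h | h
    · exact hdK h
    · exact had.ne h.symm
    · exact hbd.ne h.symm
    · exact hcd.ne h.symm
  · intro h
    have : w ∈ Kᶜ := by rw [h]; trivial
    exact this (mem_self G S w)
  · -- `A` is connected
    have hKA : Cmp G S w ⊆ K ∪ {a, b, c} := fun x hx => Or.inl hx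
    have haA : a ∈ K ∪ {a, b, c} := Or.inr (by simp)
    have hbA : b ∈ K ∪ {a, b, c} := Or.inr (by simp)
    have hcA : c ∈ K ∪ {a, b, c} := Or.inr (by simp)
    -- an edge between `K` and its complement
    have hedge : ∃ u ∈ K, ∃ v, v ∉ K ∧ G.Adj u v := by
      by_contra hcon
      push Not at hcon
      have hall : ∀ x, G.Reachable w x → x ∈ K := by
        intro x hx
        rw [SimpleGraph.reachable_iff_reflTransGen] at hx
        induction hx with
        | refl => exact mem_self G S w
        | tail _ h2 ih =>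
          by_contra hn
          exact hcon _ ih _ hn h2
      exact haK (hall a (hC.preconnected w a))
    obtain ⟨u, hu, v, hv, huv⟩ := hedge
    have hv3 := hout u hu v hv huv
    have hvA : v ∈ K ∪ {a, b, c} := Or.inr (by simpa using hv3)
    have hva : (G.induce (K ∪ {a, b, c})).Reachable ⟨v, hvA⟩ ⟨a, haA⟩ := by
      rcases hv3 with rfl | rfl | rfl
      · exact SimpleGraph.Reachable.refl _
      · exact SimpleGraph.Adj.reachable hab.symm
      · exact SimpleGraph.Adj.reachable hac.symm
    have huv' : (G.induce (K ∪ {a, b, c})).Reachable ⟨u, hKA hu⟩ ⟨v, hvA⟩ :=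
      SimpleGraph.Adj.reachable huv
    have hwa : (G.induce (K ∪ {a, b, c})).Reachable ⟨w, hKA (mem_self G S w)⟩ ⟨a, haA⟩ :=
      ((reach _ hKA u hu).symm.trans huv').trans hva
    apply conn_of_base a haA
    intro x hx
    rcases hx with hx1 | hx1
    · exact (reach _ hKA x hx1).trans hwa
    · have hx2 : x = a ∨ x = b ∨ x = c := by simpa using hx1
      rcases hx2 with rfl | rfl | rfl
      · exact SimpleGraph.Reachable.refl _
      · exact SimpleGraph.Adj.reachable hab.symm
      · exact SimpleGraph.Adj.reachable hac.symm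
  · -- `B` is connected
    apply conn_of_base a haK
    intro x hx
    have key : ∀ x, Relation.ReflTransGen G.Adj a x → ∀ hx : x ∈ Kᶜ,
        (G.induce Kᶜ).Reachable ⟨x, hx⟩ ⟨a, haK⟩ := by
      intro x h
      induction h with
      | refl => intro _; exact SimpleGraph.Reachable.refl _
      | tail h1 h2 ih =>
        rename_i y z
        intro hz
        by_cases hy : y ∈ K
        · rcases hout y hy z hz h2 with rfl | rfl | rfl
          · exact SimpleGraph.Reachable.refl _
          · exact SimpleGraph.Adj.reachable hab.symm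
          · exact SimpleGraph.Adj.reachable hac.symm
        · have h3 : (G.induce Kᶜ).Reachable ⟨z, hz⟩ ⟨y, hy⟩ :=
            SimpleGraph.Adj.reachable h2.symm
          exact h3.trans (ih hy)
    have := hC.preconnected a x
    rw [SimpleGraph.reachable_iff_reflTransGen] at this
    exact key x this hx

private theorem ne_top_five : ne (⊤ : SimpleGraph (Fin 5)) = 10 := by
  unfold ne
  rw [Nat.card_eq_fintype_card, ← SimpleGraph.edgeFinset_card,
    SimpleGraph.card_edgeFinset_top_eq_card_choose_two]
  simp [Nat.choose]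

/-- the complete graph on five vertices is not a minor -/
private theorem no_K5 {V : Type} (G : SimpleGraph V) (hS : Sparse G) (w a b c d : V)
    (hab : G.Adj a b) (hac : G.Adj a c) (had : G.Adj a d) (hbc : G.Adj b c) (hbd : G.Adj b d)
    (hcd : G.Adj c d) (hw : w ∉ ({a, b, c, d} : Set V))
    (h1 : ∃ x ∈ Cmp G {a, b, c, d} w, G.Adj x a) (h2 : ∃ x ∈ Cmp G {a, b, c, d} w, G.Adj x b)
    (h3 : ∃ x ∈ Cmp G {a, b, c, d} w, G.Adj x c) (h4 : ∃ x ∈ Cmp G {a, b, c, d} w, G.Adj x d) :
    False := by
  classical
  set S : Set V := {a, b, c, d} with hSdef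
  set K : Set V := Cmp G S w with hK
  have hKS : ∀ x ∈ K, x ∉ S := fun x hx => notin_S hw hx
  have haK : a ∉ K := fun h => hKS a h (by simp [S])
  have hbK : b ∉ K := fun h => hKS b h (by simp [S])
  have hcK : c ∉ K := fun h => hKS c h (by simp [S])
  have hdK : d ∉ K := fun h => hKS d h (by simp [S])
  have nab := hab.ne
  have nac := hac.ne
  have nad := had.ne
  have nbc := hbc.ne
  have nbd := hbd.ne
  have ncd := hcd.ne
  let f : V → Option (Fin 5) := fun x =>
    if x = a then some 0 else if x = b then some 1 else if x = c then some 2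
    else if x = d then some 3 else if x ∈ K then some 4 else none
  have fa : f a = some 0 := by simp [f]
  have fb : f b = some 1 := by simp [f, nab.symm]
  have fc : f c = some 2 := by simp [f, nac.symm, nbc.symm]
  have fd : f d = some 3 := by simp [f, nad.symm, nbd.symm, ncd.symm]
  have fK : ∀ x ∈ K, f x = some 4 := by
    intro x hx
    have h1 : x ≠ a := fun h => haK (h ▸ hx)
    have h2 : x ≠ b := fun h => hbK (h ▸ hx)
    have h3 : x ≠ c := fun h => hcK (h ▸ hx)
    have h4 : x ≠ d := fun h => hdK (h ▸ hx)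
    simp [f, h1, h2, h3, h4, hx]
  have f0 : ∀ x, f x = some 0 → x = a := by
    intro x hx
    simp only [f] at hx
    split_ifs at hx with g1 g2 g3 g4 g5
    · exact g1
    all_goals simp at hx
  have f1 : ∀ x, f x = some 1 → x = b := by
    intro x hx
    simp only [f] at hx
    split_ifs at hx with g1 g2 g3 g4 g5
    · simp at hx
    · exact g2
    all_goals simp at hx
  have f2 : ∀ x, f x = some 2 → x = c := by
    intro x hx
    simp only [f] at hx
    split_ifs at hx with g1 g2 g3 g4 g5
    · simp at hx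
    · simp at hx
    · exact g3
    all_goals simp at hx
  have f3 : ∀ x, f x = some 3 → x = d := by
    intro x hx
    simp only [f] at hx
    split_ifs at hx with g1 g2 g3 g4 g5
    · simp at hx
    · simp at hx
    · simp at hx
    · exact g4
    all_goals simp at hx
  have f4 : ∀ x, f x = some 4 → x ∈ K := by
    intro x hx
    simp only [f] at hx
    split_ifs at hx with g1 g2 g3 g4 g5
    · simp at hx
    · simp at hx
    · simp at hx
    · simp at hx
    · exact g5
  have hminor : IsMinor (⊤ : SimpleGraph (Fin 5)) G := by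
    refine ⟨f, ?_, ?_⟩
    · have single : ∀ (i : Fin 5) (p : V), f p = some i → (∀ x, f x = some i → x = p) →
          (G.induce {v | f v = some i}).Connected := by
        intro i p hp hx
        refine conn_of_base p (by exact hp) ?_
        intro x hx'
        have : x = p := hx x hx'
        subst this
        exact SimpleGraph.Reachable.refl _
      intro i
      fin_cases i
      · exact single 0 a fa f0
      · exact single 1 b fb f1
      · exact single 2 c fc f2
      · exact single 3 d fd f3
      · have hsub : Cmp G S w ⊆ {v | f v = some 4} := fun x hx => fK x hx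
        refine conn_of_base w (hsub (mem_self G S w)) ?_
        intro x hx
        exact reach _ hsub x (f4 x hx)
    · obtain ⟨x1, hx1, e1⟩ := h1
      obtain ⟨x2, hx2, e2⟩ := h2
      obtain ⟨x3, hx3, e3⟩ := h3
      obtain ⟨x4, hx4, e4⟩ := h4
      intro i j hij
      have hij' : i ≠ j := hij
      fin_cases i <;> fin_cases j
      · exact absurd rfl hij'
      · exact ⟨a, b, fa, fb, hab⟩
      · exact ⟨a, c, fa, fc, hac⟩
      · exact ⟨a, d, fa, fd, had⟩
      · exact ⟨a, x1, fa, fK x1 hx1, e1.symm⟩
      · exact ⟨b, a, fb, fa, hab.symm⟩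
      · exact absurd rfl hij'
      · exact ⟨b, c, fb, fc, hbc⟩
      · exact ⟨b, d, fb, fd, hbd⟩
      · exact ⟨b, x2, fb, fK x2 hx2, e2.symm⟩
      · exact ⟨c, a, fc, fa, hac.symm⟩
      · exact ⟨c, b, fc, fb, hbc.symm⟩
      · exact absurd rfl hij'
      · exact ⟨c, d, fc, fd, hcd⟩
      · exact ⟨c, x3, fc, fK x3 hx3, e3.symm⟩
      · exact ⟨d, a, fd, fa, had.symm⟩
      · exact ⟨d, b, fd, fb, hbd.symm⟩
      · exact ⟨d, c, fd, fc, hcd.symm⟩
      · exact absurd rfl hij'
      · exact ⟨d, x4, fd, fK x4 hx4, e4.symm⟩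
      · exact ⟨x1, a, fK x1 hx1, fa, e1⟩
      · exact ⟨x2, b, fK x2 hx2, fb, e2⟩
      · exact ⟨x3, c, fK x3 hx3, fc, e3⟩
      · exact ⟨x4, d, fK x4 hx4, fd, e4⟩
      · exact absurd rfl hij'
  have := (hS (Fin 5) ⊤ hminor (by simp)).1
  rw [ne_top_five] at this
  simp at this

/-- a complete graph on four vertices gives a separating triangle -/
theorem exists_clique_sum {V : Type} [Fintype V] (G : SimpleGraph V) (hS : Sparse G)
    (hC : G.Connected) (hc : 5 ≤ Fintype.card V) (a b c d : V) (hab : G.Adj a b) (hac : G.Adj a c)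
    (had : G.Adj a d) (hbc : G.Adj b c) (hbd : G.Adj b d) (hcd : G.Adj c d) :
    ∃ (A B : Set V) (x y z : V), G.Adj x y ∧ G.Adj y z ∧ G.Adj x z ∧ A ∪ B = Set.univ ∧
      A ∩ B = {x, y, z} ∧ (∀ u v, u ∈ A → u ∉ B → v ∈ B → v ∉ A → ¬ G.Adj u v) ∧
      A ≠ Set.univ ∧ B ≠ Set.univ ∧ (G.induce A).Connected ∧ (G.induce B).Connected := by
  classical
  -- a vertex outside
  have hw : ∃ w : V, w ∉ ({a, b, c, d} : Set V) := by
    by_contra hcon
    push Not at hcon
    have h1 : (Finset.univ : Finset V) ⊆ {a, b, c, d} := by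
      intro x _
      have := hcon x
      simpa using this
    have h2 := Finset.card_le_card h1
    have h3 : ({a, b, c, d} : Finset V).card ≤ 4 := Finset.card_le_four
    rw [Finset.card_univ] at h2
    omega
  obtain ⟨w, hw⟩ := hw
  have p1 : ({b, c, d, a} : Set V) = {a, b, c, d} := by
    ext x; simp only [Set.mem_insert_iff, Set.mem_singleton_iff]; tauto
  have p2 : ({a, c, d, b} : Set V) = {a, b, c, d} := by
    ext x; simp only [Set.mem_insert_iff, Set.mem_singleton_iff]; tauto
  have p3 : ({a, b, d, c} : Set V) = {a, b, c, d} := by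
    ext x; simp only [Set.mem_insert_iff, Set.mem_singleton_iff]; tauto
  by_cases h1 : ∃ x ∈ Cmp G {a, b, c, d} w, G.Adj x a
  swap
  · push Not at h1
    exact main_case G hC w b c d a hbc hbd hab.symm hcd hac.symm had.symm (by rw [p1]; exact hw)
      (by rw [p1]; exact h1)
  by_cases h2 : ∃ x ∈ Cmp G {a, b, c, d} w, G.Adj x b
  swap
  · push Not at h2
    exact main_case G hC w a c d b hac had hab hcd hbc.symm hbd.symm (by rw [p2]; exact hw)
      (by rw [p2]; exact h2)
  by_cases h3 : ∃ x ∈ Cmp G {a, b, c, d} w, G.Adj x c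
  swap
  · push Not at h3
    exact main_case G hC w a b d c hab had hac hbd hbc hcd.symm (by rw [p3]; exact hw)
      (by rw [p3]; exact h3)
  by_cases h4 : ∃ x ∈ Cmp G {a, b, c, d} w, G.Adj x d
  swap
  · push Not at h4
    exact main_case G hC w a b c d hab hac had hbc hbd hcd hw h4
  exact (no_K5 G hS w a b c d hab hac had hbc hbd hcd hw h1 h2 h3 h4).elim

end Pool.Agent.Lib.MP_f52c03_co.BL
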