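import Pool.Agent.Lib.MP_f52c03_co.BL.Defs2
import Pool.Agent.Lib.MP_f52c03_co.BL.Minor
import Pool.Agent.Lib.MP_f52c03_co.BL.ConeMinor

set_option autoImplicit false

namespace Pool.Agent.Lib.MP_f52c03_co.BL

/-! ### connectivity -/

theorem connected_iso {V W : Type} {G : SimpleGraph V} {H : SimpleGraph W} (e : H ≃g G)
    (hH : H.Connected) : G.Connected := e.connected_iff.1 hH

private theorem Lo_le_addStar {V : Type} (H : SimpleGraph V) (u : V) (T : Set V) :
    H ≤ addStar H u T := by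
  intro a b hab
  rw [addStar, SimpleGraph.fromRel_adj]
  exact ⟨hab.ne, Or.inl (Or.inl hab)⟩

theorem addStar_connected {V : Type} (H : SimpleGraph V) (hH : H.Connected) (u : V) (T : Set V) :
    (addStar H u T).Connected := hH.mono (Lo_le_addStar H u T)

private theorem Lo_reach {V W : Type} {G : SimpleGraph V} {K : SimpleGraph W} (f : V → W)
    (h : ∀ a b, G.Adj a b → f a = f b ∨ K.Adj (f a) (f b)) {a b : V} (hab : G.Reachable a b) :
    K.Reachable (f a) (f b) := by
  obtain ⟨p⟩ := hab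
  induction p with
  | nil => exact SimpleGraph.Reachable.refl _
  | cons hadj _ ih =>
    rcases h _ _ hadj with h1 | h1
    · rw [h1]; exact ih
    · exact h1.reachable.trans ih

open Classical in
/-- the identification map -/
private noncomputable def Lo_f {V : Type} (a b : V) (hab : a ≠ b) (x : V) : {x : V // x ≠ b} :=
  if h : x = b then ⟨a, hab⟩ else ⟨x, h⟩

private theorem Lo_f_b {V : Type} (a b : V) (hab : a ≠ b) : Lo_f a b hab b = ⟨a, hab⟩ := by
  simp [Lo_f]

private theorem Lo_f_ne {V : Type} (a b : V) (hab : a ≠ b) (x : V) (hx : x ≠ b) :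
    Lo_f a b hab x = ⟨x, hx⟩ := by
  simp [Lo_f, hx]

private theorem Lo_ident_adj {V : Type} (G : SimpleGraph V) (a b : V) (hab : a ≠ b) (x y : V)
    (h : G.Adj x y) : Lo_f a b hab x = Lo_f a b hab y ∨
      (ident G a b).Adj (Lo_f a b hab x) (Lo_f a b hab y) := by
  by_cases hx : x = b
  · have hy : y ≠ b := fun hy => h.ne (hx.trans hy.symm)
    subst hx
    rw [Lo_f_b, Lo_f_ne _ _ _ _ hy]
    by_cases hay : a = y
    · left; exact Subtype.ext hay
    · right
      rw [ident, SimpleGraph.fromRel_adj]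
      refine ⟨fun h1 => hay (congrArg Subtype.val h1), Or.inl (Or.inr ⟨rfl, h⟩)⟩
  · by_cases hy : y = b
    · subst hy
      rw [Lo_f_b, Lo_f_ne _ _ _ _ hx]
      by_cases hax : x = a
      · left; exact Subtype.ext hax
      · right
        rw [ident, SimpleGraph.fromRel_adj]
        exact ⟨fun h1 => hax (congrArg Subtype.val h1), Or.inr (Or.inr ⟨rfl, h.symm⟩)⟩
    · right
      rw [Lo_f_ne _ _ _ _ hx, Lo_f_ne _ _ _ _ hy, ident, SimpleGraph.fromRel_adj]
      exact ⟨fun h1 => h.ne (congrArg Subtype.val h1), Or.inl (Or.inl h)⟩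

theorem merged_connected {V : Type} (H : SimpleGraph V) (hH : H.Connected) {d : ℕ} (L : Fin d → V)
    (hL : Function.Injective L) (i j : Fin d) (hij : i < j) : (merged H L i j).Connected := by
  have hne : L j ≠ L i := fun h => hij.ne' (hL h)
  have hc := addStar_connected H hH (L j) (before L i)
  have : Nonempty {x : V // x ≠ L i} := ⟨⟨L j, hne⟩⟩
  refine SimpleGraph.Connected.mk fun x y => ?_
  have h1 := Lo_reach (K := merged H L i j) (Lo_f (L j) (L i) hne)
    (fun a b hab => Lo_ident_adj _ (L j) (L i) hne a b hab) (hc.preconnected x.1 y.1)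
  rw [Lo_f_ne _ _ _ _ x.2, Lo_f_ne _ _ _ _ y.2] at h1
  exact h1

theorem merged_minor {V : Type} (H : SimpleGraph V) {d : ℕ} (L : Fin d → V)
    (hL : Function.Injective L) (i j : Fin d) (hij : i < j) :
    IsMinor (merged H L i j) (cone H (Set.range L)) := by
  refine minor_ident_addStar H (Set.range L) (before L i) (L j) (L i) ⟨j, rfl⟩ ⟨i, rfl⟩
    (fun h => hij.ne' (hL h)) ?_
  rintro x ⟨l, -, rfl⟩
  exact ⟨l, rfl⟩

/-! ### edge counts -/

private theorem Lo_ne_eq {V : Type} (G : SimpleGraph V) : ne G = G.edgeSet.ncard :=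
  Nat.card_coe_set_eq _

theorem ne_cone {V : Type} [Fintype V] (H : SimpleGraph V) (S : Set V) :
    ne (cone H S) = ne H + S.ncard := by
  classical
  rw [Lo_ne_eq, Lo_ne_eq]
  have h1 : (cone H S).edgeSet = (Sym2.map some '' H.edgeSet) ∪
      ((fun x : V => s((none : Option V), some x)) '' S) := by
    ext e
    induction e using Sym2.ind with
    | _ x y =>
      rw [SimpleGraph.mem_edgeSet, cone, SimpleGraph.fromRel_adj]
      constructor
      · rintro ⟨hxy, (⟨a, b, rfl, rfl, hab⟩ | ⟨rfl, b, rfl, hb⟩) |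
          (⟨a, b, rfl, rfl, hab⟩ | ⟨rfl, b, rfl, hb⟩)⟩
        · exact Or.inl ⟨s(a, b), hab, rfl⟩
        · exact Or.inr ⟨b, hb, rfl⟩
        · exact Or.inl ⟨s(b, a), hab.symm, rfl⟩
        · exact Or.inr ⟨b, hb, Sym2.eq_swap⟩
      · rintro (⟨e', he', h2⟩ | ⟨b, hb, h2⟩)
        · induction e' using Sym2.ind with
          | _ a b =>
            rw [Sym2.map_mk, Sym2.eq_iff] at h2
            rcases h2 with ⟨rfl, rfl⟩ | ⟨rfl, rfl⟩
            · exact ⟨fun h => he'.ne (Option.some_injective _ h), Or.inl (Or.inl ⟨a, b, rfl, rfl, he'⟩)⟩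
            · exact ⟨fun h => he'.ne (Option.some_injective _ h).symm,
                Or.inl (Or.inl ⟨b, a, rfl, rfl, he'.symm⟩)⟩
        · have h3 := Sym2.eq_iff.1 h2
          rcases h3 with ⟨rfl, rfl⟩ | ⟨rfl, rfl⟩
          · exact ⟨by simp, Or.inl (Or.inr ⟨rfl, b, rfl, hb⟩)⟩
          · exact ⟨by simp, Or.inr (Or.inr ⟨rfl, b, rfl, hb⟩)⟩
  have h2 : Disjoint (Sym2.map some '' H.edgeSet)
      ((fun x : V => s((none : Option V), some x)) '' S) := by
    rw [Set.disjoint_left]
    rintro _ ⟨e, -, rfl⟩ ⟨x, -, hx⟩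
    induction e using Sym2.ind with
    | _ a b =>
      have h3 := Sym2.eq_iff.1 (hx : s(none, some x) = s(some a, some b))
      rcases h3 with ⟨h4, -⟩ | ⟨h4, -⟩ <;> exact absurd h4 (by simp)
  rw [h1, Set.ncard_union_eq h2 (Set.toFinite _) (Set.toFinite _),
    Set.ncard_image_of_injective _ (Sym2.map.injective (Option.some_injective V)),
    Set.ncard_image_of_injective]
  intro x y hxy
  have h3 := Sym2.eq_iff.1 (hxy : s((none : Option V), some x) = s(none, some y))
  rcases h3 with ⟨-, h4⟩ | ⟨h4, -⟩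
  · exact Option.some_injective _ h4
  · exact absurd h4 (by simp)

theorem ne_merged {V : Type} [Fintype V] (H : SimpleGraph V) {d : ℕ} (L : Fin d → V)
    (hL : Function.Injective L) (M : Fin d → Fin d → Bool)
    (hM : ∀ i j, M i j = true ↔ H.Adj (L i) (L j)) (i j : Fin d) (hij : i < j)
    (hn : ¬ H.Adj (L i) (L j)) :
    ne (merged H L i j) + cM M i j ≤ ne H + aM M i j := by
  classical
  have hne : L j ≠ L i := fun h => hij.ne' (hL h)
  set G := addStar H (L j) (before L i) with hG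
  have hGadj : ∀ x y, G.Adj x y ↔ x ≠ y ∧ ((H.Adj x y ∨ (x = L j ∧ y ∈ before L i)) ∨
      (H.Adj y x ∨ (y = L j ∧ x ∈ before L i))) := fun x y => by
    rw [hG, addStar, SimpleGraph.fromRel_adj]
  -- the star adds at most `aM` edges
  have h1 : G.edgeSet.ncard ≤ ne H + aM M i j := by
    have h2 : G.edgeSet ⊆ H.edgeSet ∪ ((fun l => s(L j, L l)) ''
        ((Finset.univ.filter fun l => l < i ∧ M l j = false : Finset (Fin d)) : Set (Fin d))) := by
      intro e
      induction e using Sym2.ind with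
      | _ x y =>
        intro he
        have he' := (hGadj x y).1 he
        by_cases hH : H.Adj x y
        · exact Or.inl hH
        · right
          rcases he' with ⟨-, (h3 | ⟨rfl, l, hl, rfl⟩) | (h3 | ⟨rfl, l, hl, rfl⟩)⟩
          · exact absurd h3 hH
          · refine ⟨l, ?_, rfl⟩
            simp only [Finset.coe_filter, Finset.mem_univ, true_and, Set.mem_ofPred_eq]
            refine ⟨hl, ?_⟩
            rw [← Bool.not_eq_true, hM]
            exact fun h4 => hH h4.symm
          · exact absurd h3.symm hH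
          · refine ⟨l, ?_, Sym2.eq_swap⟩
            simp only [Finset.coe_filter, Finset.mem_univ, true_and, Set.mem_ofPred_eq]
            refine ⟨hl, ?_⟩
            rw [← Bool.not_eq_true, hM]
            exact hH
    calc G.edgeSet.ncard ≤ _ := Set.ncard_le_ncard h2 (Set.toFinite _)
      _ ≤ H.edgeSet.ncard + _ := Set.ncard_union_le _ _
      _ ≤ ne H + aM M i j := by
          rw [← Lo_ne_eq]
          refine Nat.add_le_add_left ?_ _
          refine (Set.ncard_image_le (Set.toFinite _)).trans ?_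
          rw [Set.ncard_coe_finset]
          rfl
  -- the common neighbours
  set C : Finset (Fin d) := Finset.univ.filter
    (fun l => l ≠ i ∧ l ≠ j ∧ M l i = true ∧ (M l j = true ∨ l < i)) with hC
  set Rm : Set (Sym2 V) := (fun l => s(L i, L l)) '' (C : Set (Fin d)) with hRm
  have hCm : ∀ l ∈ C, l ≠ i ∧ l ≠ j ∧ H.Adj (L l) (L i) ∧ (H.Adj (L l) (L j) ∨ l < i) := by
    intro l hl
    rw [hC, Finset.mem_filter] at hl
    obtain ⟨-, h2, h3, h4, h5⟩ := hl
    exact ⟨h2, h3, (hM l i).1 h4, h5.imp (hM l j).1 id⟩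
  have hRc : Rm.ncard = cM M i j := by
    rw [hRm, Set.ncard_image_of_injective, Set.ncard_coe_finset]
    · rfl
    · intro x y hxy
      have h3 := Sym2.eq_iff.1 (hxy : s(L i, L x) = s(L i, L y))
      rcases h3 with ⟨-, h4⟩ | ⟨h4, h5⟩
      · exact hL h4
      · exact hL (h5.trans h4)
  have hRs : Rm ⊆ G.edgeSet := by
    rintro _ ⟨l, hl, rfl⟩
    obtain ⟨h2, h3, h4, -⟩ := hCm l hl
    exact Lo_le_addStar H _ _ h4.symm
  have h5 : (merged H L i j).edgeSet ⊆ Sym2.map (Lo_f (L j) (L i) hne) '' (G.edgeSet \ Rm) := by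
    intro e
    induction e using Sym2.ind with
    | _ x y =>
      obtain ⟨x, hx⟩ := x
      obtain ⟨y, hy⟩ := y
      intro he
      -- edges which do not meet `L i` are not removed
      have key : ∀ a b, a ≠ L i → b ≠ L i → s(a, b) ∉ Rm := by
        rintro a b ha hb ⟨l, -, hl⟩
        rcases Sym2.eq_iff.1 hl with ⟨h6, -⟩ | ⟨h6, -⟩
        · exact ha h6.symm
        · exact hb h6.symm
      -- an edge from `L i` comes from an edge which is not removed
      have key2 : ∀ b (hb : b ≠ L i), b ≠ L j → G.Adj (L i) b →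
          (s((⟨L j, hne⟩ : {x : V // x ≠ L i}), ⟨b, hb⟩)) ∈
            Sym2.map (Lo_f (L j) (L i) hne) '' (G.edgeSet \ Rm) := by
        intro b hb hbj hadj
        by_cases hr : s(L i, b) ∈ Rm
        · obtain ⟨l, hl, hl'⟩ := hr
          have hlb : L l = b := by
            rcases Sym2.eq_iff.1 hl' with ⟨-, h6⟩ | ⟨h6, h7⟩
            · exact h6
            · exact absurd h6.symm hb
          subst hlb
          obtain ⟨h8, h9, h10, h11⟩ := hCm l hl
          refine ⟨s(L j, L l), ⟨?_, key _ _ hne hb⟩, ?_⟩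
          · rw [SimpleGraph.mem_edgeSet, hGadj]
            refine ⟨hbj.symm, ?_⟩
            rcases h11 with h12 | h12
            · exact Or.inl (Or.inl h12.symm)
            · exact Or.inl (Or.inr ⟨rfl, l, h12, rfl⟩)
          · rw [Sym2.map_mk, Lo_f_ne _ _ _ _ hne, Lo_f_ne _ _ _ _ hb]
        · refine ⟨s(L i, b), ⟨hadj, hr⟩, ?_⟩
          rw [Sym2.map_mk, Lo_f_b, Lo_f_ne _ _ _ _ hb]
      have he' := he
      rw [SimpleGraph.mem_edgeSet, merged, ident, SimpleGraph.fromRel_adj] at he'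
      obtain ⟨hxy, (h6 | ⟨h6, h7⟩) | (h6 | ⟨h6, h7⟩)⟩ := he'
      · refine ⟨s(x, y), ⟨h6, key _ _ hx hy⟩, ?_⟩
        rw [Sym2.map_mk, Lo_f_ne _ _ _ _ hx, Lo_f_ne _ _ _ _ hy]
      · have h6' : x = L j := h6
        subst h6'
        exact key2 y hy (fun h8 => hxy (Subtype.ext h8.symm)) h7
      · refine ⟨s(x, y), ⟨SimpleGraph.Adj.symm h6, key _ _ hx hy⟩, ?_⟩
        rw [Sym2.map_mk, Lo_f_ne _ _ _ _ hx, Lo_f_ne _ _ _ _ hy]
      · have h6' : y = L j := h6
        subst h6'
        rw [Sym2.eq_swap]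
        exact key2 x hx (fun h8 => hxy (Subtype.ext h8)) h7
  have h6 : ne (merged H L i j) ≤ (G.edgeSet \ Rm).ncard := by
    rw [Lo_ne_eq]
    exact (Set.ncard_le_ncard h5 (Set.toFinite _)).trans (Set.ncard_image_le (Set.toFinite _))
  have h7 : (G.edgeSet \ Rm).ncard + Rm.ncard = G.edgeSet.ncard :=
    Set.ncard_sdiff_add_ncard_of_subset hRs (Set.toFinite _)
  omega

/-! ### no `K_{3,3}` -/

private def Lo_chk (a b c d e f g h i j : Bool) : Bool :=
  (a && b && e) || (a && c && f) || (a && d && g) || (b && c && h) || (b && d && i) ||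
  (c && d && j) || (e && f && h) || (e && g && i) || (f && g && j) || (h && i && j) ||
  Nat.ble (a.toNat + b.toNat + c.toNat + d.toNat + e.toNat + f.toNat + g.toNat + h.toNat +
    i.toNat + j.toNat) 5 ||
  (b && c && d && e && f && g) || (a && c && d && e && h && i) ||
  (a && b && d && f && h && j) || (a && b && c && g && i && j) ||
  (a && f && g && b && h && i) || (a && e && g && c && h && j) ||
  (a && e && f && d && i && j) || (b && e && i && c && f && j) ||
  (b && e && h && d && g && j) || (c && f && h && d && g && i)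

private theorem Lo_chk_true (a b c d e f g h i j : Bool) :
    Lo_chk a b c d e f g h i j = true := by
  cases a <;> cases b <;> cases c <;> cases d <;> cases e <;> cases f <;> cases g <;>
    cases h <;> cases i <;> cases j <;> rfl

private theorem Lo_bool (a b c d e f g h i j : Bool)
    (h1 : (a && b && e) = false) (h2 : (a && c && f) = false) (h3 : (a && d && g) = false)
    (h4 : (b && c && h) = false) (h5 : (b && d && i) = false) (h6 : (c && d && j) = false)
    (h7 : (e && f && h) = false) (h8 : (e && g && i) = false) (h9 : (f && g && j) = false)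
    (h10 : (h && i && j) = false) :
    a.toNat + b.toNat + c.toNat + d.toNat + e.toNat + f.toNat + g.toNat + h.toNat + i.toNat +
      j.toNat ≤ 5 ∨
    (b && c && d && e && f && g) = true ∨ (a && c && d && e && h && i) = true ∨
    (a && b && d && f && h && j) = true ∨ (a && b && c && g && i && j) = true ∨
    (a && f && g && b && h && i) = true ∨ (a && e && g && c && h && j) = true ∨
    (a && e && f && d && i && j) = true ∨ (b && e && i && c && f && j) = true ∨
    (b && e && h && d && g && j) = true ∨ (c && f && h && d && g && i) = true := by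
  have hc := Lo_chk_true a b c d e f g h i j
  unfold Lo_chk at hc
  rw [h1, h2, h3, h4, h5, h6, h7, h8, h9, h10] at hc
  rw [← Nat.ble_eq]
  generalize Nat.ble (a.toNat + b.toNat + c.toNat + d.toNat + e.toNat + f.toNat + g.toNat +
    h.toNat + i.toNat + j.toNat) 5 = x0 at hc ⊢
  generalize (b && c && d && e && f && g) = x1 at hc ⊢
  generalize (a && c && d && e && h && i) = x2 at hc ⊢
  generalize (a && b && d && f && h && j) = x3 at hc ⊢
  generalize (a && b && c && g && i && j) = x4 at hc ⊢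
  generalize (a && f && g && b && h && i) = x5 at hc ⊢
  generalize (a && e && g && c && h && j) = x6 at hc ⊢
  generalize (a && e && f && d && i && j) = x7 at hc ⊢
  generalize (b && e && i && c && f && j) = x8 at hc ⊢
  generalize (b && e && h && d && g && j) = x9 at hc ⊢
  generalize (c && f && h && d && g && i) = x10 at hc ⊢
  simpa only [Bool.or_eq_true, Bool.false_or, or_assoc] using hc

private theorem Lo_minor_inj {W V : Type} {K : SimpleGraph W} {G : SimpleGraph V} (e : W → V)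
    (he : Function.Injective e) (h : ∀ a b, K.Adj a b → G.Adj (e a) (e b)) : IsMinor K G := by
  classical
  refine ⟨fun v => if hv : ∃ w, e w = v then some hv.choose else none, fun w => ?_,
    fun a b hab => ⟨e a, e b, ?_, ?_, h a b hab⟩⟩
  · have h1 : {v | (if hv : ∃ w, e w = v then some hv.choose else none) = some w} = {e w} := by
      ext v
      simp only [Set.mem_ofPred_eq, Set.mem_singleton_iff]
      constructor
      · intro hv
        split_ifs at hv with h2
        · rw [← h2.choose_spec, Option.some_injective _ hv]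
      · rintro rfl
        have h2 : ∃ w', e w' = e w := ⟨w, rfl⟩
        rw [dif_pos h2, he h2.choose_spec]
    rw [h1]
    have : Nonempty ({e w} : Set V) := ⟨⟨e w, rfl⟩⟩
    exact SimpleGraph.Connected.mk SimpleGraph.Preconnected.of_subsingleton
  · have h2 : ∃ w', e w' = e a := ⟨a, rfl⟩
    show (if hv : ∃ w, e w = e a then some hv.choose else none) = some a
    rw [dif_pos h2, he h2.choose_spec]
  · have h2 : ∃ w', e w' = e b := ⟨b, rfl⟩
    show (if hv : ∃ w, e w = e b then some hv.choose else none) = some b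
    rw [dif_pos h2, he h2.choose_spec]

private theorem Lo_K33 {V : Type} [Fintype V] (H : SimpleGraph V) (L : Fin 5 → V)
    (hL : Function.Injective L) (hS : Sparse (cone H (Set.range L))) (p q r s t : Fin 5)
    (hpq : [p, q, r, s, t].Nodup)
    (h1 : H.Adj (L p) (L r)) (h2 : H.Adj (L p) (L s)) (h3 : H.Adj (L p) (L t))
    (h4 : H.Adj (L q) (L r)) (h5 : H.Adj (L q) (L s)) (h6 : H.Adj (L q) (L t)) : False := by
  classical
  set e : Fin 3 ⊕ Fin 3 → Option V := Sum.elim ![none, some (L p), some (L q)]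
    ![some (L r), some (L s), some (L t)] with he
  simp only [List.nodup_cons, List.mem_cons, not_or, List.not_mem_nil, not_false_eq_true,
    List.nodup_nil, and_true] at hpq
  obtain ⟨⟨n1, n2, n3, n4⟩, ⟨n5, n6, n7⟩, ⟨n8, n9⟩, n10⟩ := hpq
  have hsome : ∀ x y : Fin 5, x ≠ y → (some (L x) : Option V) ≠ some (L y) := fun x y hxy h =>
    hxy (hL (Option.some_injective _ h))
  have hinj : Function.Injective e := by
    rintro (x | x) (y | y) hxy <;> fin_cases x <;> fin_cases y <;>
      simp_all [Sum.elim_inl, Sum.elim_inr, hL.eq_iff, eq_comm]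
  have hadj : ∀ x y : Fin 5, H.Adj (L x) (L y) →
      (cone H (Set.range L)).Adj (some (L x)) (some (L y)) := by
    intro x y hxy
    rw [cone, SimpleGraph.fromRel_adj]
    exact ⟨fun h => hxy.ne (Option.some_injective _ h), Or.inl (Or.inl ⟨_, _, rfl, rfl, hxy⟩)⟩
  have hnone : ∀ x : Fin 5, (cone H (Set.range L)).Adj none (some (L x)) := by
    intro x
    rw [cone, SimpleGraph.fromRel_adj]
    exact ⟨by simp, Or.inl (Or.inr ⟨rfl, _, rfl, ⟨x, rfl⟩⟩)⟩
  have hmin : IsMinor (completeBipartiteGraph (Fin 3) (Fin 3)) (cone H (Set.range L)) := by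
    refine Lo_minor_inj e hinj ?_
    have key : ∀ x y : Fin 3, (cone H (Set.range L)).Adj (e (Sum.inl x)) (e (Sum.inr y)) := by
      intro x y
      fin_cases x <;> fin_cases y
      · exact hnone r
      · exact hnone s
      · exact hnone t
      · exact hadj _ _ h1
      · exact hadj _ _ h2
      · exact hadj _ _ h3
      · exact hadj _ _ h4
      · exact hadj _ _ h5
      · exact hadj _ _ h6
    rintro (x | x) (y | y) hxy
    · simp [completeBipartiteGraph] at hxy
    · exact key x y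
    · exact (key y x).symm
    · simp [completeBipartiteGraph] at hxy
  have h7 := hS _ _ hmin (by simp)
  have h8 : ne (completeBipartiteGraph (Fin 3) (Fin 3)) = 9 := by
    have h9 := SimpleGraph.encard_edgeSet_completeBipartiteGraph (W₁ := Fin 3) (W₂ := Fin 3)
    rw [Lo_ne_eq, Set.ncard, h9]
    simp
  have h10 : ¬ HasTri (completeBipartiteGraph (Fin 3) (Fin 3)) := by
    rintro ⟨a, b, c, hab, hbc, hac⟩
    rcases a with a | a <;> rcases b with b | b <;> rcases c with c | c <;>
      simp [completeBipartiteGraph] at hab hbc hac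
  have h11 := h7.2 h10
  rw [h8] at h11
  simp at h11

open Classical in
/-- no `K_{3,3}`: a triangle-free neighbourhood of a vertex of degree five has at most five edges -/
theorem edges_le_five {V : Type} [Fintype V] (H : SimpleGraph V) (L : Fin 5 → V)
    (hL : Function.Injective L) (hS : Sparse (cone H (Set.range L)))
    (htf : ∀ i j k, ¬ (H.Adj (L i) (L j) ∧ H.Adj (L j) (L k) ∧ H.Adj (L i) (L k))) :
    (Finset.univ.filter
      (fun p : Fin 5 × Fin 5 => p.1 < p.2 ∧ H.Adj (L p.1) (L p.2))).card ≤ 5 := by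
  set m : Fin 5 → Fin 5 → Bool := fun x y => decide (H.Adj (L x) (L y)) with hm
  have hmt : ∀ x y, m x y = true → H.Adj (L x) (L y) := fun x y h => by simpa [hm] using h
  have hcount : (Finset.univ.filter
      (fun p : Fin 5 × Fin 5 => p.1 < p.2 ∧ H.Adj (L p.1) (L p.2))).card =
      (m 0 1).toNat + (m 0 2).toNat + (m 0 3).toNat + (m 0 4).toNat + (m 1 2).toNat +
      (m 1 3).toNat + (m 1 4).toNat + (m 2 3).toNat + (m 2 4).toNat + (m 3 4).toNat := by
    have h1 : ∀ x y, (m x y).toNat = if H.Adj (L x) (L y) then 1 else 0 := by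
      intro x y
      simp only [hm, Bool.toNat, Bool.cond_decide]
    rw [Finset.card_filter, Fintype.sum_prod_type]
    simp only [Fin.sum_univ_five, h1]
    have h2 : ∀ x y : Fin 5, x < y → (if x < y ∧ H.Adj (L x) (L y) then 1 else 0) =
        if H.Adj (L x) (L y) then 1 else 0 := fun x y h => by simp [h]
    have h3 : ∀ x y : Fin 5, ¬ x < y → (if x < y ∧ H.Adj (L x) (L y) then 1 else 0) = 0 :=
      fun x y h => by simp [h]
    rw [h3 0 0 (by decide), h2 0 1 (by decide), h2 0 2 (by decide), h2 0 3 (by decide),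
      h2 0 4 (by decide), h3 1 0 (by decide), h3 1 1 (by decide), h2 1 2 (by decide),
      h2 1 3 (by decide), h2 1 4 (by decide), h3 2 0 (by decide), h3 2 1 (by decide),
      h3 2 2 (by decide), h2 2 3 (by decide), h2 2 4 (by decide), h3 3 0 (by decide),
      h3 3 1 (by decide), h3 3 2 (by decide), h3 3 3 (by decide), h2 3 4 (by decide),
      h3 4 0 (by decide), h3 4 1 (by decide), h3 4 2 (by decide), h3 4 3 (by decide),
      h3 4 4 (by decide)]
    omega
  rw [hcount]
  have ht : ∀ x y z, (m x y && m x z && m y z) = false := by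
    intro x y z
    rw [← Bool.not_eq_true, Bool.and_eq_true, Bool.and_eq_true]
    rintro ⟨⟨h1, h2⟩, h3⟩
    exact htf x y z ⟨hmt _ _ h1, hmt _ _ h3, hmt _ _ h2⟩
  have hb := Lo_bool (m 0 1) (m 0 2) (m 0 3) (m 0 4) (m 1 2) (m 1 3) (m 1 4) (m 2 3) (m 2 4)
    (m 3 4) (ht 0 1 2) (ht 0 1 3) (ht 0 1 4) (ht 0 2 3) (ht 0 2 4) (ht 0 3 4) (ht 1 2 3)
    (ht 1 2 4) (ht 1 3 4) (ht 2 3 4)
  simp only [Bool.and_eq_true] at hb
  rcases hb with hb | hb | hb | hb | hb | hb | hb | hb | hb | hb | hb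
  · exact hb
  all_goals exfalso
  · obtain ⟨⟨⟨⟨⟨h1, h2⟩, h3⟩, h4⟩, h5⟩, h6⟩ := hb
    exact Lo_K33 H L hL hS 0 1 2 3 4 (by decide) (hmt _ _ h1) (hmt _ _ h2) (hmt _ _ h3)
      (hmt _ _ h4) (hmt _ _ h5) (hmt _ _ h6)
  · obtain ⟨⟨⟨⟨⟨h1, h2⟩, h3⟩, h4⟩, h5⟩, h6⟩ := hb
    exact Lo_K33 H L hL hS 0 2 1 3 4 (by decide) (hmt _ _ h1) (hmt _ _ h2) (hmt _ _ h3)
      (hmt _ _ h4).symm (hmt _ _ h5) (hmt _ _ h6)
  · obtain ⟨⟨⟨⟨⟨h1, h2⟩, h3⟩, h4⟩, h5⟩, h6⟩ := hb
    exact Lo_K33 H L hL hS 0 3 1 2 4 (by decide) (hmt _ _ h1) (hmt _ _ h2) (hmt _ _ h3)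
      (hmt _ _ h4).symm (hmt _ _ h5).symm (hmt _ _ h6)
  · obtain ⟨⟨⟨⟨⟨h1, h2⟩, h3⟩, h4⟩, h5⟩, h6⟩ := hb
    exact Lo_K33 H L hL hS 0 4 1 2 3 (by decide) (hmt _ _ h1) (hmt _ _ h2) (hmt _ _ h3)
      (hmt _ _ h4).symm (hmt _ _ h5).symm (hmt _ _ h6).symm
  · obtain ⟨⟨⟨⟨⟨h1, h2⟩, h3⟩, h4⟩, h5⟩, h6⟩ := hb
    exact Lo_K33 H L hL hS 1 2 0 3 4 (by decide) (hmt _ _ h1).symm (hmt _ _ h2) (hmt _ _ h3)
      (hmt _ _ h4).symm (hmt _ _ h5) (hmt _ _ h6)
  · obtain ⟨⟨⟨⟨⟨h1, h2⟩, h3⟩, h4⟩, h5⟩, h6⟩ := hb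
    exact Lo_K33 H L hL hS 1 3 0 2 4 (by decide) (hmt _ _ h1).symm (hmt _ _ h2) (hmt _ _ h3)
      (hmt _ _ h4).symm (hmt _ _ h5).symm (hmt _ _ h6)
  · obtain ⟨⟨⟨⟨⟨h1, h2⟩, h3⟩, h4⟩, h5⟩, h6⟩ := hb
    exact Lo_K33 H L hL hS 1 4 0 2 3 (by decide) (hmt _ _ h1).symm (hmt _ _ h2) (hmt _ _ h3)
      (hmt _ _ h4).symm (hmt _ _ h5).symm (hmt _ _ h6).symm
  · obtain ⟨⟨⟨⟨⟨h1, h2⟩, h3⟩, h4⟩, h5⟩, h6⟩ := hb
    exact Lo_K33 H L hL hS 2 3 0 1 4 (by decide) (hmt _ _ h1).symm (hmt _ _ h2).symm (hmt _ _ h3)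
      (hmt _ _ h4).symm (hmt _ _ h5).symm (hmt _ _ h6)
  · obtain ⟨⟨⟨⟨⟨h1, h2⟩, h3⟩, h4⟩, h5⟩, h6⟩ := hb
    exact Lo_K33 H L hL hS 2 4 0 1 3 (by decide) (hmt _ _ h1).symm (hmt _ _ h2).symm (hmt _ _ h3)
      (hmt _ _ h4).symm (hmt _ _ h5).symm (hmt _ _ h6).symm
  · obtain ⟨⟨⟨⟨⟨h1, h2⟩, h3⟩, h4⟩, h5⟩, h6⟩ := hb
    exact Lo_K33 H L hL hS 3 4 0 1 2 (by decide) (hmt _ _ h1).symm (hmt _ _ h2).symm
      (hmt _ _ h3).symm (hmt _ _ h4).symm (hmt _ _ h5).symm (hmt _ _ h6).symm

end Pool.Agent.Lib.MP_f52c03_co.BL
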