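import Pool.Agent.Lib.MP_f52c03_co.BL.Minor
import Pool.Agent.Lib.MP_f52c03_co.BL.ConeMinor

set_option autoImplicit false

open Polynomial

namespace Pool.Agent.Lib.MP_f52c03_co.BL

private theorem Vertex_tri_del {V : Type} {G : SimpleGraph V} {a b c u : V} (hab : G.Adj a b)
    (hbc : G.Adj b c) (hac : G.Adj a c) (ha : a ≠ u) (hb : b ≠ u) (hc : c ≠ u) :
    HasTri (del G u) :=
  ⟨⟨a, ha⟩, ⟨b, hb⟩, ⟨c, hc⟩, hab, hbc, hac⟩

private theorem Vertex_count {V : Type} [Fintype V] (G : SimpleGraph V) (hS : Sparse G)
    (hc : 4 ≤ Fintype.card V) {v y w : V} (hvy : G.Adj v y) (hvw : G.Adj v w) (hyw : G.Adj y w)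
    (hT : ¬ HasTri (del G v))
    (hdeg : ∀ u, u ≠ v → u ≠ y → u ≠ w → 5 ≤ (G.neighborSet u).ncard) : False := by
  classical
  have hcard : Fintype.card {x : V // x ≠ v} = Fintype.card V - 1 := by
    rw [Fintype.card_subtype_compl, Fintype.card_subtype_eq]
  have h1 := (hS {x : V // x ≠ v} (del G v) (IsMinor.del G v) (by omega)).2 hT
  have h2 := (del G v).sum_degrees_eq_twice_card_edges
  have h3 : ne (del G v) = (del G v).edgeFinset.card := by
    unfold ne
    rw [Nat.card_eq_fintype_card, SimpleGraph.edgeFinset_card]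
  rw [← h3] at h2
  set y' : {x : V // x ≠ v} := ⟨y, hvy.ne'⟩ with hy'
  set w' : {x : V // x ≠ v} := ⟨w, hvw.ne'⟩ with hw'
  have hyw' : (del G v).Adj y' w' := hyw
  have h4 : ∀ x : {x : V // x ≠ v},
      4 ≤ (del G v).degree x + ((if x = y' then 3 else 0) + (if x = w' then 3 else 0)) := by
    intro x
    by_cases hx1 : x = y'
    · have : 0 < (del G v).degree x := by
        rw [hx1, SimpleGraph.degree_pos_iff_exists_adj]
        exact ⟨w', hyw'⟩
      rw [if_pos hx1]
      omega
    · by_cases hx2 : x = w'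
      · have : 0 < (del G v).degree x := by
          rw [hx2, SimpleGraph.degree_pos_iff_exists_adj]
          exact ⟨y', hyw'.symm⟩
        rw [if_pos hx2]
        omega
      · rw [if_neg hx1, if_neg hx2]
        have h5 := hdeg x.1 x.2 (fun h => hx1 (Subtype.ext h)) (fun h => hx2 (Subtype.ext h))
        have h6 : G.neighborSet x.1 ⊆ insert v (Subtype.val '' ((del G v).neighborSet x)) := by
          intro z hz
          by_cases hzv : z = v
          · exact Or.inl hzv
          · exact Or.inr ⟨⟨z, hzv⟩, hz, rfl⟩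
        have h7 := Set.ncard_le_ncard h6 (Set.toFinite _)
        have h8 := Set.ncard_insert_le v (Subtype.val '' ((del G v).neighborSet x))
        have h9 := Set.ncard_image_le (f := Subtype.val) (Set.toFinite ((del G v).neighborSet x))
        have h10 : ((del G v).neighborSet x).ncard = (del G v).degree x := by
          rw [Set.ncard_eq_toFinset_card', ← SimpleGraph.card_neighborFinset_eq_degree]
          congr 1
        omega
  have h5 := Finset.sum_le_sum (s := Finset.univ) fun x _ => h4 x
  rw [Finset.sum_const, Finset.card_univ, Finset.sum_add_distrib, Finset.sum_add_distrib,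
    Finset.sum_ite_eq', Finset.sum_ite_eq', if_pos (Finset.mem_univ _),
    if_pos (Finset.mem_univ _), h2, smul_eq_mul] at h5
  omega

theorem exists_good_vertex {V : Type} [Fintype V] (G : SimpleGraph V) (hS : Sparse G)
    (hL : Low G) (hT : HasTri G) (hc : 4 ≤ Fintype.card V) :
    ∃ v : V, (G.neighborSet v).ncard ≤ 4 ∧ HasTri (del G v) := by
  by_contra hno
  push Not at hno
  obtain ⟨a, b, c, hab, hbc, hac⟩ := hT
  have : Nonempty V := ⟨a⟩
  obtain ⟨v, hv⟩ := hL V G (IsMinor.refl G)
  rw [Nat.card_coe_set_eq] at hv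
  have hvT := hno v hv
  have key : ∀ y w : V, G.Adj v y → G.Adj v w → G.Adj y w → False := by
    intro y w h1 h2 h3
    refine Vertex_count G hS hc h1 h2 h3 hvT fun u hu1 hu2 hu3 => ?_
    by_contra hlt
    exact hno u (by omega) (Vertex_tri_del h1 h3 h2 hu1.symm hu2.symm hu3.symm)
  by_cases hav : a = v
  · subst hav
    exact key b c hab hac hbc
  · by_cases hbv : b = v
    · subst hbv
      exact key a c hab.symm hbc hac
    · by_cases hcv : c = v
      · subst hcv
        exact key a b hac.symm hbc.symm hab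
      · exact hvT (Vertex_tri_del hab hbc hac hav hbv hcv)

theorem exists_nonadj {V : Type} [Fintype V] (H : SimpleGraph V) (S : Set V)
    (hS : Sparse (cone H S)) (h4 : S.ncard = 4) :
    ∃ b ∈ S, ∃ d ∈ S, b ≠ d ∧ ¬ H.Adj b d := by
  classical
  by_contra hno
  push Not at hno
  set A : Set (Option V) := insert none (some '' S) with hA
  have hAc : A.ncard = 5 := by
    rw [hA, Set.ncard_insert_of_notMem _ (Set.toFinite _),
      Set.ncard_image_of_injective _ (Option.some_injective V), h4]
    rintro ⟨x, _, hx⟩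
    exact absurd hx (by simp)
  have hcard : Fintype.card A = 5 := by
    rw [← Nat.card_eq_fintype_card, Nat.card_coe_set_eq, hAc]
  have htop : (cone H S).induce A = ⊤ := by
    ext x y
    rw [SimpleGraph.top_adj, SimpleGraph.comap_adj]
    constructor
    · intro h hxy
      exact h.ne (congrArg _ hxy)
    · intro hxy
      have hxy' : x.1 ≠ y.1 := fun h => hxy (Subtype.ext h)
      show (cone H S).Adj x.1 y.1
      unfold cone
      rw [SimpleGraph.fromRel_adj]
      refine ⟨hxy', ?_⟩
      rcases x.2 with hx | ⟨a, haS, ha⟩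
      · rcases y.2 with hy | ⟨b, hbS, hb⟩
        · exact absurd (hx.trans hy.symm) hxy'
        · exact Or.inl (Or.inr ⟨hx, b, hb.symm, hbS⟩)
      · rcases y.2 with hy | ⟨b, hbS, hb⟩
        · exact Or.inr (Or.inr ⟨hy, a, ha.symm, haS⟩)
        · have hab : a ≠ b := by
            rintro rfl
            exact hxy' (ha.symm.trans hb)
          exact Or.inl (Or.inl ⟨a, b, ha.symm, hb.symm, hno a haS b hbS hab⟩)
  have h1 := (hS A ((cone H S).induce A) (IsMinor.induce _ A) (by omega)).1
  have h2 : ne ((cone H S).induce A) = 10 := by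
    rw [htop]
    unfold ne
    rw [Nat.card_eq_fintype_card, ← SimpleGraph.edgeFinset_card,
      SimpleGraph.card_edgeFinset_top_eq_card_choose_two, hcard]
    rfl
  omega

end Pool.Agent.Lib.MP_f52c03_co.BL
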