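import Pool.Agent.Lib.MP_f52c03_co.BL.Star
import Pool.Agent.Lib.MP_f52c03_co.BL.Vertex

set_option autoImplicit false

open Polynomial

namespace Pool.Agent.Lib.MP_f52c03_co.BL

private theorem NN_const (c : ℚ) (hc : 0 ≤ c) : NN (C c) := by
  intro i
  rw [C_comp, coeff_C]
  split_ifs
  · exact hc
  · exact le_rfl

private theorem three_le {V : Type} [Fintype V] {G : SimpleGraph V} (hT : HasTri G) :
    3 ≤ Fintype.card V := by
  classical
  obtain ⟨a, b, c, hab, hbc, hac⟩ := hT
  have h : ({a, b, c} : Finset V).card = 3 := by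
    rw [Finset.card_eq_three]
    exact ⟨a, b, c, hab.ne, hac.ne, hbc.ne, rfl⟩
  rw [← h]
  exact Finset.card_le_univ _

private theorem mono_tri {V : Type} {G G' : SimpleGraph V} (h : G ≤ G') (hT : HasTri G) :
    HasTri G' := by
  obtain ⟨a, b, c, hab, hbc, hac⟩ := hT
  exact ⟨a, b, c, h hab, h hbc, h hac⟩

private theorem le_addStar {V : Type} (H : SimpleGraph V) (u : V) (T : Set V) :
    H ≤ addStar H u T := by
  intro a b hab
  rw [addStar, SimpleGraph.fromRel_adj]
  exact ⟨hab.ne, Or.inl (Or.inl hab)⟩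

private theorem addE_eq {V : Type} (H : SimpleGraph V) (u w : V) :
    addE H u w = addStar H u {w} := rfl

private theorem addStar_empty {V : Type} (H : SimpleGraph V) (u : V) :
    addStar H u ∅ = H := by
  ext a b
  rw [addStar, SimpleGraph.fromRel_adj]
  simp only [Set.mem_empty_iff_false, and_false, or_false]
  constructor
  · rintro ⟨-, h | h⟩
    · exact h
    · exact h.symm
  · intro h
    exact ⟨h.ne, Or.inl h⟩

private theorem NN_of_lower {P : ℚ[X]} {m : ℕ} (h : NN (P - (X - C 3) ^ m)) : NN P := by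
  have h1 := NN.add h (NN.pow (NN_X_sub 3 (by norm_num)) m)
  rwa [sub_add_cancel] at h1

theorem lower (n : ℕ) (V : Type) [Fintype V] (G : SimpleGraph V) (hS : Sparse G) (hL : Low G)
    (hT : HasTri G) (hc : Fintype.card V = n + 3) : NN (R G - (X - C 3) ^ n) := by
  classical
  induction n using Nat.strong_induction_on generalizing V with
  | _ n ih =>
  rcases Nat.eq_zero_or_pos n with rfl | hn
  · rw [R_three G hT (by rw [hc]), pow_zero, sub_self]
    exact NN_zero
  obtain ⟨k, rfl⟩ : ∃ k, n = k + 1 := ⟨n - 1, by omega⟩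
  obtain ⟨v, hv, hTv⟩ := exists_good_vertex G hS hL hT (by omega)
  set H := del G v with hH
  set S : Set {x : V // x ≠ v} := {x | G.Adj v x.1} with hSd
  obtain ⟨e⟩ := cone_iso G v
  have hTc : HasTri (cone H S) := by
    obtain ⟨a, b, c, hab, hbc, hac⟩ := hT
    exact ⟨e.symm a, e.symm b, e.symm c, e.symm.map_adj_iff.mpr hab, e.symm.map_adj_iff.mpr hbc,
      e.symm.map_adj_iff.mpr hac⟩
  have hR : R (cone H S) = R G := R_iso e hTc
  have hmin : IsMinor (cone H S) G := IsMinor.of_iso e
  have hSc : Sparse (cone H S) := hS.minor hmin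
  have hLc : Low (cone H S) := hL.minor hmin
  have hcard : Fintype.card {x : V // x ≠ v} = k + 3 := by
    rw [Fintype.card_subtype_compl, hc, Fintype.card_subtype_eq]
    rfl
  have hSH : Sparse H := hS.minor (IsMinor.del G v)
  have hLH : Low H := hL.minor (IsMinor.del G v)
  have hNN : ∀ (W : Type) [Fintype W] (F : SimpleGraph W), IsMinor F (cone H S) → HasTri F →
      Fintype.card W ≤ Fintype.card {x : V // x ≠ v} → NN (R F) := by
    intro W _ F hF hTF hW
    have h3 := three_le hTF
    exact NN_of_lower (ih (Fintype.card W - 3) (by omega) W F (hSc.minor hF) (hLc.minor hF) hTF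
      (by omega))
  have hlH : NN (R H - (X - C 3) ^ k) := ih k (by omega) _ H hSH hLH hTv hcard
  have hSn : S.ncard ≤ 4 := by
    have h1 : Subtype.val '' S = G.neighborSet v := by
      ext x
      simp only [hSd, Set.mem_image, Set.mem_ofPred_eq, SimpleGraph.mem_neighborSet]
      constructor
      · rintro ⟨y, hy, rfl⟩
        exact hy
      · intro hx
        exact ⟨⟨x, hx.ne'⟩, hx, rfl⟩
    have h2 : S.ncard = (G.neighborSet v).ncard := by
      rw [← h1, Set.ncard_image_of_injective _ Subtype.val_injective]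
    rw [h2]
    exact hv
  rw [← hR]
  rcases Nat.lt_or_ge S.ncard 4 with hlt | hge
  · have h1 := cone_lower H S hTv hNN
    have h2 := NN.mul (NN_X_sub 3 (by norm_num)) hlH
    have h3 := NN.mul (NN_const (3 - (S.ncard : ℚ)) (by
      have : (S.ncard : ℚ) ≤ 3 := by exact_mod_cast (Nat.lt_succ_iff.mp hlt)
      linarith)) (NN_of_lower hlH)
    have h4 := NN.add (NN.add h1 h2) h3
    have e1 : R (cone H S) - (X - C 3) ^ (k + 1) =
        R (cone H S) - (X - C (S.ncard : ℚ)) * R H + (X - C 3) * (R H - (X - C 3) ^ k) +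
          C (3 - (S.ncard : ℚ)) * R H := by
      rw [C_sub, pow_succ]
      ring
    rw [e1]
    exact h4
  · have h4 : S.ncard = 4 := le_antisymm hSn hge
    have hk : 0 < k := by
      rcases Nat.eq_zero_or_pos k with rfl | h
      · have h5 : S.ncard ≤ Fintype.card {x : V // x ≠ v} := by
          rw [← Nat.card_eq_fintype_card, ← Set.ncard_univ]
          exact Set.ncard_le_ncard (Set.subset_univ _)
        omega
      · exact h
    obtain ⟨m, rfl⟩ : ∃ m, k = m + 1 := ⟨k - 1, by omega⟩
    obtain ⟨b, hb, d, hd, hbd, hnadj⟩ := exists_nonadj H S hSc h4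
    have h1 := cone_lower_pair H S hTv hNN b d hb hd hbd hnadj
    rw [h4] at h1
    have hRH := R_addE H hTv b d hbd hnadj
    have hminA : IsMinor (addE H b d) (cone H S) := by
      rw [addE_eq]
      exact minor_addStar H S {d} b hb (Set.singleton_subset_iff.mpr hd)
    have hminI : IsMinor (ident H b d) (cone H S) := by
      have := minor_ident_addStar H S ∅ b d hb hd hbd (Set.empty_subset _)
      rwa [addStar_empty] at this
    have hTA : HasTri (addE H b d) := mono_tri (by rw [addE_eq]; exact le_addStar _ _ _) hTv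
    have hTI : HasTri (ident H b d) := HasTri.ident hTv b d hbd hnadj
    have hcardI : Fintype.card {x : {x : V // x ≠ v} // x ≠ d} = m + 3 := by
      rw [Fintype.card_subtype_compl, hcard, Fintype.card_subtype_eq]
      rfl
    have hA := ih (m + 1) (by omega) _ (addE H b d) (hSc.minor hminA) (hLc.minor hminA) hTA hcard
    have hI := ih m (by omega) _ (ident H b d) (hSc.minor hminI) (hLc.minor hminI) hTI hcardI
    have h2 := NN.mul (NN_X_sub 4 le_rfl) hA
    have h3 := NN.mul (NN_X_sub 3 (by norm_num)) hI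
    have h5 := NN.add (NN.add h1 h2) h3
    have e1 : R (cone H S) - (X - C 3) ^ (m + 1 + 1) =
        R (cone H S) - (X - C ((4 : ℕ) : ℚ)) * R H - R (ident H b d) +
          (X - C 4) * (R (addE H b d) - (X - C 3) ^ (m + 1)) +
          (X - C 3) * (R (ident H b d) - (X - C 3) ^ m) := by
      rw [hRH]
      have e2 : (C ((4 : ℕ) : ℚ) : ℚ[X]) = C 4 := by norm_num
      have e3 : (C 4 : ℚ[X]) = C 3 + 1 := by
        rw [← C_1, ← C_add]
        norm_num
      rw [e2, e3]
      ring
    rw [e1]
    exact h5

theorem nonneg {V : Type} [Fintype V] (G : SimpleGraph V) (hS : Sparse G) (hL : Low G)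
    (hT : HasTri G) : NN (R G) := by
  have h3 := three_le hT
  exact NN_of_lower (lower (Fintype.card V - 3) V G hS hL hT (by omega))

end Pool.Agent.Lib.MP_f52c03_co.BL
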