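import Pool.Agent.Lib.MP_f52c03_co.BL.Defs

set_option autoImplicit false

open Polynomial

namespace Pool.Agent.Lib.MP_f52c03_co.BL

/-- the boundary map -/
private noncomputable def MacLane_bd {W : Type} (H : SimpleGraph W) [Fintype H.edgeSet] :
    (H.edgeSet → ZMod 2) →ₗ[ZMod 2] (W → ZMod 2) where
  toFun z w := ∑ e : H.edgeSet, (Set.indicator {e : Sym2 W | w ∈ e} 1 e.1 : ZMod 2) * z e
  map_add' := by
    intro x y; funext w; simp only [Pi.add_apply, mul_add, Finset.sum_add_distrib]
  map_smul' := by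
    intro c x; funext w
    simp only [Pi.smul_apply, smul_eq_mul, RingHom.id_apply, Finset.mul_sum]
    refine Finset.sum_congr rfl fun e _ => by ring

private theorem MacLane_bd_apply {W : Type} (H : SimpleGraph W) [Fintype H.edgeSet]
    (z : H.edgeSet → ZMod 2) (w : W) : MacLane_bd H z w =
      ∑ e : H.edgeSet, (Set.indicator {e : Sym2 W | w ∈ e} 1 e.1 : ZMod 2) * z e := rfl

private theorem MacLane_two {W : Type} [Fintype W] (H : SimpleGraph W) (e : H.edgeSet) :
    ∑ w : W, (Set.indicator {e : Sym2 W | w ∈ e} 1 e.1 : ZMod 2) = 0 := by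
  classical
  obtain ⟨e, he⟩ := e
  induction e using Sym2.ind with
  | _ u v =>
    have huv : u ≠ v := H.ne_of_adj (by simpa using he)
    have : ∀ w : W, (Set.indicator {e : Sym2 W | w ∈ e} 1 (s(u, v)) : ZMod 2) =
        (if w = u then 1 else 0) + (if w = v then 1 else 0) := by
      intro w
      by_cases h1 : w = u
      · subst h1
        simp [Set.indicator, huv]
      · by_cases h2 : w = v
        · subst h2
          simp [Set.indicator, h1]
        · simp [Set.indicator, h1, h2]
    simp only [this, Finset.sum_add_distrib]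
    simp
    decide

private theorem MacLane_dim_ge {W : Type} [Fintype W] (H : SimpleGraph W) [Fintype H.edgeSet]
    (hW : 3 ≤ Fintype.card W) :
    Fintype.card H.edgeSet + 1 ≤ Module.finrank (ZMod 2) (LinearMap.ker (MacLane_bd H)) +
      Fintype.card W := by
  classical
  have : Nonempty W := Fintype.card_pos_iff.1 (by omega)
  have h1 := LinearMap.finrank_range_add_finrank_ker (MacLane_bd H)
  rw [Module.finrank_fintype_fun_eq_card] at h1
  set s : (W → ZMod 2) →ₗ[ZMod 2] ZMod 2 := ∑ w : W, LinearMap.proj w with hs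
  have hle : LinearMap.range (MacLane_bd H) ≤ LinearMap.ker s := by
    rintro _ ⟨z, rfl⟩
    rw [LinearMap.mem_ker, hs]
    simp only [LinearMap.sum_apply, LinearMap.proj_apply, MacLane_bd_apply]
    rw [Finset.sum_comm]
    refine Finset.sum_eq_zero fun e _ => ?_
    rw [← Finset.sum_mul, MacLane_two, zero_mul]
  have h2 := Submodule.finrank_mono hle
  have h3 := LinearMap.finrank_range_add_finrank_ker s
  rw [Module.finrank_fintype_fun_eq_card] at h3
  have h4 : LinearMap.range s = ⊤ := by
    rw [LinearMap.range_eq_top]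
    intro x
    obtain ⟨w⟩ := (inferInstance : Nonempty W)
    refine ⟨Pi.single w x, ?_⟩
    rw [hs]
    simp only [LinearMap.sum_apply, LinearMap.proj_apply]
    simp [Pi.single_apply]
  rw [h4, finrank_top, Module.finrank_self] at h3
  omega

private theorem MacLane_next {W : Type} (H : SimpleGraph W) [Fintype H.edgeSet]
    (z : H.edgeSet → ZMod 2)
    (hz : ∀ w : W, (∑ e : H.edgeSet, (Set.indicator {e : Sym2 W | w ∈ e} 1 e.1 : ZMod 2) * z e) = 0)
    (w : W) (e : H.edgeSet) (hw : w ∈ e.1) (he : z e ≠ 0) :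
    ∃ e' : H.edgeSet, e' ≠ e ∧ w ∈ e'.1 ∧ z e' ≠ 0 := by
  classical
  by_contra hcon
  push Not at hcon
  apply he
  rw [← hz w, Finset.sum_eq_single e]
  · rw [Set.indicator_of_mem (by exact hw)]; simp
  · intro e' _ hne
    by_cases hwe : w ∈ e'.1
    · rw [hcon e' hne hwe, mul_zero]
    · rw [Set.indicator_of_notMem (by exact hwe), zero_mul]
  · intro h; exact absurd (Finset.mem_univ e) h

private theorem MacLane_supp {W : Type} (H : SimpleGraph W) [Fintype H.edgeSet]
    (z : H.edgeSet → ZMod 2)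
    (hz : ∀ w : W, (∑ e : H.edgeSet, (Set.indicator {e : Sym2 W | w ∈ e} 1 e.1 : ZMod 2) * z e) = 0)
    (hne : z ≠ 0) :
    3 ≤ {e | z e ≠ 0}.ncard ∧ (¬ HasTri H → 4 ≤ {e | z e ≠ 0}.ncard) := by
  classical
  obtain ⟨e0, he0⟩ : ∃ e, z e ≠ 0 := by
    by_contra h
    push Not at h
    exact hne (funext h)
  obtain ⟨p, hp⟩ := e0
  induction p using Sym2.ind with
  | _ u v =>
  have huv : u ≠ v := H.ne_of_adj (by simpa using hp)
  have hadj : H.Adj u v := by simpa using hp
  obtain ⟨e1, h1, h1u, h1z⟩ := MacLane_next H z hz u ⟨s(u, v), hp⟩ (by simp) he0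
  obtain ⟨e2, h2, h2v, h2z⟩ := MacLane_next H z hz v ⟨s(u, v), hp⟩ (by simp) he0
  obtain ⟨v', hv'⟩ := Sym2.mem_iff_exists.1 h1u
  obtain ⟨u', hu'⟩ := Sym2.mem_iff_exists.1 h2v
  have a1 : H.Adj u v' := by have := e1.2; rw [hv'] at this; simpa using this
  have a2 : H.Adj v u' := by have := e2.2; rw [hu'] at this; simpa using this
  have nv : v' ≠ v := by
    rintro rfl
    exact h1 (Subtype.ext hv')
  have nu : u' ≠ u := by
    rintro rfl
    exact h2 (Subtype.ext (by rw [hu']; exact Sym2.eq_swap))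
  have h12 : e1 ≠ e2 := by
    intro h
    rw [← h, hv'] at h2v
    simp only [Sym2.mem_iff] at h2v
    rcases h2v with h2v | h2v
    · exact huv h2v.symm
    · exact nv h2v.symm
  have hfin : {e | z e ≠ 0}.Finite := Set.toFinite _
  constructor
  · have hsub : ({⟨s(u, v), hp⟩, e1, e2} : Set H.edgeSet) ⊆ {e | z e ≠ 0} := by
      intro e he
      simp only [Set.mem_insert_iff, Set.mem_singleton_iff] at he
      rcases he with rfl | rfl | rfl
      · exact he0
      · exact h1z
      · exact h2z
    have hc := Set.ncard_le_ncard hsub hfin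
    rw [Set.ncard_eq_toFinset_card'] at hc
    have : (({⟨s(u, v), hp⟩, e1, e2} : Set H.edgeSet).toFinset).card = 3 := by
      simp only [Set.toFinset_insert, Set.toFinset_singleton]
      rw [Finset.card_eq_three]
      exact ⟨_, _, _, h1.symm, h2.symm, h12, rfl⟩
    omega
  · intro htri
    obtain ⟨e3, h3, h3v, h3z⟩ := MacLane_next H z hz v' e1 (by rw [hv']; simp) h1z
    have h30 : e3 ≠ ⟨s(u, v), hp⟩ := by
      rintro rfl
      simp only [Sym2.mem_iff] at h3v
      rcases h3v with h | h
      · exact a1.ne h.symm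
      · exact nv h
    have h32 : e3 ≠ e2 := by
      rintro rfl
      rw [hu'] at h3v
      simp only [Sym2.mem_iff] at h3v
      rcases h3v with h | h
      · exact nv h
      · subst h
        exact htri ⟨u, v, v', hadj, a2, a1⟩
    have hsub : ({⟨s(u, v), hp⟩, e1, e2, e3} : Set H.edgeSet) ⊆ {e | z e ≠ 0} := by
      intro e he
      simp only [Set.mem_insert_iff, Set.mem_singleton_iff] at he
      rcases he with rfl | rfl | rfl | rfl
      · exact he0
      · exact h1z
      · exact h2z
      · exact h3z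
    have hc := Set.ncard_le_ncard hsub hfin
    rw [Set.ncard_eq_toFinset_card'] at hc
    have : (({⟨s(u, v), hp⟩, e1, e2, e3} : Set H.edgeSet).toFinset).card = 4 := by
      simp only [Set.toFinset_insert, Set.toFinset_singleton]
      rw [Finset.card_insert_of_notMem, Finset.card_eq_three.2]
      · exact ⟨_, _, _, h12, h3.symm, h32.symm, rfl⟩
      · simp only [Finset.mem_insert, Finset.mem_singleton, not_or]
        exact ⟨h1.symm, h2.symm, h30.symm⟩
    omega

private theorem MacLane_count {E C : Type} [Fintype E] [Fintype C] (b : C → E → ZMod 2) (k : ℕ)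
    (htwo : ∀ e, {c | b c e ≠ 0}.ncard ≤ 2)
    (hk : ∀ c, b c ≠ 0 → k ≤ {e | b c e ≠ 0}.ncard) :
    k * {c | b c ≠ 0}.ncard ≤ 2 * Fintype.card E := by
  classical
  have h1 : ∑ c : C, {e | b c e ≠ 0}.ncard = ∑ e : E, {c | b c e ≠ 0}.ncard := by
    have a : ∀ c : C, {e | b c e ≠ 0}.ncard = ∑ e : E, if b c e ≠ 0 then 1 else 0 := by
      intro c
      rw [Set.ncard_eq_toFinset_card', Finset.card_eq_sum_ones, ← Finset.sum_filter]
      refine Finset.sum_congr ?_ fun _ _ => rfl
      ext e; simp
    have b' : ∀ e : E, {c | b c e ≠ 0}.ncard = ∑ c : C, if b c e ≠ 0 then 1 else 0 := by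
      intro e
      rw [Set.ncard_eq_toFinset_card', Finset.card_eq_sum_ones, ← Finset.sum_filter]
      refine Finset.sum_congr ?_ fun _ _ => rfl
      ext c; simp
    rw [Finset.sum_congr rfl fun c _ => a c, Finset.sum_congr rfl fun e _ => b' e,
      Finset.sum_comm]
  have h2 : ∑ e : E, {c | b c e ≠ 0}.ncard ≤ 2 * Fintype.card E := by
    calc _ ≤ ∑ e : E, 2 := Finset.sum_le_sum fun e _ => htwo e
      _ = _ := by simp [mul_comm]
  have h3 : k * {c | b c ≠ 0}.ncard ≤ ∑ c : C, {e | b c e ≠ 0}.ncard := by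
    rw [Set.ncard_eq_toFinset_card']
    calc k * (({c | b c ≠ 0} : Set C).toFinset).card
        = ∑ c ∈ ({c | b c ≠ 0} : Set C).toFinset, k := by simp [mul_comm]
      _ ≤ ∑ c ∈ ({c | b c ≠ 0} : Set C).toFinset, {e | b c e ≠ 0}.ncard :=
          Finset.sum_le_sum fun c hc => hk c (by simpa using hc)
      _ ≤ _ := Finset.sum_le_univ_sum_of_nonneg fun _ => Nat.zero_le _
  omega

private theorem MacLane_span {E C : Type} [Fintype E] [Fintype C] (b : C → E → ZMod 2)
    (hsum : ∀ e, ∑ c, b c e = 0) (Z : Submodule (ZMod 2) (E → ZMod 2))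
    (hspan : ∀ z ∈ Z, ∃ x : C → ZMod 2, ∀ e, z e = ∑ c, x c * b c e) :
    Module.finrank (ZMod 2) Z + 1 ≤ {c | b c ≠ 0}.ncard ∨ Module.finrank (ZMod 2) Z = 0 := by
  classical
  by_cases hF : ({c | b c ≠ 0} : Set C).Nonempty
  · left
    obtain ⟨c0, hc0⟩ := hF
    set T : Finset C := ({c | b c ≠ 0} : Set C).toFinset.erase c0 with hT
    have hle : Z ≤ Submodule.span (ZMod 2) (Set.range fun c : T => b c) := by
      intro z hz
      obtain ⟨x, hx⟩ := hspan z hz
      have hz' : z = ∑ c, (x c + x c0) • b c := by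
        funext e
        rw [hx e, Finset.sum_apply]
        have : ∑ c, (x c + x c0) * b c e = ∑ c, x c * b c e + x c0 * ∑ c, b c e := by
          rw [Finset.mul_sum, ← Finset.sum_add_distrib]
          exact Finset.sum_congr rfl fun c _ => by ring
        simp only [Pi.smul_apply, smul_eq_mul]
        rw [this, hsum, mul_zero, add_zero]
      rw [hz']
      refine Submodule.sum_mem _ fun c _ => ?_
      by_cases h1 : c = c0
      · subst h1
        have : x c + x c = 0 := CharTwo.add_self_eq_zero _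
        rw [this, zero_smul]; exact Submodule.zero_mem _
      · by_cases h2 : b c = 0
        · rw [h2, smul_zero]; exact Submodule.zero_mem _
        · refine Submodule.smul_mem _ _ (Submodule.subset_span ⟨⟨c, ?_⟩, rfl⟩)
          rw [hT]; simp [h1, h2]
    have h1 := Submodule.finrank_mono hle
    have h2 := finrank_range_le_card (R := ZMod 2) (fun c : T => b c)
    have h3 : Fintype.card T + 1 = {c | b c ≠ 0}.ncard := by
      rw [Fintype.card_coe, hT, Set.ncard_eq_toFinset_card', Finset.card_erase_add_one]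
      simpa using hc0
    unfold Set.finrank at h2
    omega
  · right
    rw [Submodule.finrank_eq_zero, Submodule.eq_bot_iff]
    intro z hz
    obtain ⟨x, hx⟩ := hspan z hz
    funext e
    rw [hx e]
    refine Finset.sum_eq_zero fun c _ => ?_
    have : b c = 0 := by
      by_contra h
      exact hF ⟨c, h⟩
    rw [this]; simp

/-- Euler's bounds from a MacLane basis of the cycle space over `ZMod 2`. -/
theorem maclane {W : Type} [Fintype W] (H : SimpleGraph W) [Fintype H.edgeSet] {C : Type}
    [Fintype C] (b : C → H.edgeSet → ZMod 2)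
    (hev : ∀ (c : C) (w : W), (∑ e : H.edgeSet, (Set.indicator {e : Sym2 W | w ∈ e} 1 e.1 : ZMod 2) *
      b c e) = 0)
    (hsum : ∀ e, ∑ c, b c e = 0)
    (htwo : ∀ e, {c | b c e ≠ 0}.ncard ≤ 2)
    (hspan : ∀ z : H.edgeSet → ZMod 2,
      (∀ w : W, (∑ e : H.edgeSet, (Set.indicator {e : Sym2 W | w ∈ e} 1 e.1 : ZMod 2) * z e) = 0) →
      ∃ x : C → ZMod 2, ∀ e, z e = ∑ c, x c * b c e)
    (hW : 3 ≤ Fintype.card W) :
    ne H + 6 ≤ 3 * Fintype.card W ∧ (¬ HasTri H → ne H + 4 ≤ 2 * Fintype.card W) := by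
  classical
  have hne : ne H = Fintype.card H.edgeSet := Nat.card_eq_fintype_card
  have h1 := MacLane_dim_ge H hW
  have h2 := MacLane_span b hsum (LinearMap.ker (MacLane_bd H)) (fun z hz => hspan z (fun w => by
    rw [← MacLane_bd_apply, LinearMap.mem_ker.1 hz]; rfl))
  have h3 := MacLane_count b 3 htwo (fun c hc => (MacLane_supp H (b c) (hev c) hc).1)
  have h4 : ¬ HasTri H → 4 * {c | b c ≠ 0}.ncard ≤ 2 * Fintype.card H.edgeSet := fun htri =>
    MacLane_count b 4 htwo (fun c hc => (MacLane_supp H (b c) (hev c) hc).2 htri)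
  rw [hne]
  rcases h2 with h2 | h2
  · refine ⟨by omega, fun htri => ?_⟩
    have := h4 htri
    omega
  · refine ⟨by omega, fun _ => by omega⟩

end Pool.Agent.Lib.MP_f52c03_co.BL
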