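import Pool.Agent.Lib.MP_f52c03_co.BL.MacLane
import Pool.Agent.Lib.MP_f52c03_co.BL.Cycle
import Pool.Agent.Lib.MP_f52c03_co.BL.Extend

set_option autoImplicit false

open Polynomial

namespace Pool.Agent.Lib.MP_f52c03_co.BL

private theorem z2_add_self (a : ZMod 2) : a + a = 0 := by
  have : (2 : ZMod 2) = 0 := by decide
  rw [← two_mul, this, zero_mul]

private theorem z2_eq_of_add {a b : ZMod 2} (h : a + b = 0) : a = b := by
  have h1 : a + b + b = b := by rw [h, zero_add]
  rwa [add_assoc, z2_add_self, add_zero] at h1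

/-- the easy direction: the coboundary of a `σ`-invariant function is orthogonal to the
`σ * α`-invariant functions -/
private theorem sparse_orth {D : Type} [Fintype D] (σ α : Equiv.Perm D)
    (hα : ∀ d : D, α (α d) = d) (x y : D → ZMod 2) (hx : ∀ d, x (σ d) = x d)
    (hy : ∀ d, y ((σ * α) d) = y d) : ∑ d, (x d + x (α d)) * y d = 0 := by
  have h1 : ∑ d, x (α d) * y d = ∑ d, x d * y (α d) := by
    rw [← Equiv.sum_comp α (fun d => x d * y (α d))]
    refine Finset.sum_congr rfl fun d _ => ?_
    rw [hα]
  have h2 : ∑ d, x d * y (α d) = ∑ d, x (σ d) * y (σ d) := by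
    refine Finset.sum_congr rfl fun d _ => ?_
    have h3 := hy (α d)
    rw [Equiv.Perm.mul_apply, hα] at h3
    rw [hx, h3]
  have h4 : ∑ d, x (σ d) * y (σ d) = ∑ d, x d * y d :=
    Equiv.sum_comp σ (fun d => x d * y d)
  simp only [add_mul, Finset.sum_add_distrib]
  rw [h1, h2, h4, z2_add_self]

section Tsec

variable {D E : Type} [Fintype D] [Fintype E]

open Classical in
/-- the function `ζ` moved to the darts -/
private noncomputable def sparseT (α : Equiv.Perm D) (rep : E → D) (ζ : E → ZMod 2) (d : D) :
    ZMod 2 :=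
  ∑ e, ζ e * ((if d = rep e then 1 else 0) + (if d = α (rep e) then 1 else 0))

variable (α : Equiv.Perm D) (rep : E → D) (hα : ∀ d : D, α (α d) = d ∧ α d ≠ d)
  (h1 : ∀ e e', rep e = rep e' → e = e') (h2 : ∀ e e', rep e = α (rep e') → e = e')

include hα in
private theorem sparseT_inv (ζ : E → ZMod 2) (d : D) :
    sparseT α rep ζ (α d) = sparseT α rep ζ d := by
  classical
  unfold sparseT
  refine Finset.sum_congr rfl fun e _ => ?_
  have a1 : (α d = rep e) ↔ (d = α (rep e)) := by
    constructor
    · intro h; rw [← h, (hα d).1]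
    · intro h; rw [h, (hα _).1]
  have a2 : (α d = α (rep e)) ↔ (d = rep e) := α.injective.eq_iff
  simp only [a1, a2]
  rw [add_comm (ite _ _ _)]

include hα h1 h2 in
private theorem sparseT_rep (ζ : E → ZMod 2) (e : E) : sparseT α rep ζ (rep e) = ζ e := by
  classical
  unfold sparseT
  rw [Finset.sum_eq_single e]
  · have : rep e ≠ α (rep e) := fun h => (hα (rep e)).2 h.symm
    simp [this]
  · intro e' _ hne
    have a1 : rep e ≠ rep e' := fun h => hne (h1 _ _ h).symm
    have a2 : rep e ≠ α (rep e') := fun h => hne (h2 _ _ h).symm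
    simp [a1, a2]
  · intro h
    exact absurd (Finset.mem_univ e) h

private theorem sparseT_zero (ζ : E → ZMod 2) (d : D) (h : ∀ e, d ≠ rep e ∧ d ≠ α (rep e)) :
    sparseT α rep ζ d = 0 := by
  classical
  unfold sparseT
  refine Finset.sum_eq_zero fun e _ => ?_
  simp [(h e).1, (h e).2]

private theorem sparseT_sum (ζ : E → ZMod 2) (g : D → ZMod 2) :
    ∑ d, g d * sparseT α rep ζ d = ∑ e, ζ e * (g (rep e) + g (α (rep e))) := by
  classical
  unfold sparseT
  simp only [Finset.mul_sum]
  rw [Finset.sum_comm]
  refine Finset.sum_congr rfl fun e _ => ?_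
  have h3 : ∀ d, g d * (ζ e * ((if d = rep e then 1 else 0) + (if d = α (rep e) then 1 else 0))) =
      (if d = rep e then ζ e * g d else 0) + (if d = α (rep e) then ζ e * g d else 0) := by
    intro d
    split_ifs <;> ring
  rw [Finset.sum_congr rfl fun d _ => h3 d, Finset.sum_add_distrib]
  simp only [Finset.sum_ite_eq', Finset.mem_univ, if_true, mul_add]

end Tsec

theorem sparse_map (n : ℕ) (D : Type) [Fintype D] (σ α : Equiv.Perm D)
    (hα : ∀ d : D, α (α d) = d ∧ α d ≠ d)
    (hσ : ∀ d : D, σ (σ (σ d)) = d ∧ σ d ≠ d)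
    (htr : ∀ d e : D, ∃ g ∈ Subgroup.closure ({σ, α} : Set (Equiv.Perm D)), g d = e)
    (hcard : Fintype.card D = 6 * (n + 1))
    (hreg : Nat.card (Quotient (MulAction.orbitRel (Subgroup.zpowers (σ * α)) D)) = n + 3) :
    Sparse (regionGraph σ α) := by
  classical
  intro W _ H hmin hW
  obtain ⟨f, hconn, hadj⟩ := hmin
  have hrep : ∀ e : H.edgeSet, ∃ d : D, ∃ a b : W, e.1 = s(a, b) ∧ a ≠ b ∧
      f (reg σ α d) = some a ∧ f (reg σ α (α d)) = some b := by
    rintro ⟨e, he⟩
    induction e using Sym2.inductionOn with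
    | _ a b =>
      have hab : H.Adj a b := he
      obtain ⟨u, v, hu, hv, huv⟩ := hadj a b hab
      unfold regionGraph at huv
      rw [SimpleGraph.fromRel_adj] at huv
      obtain ⟨_, ⟨d, hd1, hd2⟩ | ⟨d, hd1, hd2⟩⟩ := huv
      · exact ⟨d, a, b, rfl, hab.ne, by rw [hd1, hu], by rw [hd2, hv]⟩
      · refine ⟨α d, a, b, rfl, hab.ne, by rw [hd2, hu], ?_⟩
        rw [(hα d).1, hd1, hv]
  choose rep ea eb heab hne hfa hfb using hrep
  have h1 : ∀ e e', rep e = rep e' → e = e' := by
    intro e e' h
    apply Subtype.ext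
    have a1 : ea e = ea e' := by
      have := hfa e; rw [h, hfa e'] at this; exact (Option.some_injective _ this).symm
    have a2 : eb e = eb e' := by
      have := hfb e; rw [h, hfb e'] at this; exact (Option.some_injective _ this).symm
    rw [heab e, heab e', a1, a2]
  have h2 : ∀ e e', rep e = α (rep e') → e = e' := by
    intro e e' h
    apply Subtype.ext
    have a1 : ea e = eb e' := by
      have := hfa e; rw [h, hfb e'] at this; exact (Option.some_injective _ this).symm
    have a2 : eb e = ea e' := by
      have := hfb e; rw [h, (hα _).1, hfa e'] at this; exact (Option.some_injective _ this).symm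
    rw [heab e, heab e', a1, a2, Sym2.eq_swap]
  -- indicator of the fibre
  let y : W → D → ZMod 2 := fun w d => Set.indicator {d | f (reg σ α d) = some w} 1 d
  have hy : ∀ w d, y w ((σ * α) d) = y w d := by
    intro w d
    have : reg σ α ((σ * α) d) = reg σ α d := by
      apply Quotient.sound
      exact ⟨⟨σ * α, Subgroup.mem_zpowers _⟩, rfl⟩
    simp only [y, Set.indicator_apply, Set.mem_setOf_eq, this, Pi.one_apply]
  have hyv : ∀ w d a, f (reg σ α d) = some a → y w d = if a = w then 1 else 0 := by
    intro w d a h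
    by_cases haw : a = w
    · have hm : d ∈ {d | f (reg σ α d) = some w} := by
        rw [Set.mem_setOf_eq, h, haw]
      simp only [y]
      rw [Set.indicator_of_mem hm, if_pos haw, Pi.one_apply]
    · have hm : d ∉ {d | f (reg σ α d) = some w} := by
        rw [Set.mem_setOf_eq, h]
        exact fun h' => haw (Option.some_injective _ h')
      simp only [y]
      rw [Set.indicator_of_notMem hm, if_neg haw]
  have hind : ∀ (w : W) (e : H.edgeSet),
      (Set.indicator {e : Sym2 W | w ∈ e} 1 e.1 : ZMod 2) = y w (rep e) + y w (α (rep e)) := by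
    intro w e
    rw [hyv w _ _ (hfa e), hyv w _ _ (hfb e)]
    have hmem : e.1 ∈ {e : Sym2 W | w ∈ e} ↔ (w = ea e ∨ w = eb e) := by
      rw [Set.mem_setOf_eq, heab e, Sym2.mem_iff]
    by_cases hwa : ea e = w
    · have hwb : eb e ≠ w := fun h => hne e (hwa.trans h.symm)
      rw [Set.indicator_of_mem (hmem.2 (Or.inl hwa.symm)), if_pos hwa, if_neg hwb, add_zero,
        Pi.one_apply]
    · by_cases hwb : eb e = w
      · rw [Set.indicator_of_mem (hmem.2 (Or.inr hwb.symm)), if_neg hwa, if_pos hwb, zero_add,
          Pi.one_apply]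
      · have c1 : ¬ (w = ea e ∨ w = eb e) := by
          rintro (h | h)
          · exact hwa h.symm
          · exact hwb h.symm
        rw [Set.indicator_of_notMem (fun h => c1 (hmem.1 h)), if_neg hwa, if_neg hwb, add_zero]
  -- the darts in D3
  let D3 : D → Prop := fun d => (∀ e, d ≠ rep e ∧ d ≠ α (rep e)) ∧
    ¬ ∃ w, f (reg σ α d) = some w ∧ f (reg σ α (α d)) = some w
  let r : D → D → Prop := fun d d' => d' = σ d ∨ (D3 d ∧ d' = α d)
  let q : D → Quot r := Quot.mk r
  haveI : Finite (Quot r) := Finite.of_surjective q Quot.mk_surjective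
  letI : Fintype (Quot r) := Fintype.ofFinite _
  have hqσ : ∀ d, q (σ d) = q d := fun d =>
    (Quot.sound (show r d (σ d) from Or.inl rfl)).symm
  have hqα : ∀ d, D3 d → q (α d) = q d := fun d hd =>
    (Quot.sound (show r d (α d) from Or.inr ⟨hd, rfl⟩)).symm
  let b : Quot r → H.edgeSet → ZMod 2 := fun c e =>
    (if q (rep e) = c then 1 else 0) + (if q (α (rep e)) = c then 1 else 0)
  have hbsum : ∀ (g : Quot r → ZMod 2) e, ∑ c, g c * b c e = g (q (rep e)) + g (q (α (rep e))) := by
    intro g e
    simp only [b, mul_add, Finset.sum_add_distrib, mul_ite, mul_one, mul_zero, Finset.sum_ite_eq,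
      Finset.mem_univ, if_true]
  refine maclane H b ?_ ?_ ?_ ?_ hW
  · -- even
    intro c w
    let x : D → ZMod 2 := fun d => if q d = c then 1 else 0
    have hx : ∀ d, x (σ d) = x d := fun d => by simp only [x, hqσ]
    have hxα : ∀ d, D3 d → x (α d) = x d := fun d hd => by simp only [x, hqα d hd]
    have h0 := sparse_orth σ α (fun d => (hα d).1) x (y w) hx (hy w)
    have hzα : ∀ d, x (α d) + x (α (α d)) = x d + x (α d) := by
      intro d; rw [(hα d).1, add_comm]
    let g : D → ZMod 2 := fun d => (x d + x (α d)) * y w d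
    let D2 : D → Prop := fun d => ∃ w, f (reg σ α d) = some w ∧ f (reg σ α (α d)) = some w
    have hD2α : ∀ d, D2 (α d) ↔ D2 d := by
      intro d
      constructor
      · rintro ⟨w, a1, a2⟩; rw [(hα d).1] at a2; exact ⟨w, a2, a1⟩
      · rintro ⟨w, a1, a2⟩; exact ⟨w, a2, by rw [(hα d).1]; exact a1⟩
    have hD2rep : ∀ e, ¬ D2 (rep e) := by
      rintro e ⟨w, a1, a2⟩
      rw [hfa] at a1
      rw [hfb] at a2
      exact hne e (Option.some_injective _ (a1.trans a2.symm))
    have hsplit : ∀ d, g d = g d * sparseT α rep (fun _ => 1) d + (if D2 d then g d else 0) := by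
      intro d
      by_cases hd1 : ∃ e, d = rep e ∨ d = α (rep e)
      · obtain ⟨e, he⟩ := hd1
        have hT : sparseT α rep (fun _ => 1) d = 1 := by
          rcases he with rfl | rfl
          · exact sparseT_rep α rep hα h1 h2 _ e
          · rw [sparseT_inv α rep hα]; exact sparseT_rep α rep hα h1 h2 _ e
        have hnD2 : ¬ D2 d := by
          rcases he with rfl | rfl
          · exact hD2rep e
          · rw [hD2α]; exact hD2rep e
        rw [hT, mul_one, if_neg hnD2, add_zero]
      · have hd1' : ∀ e, d ≠ rep e ∧ d ≠ α (rep e) := by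
          intro e
          exact ⟨fun h => hd1 ⟨e, Or.inl h⟩, fun h => hd1 ⟨e, Or.inr h⟩⟩
        rw [sparseT_zero α rep _ d hd1', mul_zero, zero_add]
        by_cases hD2 : D2 d
        · rw [if_pos hD2]
        · rw [if_neg hD2]
          have : x (α d) = x d := hxα d ⟨hd1', hD2⟩
          simp only [g, this, z2_add_self, zero_mul]
    have hsum2 : ∑ d, (if D2 d then g d else 0) = 0 := by
      refine Finset.sum_involution (fun d _ => α d) ?_ ?_ ?_ ?_
      · intro d _
        by_cases hD2 : D2 d
        · rw [if_pos hD2, if_pos ((hD2α d).2 hD2)]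
          have : g (α d) = g d := by
            obtain ⟨v, a1, a2⟩ := hD2
            simp only [g]
            rw [hzα, hyv w _ _ a1, hyv w _ _ a2]
          rw [this, z2_add_self]
        · rw [if_neg hD2, if_neg (fun h => hD2 ((hD2α d).1 h)), add_zero]
      · intro d _ _
        exact (hα d).2
      · intro d _
        exact Finset.mem_univ _
      · intro d _
        exact (hα d).1
    have h3 : ∑ d, g d = ∑ d, g d * sparseT α rep (fun _ => 1) d +
        ∑ d, (if D2 d then g d else 0) := by
      rw [← Finset.sum_add_distrib]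
      exact Finset.sum_congr rfl fun d _ => hsplit d
    have h0' : ∑ d, g d = 0 := h0
    rw [h0', hsum2, add_zero, sparseT_sum] at h3
    rw [h3]
    refine Finset.sum_congr rfl fun e _ => ?_
    rw [hind, one_mul]
    simp only [g, b, x]
    rw [(hα (rep e)).1]
    ring
  · -- sum zero
    intro e
    have := hbsum (fun _ => 1) e
    simp only [one_mul] at this
    rw [this]
    exact z2_add_self 1
  · -- at most two
    intro e
    have hsub : {c | b c e ≠ 0} ⊆ {q (rep e), q (α (rep e))} := by
      intro c hc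
      by_contra hcon
      simp only [Set.mem_insert_iff, Set.mem_singleton_iff, not_or] at hcon
      apply hc
      have c1 : q (rep e) ≠ c := fun h => hcon.1 h.symm
      have c2 : q (α (rep e)) ≠ c := fun h => hcon.2 h.symm
      simp only [b, if_neg c1, if_neg c2, add_zero]
    exact (Set.ncard_le_ncard hsub (Set.toFinite _)).trans ((Set.ncard_insert_le _ _).trans (by simp))
  · -- spanning
    intro ζ hζ
    have hz := sparseT_inv α rep hα ζ
    have hzn : ∀ d, f (reg σ α d) = none → sparseT α rep ζ d = 0 := by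
      intro d hd
      refine sparseT_zero α rep ζ d fun e => ⟨?_, ?_⟩
      · rintro rfl; rw [hfa] at hd; cases hd
      · rintro rfl; rw [hfb] at hd; cases hd
    have hev : ∀ w : W, (∑ d : D, (Set.indicator {d | f (reg σ α d) = some w} 1 d : ZMod 2) *
        sparseT α rep ζ d) = 0 := by
      intro w
      rw [sparseT_sum α rep ζ (fun d => Set.indicator {d | f (reg σ α d) = some w} 1 d)]
      rw [← hζ w]
      refine Finset.sum_congr rfl fun e _ => ?_
      rw [hind, mul_comm]
    obtain ⟨z', hz'α, hz'2, hz'3⟩ := extend σ α hα f hconn (sparseT α rep ζ) hz hzn hev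
    obtain ⟨x, hxσ, hx⟩ := cycle_span n D σ α hα hσ htr hcard hreg
      (fun d => sparseT α rep ζ d + z' d) (fun d => by simp only [hz, hz'α]) hz'3
    have hlift : ∀ d d', r d d' → x d = x d' := by
      rintro d d' (rfl | ⟨⟨hd1, hd2⟩, rfl⟩)
      · exact (hxσ d).symm
      · have hz'0 : z' d = 0 := by
          by_contra hcon
          exact hd2 (hz'2 d hcon)
        have := hx d
        simp only [sparseT_zero α rep ζ d hd1, hz'0, add_zero] at this
        exact z2_eq_of_add this.symm
    refine ⟨Quot.lift x hlift, fun e => ?_⟩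
    rw [hbsum]
    have hz'0 : z' (rep e) = 0 := by
      by_contra hcon
      obtain ⟨w, a1, a2⟩ := hz'2 _ hcon
      rw [hfa] at a1
      rw [hfb] at a2
      exact hne e (Option.some_injective _ (a1.trans a2.symm))
    have := hx (rep e)
    simp only [sparseT_rep α rep hα h1 h2, hz'0, add_zero] at this
    exact this

end Pool.Agent.Lib.MP_f52c03_co.BL
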