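import Pool.Agent.Lib.MP_f52c03_co.BL.Defs

set_option autoImplicit false

open Polynomial

namespace Pool.Agent.Lib.MP_f52c03_co.BL

private theorem tt_reg_eq {D : Type} (σ α : Equiv.Perm D) (d e : D) :
    reg σ α d = reg σ α e ↔ ∃ j : ℤ, ((σ * α) ^ j) e = d := by
  rw [reg, reg, Quotient.eq, MulAction.orbitRel_apply]
  constructor
  · rintro ⟨⟨g, j, rfl⟩, hg⟩
    exact ⟨j, hg⟩
  · rintro ⟨j, hj⟩
    exact ⟨⟨(σ * α) ^ j, j, rfl⟩, hj⟩

private theorem tt_reg_mul {D : Type} (σ α : Equiv.Perm D) (d : D) :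
    reg σ α (σ (α d)) = reg σ α d :=
  (tt_reg_eq σ α _ _).2 ⟨1, by rw [zpow_one]; rfl⟩

private theorem tt_adj {D : Type} (σ α : Equiv.Perm D)
    (hb : ∀ d : D, ∀ j : ℤ, ((σ * α) ^ j) d ≠ α d) (d : D) :
    (regionGraph σ α).Adj (reg σ α d) (reg σ α (α d)) := by
  rw [regionGraph, SimpleGraph.fromRel_adj]
  refine ⟨fun h => ?_, Or.inl ⟨d, rfl, rfl⟩⟩
  obtain ⟨j, hj⟩ := (tt_reg_eq σ α _ _).1 h.symm
  exact hb d j hj

private theorem tt_adj' {D : Type} (σ α : Equiv.Perm D)
    (hα : ∀ d : D, α (α d) = d ∧ α d ≠ d)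
    (hb : ∀ d : D, ∀ j : ℤ, ((σ * α) ^ j) d ≠ α d) (d : D) :
    (regionGraph σ α).Adj (reg σ α d) (reg σ α (σ d)) := by
  have h1 := tt_reg_mul σ α (α d)
  rw [(hα d).1] at h1
  rw [h1]
  exact tt_adj σ α hb d

theorem tt_map (D : Type) [Fintype D] [Nonempty D] (σ α : Equiv.Perm D)
    (hα : ∀ d : D, α (α d) = d ∧ α d ≠ d)
    (hσ : ∀ d : D, σ (σ (σ d)) = d ∧ σ d ≠ d)
    (htr : ∀ d e : D, ∃ g ∈ Subgroup.closure ({σ, α} : Set (Equiv.Perm D)), g d = e)
    (hb : ∀ d : D, ∀ j : ℤ, ((σ * α) ^ j) d ≠ α d) :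
    TT (regionGraph σ α) Set.univ := by
  classical
  obtain ⟨d₀⟩ := ‹Nonempty D›
  have hadj := tt_adj' σ α hα hb
  have key : ∀ n : ℕ, ∀ A : Set (Reg σ α), TT (regionGraph σ α) A →
      ({reg σ α d₀, reg σ α (σ d₀), reg σ α (σ (σ d₀))} : Set (Reg σ α)) ⊆ A →
      (Aᶜ).ncard = n → TT (regionGraph σ α) Set.univ := by
    intro n
    induction n with
    | zero =>
      intro A hA _ hn
      rw [Set.ncard_eq_zero (Set.toFinite _), Set.compl_empty_iff] at hn
      rw [← hn]
      exact hA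
    | succ n ih =>
      intro A hA h3 hn
      have hne : A ≠ Set.univ := by
        rintro rfl
        rw [Set.compl_univ, Set.ncard_empty] at hn
        exact absurd hn (Nat.succ_ne_zero n).symm
      let X : D → Prop := fun d => reg σ α d ∈ A ∧ reg σ α (σ d) ∈ A ∧ reg σ α (σ (σ d)) ∈ A
      have hXσ1 : ∀ d, X d → X (σ d) := by
        rintro d ⟨h4, h5, h6⟩
        refine ⟨h5, h6, ?_⟩
        rw [(hσ d).1]
        exact h4
      have hX0 : X d₀ := ⟨h3 (by simp), h3 (by simp), h3 (by simp)⟩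
      have hex : ∃ d, X d ∧ ¬ X (α d) := by
        by_contra hcon
        push Not at hcon
        have hσi : ∀ d, X d ↔ X (σ d) := fun d =>
          ⟨hXσ1 d, fun h => by
            have h4 := hXσ1 _ (hXσ1 _ h)
            rwa [(hσ d).1] at h4⟩
        have hαi : ∀ d, X d ↔ X (α d) := fun d =>
          ⟨hcon d, fun h => by
            have h4 := hcon _ h
            rwa [(hα d).1] at h4⟩
        have hcl : ∀ g ∈ Subgroup.closure ({σ, α} : Set (Equiv.Perm D)), ∀ d, X d ↔ X (g d) := by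
          intro g hg
          induction hg using Subgroup.closure_induction with
          | mem x hx =>
            rcases hx with rfl | hx
            · exact hσi
            · rw [Set.mem_singleton_iff] at hx
              subst hx
              exact hαi
          | one => exact fun d => Iff.rfl
          | mul x y _ _ hx hy => exact fun d => (hy d).trans (hx (y d))
          | inv x _ hx =>
            intro d
            have h4 := hx (x⁻¹ d)
            have h5 : x (x⁻¹ d) = d := x.apply_symm_apply d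
            rw [h5] at h4
            exact h4.symm
        apply hne
        rw [Set.eq_univ_iff_forall]
        intro r
        obtain ⟨e, rfl⟩ := Quotient.exists_rep r
        obtain ⟨g, hg, hge⟩ := htr d₀ e
        have h4 := (hcl g hg d₀).1 hX0
        rw [hge] at h4
        exact h4.1
      obtain ⟨d, hd, hαd⟩ := hex
      have hp : reg σ α (α d) ∈ A := by
        have h4 := tt_reg_mul σ α (α d)
        rw [(hα d).1] at h4
        rw [← h4]
        exact hd.2.1
      have hq : reg σ α (σ (α d)) ∈ A := by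
        rw [tt_reg_mul]
        exact hd.1
      have hx : reg σ α (σ (σ (α d))) ∉ A := fun h => hαd ⟨hp, hq, h⟩
      refine ih (insert (reg σ α (σ (σ (α d)))) A) ?_ (h3.trans (Set.subset_insert _ _)) ?_
      · refine TT.step A _ (reg σ α (α d)) (reg σ α (σ (α d))) hA hx hp hq (hadj _) ?_
          (hadj _).symm
        have h4 := hadj (σ (σ (α d)))
        rwa [(hσ (α d)).1] at h4
      · have h4 : Aᶜ = insert (reg σ α (σ (σ (α d)))) (insert (reg σ α (σ (σ (α d)))) A)ᶜ := by
          ext r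
          simp only [Set.mem_compl_iff, Set.mem_insert_iff]
          by_cases hr : r = reg σ α (σ (σ (α d)))
          · subst hr
            simp [hx]
          · simp [hr]
        have h5 : reg σ α (σ (σ (α d))) ∉ (insert (reg σ α (σ (σ (α d)))) A)ᶜ := fun h =>
          h (Set.mem_insert _ _)
        rw [h4, Set.ncard_insert_of_notMem h5 (Set.toFinite _)] at hn
        omega
  refine key _ _ (TT.base _ _ _ (hadj d₀) (hadj (σ d₀)) ?_) subset_rfl rfl
  have h4 := hadj (σ (σ d₀))
  rw [(hσ d₀).1] at h4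
  exact h4.symm

theorem col_map (D : Type) [Fintype D] (σ α : Equiv.Perm D)
    (hα : ∀ d : D, α (α d) = d ∧ α d ≠ d)
    (hb : ∀ d : D, ∀ j : ℤ, ((σ * α) ^ j) d ≠ α d) (k : ℕ) :
    Nat.card {c : D → Fin k // (∀ d, c ((σ * α) d) = c d) ∧ ∀ d, c d ≠ c (α d)} =
      col (regionGraph σ α) k := by
  rw [col]
  symm
  let F : {c : Reg σ α → Fin k // ∀ a b, (regionGraph σ α).Adj a b → c a ≠ c b} →
      {c : D → Fin k // (∀ d, c ((σ * α) d) = c d) ∧ ∀ d, c d ≠ c (α d)} := fun c =>
    ⟨fun d => c.1 (reg σ α d), fun d => congrArg c.1 (tt_reg_mul σ α d),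
      fun d => c.2 _ _ (tt_adj σ α hb d)⟩
  refine Nat.card_congr (Equiv.ofBijective F ⟨?_, ?_⟩)
  · intro c c' h
    refine Subtype.ext (funext fun r => ?_)
    obtain ⟨e, rfl⟩ := Quotient.exists_rep r
    exact congrFun (congrArg Subtype.val h) e
  · rintro ⟨c, hc1, hc2⟩
    have h1 : ∀ (d : D) (j : ℤ), c (((σ * α) ^ j) d) = c d := by
      intro d j
      induction j using Int.induction_on with
      | zero => rfl
      | succ i ih =>
        rw [add_comm, zpow_one_add, Equiv.Perm.mul_apply, hc1, ih]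
      | pred i ih =>
        rw [← ih, ← hc1 (((σ * α) ^ (-(i : ℤ) - 1)) d), ← Equiv.Perm.mul_apply, ← zpow_one_add]
        congr 3
        ring
    have h2 : ∀ d e : D, reg σ α d = reg σ α e → c d = c e := by
      intro d e h
      obtain ⟨j, rfl⟩ := (tt_reg_eq σ α _ _).1 h
      exact h1 e j
    refine ⟨⟨Quotient.lift c fun d e h => h2 d e (Quotient.sound h), ?_⟩, rfl⟩
    intro a b hab
    rw [regionGraph, SimpleGraph.fromRel_adj] at hab
    obtain ⟨-, ⟨d, rfl, rfl⟩ | ⟨d, rfl, rfl⟩⟩ := hab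
    · exact hc2 d
    · exact (hc2 d).symm

end Pool.Agent.Lib.MP_f52c03_co.BL
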