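import Pool.Agent.Lib.MP_f52c03_co.BL.Upper
import Pool.Agent.Lib.MP_f52c03_co.BL.SparseMap
import Pool.Agent.Lib.MP_f52c03_co.BL.TTMap

set_option autoImplicit false

open Polynomial

namespace Pool.Agent.Lib.MP_f52c03_co.BL

theorem main (n : ℕ) (D : Type) [Fintype D] (σ α : Equiv.Perm D)
    (hα : ∀ d : D, α (α d) = d ∧ α d ≠ d)
    (hσ : ∀ d : D, σ (σ (σ d)) = d ∧ σ d ≠ d)
    (htr : ∀ d e : D, ∃ g ∈ Subgroup.closure ({σ, α} : Set (Equiv.Perm D)), g d = e)
    (hcard : Fintype.card D = 6 * (n + 1))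
    (hreg : Nat.card (Quotient (MulAction.orbitRel (Subgroup.zpowers (σ * α)) D)) = n + 3)
    (hb : ∀ d : D, ∀ j : ℤ, ((σ * α) ^ j) d ≠ α d)
    (hL : Low (regionGraph σ α)) :
    ∃ Q : Polynomial ℚ,
        (∀ k : ℕ,
          ((Nat.card {c : D → Fin k // (∀ d, c ((σ * α) d) = c d) ∧ ∀ d, c d ≠ c (α d)} : ℕ) : ℚ)
            = (k : ℚ) * ((k : ℚ) - 1) * ((k : ℚ) - 2) * Q.eval (k : ℚ)) ∧
        ∀ i : ℕ,
          ((Polynomial.X + 1 : Polynomial ℚ) ^ n).coeff i ≤ (Q.comp (Polynomial.X + 4)).coeff i ∧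
          (Q.comp (Polynomial.X + 4)).coeff i ≤ ((Polynomial.X + 2 : Polynomial ℚ) ^ n).coeff i := by
  classical
  have hne : Nonempty D := by
    rw [← Fintype.card_pos_iff]
    omega
  have hTT := tt_map D σ α hα hσ htr hb
  have hSp := sparse_map n D σ α hα hσ htr hcard hreg
  haveI : Fintype (Reg σ α) := Fintype.ofFinite _
  have hc : Fintype.card (Reg σ α) = n + 3 := by
    rw [← Nat.card_eq_fintype_card]
    exact hreg
  have hT : HasTri (regionGraph σ α) := by
    have h := hTT.hasTri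
    obtain ⟨a, b, c, h1, h2, h3⟩ := h
    exact ⟨a.1, b.1, c.1, h1, h2, h3⟩
  have hlo := lower n _ (regionGraph σ α) hSp hL hT hc
  have hup := upper n (regionGraph σ α) hSp hL hTT hc
  refine ⟨R (regionGraph σ α), fun k => ?_, fun i => ⟨?_, ?_⟩⟩
  · rw [col_map D σ α hα hb k]
    exact isR_R _ hT k
  · have h := hlo i
    have e : ((X - C 3 : ℚ[X]) ^ n).comp (X + 4) = (X + 1) ^ n := by
      rw [Polynomial.pow_comp]
      congr 1
      simp only [sub_comp, X_comp, C_comp]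
      have : (C 3 : ℚ[X]) = 3 := rfl
      rw [this]
      ring
    rw [sub_comp, e, coeff_sub] at h
    linarith
  · have h := hup i
    have e : ((X - C 2 : ℚ[X]) ^ n).comp (X + 4) = (X + 2) ^ n := by
      rw [Polynomial.pow_comp]
      congr 1
      simp only [sub_comp, X_comp, C_comp]
      have : (C 2 : ℚ[X]) = 2 := rfl
      rw [this]
      ring
    rw [sub_comp, e, coeff_sub] at h
    linarith

end Pool.Agent.Lib.MP_f52c03_co.BL
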