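import Pool.Agent.Lib.MP_f52c03_co.BL.Defs3

set_option autoImplicit false

namespace Pool.Agent.Lib.MP_f52c03_co.BL

/-- the weights: `a` for odd exponents, `b` for even ones -/
private theorem alt_le (x a b : ℚ) (h0 : 0 ≤ x) (h1 : x < 1) (ha : 0 ≤ a) (hb : 0 ≤ b) (t : ℕ) :
    (∑ r ∈ Finset.range t, x ^ (r + 1) * (if Even r then a else b)) ≤
      (a * x + b * x ^ 2) / (1 - x ^ 2) ∧
    (∑ r ∈ Finset.range (t + 1), x ^ (r + 1) * (if Even r then a else b)) ≤
      (a * x + b * x ^ 2) / (1 - x ^ 2) := by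
  have hx2 : x ^ 2 < 1 := by nlinarith
  have h2 : 0 < 1 - x ^ 2 := by linarith
  have hU0 : 0 ≤ a * x + b * x ^ 2 := by positivity
  have hU : (a * x + b * x ^ 2) / (1 - x ^ 2) =
      a * x + b * x ^ 2 + x ^ 2 * ((a * x + b * x ^ 2) / (1 - x ^ 2)) := by
    field_simp
    ring
  have hU1 : 0 ≤ (a * x + b * x ^ 2) / (1 - x ^ 2) := div_nonneg hU0 h2.le
  induction t with
  | zero =>
    constructor
    · simpa using hU1
    · rw [Finset.sum_range_one, if_pos (by decide), hU]
      have h3 : 0 ≤ b * x ^ 2 := by positivity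
      have h4 : 0 ≤ x ^ 2 * ((a * x + b * x ^ 2) / (1 - x ^ 2)) :=
        mul_nonneg (by positivity) hU1
      linarith
  | succ t ih =>
    refine ⟨ih.2, ?_⟩
    have h3 : (∑ r ∈ Finset.range (t + 1 + 1), x ^ (r + 1) * (if Even r then a else b)) =
        x ^ 2 * (∑ r ∈ Finset.range t, x ^ (r + 1) * (if Even r then a else b)) +
          (a * x + b * x ^ 2) := by
      rw [Finset.sum_range_succ', Finset.sum_range_succ', Finset.mul_sum, add_assoc]
      congr 1
      · refine Finset.sum_congr rfl fun r _ => ?_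
        have h4 : Even (r + 1 + 1) ↔ Even r := by
          rw [Nat.even_add_one, Nat.even_add_one, not_not]
        simp only [h4]
        ring
      · rw [if_neg (by decide), if_pos (by decide)]
        ring
    rw [h3, hU]
    have h4 := mul_le_mul_of_nonneg_left ih.1 (sq_nonneg x)
    linarith

private theorem ar1 (n i : ℚ) : (3 / 4 * n + 10 * i) * (8 / 25 * n - 8 * i) ≤
    1 / 4 * (n - 15 / 2 * i) ^ 2 := by
  have h1 := sq_nonneg (n - 95 / 2 * i)
  have h2 := sq_nonneg i
  have h3 : 1 / 4 * (n - 15 / 2 * i) ^ 2 - (3 / 4 * n + 10 * i) * (8 / 25 * n - 8 * i) =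
      1 / 100 * (n - 95 / 2 * i) ^ 2 + 143 / 2 * i ^ 2 := by ring
  linarith

private theorem ar2 (n i : ℚ) : (n / 16 + 10 * i) * (8 / 25 * n - 8 * i) ≤
    1 / 10 * (n - 15 / 2 * i) ^ 2 := by
  have h1 := sq_nonneg (n - 105 / 4 * i)
  have h2 := sq_nonneg i
  have h3 : 1 / 10 * (n - 15 / 2 * i) ^ 2 - (n / 16 + 10 * i) * (8 / 25 * n - 8 * i) =
      2 / 25 * (n - 105 / 4 * i) ^ 2 + 61 / 2 * i ^ 2 := by ring
  linarith

/-- the arithmetic of the induction step -/
private theorem ar3 (n i k L q : ℚ) (hi0 : 0 ≤ i) (hn0 : 0 < n) (hkn : 25 * (i + k) ≤ n)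
    (hL : n - 15 / 2 * i ≤ L) (hL0 : 0 < L) (hq0 : 0 < q) (hqL : q * L = 2 * k)
    (hx1 : 4 * q ≤ 8 / 25) :
    ((1 / 2 * L + 3 / 4 * n + 10 * i) * (4 * q) + (n / 16 + 10 * i) * (4 * q) ^ 2) /
      (1 - (4 * q) ^ 2) ≤ L / 2 := by
  have hx0 : 0 ≤ 4 * q := by positivity
  have hb0 : 0 ≤ n / 16 + 10 * i := by positivity
  have hx2 : (4 * q) ^ 2 ≤ 64 / 625 := by
    have := mul_le_mul hx1 hx1 hx0 (by norm_num)
    calc (4 * q) ^ 2 = 4 * q * (4 * q) := by ring
      _ ≤ 8 / 25 * (8 / 25) := this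
      _ = 64 / 625 := by norm_num
  have h1 : 0 < 1 - (4 * q) ^ 2 := by linarith
  rw [div_le_iff₀ h1]
  have hsq : (n - 15 / 2 * i) ^ 2 ≤ L ^ 2 := by
    have h3 : 0 ≤ n - 15 / 2 * i := by
      have h4 : 25 * i ≤ n + 25 * i := by linarith
      have h5 : 0 < q * L := by positivity
      linarith
    exact pow_le_pow_left₀ h3 hL 2
  have h8 : 8 * k ≤ 8 / 25 * n - 8 * i := by linarith
  have e1 : (3 / 4 * n + 10 * i) * (8 * k) ≤ 1 / 4 * L ^ 2 := by
    have h3 : (3 / 4 * n + 10 * i) * (8 * k) ≤ (3 / 4 * n + 10 * i) * (8 / 25 * n - 8 * i) :=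
      mul_le_mul_of_nonneg_left h8 (by positivity)
    have h4 := ar1 n i
    linarith
  have e2 : (n / 16 + 10 * i) * (8 * k) ≤ 1 / 10 * L ^ 2 := by
    have h3 : (n / 16 + 10 * i) * (8 * k) ≤ (n / 16 + 10 * i) * (8 / 25 * n - 8 * i) :=
      mul_le_mul_of_nonneg_left h8 hb0
    have h4 := ar2 n i
    linarith
  have f1 : (3 / 4 * n + 10 * i) * (4 * q) ≤ 1 / 4 * L := by
    have h3 : (3 / 4 * n + 10 * i) * (4 * q) * L ≤ 1 / 4 * L * L := by
      have h4 : (3 / 4 * n + 10 * i) * (4 * q) * L = (3 / 4 * n + 10 * i) * (8 * k) := by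
        rw [show (3 / 4 * n + 10 * i) * (4 * q) * L =
          (3 / 4 * n + 10 * i) * (4 * (q * L)) by ring, hqL]
        ring
      rw [h4]
      linarith
    exact le_of_mul_le_mul_right h3 hL0
  have f2 : (n / 16 + 10 * i) * (4 * q) ≤ 1 / 10 * L := by
    have h3 : (n / 16 + 10 * i) * (4 * q) * L ≤ 1 / 10 * L * L := by
      have h4 : (n / 16 + 10 * i) * (4 * q) * L = (n / 16 + 10 * i) * (8 * k) := by
        rw [show (n / 16 + 10 * i) * (4 * q) * L =
          (n / 16 + 10 * i) * (4 * (q * L)) by ring, hqL]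
        ring
      rw [h4]
      linarith
    exact le_of_mul_le_mul_right h3 hL0
  have f3 : (n / 16 + 10 * i) * (4 * q) ^ 2 ≤ 4 / 125 * L := by
    have h3 : (n / 16 + 10 * i) * (4 * q) * (4 * q) ≤ 1 / 10 * L * (8 / 25) :=
      mul_le_mul f2 hx1 hx0 (by positivity)
    have h4 : (n / 16 + 10 * i) * (4 * q) ^ 2 = (n / 16 + 10 * i) * (4 * q) * (4 * q) := by ring
    rw [h4]
    linarith
  have f4 : 1 / 2 * L * (4 * q) ≤ 4 / 25 * L := by
    have h3 : 1 / 2 * L * (4 * q) ≤ 1 / 2 * L * (8 / 25) :=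
      mul_le_mul_of_nonneg_left hx1 (by positivity)
    linarith
  have f5 : 561 / 625 * (L / 2) ≤ L / 2 * (1 - (4 * q) ^ 2) := by
    have h3 : L / 2 * (561 / 625) ≤ L / 2 * (1 - (4 * q) ^ 2) :=
      mul_le_mul_of_nonneg_left (by linarith) (by positivity)
    linarith
  have f6 : (1 / 2 * L + 3 / 4 * n + 10 * i) * (4 * q) =
      1 / 2 * L * (4 * q) + (3 / 4 * n + 10 * i) * (4 * q) := by ring
  rw [f6]
  linarith

private theorem CV_pos (n i k : ℕ) (hk : 25 * (i + k) ≤ n) (C l : PowerSeries ℚ)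
    (h0 : 0 < PowerSeries.constantCoeff C) (hd : PowerSeries.derivative ℚ C = l * C)
    (hL : (n : ℚ) - 15 / 2 * (i : ℚ) ≤ PowerSeries.coeff 0 l)
    (hl : ∀ j : ℕ, 1 ≤ j →
      -(4 ^ j * (1 / 2 * PowerSeries.coeff 0 l + 3 / 4 * (n : ℚ) + 10 * (i : ℚ))) ≤
      PowerSeries.coeff j l)
    (hl2 : ∀ j : ℕ, 1 ≤ j → -(16 ^ j * ((n : ℚ) / 16 + 10 * (i : ℚ))) ≤
      PowerSeries.coeff (2 * j) l)
    (t : ℕ) (ht : t ≤ k) :
    (∀ s : ℕ, s ≤ t → 0 < PowerSeries.coeff s C) ∧ ∀ r : ℕ, r ≤ t →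
      PowerSeries.coeff (t - r) C ≤
        (2 * (k : ℚ) / PowerSeries.coeff 0 l) ^ r * PowerSeries.coeff t C := by
  induction t with
  | zero =>
    refine ⟨fun s hs => ?_, fun r hr => ?_⟩
    · obtain rfl : s = 0 := by omega
      rw [PowerSeries.coeff_zero_eq_constantCoeff_apply]; exact h0
    · obtain rfl : r = 0 := by omega
      simp
  | succ t ih =>
    obtain ⟨hposs, hr⟩ := ih (by omega)
    have hpos := hposs t le_rfl
    set L : ℚ := PowerSeries.coeff 0 l with hLdef
    have hk1 : (1 : ℚ) ≤ k := by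
      have : 1 ≤ k := by omega
      exact_mod_cast this
    have hi0 : (0 : ℚ) ≤ i := Nat.cast_nonneg i
    have hkn : (25 : ℚ) * ((i : ℚ) + k) ≤ n := by exact_mod_cast hk
    have hn0 : (0 : ℚ) < n := by linarith
    have hL2 : (n : ℚ) * (7 / 10) ≤ L := by linarith
    have hL0 : 0 < L := by linarith
    set q : ℚ := 2 * (k : ℚ) / L with hq
    have hq0 : 0 < q := by positivity
    have hqL : q * L = 2 * (k : ℚ) := by rw [hq]; field_simp
    have hx0 : 0 ≤ 4 * q := by positivity
    have hx1 : 4 * q ≤ 8 / 25 := by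
      rw [hq, ← mul_div_assoc, div_le_div_iff₀ hL0 (by norm_num)]
      linarith
    set a : ℚ := 1 / 2 * L + 3 / 4 * (n : ℚ) + 10 * (i : ℚ) with ha
    set b : ℚ := (n : ℚ) / 16 + 10 * (i : ℚ) with hb
    have ha0 : 0 ≤ a := by positivity
    have hb0 : 0 ≤ b := by positivity
    have hrec : PowerSeries.coeff (t + 1) C * ((t : ℚ) + 1) =
        L * PowerSeries.coeff t C + ∑ r ∈ Finset.range t,
          PowerSeries.coeff (r + 1) l * PowerSeries.coeff (t - (r + 1)) C := by
      have h1 : PowerSeries.coeff t (PowerSeries.derivative ℚ C) =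
          PowerSeries.coeff (t + 1) C * ((t : ℚ) + 1) := PowerSeries.coeff_derivative C t
      rw [← h1, hd, PowerSeries.coeff_mul,
        Finset.Nat.sum_antidiagonal_eq_sum_range_succ
          (fun i j => PowerSeries.coeff i l * PowerSeries.coeff j C) t, Finset.sum_range_succ']
      rw [add_comm]
      simp [hLdef]
    have hcoef : ∀ r : ℕ, -(4 ^ (r + 1) * (if Even r then a else b)) ≤
        PowerSeries.coeff (r + 1) l := by
      intro r
      split_ifs with hr2
      · exact hl (r + 1) (by omega)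
      · obtain ⟨m, hm⟩ := Nat.not_even_iff_odd.1 hr2
        have h1 := hl2 (m + 1) (by omega)
        have h2 : 2 * (m + 1) = r + 1 := by omega
        have h3 : (16 : ℚ) ^ (m + 1) = 4 ^ (r + 1) := by
          rw [← h2, pow_mul]
          norm_num
        rw [h2, h3] at h1
        exact h1
    have hlow : -((∑ r ∈ Finset.range t, (4 * q) ^ (r + 1) * (if Even r then a else b)) *
        PowerSeries.coeff t C) ≤ ∑ r ∈ Finset.range t,
          PowerSeries.coeff (r + 1) l * PowerSeries.coeff (t - (r + 1)) C := by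
      rw [Finset.sum_mul, ← Finset.sum_neg_distrib]
      refine Finset.sum_le_sum fun r hrt => ?_
      have hrt' : r + 1 ≤ t := by
        have := Finset.mem_range.1 hrt
        omega
      have hw0 : (0 : ℚ) ≤ (if Even r then a else b) := by
        split_ifs
        · exact ha0
        · exact hb0
      have h1 := hcoef r
      have h2 := hr (r + 1) hrt'
      have hge : 0 ≤ PowerSeries.coeff (t - (r + 1)) C := (hposs _ (by omega)).le
      have h3 : -(4 ^ (r + 1) * (if Even r then a else b)) * PowerSeries.coeff (t - (r + 1)) C ≤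
          PowerSeries.coeff (r + 1) l * PowerSeries.coeff (t - (r + 1)) C :=
        mul_le_mul_of_nonneg_right h1 hge
      have h4 : 4 ^ (r + 1) * (if Even r then a else b) * PowerSeries.coeff (t - (r + 1)) C ≤
          4 ^ (r + 1) * (if Even r then a else b) * (q ^ (r + 1) * PowerSeries.coeff t C) :=
        mul_le_mul_of_nonneg_left h2 (mul_nonneg (by positivity) hw0)
      refine le_trans ?_ h3
      have h5 : (4 * q) ^ (r + 1) * (if Even r then a else b) * PowerSeries.coeff t C =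
          4 ^ (r + 1) * (if Even r then a else b) * (q ^ (r + 1) * PowerSeries.coeff t C) := by
        rw [mul_pow]; ring
      rw [h5]
      linarith
    have hgeo := (alt_le (4 * q) a b hx0 (by linarith) ha0 hb0 t).1
    have hprod : (∑ r ∈ Finset.range t, (4 * q) ^ (r + 1) * (if Even r then a else b)) ≤
        L / 2 := by
      exact hgeo.trans (ar3 n i k L q hi0 hn0 hkn hL hL0 hq0 hqL hx1)
    have hmain : L / 2 * PowerSeries.coeff t C ≤ PowerSeries.coeff (t + 1) C * ((t : ℚ) + 1) := by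
      rw [hrec]
      have := mul_le_mul_of_nonneg_right hprod hpos.le
      linarith
    have ht1 : (0 : ℚ) < (t : ℚ) + 1 := by positivity
    have htk : (t : ℚ) + 1 ≤ k := by exact_mod_cast ht
    have hnew : 0 < PowerSeries.coeff (t + 1) C := by
      by_contra hcon
      push Not at hcon
      have h1 : PowerSeries.coeff (t + 1) C * ((t : ℚ) + 1) ≤ 0 :=
        mul_nonpos_of_nonpos_of_nonneg hcon ht1.le
      have h2 : 0 < L / 2 * PowerSeries.coeff t C := by positivity
      linarith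
    have hstep : PowerSeries.coeff t C ≤ q * PowerSeries.coeff (t + 1) C := by
      have h1 : L / 2 * PowerSeries.coeff t C ≤ PowerSeries.coeff (t + 1) C * (k : ℚ) :=
        hmain.trans (mul_le_mul_of_nonneg_left htk hnew.le)
      have h2 : q * PowerSeries.coeff (t + 1) C =
          (PowerSeries.coeff (t + 1) C * (k : ℚ)) / (L / 2) := by
        rw [hq]; field_simp
      rw [h2, le_div_iff₀ (by positivity)]
      linarith
    refine ⟨fun s hs => ?_, fun r hr1 => ?_⟩
    · rcases Nat.lt_or_ge s (t + 1) with h | h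
      · exact hposs s (by omega)
      · obtain rfl : s = t + 1 := by omega
        exact hnew
    · rcases Nat.eq_zero_or_pos r with rfl | h
      · simp
      · obtain ⟨m, rfl⟩ : ∃ m, r = m + 1 := ⟨r - 1, by omega⟩
        have h1 := hr m (by omega)
        have h2 : t + 1 - (m + 1) = t - m := by omega
        rw [h2]
        calc PowerSeries.coeff (t - m) C ≤ q ^ m * PowerSeries.coeff t C := h1
          _ ≤ q ^ m * (q * PowerSeries.coeff (t + 1) C) :=
            mul_le_mul_of_nonneg_left hstep (by positivity)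
          _ = _ := by ring

private theorem TermV_pos (n : ℕ) (y : ℚ) (hy : (n : ℚ) ≤ y) (A : PowerSeries ℚ)
    (hA : TermV n y A) (k : ℕ) (hk : 25 * k ≤ n) : 0 ≤ PowerSeries.coeff k A := by
  obtain ⟨i, C, l, rfl, h0, hd, hL, hl, hl2⟩ := hA
  rw [PowerSeries.coeff_X_pow_mul']
  split_ifs with hik
  · have hi : (i : ℚ) ≤ k := by exact_mod_cast hik
    exact ((CV_pos n i (k - i) (by omega) C l h0 hd (by linarith) hl hl2 (k - i)
      le_rfl).1 _ le_rfl).le
  · exact le_rfl

/-- the first `n / 25` coefficients of a sum of terms are nonnegative -/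
theorem QV_pos (n : ℕ) (y : ℚ) (hy : (n : ℚ) ≤ y) (A : PowerSeries ℚ) (hA : A ∈ QV n y) (k : ℕ)
    (hk : 25 * k ≤ n) : 0 ≤ PowerSeries.coeff k A := by
  unfold QV at hA
  induction hA using AddSubmonoid.closure_induction with
  | mem x hx => exact TermV_pos n y hy x hx k hk
  | zero => simp
  | add x y _ _ hx hy => rw [map_add]; exact add_nonneg hx hy

end Pool.Agent.Lib.MP_f52c03_co.BL
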