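import Pool.Agent.Lib.MP_f52c03_co.BL.Lower

set_option autoImplicit false

open Polynomial

namespace Pool.Agent.Lib.MP_f52c03_co.BL

theorem TT.hasTri {V : Type} {G : SimpleGraph V} {A : Set V} (h : TT G A) :
    HasTri (G.induce A) := by
  induction h with
  | base a b c hab hbc hac =>
    exact ⟨⟨a, by simp⟩, ⟨b, by simp⟩, ⟨c, by simp⟩, hab, hbc, hac⟩
  | step A x p q _ _ _ _ _ _ _ ih =>
    obtain ⟨a, b, c, hab, hbc, hac⟩ := ih
    exact ⟨⟨a.1, Or.inr a.2⟩, ⟨b.1, Or.inr b.2⟩, ⟨c.1, Or.inr c.2⟩, hab, hbc, hac⟩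

private theorem Upper_iso {V : Type} (G : SimpleGraph V) (A : Set V) (x : V) (hx : x ∉ A) :
    Nonempty (cone (G.induce A) {y : A | G.Adj x y.1} ≃g G.induce (insert x A)) := by
  classical
  let f : Option A → (insert x A : Set V) := fun o =>
    Option.elim o ⟨x, Set.mem_insert _ _⟩ fun y => ⟨y.1, Or.inr y.2⟩
  have hf : Function.Bijective f := by
    constructor
    · rintro (_ | a) (_ | b) h
      · rfl
      · have h' : x = b.1 := congrArg Subtype.val h
        exact absurd b.2 (h' ▸ hx)
      · have h' : a.1 = x := congrArg Subtype.val h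
        exact absurd a.2 (h'.symm ▸ hx)
      · have h' : (f (some a)).1 = (f (some b)).1 := congrArg Subtype.val h
        exact congrArg some (Subtype.ext h')
    · rintro ⟨y, hy | hy⟩
      · subst hy
        exact ⟨none, rfl⟩
      · exact ⟨some ⟨y, hy⟩, rfl⟩
  refine ⟨⟨Equiv.ofBijective f hf, ?_⟩⟩
  intro a b
  show G.Adj (f a).1 (f b).1 ↔ _
  unfold cone
  rw [SimpleGraph.fromRel_adj]
  rcases a with _ | a <;> rcases b with _ | b
  · simp [f]
  · have h1 : ((f none).1 = x) := rfl
    have h2 : ((f (some b)).1 = b.1) := rfl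
    rw [h1, h2]
    constructor
    · intro h
      exact ⟨by simp, Or.inl (Or.inr ⟨rfl, b, rfl, h⟩)⟩
    · rintro ⟨_, (⟨a', _, h, _⟩ | ⟨_, b', hb', h⟩) | (⟨_, a', _, h, _⟩ | ⟨h, _⟩)⟩
      · exact absurd h (by simp)
      · obtain rfl := Option.some_injective _ hb'
        exact h
      · exact absurd h (by simp)
      · exact absurd h (by simp)
  · have h1 : ((f none).1 = x) := rfl
    have h2 : ((f (some a)).1 = a.1) := rfl
    rw [h1, h2]
    constructor
    · intro h
      exact ⟨by simp, Or.inr (Or.inr ⟨rfl, a, rfl, h.symm⟩)⟩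
    · rintro ⟨_, (⟨_, a', _, h, _⟩ | ⟨h, _⟩) | (⟨a', _, h, _⟩ | ⟨_, b', hb', h⟩)⟩
      · exact absurd h (by simp)
      · exact absurd h (by simp)
      · exact absurd h (by simp)
      · obtain rfl := Option.some_injective _ hb'
        exact SimpleGraph.Adj.symm h
  · have h1 : ((f (some a)).1 = a.1) := rfl
    have h2 : ((f (some b)).1 = b.1) := rfl
    rw [h1, h2]
    constructor
    · intro h
      refine ⟨fun h' => ?_, Or.inl (Or.inl ⟨a, b, rfl, rfl, h⟩)⟩
      obtain rfl := Option.some_injective _ h'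
      exact G.loopless.irrefl _ h
    · rintro ⟨_, (⟨a', b', ha', hb', h⟩ | ⟨h, _⟩) | (⟨a', b', ha', hb', h⟩ | ⟨h, _⟩)⟩
      · obtain rfl := Option.some_injective _ ha'
        obtain rfl := Option.some_injective _ hb'
        exact h
      · exact absurd h (by simp)
      · obtain rfl := Option.some_injective _ ha'
        obtain rfl := Option.some_injective _ hb'
        exact SimpleGraph.Adj.symm h
      · exact absurd h (by simp)

private theorem Upper_card {V : Type} [Fintype V] {G : SimpleGraph V} {A : Set V} (h : TT G A) :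
    3 ≤ A.ncard := by
  induction h with
  | base a b c hab hbc hac =>
    rw [Set.ncard_insert_of_notMem (by simp [hab.ne, hac.ne]) (Set.toFinite _),
      Set.ncard_pair hbc.ne]
  | step A x p q _ hx _ _ _ _ _ ih =>
    rw [Set.ncard_insert_of_notMem hx (Set.toFinite _)]
    omega

private theorem Upper_main {V : Type} [Fintype V] (G : SimpleGraph V) (hS : Sparse G)
    (hL : Low G) {A : Set V} (h : TT G A) : ∀ m : ℕ, A.ncard = m + 3 →
      NN ((X - C 2) ^ m - R (G.induce A)) := by
  classical
  induction h with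
  | base a b c hab hbc hac =>
    intro m hm
    have hc : ({a, b, c} : Set V).ncard = 3 := by
      rw [Set.ncard_insert_of_notMem (by simp [hab.ne, hac.ne]) (Set.toFinite _),
        Set.ncard_pair hbc.ne]
    have hm0 : m = 0 := by omega
    subst hm0
    have hcard : Fintype.card ({a, b, c} : Set V) = 3 := by
      rw [← Nat.card_eq_fintype_card, Nat.card_coe_set_eq, hc]
    rw [R_three (G.induce {a, b, c}) (TT.hasTri (TT.base a b c hab hbc hac)) hcard, pow_zero,
      sub_self]
    exact NN_zero
  | step A x p q hA hx hp hq hpq hxp hxq ih =>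
    intro m hm
    rw [Set.ncard_insert_of_notMem hx (Set.toFinite _)] at hm
    have h3 := Upper_card hA
    obtain ⟨m', rfl⟩ : ∃ m', m = m' + 1 := ⟨m - 1, by omega⟩
    have ih' := ih m' (by omega)
    obtain ⟨e⟩ := Upper_iso G A x hx
    have hTri := TT.hasTri hA
    have hR := R_iso e (HasTri.cone hTri _)
    have hmin : IsMinor (cone (G.induce A) {y : A | G.Adj x y.1}) G :=
      (IsMinor.of_iso e).trans (IsMinor.induce G _)
    have h1 := cone_upper (G.induce A) {y : A | G.Adj x y.1} hTri
      (fun W _ F hF hFT _ => nonneg F (hS.minor (hF.trans hmin)) (hL.minor (hF.trans hmin)) hFT)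
      ⟨p, hp⟩ ⟨q, hq⟩ hxp hxq hpq
    rw [hR] at h1
    have h2 : (X - C 2) ^ (m' + 1) - R (G.induce (insert x A))
        = (X - C 2) * ((X - C 2) ^ m' - R (G.induce A))
          + ((X - C 2) * R (G.induce A) - R (G.induce (insert x A))) := by
      ring
    rw [h2]
    exact ((NN_X_sub 2 (by norm_num)).mul ih').add h1

theorem upper (n : ℕ) {V : Type} [Fintype V] (G : SimpleGraph V) (hS : Sparse G) (hL : Low G)
    (hT : TT G Set.univ) (hc : Fintype.card V = n + 3) : NN ((X - C 2) ^ n - R G) := by
  have h := Upper_main G hS hL hT n (by rw [Set.ncard_univ, Nat.card_eq_fintype_card, hc])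
  rwa [R_iso (SimpleGraph.induceUnivIso G) (TT.hasTri hT)] at h

end Pool.Agent.Lib.MP_f52c03_co.BL
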