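import Pool.Agent.Lib.MP_f52c03_co.BL.BoundsV
import Pool.Agent.Lib.MP_f52c03_co.BL.PosV
import Pool.Agent.Lib.MP_f52c03_co.BL.SparseMap
import Pool.Agent.Lib.MP_f52c03_co.BL.TTMap
import Pool.Agent.Lib.MP_f52c03_co.BL.Upper

set_option autoImplicit false

namespace Pool.Agent.Lib.MP_f52c03_co.BL

theorem main3 (n : ℕ) (D : Type) [Fintype D] (σ α : Equiv.Perm D)
    (hα : ∀ d : D, α (α d) = d ∧ α d ≠ d)
    (hσ : ∀ d : D, σ (σ (σ d)) = d ∧ σ d ≠ d)
    (htr : ∀ d e : D, ∃ g ∈ Subgroup.closure ({σ, α} : Set (Equiv.Perm D)), g d = e)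
    (hcard : Fintype.card D = 6 * (n + 1))
    (hreg : Nat.card (Quotient (MulAction.orbitRel (Subgroup.zpowers (σ * α)) D)) = n + 3)
    (hb : ∀ d : D, ∀ j : ℤ, ((σ * α) ^ j) d ≠ α d) :
    ∃ Q : Polynomial ℚ,
        (∀ k : ℕ,
          ((Nat.card {c : D → Fin k // (∀ d, c ((σ * α) d) = c d) ∧ ∀ d, c d ≠ c (α d)} : ℕ) : ℚ)
            = (k : ℚ) * ((k : ℚ) - 1) * ((k : ℚ) - 2) * Q.eval (k : ℚ)) ∧
        ∀ k : ℕ, 25 * k ≤ n →
          (n.choose k : ℚ) ≤ (Q.comp (Polynomial.X + 4)).coeff (n - k) ∧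
          (Q.comp (Polynomial.X + 4)).coeff (n - k) ≤ 2 ^ k * (n.choose k : ℚ) := by
  classical
  have hne : Nonempty D := by
    rw [← Fintype.card_pos_iff]
    omega
  have hTT := tt_map D σ α hα hσ htr hb
  have hSp := sparse_map n D σ α hα hσ htr hcard hreg
  haveI : Fintype (Reg σ α) := Fintype.ofFinite _
  have hc : Fintype.card (Reg σ α) = n + 3 := by
    rw [← Nat.card_eq_fintype_card]
    exact hreg
  have hT : HasTri (regionGraph σ α) := by
    have h := hTT.hasTri
    obtain ⟨a, b, c, h1, h2, h3⟩ := h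
    exact ⟨a.1, b.1, c.1, h1, h2, h3⟩
  have hC : (regionGraph σ α).Connected := by
    have h := TTV_connected hTT
    exact connected_iso (SimpleGraph.induceUnivIso _) h
  refine ⟨R (regionGraph σ α), fun k => ?_, fun k hk => ⟨?_, ?_⟩⟩
  · rw [col_map D σ α hα hb k]
    exact isR_R _ hT k
  · have h := QV_pos n n le_rfl _ (lower_V n (regionGraph σ α) hc hSp hC hT) k hk
    have hkn : k ≤ n := by omega
    rw [map_sub, coeff_FF _ n hc k hkn] at h
    have e : PowerSeries.coeff k ((1 + PowerSeries.X : PowerSeries ℚ) ^ n) = (n.choose k : ℚ) := by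
      have h1 : ((1 + PowerSeries.X : PowerSeries ℚ) ^ n) =
          (((1 + Polynomial.X : Polynomial ℚ) ^ n : Polynomial ℚ) : PowerSeries ℚ) := by
        simp
      rw [h1, Polynomial.coeff_coe, Polynomial.coeff_one_add_X_pow]
    rw [e] at h
    linarith
  · have h := QV_pos n n le_rfl _ (upper_V n (regionGraph σ α) hc hSp hTT) k hk
    have hkn : k ≤ n := by omega
    rw [map_sub, coeff_FF _ n hc k hkn] at h
    have e : PowerSeries.coeff k ((1 + 2 * PowerSeries.X : PowerSeries ℚ) ^ n) =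
        2 ^ k * (n.choose k : ℚ) := by
      have h1 : ((1 + 2 * PowerSeries.X : PowerSeries ℚ) ^ n) =
          ((((1 + Polynomial.X : Polynomial ℚ) ^ n).comp (2 * Polynomial.X) :
            Polynomial ℚ) : PowerSeries ℚ) := by
        have h3 : ((2 : Polynomial ℚ) : PowerSeries ℚ) = 2 :=
          map_ofNat (Polynomial.coeToPowerSeries.ringHom (R := ℚ)) 2
        simp [h3]
      have h2 : ((1 + Polynomial.X : Polynomial ℚ) ^ n).comp (2 * Polynomial.X) =
          ((1 + Polynomial.X : Polynomial ℚ) ^ n).comp (Polynomial.C 2 * Polynomial.X) := by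
        rfl
      rw [h1, Polynomial.coeff_coe, h2, Polynomial.comp_C_mul_X_coeff,
        Polynomial.coeff_one_add_X_pow]
      ring
    rw [e] at h
    linarith

end Pool.Agent.Lib.MP_f52c03_co.BL
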