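import Pool.Agent.Lib.MP_f52c03_co.BL.TermV

set_option autoImplicit false

namespace Pool.Agent.Lib.MP_f52c03_co.BL

private theorem cc23 : PowerSeries.constantCoeff (2 + 3 * PowerSeries.X : PowerSeries ℚ) ≠ 0 := by
  rw [map_add, map_mul, map_ofNat, PowerSeries.constantCoeff_X]
  norm_num

private theorem cc25 : PowerSeries.constantCoeff (2 + 5 * PowerSeries.X : PowerSeries ℚ) ≠ 0 := by
  rw [map_add, map_mul, map_ofNat, PowerSeries.constantCoeff_X]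
  norm_num

private theorem C_two : (PowerSeries.C (2 : ℚ)) = 2 := map_ofNat _ 2

private theorem C_three : (PowerSeries.C (3 : ℚ)) = 3 := map_ofNat _ 3

private theorem C_five : (PowerSeries.C (5 : ℚ)) = 5 := map_ofNat _ 5

open PowerSeries in
private theorem hD3 : (2 + 3 * X : PowerSeries ℚ) * (2 + 3 * X : PowerSeries ℚ)⁻¹ = 1 :=
  PowerSeries.mul_inv_cancel _ cc23

open PowerSeries in
private theorem hD5 : (2 + 5 * X : PowerSeries ℚ) * (2 + 5 * X : PowerSeries ℚ)⁻¹ = 1 :=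
  PowerSeries.mul_inv_cancel _ cc25

/-- the geometric series -/
private noncomputable def geo (a : ℚ) : PowerSeries ℚ := PowerSeries.mk (fun j => (-a) ^ j)

private theorem geo_mul (a : ℚ) : (1 + PowerSeries.C a * PowerSeries.X) * geo a = 1 := by
  ext j
  rcases j with _ | j
  · simp [geo, add_mul, mul_assoc]
  · simp only [geo, add_mul, one_mul, mul_assoc, map_add, PowerSeries.coeff_mk,
      PowerSeries.coeff_C_mul, PowerSeries.coeff_succ_X_mul, PowerSeries.coeff_one]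
    simp only [Nat.succ_ne_zero, if_false]
    ring

private theorem D3_eq : (2 + 3 * PowerSeries.X : PowerSeries ℚ)⁻¹ =
    PowerSeries.C (1 / 2) * geo (3 / 2) := by
  rw [PowerSeries.inv_eq_iff_mul_eq_one cc23]
  have h := geo_mul (3 / 2)
  have h2 : (2 + 3 * PowerSeries.X : PowerSeries ℚ) =
      PowerSeries.C 2 * (1 + PowerSeries.C (3 / 2) * PowerSeries.X) := by
    rw [mul_add, ← mul_assoc, ← map_mul, mul_one, show (2 : ℚ) * (3 / 2) = 3 by norm_num,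
      C_two, C_three]
  rw [h2, show PowerSeries.C (1 / 2 : ℚ) * geo (3 / 2) *
    (PowerSeries.C 2 * (1 + PowerSeries.C (3 / 2) * PowerSeries.X)) =
    (PowerSeries.C (1 / 2 : ℚ) * PowerSeries.C 2) *
    ((1 + PowerSeries.C (3 / 2) * PowerSeries.X) * geo (3 / 2)) by ring, h, ← map_mul]
  norm_num

private theorem D5_eq : (2 + 5 * PowerSeries.X : PowerSeries ℚ)⁻¹ =
    PowerSeries.C (1 / 2) * geo (5 / 2) := by
  rw [PowerSeries.inv_eq_iff_mul_eq_one cc25]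
  have h := geo_mul (5 / 2)
  have h2 : (2 + 5 * PowerSeries.X : PowerSeries ℚ) =
      PowerSeries.C 2 * (1 + PowerSeries.C (5 / 2) * PowerSeries.X) := by
    rw [mul_add, ← mul_assoc, ← map_mul, mul_one, show (2 : ℚ) * (5 / 2) = 5 by norm_num,
      C_two, C_five]
  rw [h2, show PowerSeries.C (1 / 2 : ℚ) * geo (5 / 2) *
    (PowerSeries.C 2 * (1 + PowerSeries.C (5 / 2) * PowerSeries.X)) =
    (PowerSeries.C (1 / 2 : ℚ) * PowerSeries.C 2) *
    ((1 + PowerSeries.C (5 / 2) * PowerSeries.X) * geo (5 / 2)) by ring, h, ← map_mul]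
  norm_num

/-- logarithmic derivative -/
private def LD (C l : PowerSeries ℚ) : Prop := PowerSeries.derivative ℚ C = l * C

private theorem LD_mul {A B l m : PowerSeries ℚ} (hA : LD A l) (hB : LD B m) :
    LD (A * B) (l + m) := by
  unfold LD at *
  rw [Derivation.leibniz, hA, hB, smul_eq_mul, smul_eq_mul]
  ring

private theorem LD_one : LD 1 0 := by
  unfold LD
  rw [zero_mul]
  exact Derivation.map_one_eq_zero _

private theorem LD_C (c : ℚ) : LD (PowerSeries.C c) 0 := by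
  unfold LD
  rw [zero_mul]
  exact PowerSeries.derivative_C

private theorem LD_pow {A l : PowerSeries ℚ} (hA : LD A l) (n : ℕ) :
    LD (A ^ n) (PowerSeries.C (n : ℚ) * l) := by
  induction n with
  | zero => simpa using LD_one
  | succ n ih =>
    rw [pow_succ]
    have h := LD_mul ih hA
    have e : PowerSeries.C (((n + 1 : ℕ) : ℚ)) * l = PowerSeries.C (n : ℚ) * l + l := by
      push_cast
      rw [map_add, map_one]
      ring
    rw [e]
    exact h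

private theorem LD_inv {A B l : PowerSeries ℚ} (hA : LD A l) (hAB : A * B = 1) :
    LD B (-l) := by
  unfold LD at *
  have h0 : PowerSeries.derivative ℚ (A * B) = 0 := by
    rw [hAB]
    exact Derivation.map_one_eq_zero _
  rw [Derivation.leibniz, hA, smul_eq_mul, smul_eq_mul] at h0
  have h1 : B * (A * PowerSeries.derivative ℚ B + B * (l * A)) = 0 := by rw [h0, mul_zero]
  have h2 : B * (A * PowerSeries.derivative ℚ B + B * (l * A)) =
      (A * B) * PowerSeries.derivative ℚ B + (A * B) * (l * B) := by ring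
  rw [h2, hAB, one_mul, one_mul] at h1
  linear_combination h1

private theorem LD_lin (a : ℚ) : LD (1 + PowerSeries.C a * PowerSeries.X)
    (PowerSeries.C a * geo a) := by
  unfold LD
  rw [show PowerSeries.C a * geo a * (1 + PowerSeries.C a * PowerSeries.X) =
    PowerSeries.C a * ((1 + PowerSeries.C a * PowerSeries.X) * geo a) by ring, geo_mul, mul_one]
  rw [map_add, Derivation.leibniz, PowerSeries.derivative_C, Derivation.map_one_eq_zero,
    PowerSeries.derivative_X]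
  simp

private theorem LD_D3 : LD (2 + 3 * PowerSeries.X : PowerSeries ℚ)
    (PowerSeries.C (3 / 2) * geo (3 / 2)) := by
  have h := LD_mul (LD_C 2) (LD_lin (3 / 2))
  rw [zero_add] at h
  have h2 : (2 + 3 * PowerSeries.X : PowerSeries ℚ) =
      PowerSeries.C 2 * (1 + PowerSeries.C (3 / 2) * PowerSeries.X) := by
    rw [mul_add, ← mul_assoc, ← map_mul, mul_one, show (2 : ℚ) * (3 / 2) = 3 by norm_num,
      C_two, C_three]
  rw [h2]
  exact h

private theorem LD_D5 : LD (2 + 5 * PowerSeries.X : PowerSeries ℚ)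
    (PowerSeries.C (5 / 2) * geo (5 / 2)) := by
  have h := LD_mul (LD_C 2) (LD_lin (5 / 2))
  rw [zero_add] at h
  have h2 : (2 + 5 * PowerSeries.X : PowerSeries ℚ) =
      PowerSeries.C 2 * (1 + PowerSeries.C (5 / 2) * PowerSeries.X) := by
    rw [mul_add, ← mul_assoc, ← map_mul, mul_one, show (2 : ℚ) * (5 / 2) = 5 by norm_num,
      C_two, C_five]
  rw [h2]
  exact h

private theorem LD_XX : LD (1 + PowerSeries.X : PowerSeries ℚ) (geo 1) := by
  have h := LD_lin 1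
  simpa using h

private theorem pw_diff (j : ℕ) (hj : 1 ≤ j) :
    ((5 : ℚ) / 2) ^ (j + 1) - (3 / 2) ^ (j + 1) ≤ 4 ^ j := by
  rcases Nat.lt_or_ge j 2 with h | h
  · have : j = 1 := by omega
    subst this
    norm_num
  · obtain ⟨k, rfl⟩ := Nat.exists_eq_add_of_le h
    have h1 : ((5 : ℚ) / 2) ^ (2 + k + 1) = (125 / 8) * (5 / 2) ^ k := by
      rw [show 2 + k + 1 = 3 + k by ring, pow_add]
      norm_num
    have h2 : (4 : ℚ) ^ (2 + k) = 16 * 4 ^ k := by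
      rw [pow_add]
      norm_num
    have h3 : ((5 : ℚ) / 2) ^ k ≤ 4 ^ k := by gcongr; norm_num
    have h4 : (0 : ℚ) ≤ (3 / 2) ^ (2 + k + 1) := by positivity
    have h5 : (0 : ℚ) ≤ (5 / 2) ^ k := by positivity
    rw [h1, h2]
    nlinarith

private theorem pw_diff_nonneg (j : ℕ) : (0 : ℚ) ≤ (5 / 2) ^ (j + 1) - (3 / 2) ^ (j + 1) := by
  have : ((3 : ℚ) / 2) ^ (j + 1) ≤ (5 / 2) ^ (j + 1) := by gcongr; norm_num
  linarith

private theorem pw3 (j : ℕ) (hj : 1 ≤ j) : ((3 : ℚ) / 2) ^ (j + 1) ≤ 9 / 16 * 4 ^ j := by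
  obtain ⟨k, rfl⟩ := Nat.exists_eq_add_of_le hj
  have h1 : ((3 : ℚ) / 2) ^ (1 + k + 1) = 9 / 4 * (3 / 2) ^ k := by
    rw [show 1 + k + 1 = 2 + k by ring, pow_add]
    norm_num
  have h2 : (4 : ℚ) ^ (1 + k) = 4 * 4 ^ k := by
    rw [pow_add]
    norm_num
  have h3 : ((3 : ℚ) / 2) ^ k ≤ 4 ^ k := by gcongr; norm_num
  rw [h1, h2]
  linarith

private theorem pw5 (j : ℕ) (hj : 1 ≤ j) : ((5 : ℚ) / 2) ^ (j + 1) ≤ 25 / 16 * 4 ^ j := by
  obtain ⟨k, rfl⟩ := Nat.exists_eq_add_of_le hj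
  have h1 : ((5 : ℚ) / 2) ^ (1 + k + 1) = 25 / 4 * (5 / 2) ^ k := by
    rw [show 1 + k + 1 = 2 + k by ring, pow_add]
    norm_num
  have h2 : (4 : ℚ) ^ (1 + k) = 4 * 4 ^ k := by
    rw [pow_add]
    norm_num
  have h3 : ((5 : ℚ) / 2) ^ k ≤ 4 ^ k := by gcongr; norm_num
  rw [h1, h2]
  linarith

private theorem pw_diff3 (j : ℕ) (hj : 3 ≤ j) :
    ((5 : ℚ) / 2) ^ (j + 1) - (3 / 2) ^ (j + 1) ≤ 17 / 32 * 4 ^ j := by
  rcases Nat.lt_or_ge j 4 with h | h
  · have : j = 3 := by omega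
    subst this
    norm_num
  · obtain ⟨k, rfl⟩ := Nat.exists_eq_add_of_le h
    have h1 : ((5 : ℚ) / 2) ^ (4 + k + 1) = (3125 / 32) * (5 / 2) ^ k := by
      rw [show 4 + k + 1 = 5 + k by ring, pow_add]
      norm_num
    have h2 : (4 : ℚ) ^ (4 + k) = 256 * 4 ^ k := by
      rw [pow_add]
      norm_num
    have h3 : ((5 : ℚ) / 2) ^ k ≤ 4 ^ k := by gcongr; norm_num
    have h4 : (0 : ℚ) ≤ (3 / 2) ^ (4 + k + 1) := by positivity
    have h5 : (0 : ℚ) ≤ (5 / 2) ^ k := by positivity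
    rw [h1, h2]
    nlinarith

open PowerSeries in
/-- the general term -/
private theorem term_gen (N i n m q e f : ℕ) (c y : ℚ) (hc : 0 < c)
    (hy : y - 15 / 2 * (i : ℚ) ≤ (n : ℚ) + m - q - 3 / 2 * f - 5 / 2 * e)
    (hA1 : 2 * (m : ℚ) + 3 / 4 * f ≤ n + 3 * N + 40 * i + 2 * q)
    (hA3 : (m : ℚ) / 32 + 3 / 4 * f + 5 / 4 * e ≤ 3 / 4 * N + 10 * i)
    (hB : 3 / 2 * (q : ℚ) + 21 / 16 * f + 45 / 16 * e ≤ 10 * i) :
    TermV N y (X ^ i * (C c * ((1 + X) ^ n * rho ^ m * ((2 + 3 * X) * (2 + 5 * X)⁻¹) ^ q *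
      ((2 + 3 * X)⁻¹) ^ f * ((2 + 5 * X)⁻¹) ^ e))) := by
  have hrho : LD rho (C (5 / 2) * geo (5 / 2) - C (3 / 2) * geo (3 / 2)) := by
    have h := LD_mul LD_D5 (LD_inv LD_D3 hD3)
    rw [← sub_eq_add_neg] at h
    exact h
  have hsig : LD ((2 + 3 * X) * (2 + 5 * X)⁻¹) (C (3 / 2) * geo (3 / 2) - C (5 / 2) * geo (5 / 2)) := by
    have h := LD_mul LD_D3 (LD_inv LD_D5 hD5)
    rw [← sub_eq_add_neg] at h
    exact h
  have hall := LD_mul (LD_C c) (LD_mul (LD_mul (LD_mul (LD_mul (LD_pow LD_XX n) (LD_pow hrho m))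
    (LD_pow hsig q)) (LD_pow (LD_inv LD_D3 hD3) f)) (LD_pow (LD_inv LD_D5 hD5) e))
  have e0 : ∀ j : ℕ, coeff j (0 + (C (n : ℚ) * geo 1 + C (m : ℚ) * (C (5 / 2) * geo (5 / 2) -
      C (3 / 2) * geo (3 / 2)) + C (q : ℚ) * (C (3 / 2) * geo (3 / 2) -
      C (5 / 2) * geo (5 / 2)) + C (f : ℚ) * -(C (3 / 2) * geo (3 / 2)) +
      C (e : ℚ) * -(C (5 / 2) * geo (5 / 2)))) =
      (-1) ^ j * ((n : ℚ) + (m - q) * ((5 / 2) ^ (j + 1) - (3 / 2) ^ (j + 1)) -
        f * (3 / 2) ^ (j + 1) - e * (5 / 2) ^ (j + 1)) := by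
    intro j
    simp only [map_add, map_sub, map_neg, coeff_C_mul, geo, coeff_mk, zero_add]
    rw [show (-(5 / 2 : ℚ)) ^ j = (-1) ^ j * (5 / 2) ^ j by rw [← mul_pow]; norm_num,
      show (-(3 / 2 : ℚ)) ^ j = (-1) ^ j * (3 / 2) ^ j by rw [← mul_pow]; norm_num]
    ring
  have e1 : coeff 0 (0 + (C (n : ℚ) * geo 1 + C (m : ℚ) * (C (5 / 2) * geo (5 / 2) -
      C (3 / 2) * geo (3 / 2)) + C (q : ℚ) * (C (3 / 2) * geo (3 / 2) -
      C (5 / 2) * geo (5 / 2)) + C (f : ℚ) * -(C (3 / 2) * geo (3 / 2)) +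
      C (e : ℚ) * -(C (5 / 2) * geo (5 / 2)))) = (n : ℚ) + m - q - 3 / 2 * f - 5 / 2 * e := by
    simp only [map_add, map_sub, map_neg, coeff_C_mul, geo, coeff_mk, pow_zero,
      mul_one, zero_add]
    ring
  have n0 : (0 : ℚ) ≤ n := Nat.cast_nonneg n
  have m0 : (0 : ℚ) ≤ m := Nat.cast_nonneg m
  have q0 : (0 : ℚ) ≤ q := Nat.cast_nonneg q
  have f0 : (0 : ℚ) ≤ f := Nat.cast_nonneg f
  have ee0 : (0 : ℚ) ≤ e := Nat.cast_nonneg e
  have N0 : (0 : ℚ) ≤ N := Nat.cast_nonneg N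
  have i0 : (0 : ℚ) ≤ i := Nat.cast_nonneg i
  -- even coefficients
  have heven : ∀ j : ℕ, 1 ≤ j → Even j → -(4 ^ j * ((q : ℚ) + 9 / 16 * f + 25 / 16 * e)) ≤
      (-1) ^ j * ((n : ℚ) + (m - q) * ((5 / 2) ^ (j + 1) - (3 / 2) ^ (j + 1)) -
        f * (3 / 2) ^ (j + 1) - e * (5 / 2) ^ (j + 1)) := by
    intro j hj hev
    rw [hev.neg_one_pow, one_mul]
    have p0 := pw_diff j hj
    have p1 := pw_diff_nonneg j
    have p3 := pw3 j hj
    have p5 := pw5 j hj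
    set D : ℚ := (5 / 2) ^ (j + 1) - (3 / 2) ^ (j + 1) with hD
    set F : ℚ := (4 : ℚ) ^ j with hF
    have b0 : 0 ≤ (m : ℚ) * D := mul_nonneg m0 p1
    have b1 : (q : ℚ) * D ≤ q * F := mul_le_mul_of_nonneg_left p0 q0
    have b2 : (f : ℚ) * (3 / 2) ^ (j + 1) ≤ f * (9 / 16 * F) := mul_le_mul_of_nonneg_left p3 f0
    have b3 : (e : ℚ) * (5 / 2) ^ (j + 1) ≤ e * (25 / 16 * F) := mul_le_mul_of_nonneg_left p5 ee0
    nlinarith
  refine ⟨i, _, _, rfl, ?_, hall, ?_, ?_, ?_⟩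
  · have h3 : constantCoeff ((2 + 3 * X : PowerSeries ℚ)⁻¹) = 1 / 2 := by
      rw [D3_eq]
      simp [geo]
    have h5 : constantCoeff ((2 + 5 * X : PowerSeries ℚ)⁻¹) = 1 / 2 := by
      rw [D5_eq]
      simp [geo]
    simp only [map_mul, map_pow, map_add, map_one, h3, h5, rho, constantCoeff_X, constantCoeff_C,
      mul_zero, add_zero, map_ofNat]
    positivity
  · rw [e1]
    linarith
  · intro j hj
    rw [e1, e0]
    have hF0 : (0 : ℚ) < 4 ^ j := by positivity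
    rcases Nat.even_or_odd j with hev | hodd
    · refine le_trans ?_ (heven j hj hev)
      rw [neg_le_neg_iff]
      refine mul_le_mul_of_nonneg_left ?_ hF0.le
      linarith
    · rw [hodd.neg_one_pow, neg_one_mul, neg_le_neg_iff]
      have a3 : (0 : ℚ) ≤ (3 / 2) ^ (j + 1) := by positivity
      have a5 : (0 : ℚ) ≤ (5 / 2) ^ (j + 1) := by positivity
      rcases Nat.lt_or_ge j 3 with hj3 | hj3
      · have hj1 : j = 1 := by
          rcases hodd with ⟨k, hk⟩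
          omega
        subst hj1
        norm_num
        linarith
      · have p0 := pw_diff3 j hj3
        have p1 := pw_diff_nonneg j
        have p4 : (2 : ℚ) ≤ 4 ^ j := by
          calc (2 : ℚ) ≤ 4 ^ 1 := by norm_num
            _ ≤ 4 ^ j := pow_le_pow_right₀ (by norm_num) hj
        set D : ℚ := (5 / 2) ^ (j + 1) - (3 / 2) ^ (j + 1) with hD
        set F : ℚ := (4 : ℚ) ^ j with hF
        have b2 : (0 : ℚ) ≤ (f : ℚ) * (3 / 2) ^ (j + 1) := mul_nonneg f0 a3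
        have b3 : (0 : ℚ) ≤ (e : ℚ) * (5 / 2) ^ (j + 1) := mul_nonneg ee0 a5
        have b4 : (n : ℚ) ≤ n / 2 * F := by nlinarith
        rcases le_total (q : ℚ) m with hmq | hmq
        · have b5 : ((m : ℚ) - q) * D ≤ (m - q) * (17 / 32 * F) :=
            mul_le_mul_of_nonneg_left p0 (by linarith)
          have b6 : F * ((m : ℚ) / 32 + 3 / 4 * f + 5 / 4 * e) ≤ F * (3 / 4 * N + 10 * i) :=
            mul_le_mul_of_nonneg_left hA3 hF0.le
          have b7 : 0 ≤ (q : ℚ) * F := mul_nonneg q0 hF0.le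
          nlinarith
        · have b5 : ((m : ℚ) - q) * D ≤ 0 := mul_nonpos_of_nonpos_of_nonneg (by linarith) p1
          have b6 : F * ((q : ℚ) / 2 + 3 / 4 * f + 5 / 4 * e) ≤ F * (3 / 4 * N + 10 * i) :=
            mul_le_mul_of_nonneg_left (by linarith) hF0.le
          have b7 : 0 ≤ (m : ℚ) * F := mul_nonneg m0 hF0.le
          nlinarith
  · intro j hj
    rw [e0]
    refine le_trans ?_ (heven (2 * j) (by omega) (even_two_mul j))
    rw [neg_le_neg_iff, pow_mul]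
    norm_num
    linarith

private def co4 : ℕ → ℕ → ℕ
  | 0, 0 => 32 | 0, 1 => 368 | 0, 2 => 1680 | 0, 3 => 3800 | 0, 4 => 4250 | 0, 5 => 1875
  | 1, 0 => 32 | 1, 1 => 336 | 1, 2 => 1392 | 1, 3 => 2840 | 1, 4 => 2850 | 1, 5 => 1125
  | 2, 0 => 32 | 2, 1 => 304 | 2, 2 => 1136 | 2, 3 => 2088 | 2, 4 => 1890 | 2, 5 => 675
  | 3, 0 => 32 | 3, 1 => 272 | 3, 2 => 912 | 3, 3 => 1512 | 3, 4 => 1242 | 3, 5 => 405
  | 4, 0 => 32 | 4, 1 => 240 | 4, 2 => 720 | 4, 3 => 1080 | 4, 4 => 810 | 4, 5 => 243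
  | _, _ => 0

private def rr4 : ℕ → ℕ
  | 0 => 48 | 1 => 528 | 2 => 2280 | 3 => 4800 | 4 => 4875 | 5 => 1875 | _ => 0

private def tab4 (b01 b02 b03 b12 b13 b23 : Bool) : Fin 4 → Fin 4 → Bool :=
  ![![false, b01, b02, b03], ![b01, false, b12, b13], ![b02, b12, false, b23], ![b03, b13, b23, false]]

private def cnd {d : ℕ} (M : Fin d → Fin d → Bool) : Prop :=
  ∀ i j k, ¬ (M i j = true ∧ M j k = true ∧ M i k = true)

private instance {d : ℕ} (M : Fin d → Fin d → Bool) : Decidable (cnd M) := by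
  unfold cnd; infer_instance

private theorem check4 : ∀ b01 b02 b03 b12 b13 b23 : Bool,
    cnd (tab4 b01 b02 b03 b12 b13 b23) →
    (∀ t : Fin 6, rr4 t ≤ ∑ j : Fin 4, ∑ i : Fin 4,
      if i < j ∧ tab4 b01 b02 b03 b12 b13 b23 i j = false then
        co4 (2 + aM (tab4 b01 b02 b03 b12 b13 b23) i j - cM (tab4 b01 b02 b03 b12 b13 b23) i j) t
      else 0) ∧
    ∀ i j : Fin 4, i < j → 2 + aM (tab4 b01 b02 b03 b12 b13 b23) i j -
      cM (tab4 b01 b02 b03 b12 b13 b23) i j ≤ 4 := by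
  decide +kernel

private def co5 : ℕ → ℕ → ℕ
  | 0, 0 => 64 | 0, 1 => 832 | 0, 2 => 4464 | 0, 3 => 12640 | 0, 4 => 19900 | 0, 5 => 16500 | 0, 6 => 5625
  | 1, 0 => 64 | 1, 1 => 768 | 1, 2 => 3792 | 1, 3 => 9856 | 1, 4 => 14220 | 1, 5 => 10800 | 1, 6 => 3375
  | 2, 0 => 64 | 2, 1 => 704 | 2, 2 => 3184 | 2, 3 => 7584 | 2, 4 => 10044 | 2, 5 => 7020 | 2, 6 => 2025
  | 3, 0 => 64 | 3, 1 => 640 | 3, 2 => 2640 | 3, 3 => 5760 | 3, 4 => 7020 | 3, 5 => 4536 | 3, 6 => 1215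
  | 4, 0 => 64 | 4, 1 => 576 | 4, 2 => 2160 | 4, 3 => 4320 | 4, 4 => 4860 | 4, 5 => 2916 | 4, 6 => 729
  | _, _ => 0

private def rr5 : ℕ → ℕ
  | 0 => 256 | 1 => 3360 | 2 => 18144 | 3 => 51440 | 4 => 80400 | 5 => 65250 | 6 => 21250 | _ => 0

private def tab5 (b01 b02 b03 b04 b12 b13 b14 b23 b24 b34 : Bool) : Fin 5 → Fin 5 → Bool :=
  ![![false, b01, b02, b03, b04], ![b01, false, b12, b13, b14], ![b02, b12, false, b23, b24],
    ![b03, b13, b23, false, b34], ![b04, b14, b24, b34, false]]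

private theorem check5 : ∀ b01 b02 b03 b04 b12 b13 b14 b23 b24 b34 : Bool,
    (Finset.univ.filter (fun p : Fin 5 × Fin 5 => p.1 < p.2 ∧
      tab5 b01 b02 b03 b04 b12 b13 b14 b23 b24 b34 p.1 p.2 = true)).card ≤ 5 →
    cnd (tab5 b01 b02 b03 b04 b12 b13 b14 b23 b24 b34) →
    (∀ t : Fin 7, rr5 t ≤ ∑ j : Fin 5, ∑ i : Fin 5,
      if i < j ∧ tab5 b01 b02 b03 b04 b12 b13 b14 b23 b24 b34 i j = false then
        co5 (1 + aM (tab5 b01 b02 b03 b04 b12 b13 b14 b23 b24 b34) i j -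
          cM (tab5 b01 b02 b03 b04 b12 b13 b14 b23 b24 b34) i j) t
      else 0) ∧
    ∀ i j : Fin 5, i < j → 1 + aM (tab5 b01 b02 b03 b04 b12 b13 b14 b23 b24 b34) i j -
      cM (tab5 b01 b02 b03 b04 b12 b13 b14 b23 b24 b34) i j ≤ 4 := by
  decide +kernel


open PowerSeries in
private theorem sig_rho : ((2 + 3 * X) * (2 + 5 * X)⁻¹ : PowerSeries ℚ) * rho = 1 := by
  unfold rho
  have h3 := hD3
  have h5 := hD5
  generalize (2 + 3 * X : PowerSeries ℚ)⁻¹ = i3 at *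
  generalize (2 + 5 * X : PowerSeries ℚ)⁻¹ = i5 at *
  linear_combination ((2 + 5 * X) * i5) * h3 + h5

open PowerSeries in
private theorem rho_sub : rho - 1 = 2 * X * (2 + 3 * X : PowerSeries ℚ)⁻¹ := by
  unfold rho
  have h3 := hD3
  generalize (2 + 3 * X : PowerSeries ℚ)⁻¹ = i3 at *
  linear_combination h3

open PowerSeries in
private theorem pair_term (N n m r q : ℕ) (hNn : N = n + 2) (hq : q ≤ 4) (hr : m ≤ r + q)
    (hr2 : r ≤ 2 * n) :
    X ^ 2 * BB n r - X ^ 2 * ((1 + X) ^ n * rho ^ m * ((2 + 3 * X) * (2 + 5 * X)⁻¹) ^ q) ∈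
      QV N ((N : ℚ) + (m : ℚ)) := by
  obtain ⟨k, hk⟩ := Nat.exists_eq_add_of_le hr
  have h1 : rho ^ r = ((2 + 3 * X) * (2 + 5 * X)⁻¹ : PowerSeries ℚ) ^ q * rho ^ (m + k) := by
    rw [← hk, pow_add rho r q, mul_comm (rho ^ r), ← mul_assoc, ← mul_pow, sig_rho, one_pow, one_mul]
  have h2 : X ^ 2 * BB n r - X ^ 2 * ((1 + X) ^ n * rho ^ m * ((2 + 3 * X) * (2 + 5 * X)⁻¹) ^ q) =
      ∑ s ∈ Finset.range k, X ^ 3 * (C 2 * ((1 + X) ^ n * rho ^ (m + s) *
        ((2 + 3 * X) * (2 + 5 * X)⁻¹) ^ q * ((2 + 3 * X)⁻¹) ^ 1 * ((2 + 5 * X)⁻¹) ^ 0)) := by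
    have h3 : ∀ s ∈ Finset.range k, X ^ 3 * (C 2 * ((1 + X) ^ n * rho ^ (m + s) *
        ((2 + 3 * X) * (2 + 5 * X)⁻¹) ^ q * ((2 + 3 * X)⁻¹) ^ 1 * ((2 + 5 * X)⁻¹) ^ 0)) =
        (X ^ 2 * ((1 + X) ^ n * rho ^ m * ((2 + 3 * X) * (2 + 5 * X)⁻¹ : PowerSeries ℚ) ^ q)) *
          (rho ^ s * (rho - 1)) := by
      intro s _
      rw [rho_sub, C_two, pow_add rho m s]
      ring
    rw [Finset.sum_congr rfl h3, ← Finset.mul_sum, ← Finset.sum_mul, geom_sum_mul, BB, h1, pow_add]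
    ring
  rw [h2]
  refine AddSubmonoid.sum_mem _ ?_
  intro s hs'
  refine AddSubmonoid.subset_closure ?_
  have hq' : (q : ℚ) ≤ 4 := by exact_mod_cast hq
  have hs : (0 : ℚ) ≤ s := Nat.cast_nonneg s
  have hn : (0 : ℚ) ≤ n := Nat.cast_nonneg n
  have hms : ((m + s : ℕ) : ℚ) ≤ 2 * n + q := by
    have : m + s ≤ 2 * n + q := by
      have := Finset.mem_range.1 hs'
      omega
    exact_mod_cast this
  push_cast at hms
  apply term_gen
  · norm_num
  · subst hNn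
    push_cast
    linarith
  · subst hNn
    push_cast
    linarith
  · subst hNn
    push_cast
    linarith
  · push_cast
    linarith

open PowerSeries in
theorem slackV_one (n m : ℕ) (hm : m + 2 ≤ 2 * (n + 1)) :
    (1 + PowerSeries.C (4 - ((1 : ℕ) : ℚ)) * PowerSeries.X) * BB n m - BB (n + 1) (m + 2) ∈
      QV (n + 1) (((n + 1 : ℕ) : ℚ) + ((m + 2 : ℕ) : ℚ)) := by
  have key : (1 + C (4 - ((1 : ℕ) : ℚ)) * X) * BB n m - BB (n + 1) (m + 2) =
      X ^ 3 * (C 2 * ((1 + X) ^ n * rho ^ m * ((2 + 3 * X) * (2 + 5 * X)⁻¹) ^ 0 *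
        ((2 + 3 * X)⁻¹) ^ 2 * ((2 + 5 * X)⁻¹) ^ 0)) := by
    have h3 := hD3
    have hr : rho = (2 + 5 * X) * (2 + 3 * X : PowerSeries ℚ)⁻¹ := rfl
    rw [BB, BB, show (4 - ((1 : ℕ) : ℚ)) = 3 by norm_num, C_three, C_two, pow_add rho m 2,
      pow_succ (1 + X) n]
    generalize (2 + 3 * X : PowerSeries ℚ)⁻¹ = i3 at *
    generalize rho ^ m = rm
    rw [hr]
    linear_combination (-((1 + X) ^ n * rm * (1 + 3 * X) * (1 + (2 + 3 * X) * i3))) * h3
  rw [key]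
  refine AddSubmonoid.subset_closure ?_
  have hn : (0 : ℚ) ≤ n := Nat.cast_nonneg n
  have hm' : (m : ℚ) ≤ 2 * n + 1 := by
    have : m ≤ 2 * n + 1 := by omega
    exact_mod_cast this
  apply term_gen
  · norm_num
  · push_cast
    linarith
  · push_cast
    linarith
  · push_cast
    linarith
  · norm_num

open PowerSeries in
theorem slackV_two (n m : ℕ) (hm : m + 1 ≤ 2 * (n + 1)) :
    (1 + PowerSeries.C (4 - ((2 : ℕ) : ℚ)) * PowerSeries.X) * BB n m - BB (n + 1) (m + 1) ∈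
      QV (n + 1) (((n + 1 : ℕ) : ℚ) + ((m + 1 : ℕ) : ℚ)) := by
  have key : (1 + C (4 - ((2 : ℕ) : ℚ)) * X) * BB n m - BB (n + 1) (m + 1) =
      X ^ 2 * (C 1 * ((1 + X) ^ n * rho ^ m * ((2 + 3 * X) * (2 + 5 * X)⁻¹) ^ 0 *
        ((2 + 3 * X)⁻¹) ^ 1 * ((2 + 5 * X)⁻¹) ^ 0)) := by
    have h3 := hD3
    have hr : rho = (2 + 5 * X) * (2 + 3 * X : PowerSeries ℚ)⁻¹ := rfl
    rw [BB, BB, show (4 - ((2 : ℕ) : ℚ)) = 2 by norm_num, map_one, C_two, pow_succ rho m,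
      pow_succ (1 + X) n]
    generalize (2 + 3 * X : PowerSeries ℚ)⁻¹ = i3 at *
    generalize rho ^ m = rm
    rw [hr]
    linear_combination (-((1 + X) ^ n * rm * (1 + 2 * X))) * h3
  rw [key]
  refine AddSubmonoid.subset_closure ?_
  have hn : (0 : ℚ) ≤ n := Nat.cast_nonneg n
  have hm' : (m : ℚ) ≤ 2 * n + 1 := by
    have : m ≤ 2 * n + 1 := by omega
    exact_mod_cast this
  apply term_gen
  · norm_num
  · push_cast
    linarith
  · push_cast
    linarith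
  · push_cast
    linarith
  · norm_num

theorem slackV_three (n m : ℕ) :
    (1 + PowerSeries.C (4 - ((3 : ℕ) : ℚ)) * PowerSeries.X) * BB n m = BB (n + 1) m := by
  rw [BB, BB, show (4 - ((3 : ℕ) : ℚ)) = 1 by norm_num, map_one, pow_succ]
  ring

/-- rearranging the finite sum -/
private theorem rearr {d e : ℕ} (c : Fin d → Fin d → Prop) [∀ i j, Decidable (c i j)]
    (co : ℕ → ℕ → ℕ) (q : Fin d → Fin d → ℕ) (A sg : PowerSeries ℚ)
    (h : ∀ i j, c i j → sg ^ (q i j) =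
      A * ∑ t : Fin e, PowerSeries.C ((co (q i j) t : ℕ) : ℚ) * PowerSeries.X ^ (t : ℕ)) :
    (∑ j : Fin d, ∑ i : Fin d, if c i j then sg ^ (q i j) else 0) =
      A * ∑ t : Fin e, PowerSeries.C (((∑ j : Fin d, ∑ i : Fin d,
        if c i j then co (q i j) t else 0 : ℕ)) : ℚ) * PowerSeries.X ^ (t : ℕ) := by
  have h1 : ∀ j i : Fin d, (if c i j then sg ^ (q i j) else 0) =
      A * ∑ t : Fin e, PowerSeries.C (((if c i j then co (q i j) t else 0 : ℕ)) : ℚ) *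
        PowerSeries.X ^ (t : ℕ) := by
    intro j i
    split_ifs with hc
    · exact h i j hc
    · simp
  simp only [h1]
  simp only [← Finset.mul_sum]
  congr 1
  have h2 : ∀ j : Fin d, (∑ i : Fin d, ∑ t : Fin e,
      PowerSeries.C (((if c i j then co (q i j) t else 0 : ℕ)) : ℚ) * PowerSeries.X ^ (t : ℕ)) =
      ∑ t : Fin e, ∑ i : Fin d, PowerSeries.C (((if c i j then co (q i j) t else 0 : ℕ)) : ℚ) *
        PowerSeries.X ^ (t : ℕ) := fun j => Finset.sum_comm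
  simp only [h2]
  rw [Finset.sum_comm]
  refine Finset.sum_congr rfl ?_
  intro t _
  simp only [← Finset.sum_mul, ← map_sum]
  congr 2
  push_cast
  rfl

open PowerSeries in
/-- degree four and five together: the sum of the pair terms plus the main part -/
private theorem assemble {d e : ℕ} (N n m f : ℕ) (hNn : N = n + 2)
    (c : Fin d → Fin d → Prop) [∀ i j, Decidable (c i j)] (co : ℕ → ℕ → ℕ) (rr : ℕ → ℕ)
    (q r : Fin d → Fin d → ℕ) (hq : ∀ i j, c i j → q i j ≤ 4)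
    (hr : ∀ i j, c i j → m ≤ r i j + q i j) (hr2 : ∀ i j, c i j → r i j ≤ 2 * n)
    (hm : m ≤ 2 * (n + 2)) (hf : f ≤ 2)
    (hsg : ∀ i j, c i j → ((2 + 3 * X) * (2 + 5 * X)⁻¹ : PowerSeries ℚ) ^ (q i j) =
      (((2 + 3 * X)⁻¹) ^ f * ((2 + 5 * X)⁻¹) ^ 4) *
        ∑ t : Fin e, C ((co (q i j) t : ℕ) : ℚ) * X ^ (t : ℕ))
    (R : PowerSeries ℚ) (hR : R = (((2 + 3 * X)⁻¹) ^ f * ((2 + 5 * X)⁻¹) ^ 4) *
        ∑ t : Fin e, C ((rr t : ℕ) : ℚ) * X ^ (t : ℕ))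
    (hchk : ∀ t : Fin e, rr t ≤ ∑ j : Fin d, ∑ i : Fin d, if c i j then co (q i j) t else 0)
    (hb2 : (N : ℚ) - 15 ≤ n - 3 / 2 * f - 10) :
    X ^ 2 * (∑ j : Fin d, ∑ i : Fin d, if c i j then BB n (r i j) else 0) -
      X ^ 2 * ((1 + X) ^ n * rho ^ m * R) ∈ QV N ((N : ℚ) + (m : ℚ)) := by
  have e1 : X ^ 2 * (∑ j : Fin d, ∑ i : Fin d, if c i j then BB n (r i j) else 0) -
      X ^ 2 * ((1 + X) ^ n * rho ^ m * R) =
      (∑ j : Fin d, ∑ i : Fin d, if c i j then (X ^ 2 * BB n (r i j) -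
        X ^ 2 * ((1 + X) ^ n * rho ^ m * ((2 + 3 * X) * (2 + 5 * X)⁻¹) ^ (q i j))) else 0) +
      X ^ 2 * ((1 + X) ^ n * rho ^ m * ((∑ j : Fin d, ∑ i : Fin d,
        if c i j then ((2 + 3 * X) * (2 + 5 * X)⁻¹ : PowerSeries ℚ) ^ (q i j) else 0) - R)) := by
    have e2 : (∑ j : Fin d, ∑ i : Fin d, if c i j then (X ^ 2 * BB n (r i j) -
        X ^ 2 * ((1 + X) ^ n * rho ^ m * ((2 + 3 * X) * (2 + 5 * X)⁻¹) ^ (q i j))) else 0) =
        (∑ j : Fin d, ∑ i : Fin d, (X ^ 2 * (if c i j then BB n (r i j) else 0) -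
          X ^ 2 * ((1 + X) ^ n * rho ^ m) *
            (if c i j then ((2 + 3 * X) * (2 + 5 * X)⁻¹ : PowerSeries ℚ) ^ (q i j) else 0))) := by
      refine Finset.sum_congr rfl fun j _ => Finset.sum_congr rfl fun i _ => ?_
      split_ifs <;> ring
    rw [e2]
    simp only [Finset.sum_sub_distrib, ← Finset.mul_sum]
    ring
  rw [e1]
  refine AddSubmonoid.add_mem _ ?_ ?_
  · refine AddSubmonoid.sum_mem _ fun j _ => AddSubmonoid.sum_mem _ fun i _ => ?_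
    split_ifs with hc
    · exact pair_term N n m (r i j) (q i j) hNn (hq i j hc) (hr i j hc) (hr2 i j hc)
    · exact AddSubmonoid.zero_mem _
  · rw [rearr c co q (((2 + 3 * X)⁻¹) ^ f * ((2 + 5 * X)⁻¹) ^ 4) _ hsg, hR, ← mul_sub,
      ← Finset.sum_sub_distrib]
    have e3 : X ^ 2 * ((1 + X) ^ n * rho ^ m * (((2 + 3 * X : PowerSeries ℚ)⁻¹) ^ f *
        ((2 + 5 * X)⁻¹) ^ 4 * ∑ t : Fin e, (C (((∑ j : Fin d, ∑ i : Fin d,
          if c i j then co (q i j) t else 0 : ℕ)) : ℚ) * X ^ (t : ℕ) -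
          C ((rr t : ℕ) : ℚ) * X ^ (t : ℕ)))) =
        ∑ t : Fin e, C ((((∑ j : Fin d, ∑ i : Fin d,
          if c i j then co (q i j) t else 0 : ℕ)) : ℚ) - ((rr t : ℕ) : ℚ)) *
          (X ^ (2 + (t : ℕ)) * (C 1 * ((1 + X) ^ n * rho ^ m *
            ((2 + 3 * X) * (2 + 5 * X)⁻¹) ^ 0 * ((2 + 3 * X)⁻¹) ^ f * ((2 + 5 * X)⁻¹) ^ 4))) := by
      rw [Finset.mul_sum, Finset.mul_sum, Finset.mul_sum]
      refine Finset.sum_congr rfl fun t _ => ?_
      rw [map_sub, map_one, pow_add X 2 (t : ℕ)]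
      ring
    rw [e3]
    refine AddSubmonoid.sum_mem _ fun t _ => ?_
    refine QV_smul _ ?_ (AddSubmonoid.subset_closure ?_)
    · have := hchk t
      rw [sub_nonneg]
      exact_mod_cast this
    · have ht : (0 : ℚ) ≤ (t : ℕ) := Nat.cast_nonneg _
      have hm' : (m : ℚ) ≤ 2 * n + 4 := by
        have : m ≤ 2 * n + 4 := by omega
        exact_mod_cast this
      have hf' : (f : ℚ) ≤ 2 := by exact_mod_cast hf
      have hn : (0 : ℚ) ≤ n := Nat.cast_nonneg n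
      apply term_gen
      · norm_num
      · push_cast
        linarith
      · subst hNn
        push_cast
        linarith
      · subst hNn
        push_cast
        linarith
      · push_cast
        linarith

private theorem sig_aux {R : Type} [CommRing R] (a b i j : R) (f q k : ℕ) (ha : a * i = 1)
    (hb : b * j = 1) : (a * j) ^ q = (i ^ f * j ^ (q + k)) * (a ^ (q + f) * b ^ k) := by
  have : (i ^ f * j ^ (q + k)) * (a ^ (q + f) * b ^ k) = (a * i) ^ f * (b * j) ^ k * (a * j) ^ q := by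
    ring
  rw [this, ha, hb, one_pow, one_pow, one_mul, one_mul]

open PowerSeries in
private theorem sig4 (q : ℕ) (hq : q ≤ 4) :
    ((2 + 3 * X) * (2 + 5 * X)⁻¹ : PowerSeries ℚ) ^ q =
      (((2 + 3 * X)⁻¹) ^ 1 * ((2 + 5 * X)⁻¹) ^ 4) *
        ∑ t : Fin 6, C ((co4 q t : ℕ) : ℚ) * X ^ (t : ℕ) := by
  have h3 := hD3
  have h5 := hD5
  have e : ((2 + 3 * X) * (2 + 5 * X)⁻¹ : PowerSeries ℚ) ^ q =
      (((2 + 3 * X)⁻¹) ^ 1 * ((2 + 5 * X)⁻¹) ^ 4) * ((2 + 3 * X) ^ (q + 1) * (2 + 5 * X) ^ (4 - q)) := by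
    obtain ⟨k, hk⟩ := Nat.exists_eq_add_of_le hq
    have h := sig_aux (2 + 3 * X : PowerSeries ℚ) (2 + 5 * X) _ _ 1 q k h3 h5
    rw [← hk, show k = 4 - q by omega] at h
    exact h
  rw [e]
  congr 1
  rw [Fin.sum_univ_six]
  interval_cases q <;> simp [co4] <;> simp only [map_ofNat] <;> ring

open PowerSeries in
private theorem sig5 (q : ℕ) (hq : q ≤ 4) :
    ((2 + 3 * X) * (2 + 5 * X)⁻¹ : PowerSeries ℚ) ^ q =
      (((2 + 3 * X)⁻¹) ^ 2 * ((2 + 5 * X)⁻¹) ^ 4) *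
        ∑ t : Fin 7, C ((co5 q t : ℕ) : ℚ) * X ^ (t : ℕ) := by
  have h3 := hD3
  have h5 := hD5
  have e : ((2 + 3 * X) * (2 + 5 * X)⁻¹ : PowerSeries ℚ) ^ q =
      (((2 + 3 * X)⁻¹) ^ 2 * ((2 + 5 * X)⁻¹) ^ 4) * ((2 + 3 * X) ^ (q + 2) * (2 + 5 * X) ^ (4 - q)) := by
    obtain ⟨k, hk⟩ := Nat.exists_eq_add_of_le hq
    have h := sig_aux (2 + 3 * X : PowerSeries ℚ) (2 + 5 * X) _ _ 2 q k h3 h5
    rw [← hk, show k = 4 - q by omega] at h
    exact h
  rw [e]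
  congr 1
  rw [Fin.sum_univ_seven]
  interval_cases q <;> simp [co5] <;> simp only [map_ofNat] <;> ring

private theorem tab4_eq (M : Fin 4 → Fin 4 → Bool) (hsym : ∀ i j, M i j = M j i)
    (hirr : ∀ i, M i i = false) :
    M = tab4 (M 0 1) (M 0 2) (M 0 3) (M 1 2) (M 1 3) (M 2 3) := by
  funext i j
  fin_cases i <;> fin_cases j <;> first | exact hirr _ | rfl | exact hsym _ _

private theorem tab5_eq (M : Fin 5 → Fin 5 → Bool) (hsym : ∀ i j, M i j = M j i)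
    (hirr : ∀ i, M i i = false) :
    M = tab5 (M 0 1) (M 0 2) (M 0 3) (M 0 4) (M 1 2) (M 1 3) (M 1 4) (M 2 3) (M 2 4) (M 3 4) := by
  funext i j
  fin_cases i <;> fin_cases j <;> first | exact hirr _ | rfl | exact hsym _ _

open PowerSeries in
/-- degree four, triangle-free neighbourhood -/
theorem slackV_four (n m : ℕ) (hm : m ≤ 2 * (n + 2)) (M : Fin 4 → Fin 4 → Bool)
    (hsym : ∀ i j, M i j = M j i) (hirr : ∀ i, M i i = false)
    (htf : ∀ i j k, ¬ (M i j = true ∧ M j k = true ∧ M i k = true)) (r : Fin 4 → Fin 4 → ℕ)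
    (hr2 : ∀ i j, i < j → M i j = false → r i j ≤ 2 * n)
    (hr : ∀ i j, i < j → M i j = false → m + cM M i j ≤ r i j + 2 + aM M i j) :
    (1 + PowerSeries.C (4 - ((4 : ℕ) : ℚ)) * PowerSeries.X) * BB (n + 1) (m + 1) +
      PowerSeries.X ^ 2 *
        (∑ j : Fin 4, ∑ i : Fin 4, if i < j ∧ M i j = false then BB n (r i j) else 0) -
      BB (n + 2) m ∈ QV (n + 2) (((n + 2 : ℕ) : ℚ) + (m : ℚ)) := by
  have hM := tab4_eq M hsym hirr
  have hck := check4 (M 0 1) (M 0 2) (M 0 3) (M 1 2) (M 1 3) (M 2 3) (by rw [← hM]; exact htf)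
  rw [← hM] at hck
  obtain ⟨hc1, hc2⟩ := hck
  have key : (1 + C (4 - ((4 : ℕ) : ℚ)) * X) * BB (n + 1) (m + 1) +
      X ^ 2 * (∑ j : Fin 4, ∑ i : Fin 4, if i < j ∧ M i j = false then BB n (r i j) else 0) -
      BB (n + 2) m =
      X ^ 2 * (∑ j : Fin 4, ∑ i : Fin 4, if i < j ∧ M i j = false then BB n (r i j) else 0) -
      X ^ 2 * ((1 + X) ^ n * rho ^ m * (3 * (1 + X) * (2 + 3 * X)⁻¹)) := by
    have h3 := hD3
    have hr : rho = (2 + 5 * X) * (2 + 3 * X : PowerSeries ℚ)⁻¹ := rfl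
    generalize (∑ j : Fin 4, ∑ i : Fin 4, if i < j ∧ M i j = false then BB n (r i j) else 0) = S
    rw [BB, BB, show (4 - ((4 : ℕ) : ℚ)) = 0 by norm_num, map_zero, pow_succ rho m,
      pow_succ (1 + X) n, pow_add (1 + X) n 2]
    generalize (2 + 3 * X : PowerSeries ℚ)⁻¹ = i3 at *
    generalize rho ^ m = rm
    rw [hr]
    linear_combination ((1 + X) ^ n * rm * (1 + X) ^ 2) * h3
  rw [key]
  refine assemble (n + 2) n m 1 rfl (fun i j => i < j ∧ M i j = false) co4 rr4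
    (fun i j => 2 + aM M i j - cM M i j) r ?_ ?_ (fun i j hc => hr2 i j hc.1 hc.2) hm
    (by norm_num) ?_ _ ?_ hc1 ?_
  · intro i j hc
    exact hc2 i j hc.1
  · intro i j hc
    have := hr i j hc.1 hc.2
    show m ≤ r i j + (2 + aM M i j - cM M i j)
    omega
  · intro i j hc
    exact sig4 _ (hc2 i j hc.1)
  · have h5 : ((2 + 5 * X) * (2 + 5 * X)⁻¹ : PowerSeries ℚ) ^ 4 = 1 := by rw [hD5, one_pow]
    have e6 : (∑ t : Fin 6, C ((rr4 t : ℕ) : ℚ) * X ^ (t : ℕ) : PowerSeries ℚ) =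
        3 * (1 + X) * (2 + 5 * X) ^ 4 := by
      rw [Fin.sum_univ_six]
      simp [rr4]
      simp only [map_ofNat]
      ring
    rw [e6]
    generalize (2 + 3 * X : PowerSeries ℚ)⁻¹ = i3 at *
    generalize (2 + 5 * X : PowerSeries ℚ)⁻¹ = i5 at *
    linear_combination (-(3 * (1 + X) * i3)) * h5
  · push_cast
    linarith

open PowerSeries in
/-- degree five, triangle-free neighbourhood with at most five edges -/
theorem slackV_five (n m : ℕ) (hn : 1 ≤ n) (hm : m ≤ 2 * (n + 2)) (M : Fin 5 → Fin 5 → Bool)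
    (hsym : ∀ i j, M i j = M j i) (hirr : ∀ i, M i i = false)
    (htf : ∀ i j k, ¬ (M i j = true ∧ M j k = true ∧ M i k = true))
    (hfive : (Finset.univ.filter
      (fun p : Fin 5 × Fin 5 => p.1 < p.2 ∧ M p.1 p.2 = true)).card ≤ 5)
    (r : Fin 5 → Fin 5 → ℕ)
    (hr2 : ∀ i j, i < j → M i j = false → r i j ≤ 2 * n)
    (hr : ∀ i j, i < j → M i j = false → m + cM M i j ≤ r i j + 1 + aM M i j) :
    (1 + PowerSeries.C (4 - ((5 : ℕ) : ℚ)) * PowerSeries.X) * BB (n + 1) (m + 2) +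
      PowerSeries.X ^ 2 *
        (∑ j : Fin 5, ∑ i : Fin 5, if i < j ∧ M i j = false then BB n (r i j) else 0) -
      BB (n + 2) m ∈ QV (n + 2) (((n + 2 : ℕ) : ℚ) + (m : ℚ)) := by
  have hM := tab5_eq M hsym hirr
  have hck := check5 (M 0 1) (M 0 2) (M 0 3) (M 0 4) (M 1 2) (M 1 3) (M 1 4) (M 2 3) (M 2 4)
    (M 3 4) (by rw [← hM]; exact hfive) (by rw [← hM]; exact htf)
  rw [← hM] at hck
  obtain ⟨hc1, hc2⟩ := hck
  have key : (1 + C (4 - ((5 : ℕ) : ℚ)) * X) * BB (n + 1) (m + 2) +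
      X ^ 2 * (∑ j : Fin 5, ∑ i : Fin 5, if i < j ∧ M i j = false then BB n (r i j) else 0) -
      BB (n + 2) m =
      X ^ 2 * (∑ j : Fin 5, ∑ i : Fin 5, if i < j ∧ M i j = false then BB n (r i j) else 0) -
      X ^ 2 * ((1 + X) ^ n * rho ^ m * ((1 + X) * (16 + 34 * X) * ((2 + 3 * X)⁻¹) ^ 2)) := by
    have h3 := hD3
    have hr : rho = (2 + 5 * X) * (2 + 3 * X : PowerSeries ℚ)⁻¹ := rfl
    generalize (∑ j : Fin 5, ∑ i : Fin 5, if i < j ∧ M i j = false then BB n (r i j) else 0) = S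
    rw [BB, BB, show (4 - ((5 : ℕ) : ℚ)) = -1 by norm_num, map_neg, map_one, pow_add rho m 2,
      pow_succ (1 + X) n, pow_add (1 + X) n 2]
    generalize (2 + 3 * X : PowerSeries ℚ)⁻¹ = i3 at *
    generalize rho ^ m = rm
    rw [hr]
    linear_combination ((1 + X) ^ n * rm * (1 + X) ^ 2 * (1 + (2 + 3 * X) * i3)) * h3
  rw [key]
  have hn1 : (1 : ℚ) ≤ n := by exact_mod_cast hn
  refine assemble (n + 2) n m 2 rfl (fun i j => i < j ∧ M i j = false) co5 rr5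
    (fun i j => 1 + aM M i j - cM M i j) r ?_ ?_ (fun i j hc => hr2 i j hc.1 hc.2) hm
    (by norm_num) ?_ _ ?_ hc1 ?_
  · intro i j hc
    exact hc2 i j hc.1
  · intro i j hc
    have := hr i j hc.1 hc.2
    show m ≤ r i j + (1 + aM M i j - cM M i j)
    omega
  · intro i j hc
    exact sig5 _ (hc2 i j hc.1)
  · have h5 : ((2 + 5 * X) * (2 + 5 * X)⁻¹ : PowerSeries ℚ) ^ 4 = 1 := by rw [hD5, one_pow]
    have e6 : (∑ t : Fin 7, C ((rr5 t : ℕ) : ℚ) * X ^ (t : ℕ) : PowerSeries ℚ) =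
        (1 + X) * (16 + 34 * X) * (2 + 5 * X) ^ 4 := by
      rw [Fin.sum_univ_seven]
      simp [rr5]
      simp only [map_ofNat]
      ring
    rw [e6]
    generalize (2 + 3 * X : PowerSeries ℚ)⁻¹ = i3 at *
    generalize (2 + 5 * X : PowerSeries ℚ)⁻¹ = i5 at *
    linear_combination (-((1 + X) * (16 + 34 * X) * i3 ^ 2)) * h5
  · push_cast
    linarith

end Pool.Agent.Lib.MP_f52c03_co.BL
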