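import Pool.Agent.Lib.MP_f52c03_co.BL.Defs2
import Pool.Agent.Lib.MP_f52c03_co.BL.Minor

set_option autoImplicit false

namespace Pool.Agent.Lib.MP_f52c03_co.BL

private theorem Vertex2_tri_del {V : Type} {G : SimpleGraph V} {a b c u : V} (hab : G.Adj a b)
    (hbc : G.Adj b c) (hac : G.Adj a c) (ha : a ≠ u) (hb : b ≠ u) (hc : c ≠ u) :
    HasTri (del G u) :=
  ⟨⟨a, ha⟩, ⟨b, hb⟩, ⟨c, hc⟩, hab, hbc, hac⟩

private theorem Vertex2_count {V : Type} [Fintype V] (G : SimpleGraph V) (hS : Sparse G)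
    (hc : 4 ≤ Fintype.card V) {v y w : V} (hvy : G.Adj v y) (hvw : G.Adj v w) (hyw : G.Adj y w)
    (hT : ¬ HasTri (del G v))
    (hdeg : ∀ u, u ≠ v → u ≠ y → u ≠ w → 5 ≤ (G.neighborSet u).ncard) : False := by
  classical
  have hcard : Fintype.card {x : V // x ≠ v} = Fintype.card V - 1 := by
    rw [Fintype.card_subtype_compl, Fintype.card_subtype_eq]
  have h1 := (hS {x : V // x ≠ v} (del G v) (IsMinor.del G v) (by omega)).2 hT
  have h2 := (del G v).sum_degrees_eq_twice_card_edges
  have h3 : ne (del G v) = (del G v).edgeFinset.card := by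
    unfold ne
    rw [Nat.card_eq_fintype_card, SimpleGraph.edgeFinset_card]
  rw [← h3] at h2
  set y' : {x : V // x ≠ v} := ⟨y, hvy.ne'⟩ with hy'
  set w' : {x : V // x ≠ v} := ⟨w, hvw.ne'⟩ with hw'
  have hyw' : (del G v).Adj y' w' := hyw
  have h4 : ∀ x : {x : V // x ≠ v},
      4 ≤ (del G v).degree x + ((if x = y' then 3 else 0) + (if x = w' then 3 else 0)) := by
    intro x
    by_cases hx1 : x = y'
    · have : 0 < (del G v).degree x := by
        rw [hx1, SimpleGraph.degree_pos_iff_exists_adj]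
        exact ⟨w', hyw'⟩
      rw [if_pos hx1]
      omega
    · by_cases hx2 : x = w'
      · have : 0 < (del G v).degree x := by
          rw [hx2, SimpleGraph.degree_pos_iff_exists_adj]
          exact ⟨y', hyw'.symm⟩
        rw [if_pos hx2]
        omega
      · rw [if_neg hx1, if_neg hx2]
        have h5 := hdeg x.1 x.2 (fun h => hx1 (Subtype.ext h)) (fun h => hx2 (Subtype.ext h))
        have h6 : G.neighborSet x.1 ⊆ insert v (Subtype.val '' ((del G v).neighborSet x)) := by
          intro z hz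
          by_cases hzv : z = v
          · exact Or.inl hzv
          · exact Or.inr ⟨⟨z, hzv⟩, hz, rfl⟩
        have h7 := Set.ncard_le_ncard h6 (Set.toFinite _)
        have h8 := Set.ncard_insert_le v (Subtype.val '' ((del G v).neighborSet x))
        have h9 := Set.ncard_image_le (f := Subtype.val) (Set.toFinite ((del G v).neighborSet x))
        have h10 : ((del G v).neighborSet x).ncard = (del G v).degree x := by
          rw [Set.ncard_eq_toFinset_card', ← SimpleGraph.card_neighborFinset_eq_degree]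
          congr 1
        omega
  have h5 := Finset.sum_le_sum (s := Finset.univ) fun x _ => h4 x
  rw [Finset.sum_const, Finset.card_univ, Finset.sum_add_distrib, Finset.sum_add_distrib,
    Finset.sum_ite_eq', Finset.sum_ite_eq', if_pos (Finset.mem_univ _),
    if_pos (Finset.mem_univ _), h2, smul_eq_mul] at h5
  omega

/-- `K` is cut off by the vertex `u`, and there is a triangle outside `K` -/
private def Vertex2_Pair {V : Type} (G : SimpleGraph V) (u : V) (K : Set V) : Prop :=
  K.Nonempty ∧ u ∉ K ∧ (∀ p ∈ K, ∀ q, G.Adj p q → q ∈ K ∨ q = u) ∧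
    ∃ a b c : V, a ∉ K ∧ b ∉ K ∧ c ∉ K ∧ G.Adj a b ∧ G.Adj b c ∧ G.Adj a c

private theorem Vertex2_cut {V : Type} (G : SimpleGraph V) {x a : V} (hax : a ≠ x)
    (h : ¬ (del G x).Connected) :
    ∃ K : Set V, K.Nonempty ∧ x ∉ K ∧ (∀ p ∈ K, ∀ q, G.Adj p q → q ∈ K ∨ q = x) ∧
      ∀ (z : V) (hz : z ≠ x), (del G x).Reachable ⟨a, hax⟩ ⟨z, hz⟩ → z ∉ K := by
  refine ⟨{z | ∃ hz : z ≠ x, ¬ (del G x).Reachable ⟨a, hax⟩ ⟨z, hz⟩}, ?_, ?_, ?_, ?_⟩
  · by_contra hne
    rw [Set.not_nonempty_iff_eq_empty] at hne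
    apply h
    have hr : ∀ z : {z : V // z ≠ x}, (del G x).Reachable ⟨a, hax⟩ z := by
      intro z
      by_contra hz
      have : z.1 ∈ {z | ∃ hz : z ≠ x, ¬ (del G x).Reachable ⟨a, hax⟩ ⟨z, hz⟩} := ⟨z.2, hz⟩
      rw [hne] at this
      exact this
    have : Nonempty {z : V // z ≠ x} := ⟨⟨a, hax⟩⟩
    exact ⟨fun p q => (hr p).symm.trans (hr q)⟩
  · rintro ⟨hz, _⟩
    exact hz rfl
  · rintro p ⟨hp, hpr⟩ q hpq
    by_cases hq : q = x
    · exact Or.inr hq
    · refine Or.inl ⟨hq, fun hqr => hpr ?_⟩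
      have hadj : (del G x).Adj ⟨q, hq⟩ ⟨p, hp⟩ := hpq.symm
      exact hqr.trans hadj.reachable
  · rintro z hz hr ⟨_, hn⟩
    exact hn hr

private theorem Vertex2_outside {V : Type} (G : SimpleGraph V) {u x : V} {K : Set V}
    (huK : u ∉ K) (hK : ∀ p ∈ K, ∀ q, G.Adj p q → q ∈ K ∨ q = u) (hxK : x ∈ K) :
    ∀ {z w : V} (_ : G.Walk z w) (_ : w = u) (hz : z ∉ K),
      (del G x).Reachable ⟨u, fun h => huK (h ▸ hxK)⟩ ⟨z, fun h => hz (h ▸ hxK)⟩ := by
  intro z w p
  induction p with
  | nil =>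
    intro hw hz
    subst hw
    exact SimpleGraph.Reachable.refl _
  | @cons z z' w hadj p ih =>
    intro hw hz
    by_cases hz' : z' ∈ K
    · rcases hK z' hz' z hadj.symm with h | h
      · exact absurd h hz
      · subst h
        exact SimpleGraph.Reachable.refl _
    · have h1 := ih hw hz'
      have hadj' : (del G x).Adj ⟨z', fun h => hz' (h ▸ hxK)⟩ ⟨z, fun h => hz (h ▸ hxK)⟩ :=
        hadj.symm
      exact h1.trans hadj'.reachable

private theorem Vertex2_low {V : Type} [Fintype V] (G : SimpleGraph V) (hS : Sparse G)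
    {u : V} {K : Set V} (hKn : K.Nonempty) (huK : u ∉ K)
    (hK : ∀ p ∈ K, ∀ q, G.Adj p q → q ∈ K ∨ q = u) :
    ∃ x ∈ K, (G.neighborSet x).ncard ≤ 5 := by
  classical
  by_contra hno
  push Not at hno
  set A : Set V := insert u K with hA
  have hAc : A.ncard = K.ncard + 1 := Set.ncard_insert_of_notMem huK (Set.toFinite _)
  have hcard : Fintype.card A = K.ncard + 1 := by
    rw [← Nat.card_eq_fintype_card, Nat.card_coe_set_eq, hAc]
  have hsub : ∀ x ∈ K, G.neighborSet x ⊆ A := by
    intro x hx q hq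
    rcases hK x hx q hq with h | h
    · exact Or.inr h
    · exact Or.inl h
  have hbig : 3 ≤ Fintype.card A := by
    obtain ⟨x, hx⟩ := hKn
    have h1 := hno x hx
    have h2 := Set.ncard_le_ncard (hsub x hx) (Set.toFinite _)
    omega
  have h1 := (hS A (G.induce A) (IsMinor.induce _ A) hbig).1
  have h2 := (G.induce A).sum_degrees_eq_twice_card_edges
  have h3 : ne (G.induce A) = (G.induce A).edgeFinset.card := by
    unfold ne
    rw [Nat.card_eq_fintype_card, SimpleGraph.edgeFinset_card]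
  rw [← h3] at h2
  set u' : A := ⟨u, Or.inl rfl⟩ with hu'
  have h4 : ∀ x : A, 6 ≤ (G.induce A).degree x + (if x = u' then 6 else 0) := by
    intro x
    by_cases hx : x = u'
    · rw [if_pos hx]
      omega
    · rw [if_neg hx]
      have hxK : x.1 ∈ K := by
        rcases x.2 with h | h
        · exact absurd (Subtype.ext h) hx
        · exact h
      have h5 := hno x.1 hxK
      have h6 : G.neighborSet x.1 ⊆ Subtype.val '' ((G.induce A).neighborSet x) := by
        intro z hz
        exact ⟨⟨z, hsub x.1 hxK hz⟩, hz, rfl⟩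
      have h7 := Set.ncard_le_ncard h6 (Set.toFinite _)
      have h9 := Set.ncard_image_le (f := Subtype.val) (Set.toFinite ((G.induce A).neighborSet x))
      have h10 : ((G.induce A).neighborSet x).ncard = (G.induce A).degree x := by
        rw [Set.ncard_eq_toFinset_card', ← SimpleGraph.card_neighborFinset_eq_degree]
        congr 1
      omega
  have h5 := Finset.sum_le_sum (s := Finset.univ) fun x _ => h4 x
  rw [Finset.sum_const, Finset.card_univ, Finset.sum_add_distrib, Finset.sum_ite_eq',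
    if_pos (Finset.mem_univ _), h2, smul_eq_mul] at h5
  omega

private theorem Vertex2_some {V : Type} [Fintype V] (G : SimpleGraph V) (hS : Sparse G)
    (hc : 4 ≤ Fintype.card V) : ∃ v, (G.neighborSet v).ncard ≤ 5 := by
  classical
  by_contra hno
  push Not at hno
  have h1 := (hS V G (IsMinor.refl G) (by omega)).1
  have h2 := G.sum_degrees_eq_twice_card_edges
  have h3 : ne G = G.edgeFinset.card := by
    unfold ne
    rw [Nat.card_eq_fintype_card, SimpleGraph.edgeFinset_card]
  rw [← h3] at h2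
  have h4 : ∀ x : V, 6 ≤ G.degree x := by
    intro x
    have h10 : (G.neighborSet x).ncard = G.degree x := by
      rw [Set.ncard_eq_toFinset_card', ← SimpleGraph.card_neighborFinset_eq_degree]
      congr 1
    have := hno x
    omega
  have h5 := Finset.sum_le_sum (s := Finset.univ) fun x _ => h4 x
  rw [Finset.sum_const, Finset.card_univ, h2, smul_eq_mul] at h5
  omega

private theorem Vertex2_tri {V : Type} [Fintype V] (G : SimpleGraph V) (hS : Sparse G)
    (hT : HasTri G) (hc : 4 ≤ Fintype.card V) :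
    ∃ v : V, (G.neighborSet v).ncard ≤ 5 ∧ HasTri (del G v) := by
  by_contra hno
  push Not at hno
  obtain ⟨a, b, c, hab, hbc, hac⟩ := hT
  obtain ⟨v, hv⟩ := Vertex2_some G hS hc
  have hvT := hno v hv
  have key : ∀ y w : V, G.Adj v y → G.Adj v w → G.Adj y w → False := by
    intro y w h1 h2 h3
    refine Vertex2_count G hS hc h1 h2 h3 hvT fun u hu1 hu2 hu3 => ?_
    by_contra hlt
    exact hno u (by omega) (Vertex2_tri_del h1 h3 h2 hu1.symm hu2.symm hu3.symm)
  by_cases hav : a = v
  · subst hav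
    exact key b c hab hac hbc
  · by_cases hbv : b = v
    · subst hbv
      exact key a c hab.symm hbc hac
    · by_cases hcv : c = v
      · subst hcv
        exact key a b hac.symm hbc.symm hab
      · exact hvT (Vertex2_tri_del hab hbc hac hav hbv hcv)

theorem exists_vertex5 {V : Type} [Fintype V] (G : SimpleGraph V) (hS : Sparse G)
    (hC : G.Connected) (hT : HasTri G) (hc : 4 ≤ Fintype.card V) :
    ∃ v : V, (G.neighborSet v).ncard ≤ 5 ∧ HasTri (del G v) ∧ (del G v).Connected := by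
  classical
  by_cases hP : ∃ (n : ℕ) (u : V) (K : Set V), Vertex2_Pair G u K ∧ K.ncard = n
  · obtain ⟨u, K, ⟨hKn, huK, hK, a, b, c, ha, hb, hc', hab, hbc, hac⟩, hn⟩ := Nat.find_spec hP
    have hmin : ∀ (u' : V) (K' : Set V), Vertex2_Pair G u' K' → K.ncard ≤ K'.ncard := by
      intro u' K' h
      rw [hn]
      exact Nat.find_min' hP ⟨u', K', h, rfl⟩
    obtain ⟨x, hxK, hx⟩ := Vertex2_low G hS hKn huK hK
    have hne : ∀ z, z ∉ K → z ≠ x := fun z hz h => hz (h ▸ hxK)
    refine ⟨x, hx, Vertex2_tri_del hab hbc hac (hne a ha) (hne b hb) (hne c hc'), ?_⟩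
    by_contra hcon
    obtain ⟨K', h1, h2, h3, h4⟩ := Vertex2_cut G (hne u huK) hcon
    have hout : ∀ z, z ∉ K → z ∉ K' := by
      intro z hz
      obtain ⟨p⟩ := hC.preconnected z u
      exact h4 z (hne z hz) (Vertex2_outside G huK hK hxK p rfl hz)
    have h5 := hmin x K' ⟨h1, h2, h3, a, b, c, hout a ha, hout b hb, hout c hc', hab, hbc, hac⟩
    have h6 : K' ⊂ K := by
      refine ⟨fun z hz => by_contra fun h => hout z h hz, fun h => h2 (h hxK)⟩
    have h7 := Set.ncard_lt_ncard h6 (Set.toFinite _)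
    omega
  · obtain ⟨v, hv, hT'⟩ := Vertex2_tri G hS hT hc
    refine ⟨v, hv, hT', ?_⟩
    by_contra hcon
    obtain ⟨a, b, c, hab, hbc, hac⟩ := hT'
    obtain ⟨K, h1, h2, h3, h4⟩ := Vertex2_cut G a.2 hcon
    refine hP ⟨K.ncard, v, K, ⟨h1, h2, h3, a.1, b.1, c.1, h4 a.1 a.2 ?_, h4 b.1 b.2 ?_,
      h4 c.1 c.2 ?_, hab, hbc, hac⟩, rfl⟩
    · exact SimpleGraph.Reachable.refl _
    · exact hab.reachable
    · exact hac.reachable

end Pool.Agent.Lib.MP_f52c03_co.BL
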