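import Pool.Agent.Lib.MP_f52c03_co.BL.FBasic
import Pool.Agent.Lib.MP_f52c03_co.BL.Clique
import Pool.Agent.Lib.MP_f52c03_co.BL.Vertex2
import Pool.Agent.Lib.MP_f52c03_co.BL.K4
import Pool.Agent.Lib.MP_f52c03_co.BL.Local
import Pool.Agent.Lib.MP_f52c03_co.BL.SlackV

set_option autoImplicit false

namespace Pool.Agent.Lib.MP_f52c03_co.BL

/-- a connected graph with a triangle has at least as many edges as vertices -/
theorem mm_le {V : Type} [Fintype V] (N : ℕ) (G : SimpleGraph V) (hc : Fintype.card V = N + 3)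
    (hC : G.Connected) (hT : HasTri G) : mm G ≤ 2 * N := by
  classical
  have h1 : Nat.card V = N + 3 := by rw [Nat.card_eq_fintype_card, hc]
  have h2 := hC.card_vert_le_card_edgeSet_add_one
  have h3 : ne G = Nat.card G.edgeSet := rfl
  by_contra hcon
  unfold mm at hcon
  have h4 : Nat.card G.edgeSet + 1 = Nat.card V := by omega
  have hTr := SimpleGraph.isTree_iff_connected_and_card.2 ⟨hC, h4⟩
  obtain ⟨a, b, c, hab, hbc, hac⟩ := hT
  refine hTr.isAcyclic (SimpleGraph.Walk.cons hab (SimpleGraph.Walk.cons hbc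
    (SimpleGraph.Walk.cons hac.symm SimpleGraph.Walk.nil))) ?_
  rw [SimpleGraph.Walk.cons_isCycle_iff]
  constructor
  · rw [SimpleGraph.Walk.isPath_def]
    simp [hab.ne', hbc.ne, hac.ne']
  · simp only [SimpleGraph.Walk.edges_cons, SimpleGraph.Walk.edges_nil, List.mem_cons,
      Sym2.eq_iff, List.not_mem_nil, or_false, not_or, not_and]
    refine ⟨⟨fun h => absurd h hab.ne, fun h => absurd h hac.ne⟩,
      ⟨fun h => absurd h hac.ne, fun _ h => absurd h hbc.ne⟩⟩

private theorem me_mm {V : Type} [Fintype V] (G : SimpleGraph V) (hS : Sparse G)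
    (hc : 3 ≤ Fintype.card V) : mm G + ne G + 6 = 3 * Fintype.card V := by
  have h := (hS V G (IsMinor.refl G) hc).1
  unfold mm
  rw [Nat.card_eq_fintype_card]
  omega

private theorem me_BB_add (a b m m' : ℕ) : BB (a + b) (m + m') = BB a m * BB b m' := by
  unfold BB
  rw [pow_add, pow_add]
  ring

private theorem me_ne_iso {V W : Type} {G : SimpleGraph V} {H : SimpleGraph W} (e : H ≃g G) :
    ne H = ne G := by
  unfold ne
  exact Nat.card_congr e.mapEdgeSet

private theorem me_card_ne {V : Type} [Fintype V] (v : V) [Fintype {x : V // x ≠ v}] :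
    Fintype.card {x : V // x ≠ v} + 1 = Fintype.card V := by
  classical
  have h1 : Fintype.card {x : V // x ≠ v} = Fintype.card V - Fintype.card {x : V // x = v} := by
    rw [← Fintype.card_subtype_compl]
  have h2 : Fintype.card {x : V // x = v} = 1 := Fintype.card_subtype_eq v
  have h3 : 0 < Fintype.card V := Fintype.card_pos_iff.2 ⟨v⟩
  omega

private theorem me_ne_tri {V : Type} [Fintype V] (G : SimpleGraph V) (hT : HasTri G) :
    3 ≤ ne G := by
  classical
  obtain ⟨a, b, c, hab, hbc, hac⟩ := hT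
  unfold ne
  have h : ({s(a, b), s(a, c), s(b, c)} : Set (Sym2 V)).ncard = 3 := by
    rw [Set.ncard_eq_three]
    refine ⟨s(a, b), s(a, c), s(b, c), ?_, ?_, ?_, rfl⟩
    · intro h
      rw [Sym2.eq_iff] at h
      rcases h with ⟨_, h⟩ | ⟨h, _⟩
      · exact hbc.ne h
      · exact hac.ne h
    · intro h
      rw [Sym2.eq_iff] at h
      rcases h with ⟨h, _⟩ | ⟨h, _⟩
      · exact hab.ne h
      · exact hac.ne h
    · intro h
      rw [Sym2.eq_iff] at h
      rcases h with ⟨h, _⟩ | ⟨h, _⟩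
      · exact hab.ne h
      · exact hac.ne h
  rw [Nat.card_coe_set_eq, ← h]
  apply Set.ncard_le_ncard _ (Set.toFinite _)
  rintro e (rfl | rfl | rfl)
  · exact hab
  · exact hac
  · exact hbc

private theorem me_exists_adj {V : Type} [Fintype V] (G : SimpleGraph V) (hC : G.Connected)
    (hc : 2 ≤ Fintype.card V) (v : V) : ∃ w, G.Adj v w := by
  classical
  have : Nontrivial V := Fintype.one_lt_card_iff_nontrivial.1 (by omega)
  obtain ⟨w, hw⟩ := exists_ne v
  obtain ⟨p⟩ := hC.preconnected v w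
  cases p with
  | nil => exact absurd rfl hw
  | cons h _ => exact ⟨_, h⟩

/-- the clique sum step -/
private theorem me_clique (N : ℕ) (ih : ∀ m < N, ∀ (V : Type) [Fintype V] (G : SimpleGraph V),
    Fintype.card V = m + 3 → Sparse G → G.Connected → HasTri G →
    FF G - BB m (mm G) ∈ QV m ((m : ℚ) + (mm G : ℚ)))
    (V : Type) [Fintype V] (G : SimpleGraph V) (hV : Fintype.card V = N + 3)
    (hS : Sparse G) (A B : Set V) (x y z : V) (hxy : G.Adj x y) (hyz : G.Adj y z)
    (hxz : G.Adj x z) (hU : A ∪ B = Set.univ) (hI : A ∩ B = {x, y, z})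
    (hE : ∀ u v, u ∈ A → u ∉ B → v ∈ B → v ∉ A → ¬ G.Adj u v)
    (hA : A ≠ Set.univ) (hB : B ≠ Set.univ) (hCA : (G.induce A).Connected)
    (hCB : (G.induce B).Connected) :
    FF G - BB N (mm G) ∈ QV N ((N : ℚ) + (mm G : ℚ)) := by
  classical
  obtain ⟨h1, h2⟩ := ne_clique G A B x y z hxy hyz hxz hU hI hE
  have hFF := FF_clique G A B x y z hxy hyz hxz hU hI hE
  have h3 : ({x, y, z} : Set V).ncard = 3 := by
    rw [Set.ncard_eq_three]
    exact ⟨x, y, z, hxy.ne, hxz.ne, hyz.ne, rfl⟩
  have hx : x ∈ A ∩ B := by rw [hI]; simp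
  have hy : y ∈ A ∩ B := by rw [hI]; simp
  have hz : z ∈ A ∩ B := by rw [hI]; simp
  have hA3 : 3 ≤ A.ncard := by
    rw [← h3]
    apply Set.ncard_le_ncard _ (Set.toFinite _)
    rw [← hI]; exact Set.inter_subset_left
  have hB3 : 3 ≤ B.ncard := by
    rw [← h3]
    apply Set.ncard_le_ncard _ (Set.toFinite _)
    rw [← hI]; exact Set.inter_subset_right
  have hAlt : A.ncard < Fintype.card V := by
    rw [← Nat.card_eq_fintype_card, ← Set.ncard_univ]
    exact Set.ncard_lt_ncard (Set.ssubset_univ_iff.2 hA) (Set.toFinite _)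
  have hBlt : B.ncard < Fintype.card V := by
    rw [← Nat.card_eq_fintype_card, ← Set.ncard_univ]
    exact Set.ncard_lt_ncard (Set.ssubset_univ_iff.2 hB) (Set.toFinite _)
  rw [Nat.card_eq_fintype_card] at h2
  obtain ⟨NA, hNA⟩ := Nat.exists_eq_add_of_le hA3
  obtain ⟨NB, hNB⟩ := Nat.exists_eq_add_of_le hB3
  have hcA : Fintype.card A = NA + 3 := by
    rw [← Nat.card_eq_fintype_card, Nat.card_coe_set_eq]; omega
  have hcB : Fintype.card B = NB + 3 := by
    rw [← Nat.card_eq_fintype_card, Nat.card_coe_set_eq]; omega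
  have hSA : Sparse (G.induce A) := hS.minor (IsMinor.induce G A)
  have hSB : Sparse (G.induce B) := hS.minor (IsMinor.induce G B)
  have hTA : HasTri (G.induce A) :=
    ⟨⟨x, hx.1⟩, ⟨y, hy.1⟩, ⟨z, hz.1⟩, hxy, hyz, hxz⟩
  have hTB : HasTri (G.induce B) :=
    ⟨⟨x, hx.2⟩, ⟨y, hy.2⟩, ⟨z, hz.2⟩, hxy, hyz, hxz⟩
  have iA := ih NA (by omega) A (G.induce A) hcA hSA hCA hTA
  have iB := ih NB (by omega) B (G.induce B) hcB hSB hCB hTB
  have mG := me_mm G hS (by omega)
  have mA := me_mm (G.induce A) hSA (by omega)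
  have mB := me_mm (G.induce B) hSB (by omega)
  have hN : N = NA + NB := by omega
  have hm : mm G = mm (G.induce A) + mm (G.induce B) := by omega
  have hFB : FF (G.induce B) ∈ QV NB ((NB : ℚ) + (mm (G.induce B) : ℚ)) := by
    have := add_mem iB (QV_BB NB (mm (G.induce B)) (mm_le NB _ hcB hCB hTB))
    rwa [sub_add_cancel] at this
  have hBA : BB NA (mm (G.induce A)) ∈ QV NA ((NA : ℚ) + (mm (G.induce A) : ℚ)) :=
    QV_BB NA (mm (G.induce A)) (mm_le NA _ hcA hCA hTA)
  have key : FF G - BB N (mm G) =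
      (FF (G.induce A) - BB NA (mm (G.induce A))) * FF (G.induce B) +
        BB NA (mm (G.induce A)) * (FF (G.induce B) - BB NB (mm (G.induce B))) := by
    rw [hFF, hN, hm, me_BB_add]
    ring
  rw [key]
  have hy' : (N : ℚ) + (mm G : ℚ) = ((NA : ℚ) + (mm (G.induce A) : ℚ)) +
      ((NB : ℚ) + (mm (G.induce B) : ℚ)) := by
    rw [hN, hm]
    push_cast
    ring
  rw [hy', hN]
  exact add_mem (QV_mul iA hFB) (QV_mul hBA iB)

private theorem me_aM_le {d : ℕ} (M : Fin d → Fin d → Bool) (i j : Fin d) : aM M i j ≤ i.val := by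
  unfold aM
  calc (Finset.univ.filter (fun l => l < i ∧ M l j = false)).card
      ≤ (Finset.univ.filter (fun l : Fin d => l < i)).card := by
        apply Finset.card_le_card
        intro l hl
        rw [Finset.mem_filter] at hl ⊢
        exact ⟨hl.1, hl.2.1⟩
    _ = i.val := by
        rw [← Fin.card_Iio i]
        congr 1
        ext l
        simp

theorem main_V (N : ℕ) : ∀ (V : Type) [Fintype V] (G : SimpleGraph V), Fintype.card V = N + 3 →
    Sparse G → G.Connected → HasTri G →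
    FF G - BB N (mm G) ∈ QV N ((N : ℚ) + (mm G : ℚ)) := by
  classical
  induction N using Nat.strong_induction_on with
  | _ N ih =>
  intro V _ G hV hS hC hT
  have mG := me_mm G hS (by omega)
  rcases Nat.eq_zero_or_pos N with hN0 | hN1
  · -- triangle
    subst hN0
    have h1 := me_ne_tri G hT
    have h2 : mm G = 0 := by omega
    rw [FF_three G hT (by omega), h2]
    have h3 : (1 : PowerSeries ℚ) - BB 0 0 = 0 := by
      unfold BB
      rw [pow_zero, pow_zero, mul_one, sub_self]
    rw [h3]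
    exact zero_mem _
  by_cases hK : 5 ≤ Fintype.card V ∧ ∃ a b c d : V, G.Adj a b ∧ G.Adj a c ∧ G.Adj a d ∧
      G.Adj b c ∧ G.Adj b d ∧ G.Adj c d
  · obtain ⟨h5, a, b, c, d, hab, hac, had, hbc, hbd, hcd⟩ := hK
    obtain ⟨A, B, x, y, z, h1, h2, h3, h4, h6, h7, h8, h9, h10, h11⟩ :=
      exists_clique_sum G hS hC h5 a b c d hab hac had hbc hbd hcd
    exact me_clique N ih V G hV hS A B x y z h1 h2 h3 h4 h6 h7 h8 h9 h10 h11
  -- a vertex of degree at most five
  obtain ⟨v, hv5, hTH, hCH⟩ := exists_vertex5 G hS hC hT (by omega)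
  set H := del G v with hH
  set S : Set {x : V // x ≠ v} := {x | G.Adj v x.1} with hSdef
  have hSH : Sparse H := hS.minor (IsMinor.del G v)
  have hcH : Fintype.card {x : V // x ≠ v} = N + 2 := by
    have := me_card_ne v
    omega
  have mH := me_mm H hSH (by omega)
  obtain ⟨e⟩ := cone_iso G v
  have hne : ne G = ne H + S.ncard := by
    rw [← me_ne_iso e, ne_cone]
  have hSfin : S.Finite := Set.toFinite _
  have hScard : S.ncard ≤ 5 := by
    have h1 : (Subtype.val '' S) ⊆ G.neighborSet v := by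
      rintro _ ⟨x, hx, rfl⟩
      exact hx
    have h2 : (Subtype.val '' S).ncard = S.ncard := Set.ncard_image_of_injective _
      Subtype.val_injective
    have h3 := Set.ncard_le_ncard h1 (Set.toFinite _)
    omega
  have hSpos : 1 ≤ S.ncard := by
    obtain ⟨w, hw⟩ := me_exists_adj G hC (by omega) v
    exact (Set.ncard_pos hSfin).2 ⟨⟨w, hw.ne'⟩, hw⟩
  -- enumeration of the neighbours
  obtain ⟨d, hd⟩ : ∃ d, d = S.ncard := ⟨_, rfl⟩
  obtain ⟨L, hL, hLr⟩ : ∃ L : Fin d → {x : V // x ≠ v}, Function.Injective L ∧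
      Set.range L = S := by
    have h1 : Nat.card S = d := by rw [Nat.card_coe_set_eq, hd]
    have eqv : Fin d ≃ S := (Finite.equivFinOfCardEq h1).symm
    refine ⟨fun i => (eqv i).1, ?_, ?_⟩
    · intro i j hij
      exact eqv.injective (Subtype.ext hij)
    · ext x
      constructor
      · rintro ⟨i, rfl⟩
        exact (eqv i).2
      · intro hx
        exact ⟨eqv.symm ⟨x, hx⟩, by simp⟩
  rw [← hd] at hne hScard hSpos
  have hdle : d ≤ N + 2 := by
    rw [← hcH, ← Fintype.card_fin d]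
    exact Fintype.card_le_of_injective L hL
  have hmm : mm H + 3 = mm G + d := by omega
  have hFG : FF (cone H (Set.range L)) = FF G := by
    rw [hLr]
    exact FF_iso e (HasTri.cone hTH S)
  have hcone := FF_cone H hTH d L hL
  rw [hFG] at hcone
  obtain ⟨n, rfl⟩ : ∃ n, N = n + 1 := ⟨N - 1, by omega⟩
  have iH := ih n (by omega) _ H (by omega) hSH hCH hTH
  -- the matrix
  let M : Fin d → Fin d → Bool := fun i j => decide (H.Adj (L i) (L j))
  have hM : ∀ i j, M i j = true ↔ H.Adj (L i) (L j) := fun i j => by simp [M]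
  have hMf : ∀ i j, M i j = false ↔ ¬ H.Adj (L i) (L j) := fun i j => by simp [M]
  have hmer : ∀ i j : Fin d, i < j → ¬ H.Adj (L i) (L j) →
      1 ≤ n ∧ FF (merged H L i j) - BB (n - 1) (mm (merged H L i j)) ∈
        QV (n - 1) (((n - 1 : ℕ) : ℚ) + (mm (merged H L i j) : ℚ)) ∧
      mm G + d + cM M i j ≤ mm (merged H L i j) + 6 + aM M i j ∧
      mm (merged H L i j) ≤ 2 * (n - 1) := by
    intro i j hij hadj
    have hn1 : 1 ≤ n := by
      by_contra hcon
      have hn0 : n = 0 := by omega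
      have htop := hasTri_top_of_card H hTH (by omega)
      apply hadj
      rw [htop, SimpleGraph.top_adj]
      exact fun h => hij.ne (hL h)
    have hSm : Sparse (merged H L i j) := by
      have h1 := merged_minor H L hL i j hij
      rw [hLr] at h1
      exact hS.minor (h1.trans (IsMinor.of_iso e))
    have hcm : Fintype.card {x : {x : V // x ≠ v} // x ≠ L i} = n + 2 := by
      have := me_card_ne (L i)
      omega
    have hij' : ¬ (addStar H (L j) (before L i)).Adj (L j) (L i) := by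
      unfold addStar
      rw [SimpleGraph.fromRel_adj]
      rintro ⟨h0, (h | ⟨_, h⟩) | (h | ⟨h, _⟩)⟩
      · exact hadj h.symm
      · obtain ⟨l, hl, hl2⟩ := h
        exact hl.ne (hL hl2)
      · exact hadj h
      · exact hij.ne (hL h)
    have hTm : HasTri (merged H L i j) :=
      HasTri.ident (HasTri.addStar hTH (L j) (before L i)) (L j) (L i)
        (fun h => hij.ne' (hL h)) hij'
    have hCm := merged_connected H hCH L hL i j hij
    have im := ih (n - 1) (by omega) _ (merged H L i j) (by omega) hSm hCm hTm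
    refine ⟨hn1, im, ?_, mm_le (n - 1) _ (by omega) hCm hTm⟩
    have h1 := ne_merged H L hL M hM i j hij hadj
    have h2 := me_mm (merged H L i j) hSm (by omega)
    omega
  -- the difference of the merged terms
  have hmem : ∀ i j : Fin d, i < j → ¬ H.Adj (L i) (L j) → ∀ A : PowerSeries ℚ,
      A ∈ QV (n - 1) (((n - 1 : ℕ) : ℚ) + (mm (merged H L i j) : ℚ)) →
      PowerSeries.X ^ 2 * A ∈ QV (n + 1) (((n + 1 : ℕ) : ℚ) + (mm G : ℚ)) := by
    intro i j hij hadj A hA
    obtain ⟨h1, h2, h3, _⟩ := hmer i j hij hadj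
    have h4 := me_aM_le M i j
    have h5 : i.val + 1 ≤ j.val := hij
    have h6 : j.val < d := j.2
    refine QV_mono (by omega) ?_ (QV_X_pow 2 hA)
    have h7 : mm G ≤ mm (merged H L i j) + 4 := by omega
    have h8 : (mm G : ℚ) ≤ (mm (merged H L i j) : ℚ) + 4 := by exact_mod_cast h7
    have h9 : ((n - 1 : ℕ) : ℚ) = (n : ℚ) - 1 := by
      rw [Nat.cast_sub h1, Nat.cast_one]
    rw [h9]
    push_cast
    linarith
  have hE2 : PowerSeries.X ^ 2 * (∑ j : Fin d, ∑ i : Fin d,
      if i < j ∧ ¬ H.Adj (L i) (L j) then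
        (FF (merged H L i j) - BB (n - 1) (mm (merged H L i j))) else 0) ∈
      QV (n + 1) (((n + 1 : ℕ) : ℚ) + (mm G : ℚ)) := by
    rw [Finset.mul_sum]
    refine sum_mem fun j _ => ?_
    rw [Finset.mul_sum]
    refine sum_mem fun i _ => ?_
    split_ifs with h
    · exact hmem i j h.1 h.2 _ (hmer i j h.1 h.2).2.1
    · rw [mul_zero]; exact zero_mem _
  have hE2' : PowerSeries.X ^ 2 * (∑ j : Fin d, ∑ i : Fin d,
      if i < j ∧ ¬ H.Adj (L i) (L j) then BB (n - 1) (mm (merged H L i j)) else 0) ∈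
      QV (n + 1) (((n + 1 : ℕ) : ℚ) + (mm G : ℚ)) := by
    rw [Finset.mul_sum]
    refine sum_mem fun j _ => ?_
    rw [Finset.mul_sum]
    refine sum_mem fun i _ => ?_
    split_ifs with h
    · exact hmem i j h.1 h.2 _ (QV_BB _ _ (hmer i j h.1 h.2).2.2.2)
    · rw [mul_zero]; exact zero_mem _
  -- the identity
  have hsplit : (∑ j : Fin d, ∑ i : Fin d,
      if i < j ∧ ¬ H.Adj (L i) (L j) then FF (merged H L i j) else 0) =
      (∑ j : Fin d, ∑ i : Fin d,
      if i < j ∧ ¬ H.Adj (L i) (L j) then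
        (FF (merged H L i j) - BB (n - 1) (mm (merged H L i j))) else 0) +
      (∑ j : Fin d, ∑ i : Fin d,
      if i < j ∧ ¬ H.Adj (L i) (L j) then BB (n - 1) (mm (merged H L i j)) else 0) := by
    rw [← Finset.sum_add_distrib]
    refine Finset.sum_congr rfl fun j _ => ?_
    rw [← Finset.sum_add_distrib]
    refine Finset.sum_congr rfl fun i _ => ?_
    split_ifs
    · rw [sub_add_cancel]
    · rw [add_zero]
  rw [hsplit] at hcone
  have hE1 : (1 + PowerSeries.C (4 - (d : ℚ)) * PowerSeries.X) * (FF H - BB n (mm H)) ∈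
      QV (n + 1) (((n + 1 : ℕ) : ℚ) + (mm G : ℚ)) := by
    have hq : (mm H : ℚ) + 3 = (mm G : ℚ) + (d : ℚ) := by exact_mod_cast hmm
    rcases Nat.lt_or_ge 4 d with h | h
    · have hd5 : d = 5 := by omega
      subst hd5
      have h1 : (4 - ((5 : ℕ) : ℚ)) = -1 := by norm_num
      rw [h1]
      refine QV_mono (by omega) ?_ (QV_mul QV_linear_neg iH)
      push_cast at hq ⊢
      linarith
    · have hd4 : (d : ℚ) ≤ 4 := by exact_mod_cast h
      have hd0 : (1 : ℚ) ≤ d := by exact_mod_cast hSpos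
      refine QV_mono (by omega) ?_ (QV_mul (QV_linear (4 - (d : ℚ)) (by linarith) (by linarith)) iH)
      push_cast
      linarith
  -- the remaining claim
  have hfin : ∀ T : PowerSeries ℚ,
      T ∈ QV (n + 1) (((n + 1 : ℕ) : ℚ) + (mm G : ℚ)) →
      T = (1 + PowerSeries.C (4 - (d : ℚ)) * PowerSeries.X) * BB n (mm H) +
        PowerSeries.X ^ 2 * (∑ j : Fin d, ∑ i : Fin d,
      if i < j ∧ ¬ H.Adj (L i) (L j) then BB (n - 1) (mm (merged H L i j)) else 0) -
        BB (n + 1) (mm G) →
      FF G - BB (n + 1) (mm G) ∈ QV (n + 1) (((n + 1 : ℕ) : ℚ) + (mm G : ℚ)) := by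
    intro T hT hTe
    have : FF G - BB (n + 1) (mm G) =
        (1 + PowerSeries.C (4 - (d : ℚ)) * PowerSeries.X) * (FF H - BB n (mm H)) +
        PowerSeries.X ^ 2 * (∑ j : Fin d, ∑ i : Fin d,
          if i < j ∧ ¬ H.Adj (L i) (L j) then
            (FF (merged H L i j) - BB (n - 1) (mm (merged H L i j))) else 0) + T := by
      rw [hTe, hcone]
      ring
    rw [this]
    exact add_mem (add_mem hE1 hE2) hT
  have hnoK : 5 ≤ n + 1 + 3 → ∀ i j k : Fin d, ¬ (H.Adj (L i) (L j) ∧ H.Adj (L j) (L k) ∧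
      H.Adj (L i) (L k)) := by
    rintro h5 i j k ⟨h1, h2, h3⟩
    apply hK
    refine ⟨by omega, v, (L i).1, (L j).1, (L k).1, ?_, ?_, ?_, h1, h3, h2⟩
    · have : L i ∈ S := by rw [← hLr]; exact ⟨i, rfl⟩
      exact this
    · have : L j ∈ S := by rw [← hLr]; exact ⟨j, rfl⟩
      exact this
    · have : L k ∈ S := by rw [← hLr]; exact ⟨k, rfl⟩
      exact this
  have hMsym : ∀ i j, M i j = M j i := by
    intro i j
    simp only [M]
    rw [SimpleGraph.adj_comm]
  have hMirr : ∀ i, M i i = false := by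
    intro i
    rw [hMf]
    exact H.loopless.irrefl _
  have hsumM : ∀ r : Fin d → Fin d → ℕ, (∑ j : Fin d, ∑ i : Fin d,
      if i < j ∧ ¬ H.Adj (L i) (L j) then BB (n - 1) (r i j) else 0) =
      ∑ j : Fin d, ∑ i : Fin d, if i < j ∧ M i j = false then BB (n - 1) (r i j) else 0 := by
    intro r
    refine Finset.sum_congr rfl fun j _ => Finset.sum_congr rfl fun i _ => ?_
    simp only [hMf]
  interval_cases d
  · -- degree 1
    have hm' : mm G = mm H + 2 := by omega
    refine hfin _ ?_ rfl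
    have h1 := slackV_one n (mm H) (by rw [← hm']; exact mm_le (n + 1) G hV hC hT)
    have h2 := add_mem h1 (by rw [hm'] at hE2'; exact hE2')
    rw [hm']
    convert h2 using 1
    ring
  · have hm' : mm G = mm H + 1 := by omega
    refine hfin _ ?_ rfl
    have h1 := slackV_two n (mm H) (by rw [← hm']; exact mm_le (n + 1) G hV hC hT)
    have h2 := add_mem h1 (by rw [hm'] at hE2'; exact hE2')
    rw [hm']
    convert h2 using 1
    ring
  · have hm' : mm G = mm H := by omega
    refine hfin _ ?_ rfl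
    have h1 := slackV_three n (mm H)
    rw [h1, hm', add_sub_cancel_left]
    rw [hm'] at hE2'
    exact hE2'
  · obtain ⟨n', rfl⟩ : ∃ n', n = n' + 1 := ⟨n - 1, by omega⟩
    have hm' : mm H = mm G + 1 := by omega
    refine hfin _ ?_ rfl
    rw [hsumM, hm']
    refine slackV_four n' (mm G) (mm_le (n' + 2) G (by omega) hC hT) M hMsym hMirr ?_
      (fun i j => mm (merged H L i j)) ?_ ?_
    · rintro i j k ⟨h1, h2, h3⟩
      exact hnoK (by omega) i j k ⟨(hM _ _).1 h1, (hM _ _).1 h2, (hM _ _).1 h3⟩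
    · intro i j hij hMij
      exact (hmer i j hij ((hMf i j).1 hMij)).2.2.2
    · intro i j hij hMij
      have h1 := (hmer i j hij ((hMf i j).1 hMij)).2.2.1
      show mm G + cM M i j ≤ mm (merged H L i j) + 2 + aM M i j
      omega
  · obtain ⟨n', rfl⟩ : ∃ n', n = n' + 1 := ⟨n - 1, by omega⟩
    have hm' : mm H = mm G + 2 := by omega
    refine hfin _ ?_ rfl
    rw [hsumM, hm']
    refine slackV_five n' (mm G) (by omega) (mm_le (n' + 2) G (by omega) hC hT) M hMsym hMirr
      ?_ ?_ (fun i j => mm (merged H L i j)) ?_ ?_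
    · rintro i j k ⟨h1, h2, h3⟩
      exact hnoK (by omega) i j k ⟨(hM _ _).1 h1, (hM _ _).1 h2, (hM _ _).1 h3⟩
    · have hSc : Sparse (cone H (Set.range L)) := by
        rw [hLr]
        exact hS.minor (IsMinor.of_iso e)
      have h1 := edges_le_five H L hL hSc (hnoK (by omega))
      refine le_trans (Finset.card_le_card ?_) h1
      intro p hp
      rw [Finset.mem_filter] at hp ⊢
      exact ⟨hp.1, hp.2.1, (hM _ _).1 hp.2.2⟩
    · intro i j hij hMij
      exact (hmer i j hij ((hMf i j).1 hMij)).2.2.2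
    · intro i j hij hMij
      have h1 := (hmer i j hij ((hMf i j).1 hMij)).2.2.1
      show mm G + cM M i j ≤ mm (merged H L i j) + 1 + aM M i j
      omega

end Pool.Agent.Lib.MP_f52c03_co.BL
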