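import Pool.Agent.Lib.MP_f52c03_co.BL.RBasic
import Pool.Agent.Lib.MP_f52c03_co.BL.ConeMinor

set_option autoImplicit false

open Polynomial

namespace Pool.Agent.Lib.MP_f52c03_co.BL

theorem NN.add {P Q : ℚ[X]} (hP : NN P) (hQ : NN Q) : NN (P + Q) := by
  intro i
  rw [add_comp, coeff_add]
  exact add_nonneg (hP i) (hQ i)

theorem NN.mul {P Q : ℚ[X]} (hP : NN P) (hQ : NN Q) : NN (P * Q) := by
  intro i
  rw [mul_comp, coeff_mul]
  exact Finset.sum_nonneg fun x _ => mul_nonneg (hP _) (hQ _)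

theorem NN.pow {P : ℚ[X]} (hP : NN P) (n : ℕ) : NN (P ^ n) := by
  induction n with
  | zero =>
    intro i
    rw [pow_zero, one_comp, coeff_one]
    split_ifs
    · exact zero_le_one
    · exact le_rfl
  | succ n ih =>
    rw [pow_succ]
    exact ih.mul hP

theorem NN_X_sub (c : ℚ) (hc : c ≤ 4) : NN (X - C c) := by
  intro i
  have h : (X - C c : ℚ[X]).comp (X + 4) = X + C (4 - c) := by
    rw [sub_comp, X_comp, C_comp, C_sub]
    have : (C 4 : ℚ[X]) = 4 := rfl
    rw [this]
    ring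
  rw [h, coeff_add, coeff_X, coeff_C]
  split_ifs <;> linarith

theorem NN_zero : NN 0 := by
  intro i
  rw [zero_comp, coeff_zero]

private theorem Star_addStar_empty {V : Type} (H : SimpleGraph V) (u : V) :
    addStar H u ∅ = H := by
  ext x y
  unfold addStar
  rw [SimpleGraph.fromRel_adj]
  constructor
  · rintro ⟨_, (h | h) | (h | h)⟩
    · exact h
    · exact absurd h.2 (Set.notMem_empty _)
    · exact h.symm
    · exact absurd h.2 (Set.notMem_empty _)
  · intro h
    exact ⟨h.ne, Or.inl (Or.inl h)⟩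

private theorem Star_insert_same {V : Type} (H : SimpleGraph V) (u l : V) (T : Set V)
    (h : l = u ∨ (addStar H u T).Adj u l) : addStar H u (insert l T) = addStar H u T := by
  have h' : l ≠ u → H.Adj u l ∨ l ∈ T := by
    intro hlu
    rcases h with h | h
    · exact absurd h hlu
    · unfold addStar at h
      rw [SimpleGraph.fromRel_adj] at h
      rcases h.2 with (h | h) | (h | h)
      · exact Or.inl h
      · exact Or.inr h.2
      · exact Or.inl h.symm
      · exact absurd h.1 hlu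
  ext x y
  unfold addStar
  rw [SimpleGraph.fromRel_adj, SimpleGraph.fromRel_adj]
  constructor
  · rintro ⟨hxy, (h1 | ⟨h1, h2⟩) | (h1 | ⟨h1, h2⟩)⟩
    · exact ⟨hxy, Or.inl (Or.inl h1)⟩
    · rcases h2 with h2 | h2
      · subst h1 h2
        rcases h' (Ne.symm hxy) with h3 | h3
        · exact ⟨hxy, Or.inl (Or.inl h3)⟩
        · exact ⟨hxy, Or.inl (Or.inr ⟨rfl, h3⟩)⟩
      · exact ⟨hxy, Or.inl (Or.inr ⟨h1, h2⟩)⟩
    · exact ⟨hxy, Or.inr (Or.inl h1)⟩
    · rcases h2 with h2 | h2
      · subst h1 h2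
        rcases h' hxy with h3 | h3
        · exact ⟨hxy, Or.inr (Or.inl h3)⟩
        · exact ⟨hxy, Or.inr (Or.inr ⟨rfl, h3⟩)⟩
      · exact ⟨hxy, Or.inr (Or.inr ⟨h1, h2⟩)⟩
  · rintro ⟨hxy, (h1 | ⟨h1, h2⟩) | (h1 | ⟨h1, h2⟩)⟩
    · exact ⟨hxy, Or.inl (Or.inl h1)⟩
    · exact ⟨hxy, Or.inl (Or.inr ⟨h1, Or.inr h2⟩)⟩
    · exact ⟨hxy, Or.inr (Or.inl h1)⟩
    · exact ⟨hxy, Or.inr (Or.inr ⟨h1, Or.inr h2⟩)⟩

private theorem Star_insert_addE {V : Type} (H : SimpleGraph V) (u l : V) (T : Set V) :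
    addStar H u (insert l T) = addE (addStar H u T) u l := by
  ext x y
  unfold addE addStar
  rw [SimpleGraph.fromRel_adj, SimpleGraph.fromRel_adj, SimpleGraph.fromRel_adj,
    SimpleGraph.fromRel_adj]
  constructor
  · rintro ⟨hxy, (h1 | ⟨h1, h2⟩) | (h1 | ⟨h1, h2⟩)⟩
    · exact ⟨hxy, Or.inl (Or.inl ⟨hxy, Or.inl (Or.inl h1)⟩)⟩
    · rcases h2 with h2 | h2
      · exact ⟨hxy, Or.inl (Or.inr ⟨h1, h2⟩)⟩
      · exact ⟨hxy, Or.inl (Or.inl ⟨hxy, Or.inl (Or.inr ⟨h1, h2⟩)⟩)⟩
    · exact ⟨hxy, Or.inl (Or.inl ⟨hxy, Or.inr (Or.inl h1)⟩)⟩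
    · rcases h2 with h2 | h2
      · exact ⟨hxy, Or.inr (Or.inr ⟨h1, h2⟩)⟩
      · exact ⟨hxy, Or.inl (Or.inl ⟨hxy, Or.inr (Or.inr ⟨h1, h2⟩)⟩)⟩
  · rintro ⟨hxy, (⟨_, h⟩ | ⟨h1, h2⟩) | (⟨_, h⟩ | ⟨h1, h2⟩)⟩
    · rcases h with (h | ⟨h1, h2⟩) | (h | ⟨h1, h2⟩)
      · exact ⟨hxy, Or.inl (Or.inl h)⟩
      · exact ⟨hxy, Or.inl (Or.inr ⟨h1, Or.inr h2⟩)⟩
      · exact ⟨hxy, Or.inr (Or.inl h)⟩
      · exact ⟨hxy, Or.inr (Or.inr ⟨h1, Or.inr h2⟩)⟩
    · exact ⟨hxy, Or.inl (Or.inr ⟨h1, Or.inl h2⟩)⟩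
    · rcases h with (h | ⟨h1, h2⟩) | (h | ⟨h1, h2⟩)
      · exact ⟨hxy, Or.inr (Or.inl h)⟩
      · exact ⟨hxy, Or.inr (Or.inr ⟨h1, Or.inr h2⟩)⟩
      · exact ⟨hxy, Or.inl (Or.inl h)⟩
      · exact ⟨hxy, Or.inl (Or.inr ⟨h1, Or.inr h2⟩)⟩
    · exact ⟨hxy, Or.inr (Or.inr ⟨h1, Or.inl h2⟩)⟩

private theorem Star_addE_comm {V : Type} (H : SimpleGraph V) (a b : V) :
    addE H a b = addE H b a := by
  ext x y
  unfold addE
  rw [SimpleGraph.fromRel_adj, SimpleGraph.fromRel_adj]
  constructor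
  · rintro ⟨hxy, (h | ⟨h1, h2⟩) | (h | ⟨h1, h2⟩)⟩
    · exact ⟨hxy, Or.inl (Or.inl h)⟩
    · exact ⟨hxy, Or.inr (Or.inr ⟨h2, h1⟩)⟩
    · exact ⟨hxy, Or.inr (Or.inl h)⟩
    · exact ⟨hxy, Or.inl (Or.inr ⟨h2, h1⟩)⟩
  · rintro ⟨hxy, (h | ⟨h1, h2⟩) | (h | ⟨h1, h2⟩)⟩
    · exact ⟨hxy, Or.inl (Or.inl h)⟩
    · exact ⟨hxy, Or.inr (Or.inr ⟨h2, h1⟩)⟩
    · exact ⟨hxy, Or.inr (Or.inl h)⟩
    · exact ⟨hxy, Or.inl (Or.inr ⟨h2, h1⟩)⟩

private theorem Star_singleton {V : Type} (H : SimpleGraph V) (u l : V) :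
    addStar H u {l} = addE H u l := by
  have h := Star_insert_addE H u l ∅
  rw [Star_addStar_empty, LawfulSingleton.insert_empty_eq] at h
  exact h

private theorem Star_cone_one {V : Type} [Finite V] (H : SimpleGraph V) (h : HasTri H) (b : V) :
    R (cone H {b}) = (X - C 1) * R H := by
  have h1 := R_cone_insert H h ∅ b (Set.notMem_empty _)
  rw [R_cone_empty H h, Star_addStar_empty, LawfulSingleton.insert_empty_eq] at h1
  rw [C_1]
  linear_combination -h1

/-- adding the star of `u` decreases `R` -/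
theorem star_NN {V : Type} [Fintype V] (H : SimpleGraph V) (S : Set V) (hH : HasTri H)
    (hNN : ∀ (W : Type) [Fintype W] (F : SimpleGraph W), IsMinor F (cone H S) → HasTri F →
      Fintype.card W ≤ Fintype.card V → NN (R F)) (u : V) (hu : u ∈ S) (T : Set V) (hT : T ⊆ S) :
    NN (R H - R (addStar H u T)) := by
  classical
  have hfin : T.Finite := Set.toFinite T
  revert hT
  induction T, hfin using Set.Finite.induction_on with
  | empty =>
    intro _
    rw [Star_addStar_empty, sub_self]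
    exact NN_zero
  | @insert l T hl _ ih =>
    intro hT
    have hT' : T ⊆ S := (Set.subset_insert _ _).trans hT
    have hlS : l ∈ S := hT (Set.mem_insert _ _)
    by_cases h : l = u ∨ (addStar H u T).Adj u l
    · rw [Star_insert_same H u l T h]
      exact ih hT'
    · have hul : u ≠ l := fun h' => h (Or.inl h'.symm)
      have hn : ¬ (addStar H u T).Adj u l := fun h' => h (Or.inr h')
      have hTri : HasTri (addStar H u T) := HasTri.addStar hH u T
      rw [Star_insert_addE]
      have h1 := R_addE (addStar H u T) hTri u l hul hn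
      have h2 : NN (R (ident (addStar H u T) u l)) :=
        hNN _ _ (minor_ident_addStar H S T u l hu hlS hul hT') (HasTri.ident hTri u l hul hn)
          (Fintype.card_subtype_le _)
      have h3 : R H - R (addE (addStar H u T) u l)
          = (R H - R (addStar H u T)) + R (ident (addStar H u T) u l) := by
        rw [h1]
        ring
      rw [h3]
      exact (ih hT').add h2

private theorem Star_step {V : Type} [Fintype V] (H : SimpleGraph V) (S : Set V) (hH : HasTri H)
    (hNN : ∀ (W : Type) [Fintype W] (F : SimpleGraph W), IsMinor F (cone H S) → HasTri F →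
      Fintype.card W ≤ Fintype.card V → NN (R F)) (Q : ℚ[X]) (S0 T : Set V) (hS0 : S0 ⊆ S)
    (hT : T ⊆ S) (h : NN (R (cone H S0) - (X - C (S0.ncard : ℚ)) * R H - Q)) :
    NN (R (cone H (S0 ∪ T)) - (X - C ((S0 ∪ T).ncard : ℚ)) * R H - Q) := by
  classical
  have hfin : T.Finite := Set.toFinite T
  revert hT
  induction T, hfin using Set.Finite.induction_on with
  | empty =>
    intro _
    rw [Set.union_empty]
    exact h
  | @insert u T _ _ ih =>
    intro hT
    have hT' : T ⊆ S := (Set.subset_insert _ _).trans hT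
    have huS : u ∈ S := hT (Set.mem_insert _ _)
    by_cases hu : u ∈ S0 ∪ T
    · have : S0 ∪ insert u T = S0 ∪ T := by
        rw [Set.union_insert, Set.insert_eq_of_mem hu]
      rw [this]
      exact ih hT'
    · rw [Set.union_insert, Set.ncard_insert_of_notMem hu (Set.toFinite _)]
      have h1 := R_cone_insert H hH (S0 ∪ T) u hu
      have h2 := star_NN H S hH hNN u huS (S0 ∪ T) (Set.union_subset hS0 hT')
      have h3 : R (cone H (insert u (S0 ∪ T))) - (X - C (((S0 ∪ T).ncard + 1 : ℕ) : ℚ)) * R H - Q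
          = (R (cone H (S0 ∪ T)) - (X - C ((S0 ∪ T).ncard : ℚ)) * R H - Q)
            + (R H - R (addStar H u (S0 ∪ T))) := by
        rw [h1]
        push_cast
        rw [C_add, C_1]
        ring
      rw [h3]
      exact (ih hT').add h2

theorem cone_lower {V : Type} [Fintype V] (H : SimpleGraph V) (S : Set V) (hH : HasTri H)
    (hNN : ∀ (W : Type) [Fintype W] (F : SimpleGraph W), IsMinor F (cone H S) → HasTri F →
      Fintype.card W ≤ Fintype.card V → NN (R F)) :
    NN (R (cone H S) - (X - C (S.ncard : ℚ)) * R H) := by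
  have h := Star_step H S hH hNN 0 ∅ S (Set.empty_subset _) subset_rfl (by
    rw [R_cone_empty H hH, Set.ncard_empty, Nat.cast_zero, C_0, sub_zero, sub_zero, sub_self]
    exact NN_zero)
  rwa [Set.empty_union, sub_zero] at h

theorem cone_lower_pair {V : Type} [Fintype V] (H : SimpleGraph V) (S : Set V) (hH : HasTri H)
    (hNN : ∀ (W : Type) [Fintype W] (F : SimpleGraph W), IsMinor F (cone H S) → HasTri F →
      Fintype.card W ≤ Fintype.card V → NN (R F)) (b d : V) (hb : b ∈ S) (hd : d ∈ S)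
    (hbd : b ≠ d) (hn : ¬ H.Adj b d) :
    NN (R (cone H S) - (X - C (S.ncard : ℚ)) * R H - R (ident H b d)) := by
  have hbS : ({d, b} : Set V) ⊆ S := by
    rintro x (rfl | rfl)
    · exact hd
    · exact hb
  have hdb : d ∉ ({b} : Set V) := fun h => hbd (Set.mem_singleton_iff.1 h).symm
  have h := Star_step H S hH hNN (R (ident H b d)) {d, b} S hbS subset_rfl (by
    have h1 := R_cone_insert H hH {b} d hdb
    rw [Star_cone_one H hH, Star_singleton, Star_addE_comm] at h1
    have h2 := R_addE H hH b d hbd hn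
    have h3 : (({d, b} : Set V).ncard : ℚ) = 2 := by
      rw [Set.ncard_pair (Ne.symm hbd)]
      norm_num
    have h4 : R (cone H {d, b}) - (X - C (({d, b} : Set V).ncard : ℚ)) * R H - R (ident H b d)
        = 0 := by
      rw [h3]
      have h5 : (C 2 : ℚ[X]) = C 1 + C 1 := by
        rw [← C_add]
        norm_num
      rw [h5]
      rw [C_1] at h1 ⊢
      linear_combination -h1 + h2
    rw [h4]
    exact NN_zero)
  rwa [Set.union_eq_self_of_subset_left hbS] at h

theorem cone_upper {V : Type} [Fintype V] (H : SimpleGraph V) (S : Set V) (hH : HasTri H)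
    (hNN : ∀ (W : Type) [Fintype W] (F : SimpleGraph W), IsMinor F (cone H S) → HasTri F →
      Fintype.card W ≤ Fintype.card V → NN (R F)) (p q : V) (hp : p ∈ S) (hq : q ∈ S)
    (hpq : H.Adj p q) :
    NN ((X - C 2) * R H - R (cone H S)) := by
  classical
  have hqp : q ∉ ({p} : Set V) := fun h => hpq.ne (Set.mem_singleton_iff.1 h).symm
  have hpqS : ({q, p} : Set V) ⊆ S := by
    rintro x (rfl | rfl)
    · exact hq
    · exact hp
  have key : ∀ T : Set V, T.Finite → T ⊆ S →
      NN ((X - C 2) * R H - R (cone H ({q, p} ∪ T))) := by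
    intro T hfin
    induction T, hfin using Set.Finite.induction_on with
    | empty =>
      intro _
      have h1 := R_cone_insert H hH {p} q hqp
      have h0 : addStar H q {p} = H := by
        have h := Star_insert_same H q p ∅ (Or.inr (by
          rw [Star_addStar_empty]
          exact hpq.symm))
        rw [LawfulSingleton.insert_empty_eq, Star_addStar_empty] at h
        exact h
      rw [Star_cone_one H hH, h0] at h1
      have h2 : (X - C 2) * R H - R (cone H ({q, p} ∪ ∅)) = 0 := by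
        rw [Set.union_empty]
        have h5 : (C 2 : ℚ[X]) = C 1 + C 1 := by
          rw [← C_add]
          norm_num
        rw [h5]
        rw [C_1] at h1 ⊢
        linear_combination h1
      rw [h2]
      exact NN_zero
    | @insert u T _ _ ih =>
      intro hT
      have hT' : T ⊆ S := (Set.subset_insert _ _).trans hT
      have huS : u ∈ S := hT (Set.mem_insert _ _)
      by_cases hu : u ∈ ({q, p} ∪ T : Set V)
      · have : ({q, p} ∪ insert u T : Set V) = {q, p} ∪ T := by
          rw [Set.union_insert, Set.insert_eq_of_mem hu]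
        rw [this]
        exact ih hT'
      · rw [Set.union_insert]
        have h1 := R_cone_insert H hH ({q, p} ∪ T) u hu
        have h2 : NN (R (addStar H u ({q, p} ∪ T))) :=
          hNN V _ (minor_addStar H S _ u huS (Set.union_subset hpqS hT'))
            (HasTri.addStar hH u _) le_rfl
        have h3 : (X - C 2) * R H - R (cone H (insert u ({q, p} ∪ T)))
            = ((X - C 2) * R H - R (cone H ({q, p} ∪ T))) + R (addStar H u ({q, p} ∪ T)) := by
          rw [h1]
          ring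
        rw [h3]
        exact (ih hT').add h2
  have h := key S (Set.toFinite _) subset_rfl
  rwa [Set.union_eq_self_of_subset_left hpqS] at h

end Pool.Agent.Lib.MP_f52c03_co.BL
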