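import Pool.Agent.Lib.MP_f52c03_co.BL.Defs3

set_option autoImplicit false

namespace Pool.Agent.Lib.MP_f52c03_co.BL

private theorem mem_of_termV {N : ℕ} {y : ℚ} {A : PowerSeries ℚ} (h : TermV N y A) :
    A ∈ QV N y :=
  AddSubmonoid.subset_closure h

private theorem TermV_mono {N N' : ℕ} {y y' : ℚ} (hN : N ≤ N') (hy : y' ≤ y) {A : PowerSeries ℚ}
    (h : TermV N y A) : TermV N' y' A := by
  obtain ⟨i, C, l, h1, h2, h3, h4, h5, h6⟩ := h
  have h7 : (N : ℚ) ≤ N' := by exact_mod_cast hN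
  refine ⟨i, C, l, h1, h2, h3, by linarith, fun j hj => le_trans ?_ (h5 j hj),
    fun j hj => le_trans ?_ (h6 j hj)⟩
  · have h8 : (0 : ℚ) ≤ 4 ^ j := by positivity
    have h9 : (4 : ℚ) ^ j * (1 / 2 * PowerSeries.coeff 0 l + 3 / 4 * (N : ℚ) + 10 * (i : ℚ)) ≤
        4 ^ j * (1 / 2 * PowerSeries.coeff 0 l + 3 / 4 * (N' : ℚ) + 10 * (i : ℚ)) :=
      mul_le_mul_of_nonneg_left (by linarith) h8
    linarith
  · have h8 : (0 : ℚ) ≤ 16 ^ j := by positivity
    have h9 : (16 : ℚ) ^ j * ((N : ℚ) / 16 + 10 * (i : ℚ)) ≤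
        16 ^ j * ((N' : ℚ) / 16 + 10 * (i : ℚ)) :=
      mul_le_mul_of_nonneg_left (by linarith) h8
    linarith

theorem QV_mono {N N' : ℕ} {y y' : ℚ} (hN : N ≤ N') (hy : y' ≤ y) {A : PowerSeries ℚ}
    (h : A ∈ QV N y) : A ∈ QV N' y' :=
  AddSubmonoid.closure_mono (fun _ hB => TermV_mono hN hy hB) h

private theorem TermV_mul {N N' : ℕ} {y y' : ℚ} {A B : PowerSeries ℚ} (hA : TermV N y A)
    (hB : TermV N' y' B) : TermV (N + N') (y + y') (A * B) := by
  obtain ⟨i, C, l, h1, h2, h3, h4, h5, h6⟩ := hA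
  obtain ⟨i', C', l', h1', h2', h3', h4', h5', h6'⟩ := hB
  refine ⟨i + i', C * C', l + l', ?_, ?_, ?_, ?_, fun j hj => ?_, fun j hj => ?_⟩
  · rw [h1, h1', pow_add]
    ring
  · rw [map_mul]
    exact mul_pos h2 h2'
  · rw [Derivation.leibniz, smul_eq_mul, smul_eq_mul, h3, h3']
    ring
  · rw [map_add]
    push_cast
    linarith
  · rw [map_add, map_add]
    have e : -((4 : ℚ) ^ j * (1 / 2 * (PowerSeries.coeff 0 l + PowerSeries.coeff 0 l') +
        3 / 4 * ((N + N' : ℕ) : ℚ) + 10 * ((i + i' : ℕ) : ℚ))) =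
        -(4 ^ j * (1 / 2 * PowerSeries.coeff 0 l + 3 / 4 * (N : ℚ) + 10 * (i : ℚ))) +
        -(4 ^ j * (1 / 2 * PowerSeries.coeff 0 l' + 3 / 4 * (N' : ℚ) + 10 * (i' : ℚ))) := by
      push_cast
      ring
    rw [e]
    exact add_le_add (h5 j hj) (h5' j hj)
  · rw [map_add]
    have e : -((16 : ℚ) ^ j * (((N + N' : ℕ) : ℚ) / 16 + 10 * ((i + i' : ℕ) : ℚ))) =
        -(16 ^ j * ((N : ℚ) / 16 + 10 * (i : ℚ))) +
        -(16 ^ j * ((N' : ℚ) / 16 + 10 * (i' : ℚ))) := by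
      push_cast
      ring
    rw [e]
    exact add_le_add (h6 j hj) (h6' j hj)

theorem QV_mul {N N' : ℕ} {y y' : ℚ} {A B : PowerSeries ℚ} (hA : A ∈ QV N y)
    (hB : B ∈ QV N' y') : A * B ∈ QV (N + N') (y + y') := by
  refine AddSubmonoid.closure_induction (motive := fun A _ => A * B ∈ QV (N + N') (y + y'))
    ?_ ?_ ?_ hA
  · intro A hA'
    refine AddSubmonoid.closure_induction (motive := fun B _ => A * B ∈ QV (N + N') (y + y'))
      ?_ ?_ ?_ hB
    · intro B hB'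
      exact mem_of_termV (TermV_mul hA' hB')
    · rw [mul_zero]
      exact AddSubmonoid.zero_mem _
    · intro B B' _ _ h h'
      rw [mul_add]
      exact AddSubmonoid.add_mem _ h h'
  · rw [zero_mul]
    exact AddSubmonoid.zero_mem _
  · intro A A' _ _ h h'
    rw [add_mul]
    exact AddSubmonoid.add_mem _ h h'

theorem QV_X_pow {N : ℕ} {y : ℚ} (i : ℕ) {A : PowerSeries ℚ} (hA : A ∈ QV N y) :
    PowerSeries.X ^ i * A ∈ QV N (y + 15 / 2 * (i : ℚ)) := by
  refine AddSubmonoid.closure_induction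
    (motive := fun A _ => PowerSeries.X ^ i * A ∈ QV N (y + 15 / 2 * (i : ℚ))) ?_ ?_ ?_ hA
  · rintro A ⟨k, C, l, h1, h2, h3, h4, h5, h6⟩
    have hi : (0 : ℚ) ≤ i := by positivity
    refine mem_of_termV ⟨i + k, C, l, ?_, h2, h3, ?_, fun j hj => le_trans ?_ (h5 j hj),
      fun j hj => le_trans ?_ (h6 j hj)⟩
    · rw [h1, pow_add]
      ring
    · push_cast
      linarith
    · have h8 : (0 : ℚ) ≤ 4 ^ j := by positivity
      have h9 : (4 : ℚ) ^ j * (1 / 2 * PowerSeries.coeff 0 l + 3 / 4 * (N : ℚ) + 10 * (k : ℚ)) ≤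
          4 ^ j * (1 / 2 * PowerSeries.coeff 0 l + 3 / 4 * (N : ℚ) + 10 * ((i + k : ℕ) : ℚ)) := by
        push_cast
        exact mul_le_mul_of_nonneg_left (by linarith) h8
      linarith
    · have h8 : (0 : ℚ) ≤ 16 ^ j := by positivity
      have h9 : (16 : ℚ) ^ j * ((N : ℚ) / 16 + 10 * (k : ℚ)) ≤
          16 ^ j * ((N : ℚ) / 16 + 10 * ((i + k : ℕ) : ℚ)) := by
        push_cast
        exact mul_le_mul_of_nonneg_left (by linarith) h8
      linarith
  · rw [mul_zero]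
    exact AddSubmonoid.zero_mem _
  · intro A A' _ _ h h'
    rw [mul_add]
    exact AddSubmonoid.add_mem _ h h'

theorem QV_smul {N : ℕ} {y : ℚ} (c : ℚ) (hc : 0 ≤ c) {A : PowerSeries ℚ} (hA : A ∈ QV N y) :
    PowerSeries.C c * A ∈ QV N y := by
  rcases hc.eq_or_lt with rfl | hc'
  · rw [map_zero, zero_mul]
    exact AddSubmonoid.zero_mem _
  refine AddSubmonoid.closure_induction (motive := fun A _ => PowerSeries.C c * A ∈ QV N y)
    ?_ ?_ ?_ hA
  · rintro A ⟨k, C, l, h1, h2, h3, h4, h5, h6⟩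
    refine mem_of_termV ⟨k, PowerSeries.C c * C, l, ?_, ?_, ?_, h4, h5, h6⟩
    · rw [h1]
      ring
    · rw [map_mul, PowerSeries.constantCoeff_C]
      exact mul_pos hc' h2
    · rw [Derivation.leibniz, smul_eq_mul, smul_eq_mul, h3, PowerSeries.derivative_C]
      ring
  · rw [mul_zero]
    exact AddSubmonoid.zero_mem _
  · intro A A' _ _ h h'
    rw [mul_add]
    exact AddSubmonoid.add_mem _ h h'

theorem QV_one : (1 : PowerSeries ℚ) ∈ QV 0 0 := by
  refine mem_of_termV ⟨0, 1, 0, by simp, by simp, by simp, by simp, fun j _ => by simp,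
    fun j _ => by simp⟩

/-- the logarithmic derivative of `1 + p w` -/
private noncomputable def ldV (p : ℚ) : PowerSeries ℚ := PowerSeries.mk fun j => p * (-p) ^ j

private theorem ldV_coeff (p : ℚ) (j : ℕ) : PowerSeries.coeff j (ldV p) = p * (-p) ^ j := by
  rw [ldV, PowerSeries.coeff_mk]

private theorem ldV_mul (p : ℚ) :
    ldV p * (1 + PowerSeries.C p * PowerSeries.X) = PowerSeries.C p := by
  ext j
  rw [mul_add, mul_one, map_add]
  have e : ldV p * (PowerSeries.C p * PowerSeries.X) =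
      PowerSeries.C p * (ldV p * PowerSeries.X) := by
    ring
  rw [e, PowerSeries.coeff_C_mul, ldV_coeff]
  rcases j with _ | j
  · rw [PowerSeries.coeff_zero_mul_X]
    simp
  · rw [PowerSeries.coeff_succ_mul_X, ldV_coeff, PowerSeries.coeff_C,
      if_neg (Nat.succ_ne_zero j), pow_succ]
    ring

private theorem derivV_lin (p : ℚ) :
    PowerSeries.derivative ℚ (1 + PowerSeries.C p * PowerSeries.X) =
      ldV p * (1 + PowerSeries.C p * PowerSeries.X) := by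
  rw [ldV_mul, map_add, Derivation.leibniz, PowerSeries.derivative_C, smul_zero, add_zero,
    smul_eq_mul]
  simp

/-- the factors `1 + p w`, `0 ≤ p ≤ 3` -/
theorem QV_linear (p : ℚ) (h0 : 0 ≤ p) (h3 : p ≤ 3) :
    (1 + PowerSeries.C p * PowerSeries.X : PowerSeries ℚ) ∈ QV 1 p := by
  refine mem_of_termV ⟨0, 1 + PowerSeries.C p * PowerSeries.X, ldV p, by simp, by simp,
    derivV_lin p, ?_, fun j hj => ?_, fun j _ => ?_⟩
  · rw [ldV_coeff]
    simp
  · rw [ldV_coeff, ldV_coeff]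
    rcases Nat.even_or_odd j with he | ho
    · rw [he.neg_pow]
      have h5 : (0 : ℚ) ≤ 4 ^ j * (1 / 2 * (p * (-p) ^ 0) + 3 / 4 * ((1 : ℕ) : ℚ) +
          10 * ((0 : ℕ) : ℚ)) := by
        rw [pow_zero]
        positivity
      have h6 : 0 ≤ p * p ^ j := by positivity
      linarith
    · obtain ⟨k, rfl⟩ : ∃ k, j = k + 1 := ⟨j - 1, by omega⟩
      rw [ho.neg_pow]
      have h5 : p ^ k ≤ 4 ^ k := pow_le_pow_left₀ h0 (by linarith) k
      have h6 : p * p ≤ 2 * p + 3 := by nlinarith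
      have h7 : p * p * p ^ k ≤ (2 * p + 3) * 4 ^ k :=
        mul_le_mul h6 h5 (by positivity) (by linarith)
      have e1 : p * -p ^ (k + 1) = -(p * p * p ^ k) := by ring
      have e2 : (4 : ℚ) ^ (k + 1) * (1 / 2 * (p * (-p) ^ 0) + 3 / 4 * ((1 : ℕ) : ℚ) +
          10 * ((0 : ℕ) : ℚ)) = (2 * p + 3) * 4 ^ k := by
        push_cast
        ring
      rw [e1, e2]
      linarith
  · rw [ldV_coeff, (even_two_mul j).neg_pow]
    have h5 : (0 : ℚ) ≤ 16 ^ j * (((1 : ℕ) : ℚ) / 16 + 10 * ((0 : ℕ) : ℚ)) := by positivity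
    have h6 : 0 ≤ p * p ^ (2 * j) := by positivity
    linarith

theorem QV_linear_neg : (1 + PowerSeries.C (-1) * PowerSeries.X : PowerSeries ℚ) ∈ QV 1 (-1) := by
  refine mem_of_termV ⟨0, 1 + PowerSeries.C (-1) * PowerSeries.X, ldV (-1), by simp, by simp,
    derivV_lin (-1), ?_, fun j hj => ?_, fun j hj => ?_⟩
  · rw [ldV_coeff]
    simp
  · rw [ldV_coeff, ldV_coeff]
    obtain ⟨k, rfl⟩ : ∃ k, j = k + 1 := ⟨j - 1, by omega⟩
    have h5 : (1 : ℚ) ≤ 4 ^ k := one_le_pow₀ (by norm_num)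
    have e1 : (-1 : ℚ) * (- -1) ^ (k + 1) = -1 := by
      rw [neg_neg, one_pow]
      norm_num
    have e2 : (4 : ℚ) ^ (k + 1) * (1 / 2 * ((-1) * (- -1) ^ 0) + 3 / 4 * ((1 : ℕ) : ℚ) +
          10 * ((0 : ℕ) : ℚ)) = 4 ^ k := by
      push_cast
      ring
    rw [e1, e2]
    linarith
  · rw [ldV_coeff]
    obtain ⟨k, rfl⟩ : ∃ k, j = k + 1 := ⟨j - 1, by omega⟩
    have h5 : (1 : ℚ) ≤ 16 ^ k := one_le_pow₀ (by norm_num)
    have e1 : (-1 : ℚ) * (- -1) ^ (2 * (k + 1)) = -1 := by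
      rw [neg_neg, one_pow]
      norm_num
    have e2 : (16 : ℚ) ^ (k + 1) * (((1 : ℕ) : ℚ) / 16 + 10 * ((0 : ℕ) : ℚ)) = 16 ^ k := by
      push_cast
      ring
    rw [e1, e2]
    linarith

private theorem rhoV_mul : rho * (1 + PowerSeries.C (3 / 2) * PowerSeries.X) =
    1 + PowerSeries.C (5 / 2) * PowerSeries.X := by
  have h2 : (2 : PowerSeries ℚ) = PowerSeries.C 2 := by
    rw [map_ofNat]
  have h3 : (3 : PowerSeries ℚ) = PowerSeries.C 3 := by
    rw [map_ofNat]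
  have h5 : (5 : PowerSeries ℚ) = PowerSeries.C 5 := by
    rw [map_ofNat]
  have hc : PowerSeries.constantCoeff (2 + 3 * PowerSeries.X : PowerSeries ℚ) ≠ 0 := by
    rw [h2, h3]
    simp
  have h1 : rho * (2 + 3 * PowerSeries.X) = 2 + 5 * PowerSeries.X := by
    rw [rho, mul_assoc, PowerSeries.inv_mul_cancel _ hc, mul_one]
  have e1 : (1 + PowerSeries.C (3 / 2) * PowerSeries.X : PowerSeries ℚ) =
      PowerSeries.C (1 / 2) * (2 + 3 * PowerSeries.X) := by
    rw [h2, h3, mul_add, ← mul_assoc, ← map_mul, ← map_mul]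
    norm_num
  have e2 : (1 + PowerSeries.C (5 / 2) * PowerSeries.X : PowerSeries ℚ) =
      PowerSeries.C (1 / 2) * (2 + 5 * PowerSeries.X) := by
    rw [h2, h5, mul_add, ← mul_assoc, ← map_mul, ← map_mul]
    norm_num
  rw [e1, e2, ← h1]
  ring

private theorem linV_ne (p : ℚ) : (1 + PowerSeries.C p * PowerSeries.X : PowerSeries ℚ) ≠ 0 := by
  intro h
  have := congrArg PowerSeries.constantCoeff h
  simp at this

private theorem rhoV_const : PowerSeries.constantCoeff rho = 1 := by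
  have := congrArg PowerSeries.constantCoeff rhoV_mul
  simpa using this

private theorem rhoV_deriv : PowerSeries.derivative ℚ rho = (ldV (5 / 2) - ldV (3 / 2)) * rho := by
  have h1 := congrArg (PowerSeries.derivative ℚ) rhoV_mul
  rw [Derivation.leibniz, smul_eq_mul, smul_eq_mul, derivV_lin, derivV_lin, ← rhoV_mul] at h1
  apply mul_right_cancel₀ (linV_ne (3 / 2))
  linear_combination h1

private theorem pow_derivV {A l : PowerSeries ℚ} (h : PowerSeries.derivative ℚ A = l * A)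
    (n : ℕ) : PowerSeries.derivative ℚ (A ^ n) = PowerSeries.C (n : ℚ) * l * A ^ n := by
  induction n with
  | zero =>
    rw [pow_zero, Derivation.map_one_eq_zero]
    simp
  | succ n ih =>
    rw [pow_succ, Derivation.leibniz, smul_eq_mul, smul_eq_mul, ih, h]
    have e : (PowerSeries.C ((n + 1 : ℕ) : ℚ) : PowerSeries ℚ) = PowerSeries.C (n : ℚ) + 1 := by
      push_cast
      rw [map_add, map_one]
    rw [e]
    ring

/-- the logarithmic derivative of `BB n m` -/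
private noncomputable def lbV (n m : ℕ) : PowerSeries ℚ :=
  PowerSeries.C (n : ℚ) * ldV 1 + PowerSeries.C (m : ℚ) * (ldV (5 / 2) - ldV (3 / 2))

private theorem BB_deriv (n m : ℕ) : PowerSeries.derivative ℚ (BB n m) = lbV n m * BB n m := by
  have h1 : PowerSeries.derivative ℚ (1 + PowerSeries.X : PowerSeries ℚ) =
      ldV 1 * (1 + PowerSeries.X) := by
    have := derivV_lin 1
    rw [map_one, one_mul] at this
    exact this
  rw [BB, Derivation.leibniz, smul_eq_mul, smul_eq_mul, pow_derivV h1, pow_derivV rhoV_deriv, lbV]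
  ring

private theorem BB_const (n m : ℕ) : PowerSeries.constantCoeff (BB n m) = 1 := by
  rw [BB, map_mul, map_pow, map_pow, rhoV_const]
  simp

private theorem lbV_coeff (n m j : ℕ) : PowerSeries.coeff j (lbV n m) =
    (-1) ^ j * ((n : ℚ) + m * ((5 / 2) ^ (j + 1) - (3 / 2) ^ (j + 1))) := by
  rw [lbV, map_add, PowerSeries.coeff_C_mul, PowerSeries.coeff_C_mul, map_sub, ldV_coeff,
    ldV_coeff, ldV_coeff, neg_pow (5 / 2 : ℚ), neg_pow (3 / 2 : ℚ), pow_succ, pow_succ]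
  ring

private theorem lbV_coeff_zero (n m : ℕ) :
    PowerSeries.coeff 0 (lbV n m) = (n : ℚ) + m := by
  rw [lbV_coeff]
  norm_num

private theorem rho_nonneg (j : ℕ) : (0 : ℚ) ≤ (5 / 2) ^ (j + 1) - (3 / 2) ^ (j + 1) := by
  have h1 : (3 / 2 : ℚ) ^ (j + 1) ≤ (5 / 2) ^ (j + 1) :=
    pow_le_pow_left₀ (by norm_num) (by norm_num) _
  linarith

private theorem lbV_even (n m j : ℕ) (hj : Even j) : 0 ≤ PowerSeries.coeff j (lbV n m) := by
  rw [lbV_coeff, hj.neg_one_pow, one_mul]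
  have := rho_nonneg j
  positivity

private theorem lbV_odd (n m j : ℕ) (hm : m ≤ 2 * n) (hj : Odd j) :
    -(4 ^ j * (1 / 2 * ((n : ℚ) + m) + 3 / 4 * (n : ℚ))) ≤ PowerSeries.coeff j (lbV n m) := by
  rw [lbV_coeff, hj.neg_one_pow]
  have hm' : (m : ℚ) ≤ 2 * n := by exact_mod_cast hm
  have hn0 : (0 : ℚ) ≤ n := by positivity
  have hm0 : (0 : ℚ) ≤ m := by positivity
  obtain ⟨k, rfl⟩ := hj
  rcases Nat.lt_or_ge k 2 with hk | hk
  · interval_cases k
    · norm_num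
      linarith
    · norm_num
      linarith
  · obtain ⟨t, rfl⟩ : ∃ t, k = t + 2 := ⟨k - 2, by omega⟩
    have h1 : (5 / 2 : ℚ) ^ (2 * (t + 2) + 1 + 1) ≤ 4 ^ (2 * (t + 2) + 1) / 2 := by
      have h2 : (5 / 2 : ℚ) ^ (2 * t) ≤ 4 ^ (2 * t) :=
        pow_le_pow_left₀ (by norm_num) (by norm_num) _
      have e1 : (5 / 2 : ℚ) ^ (2 * (t + 2) + 1 + 1) = 15625 / 64 * (5 / 2) ^ (2 * t) := by ring
      have e2 : (4 : ℚ) ^ (2 * (t + 2) + 1) = 1024 * 4 ^ (2 * t) := by ring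
      rw [e1, e2]
      have : (0 : ℚ) ≤ 4 ^ (2 * t) := by positivity
      linarith
    have h3 : (0 : ℚ) ≤ (3 / 2) ^ (2 * (t + 2) + 1 + 1) := by positivity
    have h4 : (m : ℚ) * ((5 / 2) ^ (2 * (t + 2) + 1 + 1) - (3 / 2) ^ (2 * (t + 2) + 1 + 1)) ≤
        m * (4 ^ (2 * (t + 2) + 1) / 2) :=
      mul_le_mul_of_nonneg_left (by linarith) hm0
    have h5 : (1 : ℚ) ≤ 4 ^ (2 * (t + 2) + 1) := one_le_pow₀ (by norm_num)
    have h6 : (n : ℚ) * 1 ≤ n * 4 ^ (2 * (t + 2) + 1) := mul_le_mul_of_nonneg_left h5 hn0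
    nlinarith

private theorem lbV_bound (n m j : ℕ) (hm : m ≤ 2 * n) :
    -(4 ^ j * (1 / 2 * ((n : ℚ) + m) + 3 / 4 * (n : ℚ))) ≤ PowerSeries.coeff j (lbV n m) := by
  rcases Nat.even_or_odd j with he | ho
  · have h1 := lbV_even n m j he
    have h2 : (0 : ℚ) ≤ 4 ^ j * (1 / 2 * ((n : ℚ) + m) + 3 / 4 * (n : ℚ)) := by positivity
    linarith
  · exact lbV_odd n m j hm ho

theorem QV_BB (n m : ℕ) (hm : m ≤ 2 * n) : BB n m ∈ QV n ((n : ℚ) + m) := by
  refine mem_of_termV ⟨0, BB n m, lbV n m, by simp, by rw [BB_const]; norm_num, BB_deriv n m, ?_,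
    fun j hj => ?_, fun j _ => ?_⟩
  · rw [lbV_coeff_zero]
    simp
  · rw [lbV_coeff_zero]
    have h1 := lbV_bound n m j hm
    have e : (4 : ℚ) ^ j * (1 / 2 * ((n : ℚ) + m) + 3 / 4 * (n : ℚ) + 10 * ((0 : ℕ) : ℚ)) =
        4 ^ j * (1 / 2 * ((n : ℚ) + m) + 3 / 4 * (n : ℚ)) := by
      push_cast
      ring
    rw [e]
    exact h1
  · have h1 := lbV_even n m (2 * j) (even_two_mul j)
    have h2 : (0 : ℚ) ≤ 16 ^ j * ((n : ℚ) / 16 + 10 * ((0 : ℕ) : ℚ)) := by positivity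
    linarith

private theorem QV_sub_aux (n r : ℕ) (hr : r ≤ 2 * n) :
    BB n r * (PowerSeries.X ^ 1 *
      (1 + PowerSeries.C (3 / 2) * PowerSeries.X : PowerSeries ℚ)⁻¹) ∈ QV n (n : ℚ) := by
  have hc : PowerSeries.constantCoeff
      (1 + PowerSeries.C (3 / 2) * PowerSeries.X : PowerSeries ℚ) ≠ 0 := by
    simp
  have hV := PowerSeries.inv_mul_cancel
    (1 + PowerSeries.C (3 / 2) * PowerSeries.X : PowerSeries ℚ) hc
  have hd : PowerSeries.derivative ℚ
      (1 + PowerSeries.C (3 / 2) * PowerSeries.X : PowerSeries ℚ)⁻¹ =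
      -ldV (3 / 2) * (1 + PowerSeries.C (3 / 2) * PowerSeries.X : PowerSeries ℚ)⁻¹ := by
    have h1 := congrArg (PowerSeries.derivative ℚ) hV
    rw [Derivation.leibniz, smul_eq_mul, smul_eq_mul, derivV_lin, Derivation.map_one_eq_zero] at h1
    apply mul_right_cancel₀ (linV_ne (3 / 2))
    linear_combination h1
  refine mem_of_termV ⟨1, BB n r *
    (1 + PowerSeries.C (3 / 2) * PowerSeries.X : PowerSeries ℚ)⁻¹, lbV n r + -ldV (3 / 2), ?_, ?_,
    ?_, ?_, fun j hj => ?_, fun j hj => ?_⟩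
  · ring
  · rw [map_mul, BB_const, PowerSeries.constantCoeff_inv]
    simp
  · rw [Derivation.leibniz, smul_eq_mul, smul_eq_mul, BB_deriv, hd]
    ring
  · rw [map_add, lbV_coeff_zero, map_neg, ldV_coeff]
    have : (0 : ℚ) ≤ r := by positivity
    norm_num
    linarith
  · rw [map_add, map_add, lbV_coeff_zero, map_neg, map_neg, ldV_coeff, ldV_coeff]
    have h1 := lbV_bound n r j hr
    have h2 : (3 / 2 : ℚ) * (-(3 / 2)) ^ j ≤ 2 * 4 ^ j := by
      have h3 : (-(3 / 2) : ℚ) ^ j ≤ (3 / 2) ^ j := by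
        have h4 := neg_abs_le ((-(3 / 2) : ℚ) ^ j)
        have h5 := le_abs_self ((-(3 / 2) : ℚ) ^ j)
        rw [abs_pow, abs_neg, abs_of_pos (by norm_num : (0 : ℚ) < 3 / 2)] at h5
        exact h5
      have h4 : (3 / 2 : ℚ) ^ j ≤ 4 ^ j := pow_le_pow_left₀ (by norm_num) (by norm_num) _
      have h5 : (0 : ℚ) ≤ 4 ^ j := by positivity
      nlinarith
    have e : (4 : ℚ) ^ j * (1 / 2 * ((n : ℚ) + r + -(3 / 2 * (-(3 / 2)) ^ 0)) +
        3 / 4 * (n : ℚ) + 10 * ((1 : ℕ) : ℚ)) =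
        4 ^ j * (1 / 2 * ((n : ℚ) + r) + 3 / 4 * (n : ℚ)) + 37 / 4 * 4 ^ j := by
      push_cast
      ring
    rw [e]
    have h5 : (0 : ℚ) ≤ 4 ^ j := by positivity
    linarith
  · rw [map_add, map_neg, ldV_coeff, (even_two_mul j).neg_pow]
    have h1 := lbV_even n r (2 * j) (even_two_mul j)
    have h2 : (3 / 2 : ℚ) ^ (2 * j) ≤ 16 ^ j := by
      rw [pow_mul]
      exact pow_le_pow_left₀ (by norm_num) (by norm_num) _
    have h3 : (0 : ℚ) ≤ 16 ^ j := by positivity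
    have h4 : (0 : ℚ) ≤ 16 ^ j * ((n : ℚ) / 16) := by positivity
    have e : (16 : ℚ) ^ j * ((n : ℚ) / 16 + 10 * ((1 : ℕ) : ℚ)) =
        16 ^ j * ((n : ℚ) / 16) + 10 * 16 ^ j := by
      push_cast
      ring
    rw [e]
    linarith

/-- `(1 + w) ^ n * rho ^ m - (1 + w) ^ n` -/
theorem QV_BB_sub (n m : ℕ) (hm : m ≤ 2 * n) :
    BB n m - (1 + PowerSeries.X) ^ n ∈ QV n (n : ℚ) := by
  have hc : PowerSeries.constantCoeff
      (1 + PowerSeries.C (3 / 2) * PowerSeries.X : PowerSeries ℚ) ≠ 0 := by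
    simp
  have hV := PowerSeries.mul_inv_cancel
    (1 + PowerSeries.C (3 / 2) * PowerSeries.X : PowerSeries ℚ) hc
  have hrho : rho - 1 = PowerSeries.X ^ 1 *
      (1 + PowerSeries.C (3 / 2) * PowerSeries.X : PowerSeries ℚ)⁻¹ := by
    have h1 : rho = (1 + PowerSeries.C (5 / 2) * PowerSeries.X) *
        (1 + PowerSeries.C (3 / 2) * PowerSeries.X : PowerSeries ℚ)⁻¹ := by
      rw [← rhoV_mul, mul_assoc, hV, mul_one]
    have h2 : (1 + PowerSeries.C (5 / 2) * PowerSeries.X : PowerSeries ℚ) =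
        (1 + PowerSeries.C (3 / 2) * PowerSeries.X) + PowerSeries.X := by
      have : (PowerSeries.C (5 / 2) : PowerSeries ℚ) = PowerSeries.C (3 / 2) + 1 := by
        rw [← map_one (PowerSeries.C (R := ℚ)), ← map_add]
        norm_num
      rw [this]
      ring
    rw [h1, h2, add_mul, hV]
    ring
  have hsum : BB n m - (1 + PowerSeries.X) ^ n =
      ∑ r ∈ Finset.range m, BB n r * (PowerSeries.X ^ 1 *
        (1 + PowerSeries.C (3 / 2) * PowerSeries.X : PowerSeries ℚ)⁻¹) := by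
    rw [← hrho, ← Finset.sum_mul]
    have h1 : ∑ r ∈ Finset.range m, BB n r = (1 + PowerSeries.X) ^ n *
        ∑ r ∈ Finset.range m, rho ^ r := by
      rw [Finset.mul_sum]
      rfl
    rw [h1, mul_assoc, geom_sum_mul, BB]
    ring
  rw [hsum]
  refine AddSubmonoid.sum_mem _ fun r hr => QV_sub_aux n r ?_
  have := Finset.mem_range.mp hr
  omega

end Pool.Agent.Lib.MP_f52c03_co.BL
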